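import Pool.Agent.J6H16.RZ.Stm

/-! # RZ-B0 (helper85 for helper16) -/

set_option autoImplicit false

open MeasureTheory Set Real
open scoped ENNReal

namespace Pool.J6H16.RZ

theorem b0 : B0 := by
  intro r R hr hrR h
  obtain ⟨m, hm⟩ : ∃ m, m = (r ^ 2 + R ^ 2) / 2 := ⟨_, rfl⟩
  obtain ⟨κ, hκ⟩ : ∃ κ, κ = (R ^ 2 - r ^ 2) / 2 := ⟨_, rfl⟩
  have hR : 0 < R := hr.trans hrR
  have hsq : r ^ 2 < R ^ 2 := by nlinarith
  have hκ0 : 0 < κ := by rw [hκ]; linarith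
  have e1 : m - κ = r ^ 2 := by rw [hm, hκ]; ring
  have e2 : m + κ = R ^ 2 := by rw [hm, hκ]; ring
  rw [← hm, ← hκ]
  have hcos : ∀ θ ∈ Ioo (0 : ℝ) π, -1 < Real.cos θ ∧ Real.cos θ < 1 ∧ 0 < Real.sin θ := by
    intro θ hθ
    have h1 : 0 < Real.sin θ := Real.sin_pos_of_mem_Ioo hθ
    have h2 := Real.sin_sq_add_cos_sq θ
    refine ⟨?_, ?_, h1⟩
    · nlinarith [Real.neg_one_le_cos θ]
    · nlinarith [Real.cos_le_one θ]
  obtain ⟨f, hf⟩ : ∃ f : ℝ → ℝ, f = fun θ => Real.sqrt (m + κ * Real.cos θ) := ⟨_, rfl⟩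
  have hin : ∀ θ ∈ Ioo (0 : ℝ) π, r ^ 2 < m + κ * Real.cos θ ∧ m + κ * Real.cos θ < R ^ 2 := by
    intro θ hθ
    obtain ⟨h1, h2, _⟩ := hcos θ hθ
    constructor
    · nlinarith
    · nlinarith
  have hpos : ∀ θ ∈ Ioo (0 : ℝ) π, 0 < m + κ * Real.cos θ := fun θ hθ =>
    (by positivity : (0 : ℝ) < r ^ 2).trans (hin θ hθ).1
  have hfsq : ∀ θ ∈ Ioo (0 : ℝ) π, f θ ^ 2 = m + κ * Real.cos θ := by
    intro θ hθ
    rw [hf]
    exact Real.sq_sqrt (hpos θ hθ).le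
  have hf0 : ∀ θ ∈ Ioo (0 : ℝ) π, 0 < f θ := by
    intro θ hθ
    rw [hf]
    exact Real.sqrt_pos.2 (hpos θ hθ)
  have hderiv : ∀ θ ∈ Ioo (0 : ℝ) π, HasDerivWithinAt f (-(κ * Real.sin θ) / (2 * f θ)) (Ioo 0 π) θ := by
    intro θ hθ
    have h1 : HasDerivAt (fun t => m + κ * Real.cos t) (κ * -Real.sin θ) θ :=
      ((Real.hasDerivAt_cos θ).const_mul κ).const_add m
    have h2 := h1.sqrt (hpos θ hθ).ne'
    rw [hf]
    have e : -(κ * Real.sin θ) = κ * -Real.sin θ := by ring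
    rw [e]
    exact h2.hasDerivWithinAt
  have hinj : InjOn f (Ioo 0 π) := by
    intro a ha b hb hab
    have h1 : m + κ * Real.cos a = m + κ * Real.cos b := by
      rw [← hfsq a ha, ← hfsq b hb, hab]
    have h2 : Real.cos a = Real.cos b := by
      have : κ * Real.cos a = κ * Real.cos b := by linarith
      exact mul_left_cancel₀ hκ0.ne' this
    exact Real.injOn_cos ⟨ha.1.le, ha.2.le⟩ ⟨hb.1.le, hb.2.le⟩ h2
  have himg : f '' Ioo 0 π = Ioo r R := by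
    ext ρ
    constructor
    · rintro ⟨θ, hθ, rfl⟩
      obtain ⟨h1, h2⟩ := hin θ hθ
      rw [← hfsq θ hθ] at h1 h2
      exact ⟨lt_of_pow_lt_pow_left₀ 2 (hf0 θ hθ).le h1, lt_of_pow_lt_pow_left₀ 2 hR.le h2⟩
    · rintro ⟨h1, h2⟩
      have hρ : 0 < ρ := hr.trans h1
      obtain ⟨c0, hc0⟩ : ∃ c0, c0 = (ρ ^ 2 - m) / κ := ⟨_, rfl⟩
      have h3 : κ * c0 = ρ ^ 2 - m := by rw [hc0]; field_simp
      have h4 : -1 < c0 := by
        rw [hc0, lt_div_iff₀ hκ0]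
        nlinarith
      have h5 : c0 < 1 := by
        rw [hc0, div_lt_iff₀ hκ0]
        nlinarith
      have h6 : Real.cos (Real.arccos c0) = c0 := Real.cos_arccos h4.le h5.le
      refine ⟨Real.arccos c0, ⟨Real.arccos_pos.2 h5, ?_⟩, ?_⟩
      · refine lt_of_le_of_ne (Real.arccos_le_pi c0) ?_
        intro h7
        rw [h7, Real.cos_pi] at h6
        linarith
      · rw [hf]
        show Real.sqrt (m + κ * Real.cos (Real.arccos c0)) = ρ
        rw [h6, h3]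
        have : m + (ρ ^ 2 - m) = ρ ^ 2 := by ring
        rw [this]
        exact Real.sqrt_sq hρ.le
  have hcongr : ∀ θ ∈ Ioo (0 : ℝ) π, |-(κ * Real.sin θ) / (2 * f θ)| • (h (f θ ^ 2) * (2 * f θ / w r R (f θ))) =
      h (m + κ * Real.cos θ) := by
    intro θ hθ
    obtain ⟨_, _, h3⟩ := hcos θ hθ
    have h4 := hf0 θ hθ
    have h5 : w r R (f θ) = κ * Real.sin θ := by
      unfold w
      rw [hfsq θ hθ, ← e1, ← e2]
      have h6 : (m + κ * Real.cos θ - (m - κ)) * (m + κ - (m + κ * Real.cos θ)) = (κ * Real.sin θ) ^ 2 := by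
        have := Real.sin_sq_add_cos_sq θ
        have h7 : Real.sin θ ^ 2 = 1 - Real.cos θ ^ 2 := by linarith
        rw [mul_pow, h7]
        ring
      rw [h6]
      exact Real.sqrt_sq (by positivity)
    have h8 : |-(κ * Real.sin θ) / (2 * f θ)| = κ * Real.sin θ / (2 * f θ) := by
      rw [neg_div, abs_neg, abs_of_pos (by positivity)]
    rw [h8, h5, hfsq θ hθ, smul_eq_mul]
    field_simp
  constructor
  · rw [← himg, integrableOn_image_iff_integrableOn_abs_deriv_smul measurableSet_Ioo hderiv hinj]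
    exact integrableOn_congr_fun hcongr measurableSet_Ioo
  · rw [← himg, integral_image_eq_integral_abs_deriv_smul measurableSet_Ioo hderiv hinj]
    exact setIntegral_congr_fun measurableSet_Ioo hcongr

end Pool.J6H16.RZ
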