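import Pool.Agent.J6H16.RZ.Stm

/-!
Project RZ, module B1 (helper61): total mass and first moment of the arcsine density.
-/

open MeasureTheory Set Real

namespace Pool.J6H16.RZ

theorem b1 (h0 : B0) : B1 := by
  intro r R hr hR
  have h1 := h0 r R hr hR (fun _ => 1)
  have h2 := h0 r R hr hR (fun u => u)
  simp only [one_mul] at h1
  have hv : volume (Ioo (0 : ℝ) π) ≠ ⊤ := by
    rw [Real.volume_Ioo]
    exact ENNReal.ofReal_ne_top
  have hcont : IntegrableOn (fun θ : ℝ => (r ^ 2 + R ^ 2) / 2 + (R ^ 2 - r ^ 2) / 2 * Real.cos θ)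
      (Ioo 0 π) := by
    have hc : Continuous (fun θ : ℝ => (r ^ 2 + R ^ 2) / 2 + (R ^ 2 - r ^ 2) / 2 * Real.cos θ) := by
      fun_prop
    exact (hc.continuousOn.integrableOn_Icc (a := 0) (b := π)).mono_set Ioo_subset_Icc_self
  refine ⟨h1.1.2 ?_, ?_, h2.1.2 hcont, ?_⟩
  · exact integrableOn_const hv
  · rw [h1.2]
    simp [Real.pi_pos.le]
  · rw [h2.2, ← integral_Ioc_eq_integral_Ioo, ← intervalIntegral.integral_of_le Real.pi_pos.le]
    rw [intervalIntegral.integral_add (by simp) ((Real.continuous_cos.intervalIntegrable _ _).const_mul _)]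
    rw [intervalIntegral.integral_const_mul, integral_cos]
    simp
    ring

end Pool.J6H16.RZ
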