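import Pool.Agent.J6H16.RZ.Stm

/-!
Project RZ (helper16), module B10: positive definiteness of the energy, with the case of equality.
-/

set_option autoImplicit false

open MeasureTheory Set Real
open scoped ENNReal

namespace Pool.J6H16.RZ

namespace B10

/-- the Gaussian kernel -/
noncomputable def G (t : ℝ) (x y : E3) : ℝ≥0∞ := ENNReal.ofReal (Real.exp (-t * ‖x - y‖ ^ 2))

/-- the Gaussian energy -/
noncomputable def I (μ ν : Measure E3) (t : ℝ) : ℝ≥0∞ := ∫⁻ x, ∫⁻ y, G t x y ∂ν ∂μ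

theorem meas_G : Measurable (fun q : (ℝ × E3) × E3 => G q.1.1 q.1.2 q.2) := by
  unfold G
  refine ENNReal.measurable_ofReal.comp ?_
  refine Continuous.measurable ?_
  fun_prop

theorem meas_inner (ν : Measure E3) [SFinite ν] :
    Measurable (fun q : ℝ × E3 => ∫⁻ y, G q.1 q.2 y ∂ν) :=
  Measurable.lintegral_prod_right' meas_G

theorem meas_I (μ ν : Measure E3) [SFinite μ] [SFinite ν] : Measurable (I μ ν) :=
  Measurable.lintegral_prod_right' (meas_inner ν)

theorem en_eq (h10a : B10a) (μ ν : Measure E3) [SFinite μ] [SFinite ν] :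
    en μ ν = ∫⁻ t in Ioi (0 : ℝ), I μ ν t := by
  have e1 : ∀ x : E3, (∫⁻ y, ker x y ∂ν) = ∫⁻ t in Ioi (0 : ℝ), ∫⁻ y, G t x y ∂ν := by
    intro x
    have e2 : (∫⁻ y, ker x y ∂ν) = ∫⁻ y, (∫⁻ t in Ioi (0 : ℝ), G t x y) ∂ν :=
      lintegral_congr fun y => h10a x y
    rw [e2, lintegral_lintegral_swap]
    refine Measurable.aemeasurable ?_
    exact meas_G.comp ((measurable_snd.prodMk measurable_const).prodMk measurable_fst)
  unfold en I
  simp_rw [e1]
  rw [lintegral_lintegral_swap]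
  refine Measurable.aemeasurable ?_
  exact (meas_inner ν).comp (measurable_snd.prodMk measurable_fst)

theorem gp_meas (t : ℝ) (μ : Measure E3) [SFinite μ] : Measurable (gp t μ) := by
  unfold gp
  refine Measurable.lintegral_prod_right'
    (f := fun q : E3 × E3 => ENNReal.ofReal (Real.exp (-(2 * t) * ‖q.2 - q.1‖ ^ 2))) ?_
  refine ENNReal.measurable_ofReal.comp ?_
  refine Continuous.measurable ?_
  fun_prop

theorem exp_le (t : ℝ) (ht : 0 < t) (x y : E3) : G t x y ≤ 1 := by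
  unfold G
  rw [← ENNReal.ofReal_one]
  refine ENNReal.ofReal_le_ofReal ?_
  rw [Real.exp_le_one_iff]
  have := sq_nonneg ‖x - y‖
  nlinarith

theorem gp_le (t : ℝ) (ht : 0 < t) (μ : Measure E3) [IsProbabilityMeasure μ] (z : E3) :
    gp t μ z ≤ 1 := by
  unfold gp
  calc ∫⁻ x, ENNReal.ofReal (Real.exp (-(2 * t) * ‖x - z‖ ^ 2)) ∂μ ≤ ∫⁻ _, 1 ∂μ :=
        lintegral_mono fun x => exp_le (2 * t) (by linarith) x z
    _ = 1 := by simp

theorem I_le (t : ℝ) (ht : 0 < t) (μ ν : Measure E3) [IsProbabilityMeasure μ]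
    [IsProbabilityMeasure ν] : I μ ν t ≤ 1 := by
  unfold I
  calc ∫⁻ x, ∫⁻ y, G t x y ∂ν ∂μ ≤ ∫⁻ _, ∫⁻ _, 1 ∂ν ∂μ :=
        lintegral_mono fun x => lintegral_mono fun y => exp_le t ht x y
    _ = 1 := by simp

theorem meas_G2 (t : ℝ) : Measurable (fun q : E3 × E3 => G t q.1 q.2) := by
  unfold G
  refine ENNReal.measurable_ofReal.comp ?_
  refine Continuous.measurable ?_
  fun_prop

theorem meas_G2' (t : ℝ) : Measurable (fun q : E3 × E3 => G t q.2 q.1) := by
  unfold G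
  refine ENNReal.measurable_ofReal.comp ?_
  refine Continuous.measurable ?_
  fun_prop

theorem meas_Gl (t : ℝ) (z : E3) : Measurable (fun x : E3 => G t x z) := by
  unfold G
  refine ENNReal.measurable_ofReal.comp ?_
  refine Continuous.measurable ?_
  fun_prop

theorem meas_Gr (t : ℝ) (x : E3) : Measurable (fun z : E3 => G t x z) := by
  unfold G
  refine ENNReal.measurable_ofReal.comp ?_
  refine Continuous.measurable ?_
  fun_prop

theorem meas_inner2 (t : ℝ) (ν : Measure E3) [SFinite ν] :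
    Measurable (fun x : E3 => ∫⁻ y, G t x y ∂ν) :=
  Measurable.lintegral_prod_right' (meas_G2 t)

theorem gp_eq (t : ℝ) (μ : Measure E3) (z : E3) : gp t μ z = ∫⁻ x, G (2 * t) x z ∂μ := rfl

theorem K_mul1 (t : ℝ) (K : ℝ≥0∞) (hK : ∀ x y : E3,
    (∫⁻ z : E3, G (2 * t) x z * G (2 * t) y z) = K * G t x y) (ν : Measure E3)
    [SFinite ν] (x : E3) :
    ∫⁻ z, G (2 * t) x z * gp t ν z = K * ∫⁻ y, G t x y ∂ν := by
  have e2 : ∀ z, G (2 * t) x z * gp t ν z =
      ∫⁻ y, G (2 * t) x z * G (2 * t) y z ∂ν := by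
    intro z
    rw [lintegral_const_mul _ (meas_Gl (2 * t) z), gp_eq]
  have e3 : ∫⁻ z, G (2 * t) x z * gp t ν z =
      ∫⁻ z, ∫⁻ y, G (2 * t) x z * G (2 * t) y z ∂ν := lintegral_congr e2
  have hm : Measurable (fun q : E3 × E3 => G (2 * t) x q.1 * G (2 * t) q.2 q.1) :=
    ((meas_Gr (2 * t) x).comp measurable_fst).mul (meas_G2' (2 * t))
  have e4 : ∫⁻ z, ∫⁻ y, G (2 * t) x z * G (2 * t) y z ∂ν =
      ∫⁻ y, ∫⁻ z, G (2 * t) x z * G (2 * t) y z ∂(volume : Measure E3) ∂ν :=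
    lintegral_lintegral_swap (f := fun z y => G (2 * t) x z * G (2 * t) y z) hm.aemeasurable
  rw [e3, e4, ← lintegral_const_mul _ (meas_Gr t x)]
  exact lintegral_congr fun y => hK x y

theorem K_mul (t : ℝ) (K : ℝ≥0∞) (hK : ∀ x y : E3,
    (∫⁻ z : E3, G (2 * t) x z * G (2 * t) y z) = K * G t x y) (μ ν : Measure E3)
    [SFinite μ] [SFinite ν] :
    ∫⁻ z, gp t μ z * gp t ν z = K * I μ ν t := by
  have e1 : ∀ z, gp t μ z * gp t ν z = ∫⁻ x, G (2 * t) x z * gp t ν z ∂μ := by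
    intro z
    rw [lintegral_mul_const _ (meas_Gl (2 * t) z), gp_eq t μ]
  have e3 : ∫⁻ z, gp t μ z * gp t ν z = ∫⁻ z, ∫⁻ x, G (2 * t) x z * gp t ν z ∂μ :=
    lintegral_congr e1
  have hm : Measurable (fun q : E3 × E3 => G (2 * t) q.2 q.1 * gp t ν q.1) :=
    (meas_G2' (2 * t)).mul ((gp_meas t ν).comp measurable_fst)
  have e4 : ∫⁻ z, ∫⁻ x, G (2 * t) x z * gp t ν z ∂μ =
      ∫⁻ x, ∫⁻ z, G (2 * t) x z * gp t ν z ∂(volume : Measure E3) ∂μ :=
    lintegral_lintegral_swap (f := fun z x => G (2 * t) x z * gp t ν z) hm.aemeasurable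
  rw [e3, e4]
  unfold I
  rw [← lintegral_const_mul _ (meas_inner2 t ν)]
  exact lintegral_congr fun x => K_mul1 t K hK ν x

theorem gp_mul_meas (t : ℝ) (μ ν : Measure E3) [SFinite μ] [SFinite ν] :
    Measurable (fun z => gp t μ z * gp t ν z) := (gp_meas t μ).mul (gp_meas t ν)

theorem two_mul_le (a b : ℝ≥0∞) : 2 * (a * b) ≤ a * a + b * b := by
  rcases eq_or_ne a ⊤ with rfl | ha
  · simp
  rcases eq_or_ne b ⊤ with rfl | hb
  · simp
  lift a to NNReal using ha
  lift b to NNReal using hb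
  have h : 2 * (a * b) ≤ a * a + b * b := by
    rw [← NNReal.coe_le_coe]
    push_cast
    nlinarith [sq_nonneg ((a : ℝ) - b)]
  exact_mod_cast h

theorem eq_of_two_mul (a b : ℝ≥0∞) (ha : a ≠ ⊤) (hb : b ≠ ⊤) (h : 2 * (a * b) = a * a + b * b) :
    a = b := by
  lift a to NNReal using ha
  lift b to NNReal using hb
  have h1 : 2 * (a * b) = a * a + b * b := by exact_mod_cast h
  have h2 : (2 : ℝ) * (a * b) = a * a + b * b := by exact_mod_cast h1
  have h3 : ((a : ℝ) - b) ^ 2 = 0 := by nlinarith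
  have h4 : (a : ℝ) = b := by
    have := pow_eq_zero_iff (n := 2) (by norm_num) |>.1 h3
    linarith
  have h5 : a = b := by exact_mod_cast h4
  rw [h5]

end B10

open B10 in
theorem b10 (h10a : B10a) (h10b : B10b) (h11a : B11a) : B10 := by
  intro μ ν hμ hν
  have key : ∀ t : ℝ, 0 < t → 2 * I μ ν t ≤ I μ μ t + I ν ν t := by
    intro t ht
    obtain ⟨K, hK0, hK1, hK⟩ := h10b t ht
    have e1 := K_mul t K hK μ ν
    have e2 := K_mul t K hK μ μ
    have e3 := K_mul t K hK ν ν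
    have h1 : ∫⁻ z, 2 * (gp t μ z * gp t ν z) ≤
        ∫⁻ z, (gp t μ z * gp t μ z + gp t ν z * gp t ν z) :=
      lintegral_mono fun z => two_mul_le _ _
    rw [lintegral_const_mul _ (gp_mul_meas t μ ν),
      lintegral_add_left (gp_mul_meas t μ μ), e1, e2, e3, ← mul_add,
      mul_left_comm] at h1
    exact (ENNReal.mul_le_mul_iff_right hK0 hK1).1 h1
  have hle : ∀ᵐ t ∂(volume.restrict (Ioi (0 : ℝ))), 2 * I μ ν t ≤ I μ μ t + I ν ν t := by
    filter_upwards [ae_restrict_mem measurableSet_Ioi] with t ht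
    exact key t ht
  have e1 : 2 * en μ ν = ∫⁻ t in Ioi (0 : ℝ), 2 * I μ ν t := by
    rw [en_eq h10a, lintegral_const_mul _ (meas_I μ ν)]
  have e2 : en μ μ + en ν ν = ∫⁻ t in Ioi (0 : ℝ), (I μ μ t + I ν ν t) := by
    rw [en_eq h10a, en_eq h10a, lintegral_add_left (meas_I μ μ)]
  refine ⟨?_, fun hfin heq => ?_⟩
  · rw [e1, e2]
    exact lintegral_mono_ae hle
  · have h1 : (fun t => 2 * I μ ν t) =ᵐ[volume.restrict (Ioi (0 : ℝ))]
        fun t => I μ μ t + I ν ν t := by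
      refine ae_eq_of_ae_le_of_lintegral_le hle ?_ ?_ ?_
      · rw [← e1, heq]
        exact hfin
      · exact ((meas_I μ μ).add (meas_I ν ν)).aemeasurable
      · rw [← e1, ← e2, heq]
    have h2 : ∀ᵐ t ∂(volume.restrict (Ioi (0 : ℝ))), 0 < t ∧ 2 * I μ ν t = I μ μ t + I ν ν t := by
      filter_upwards [ae_restrict_mem measurableSet_Ioi, h1] with t ht h3
      exact ⟨ht, h3⟩
    have hne : (ae (volume.restrict (Ioi (0 : ℝ)))).NeBot := by
      rw [ae_neBot, Ne, Measure.restrict_eq_zero]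
      simp
    obtain ⟨t, ht, h3⟩ := h2.exists
    obtain ⟨K, hK0, hK1, hK⟩ := h10b t ht
    have f1 := K_mul t K hK μ ν
    have f2 := K_mul t K hK μ μ
    have f3 := K_mul t K hK ν ν
    refine h11a t ht μ ν hμ hν ?_
    have h4 : (fun z => 2 * (gp t μ z * gp t ν z)) =ᵐ[volume]
        fun z => gp t μ z * gp t μ z + gp t ν z * gp t ν z := by
      refine ae_eq_of_ae_le_of_lintegral_le (Filter.Eventually.of_forall fun z => two_mul_le _ _)
        ?_ ?_ ?_
      · rw [lintegral_const_mul _ (gp_mul_meas t μ ν), f1]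
        refine ENNReal.mul_ne_top (by norm_num) (ENNReal.mul_ne_top hK1 ?_)
        exact ne_top_of_le_ne_top ENNReal.one_ne_top (I_le t ht μ ν)
      · exact ((gp_mul_meas t μ μ).add (gp_mul_meas t ν ν)).aemeasurable
      · rw [lintegral_const_mul _ (gp_mul_meas t μ ν),
          lintegral_add_left (gp_mul_meas t μ μ), f1, f2, f3, ← mul_add,
          mul_left_comm, h3]
    filter_upwards [h4] with z hz
    exact eq_of_two_mul _ _ (ne_top_of_le_ne_top ENNReal.one_ne_top (gp_le t ht μ z))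
      (ne_top_of_le_ne_top ENNReal.one_ne_top (gp_le t ht ν z)) hz

end Pool.J6H16.RZ
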