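import Pool.Agent.J6H16.RZ.Stm

/-!
# RZ-B10a: the kernel as an integral of Gaussians
-/

set_option autoImplicit false

open MeasureTheory Set Real
open scoped ENNReal

namespace Pool.J6H16.RZ

theorem b10a : B10a := by
  intro x y
  unfold ker
  obtain ⟨s, hs⟩ : ∃ s, s = ‖x - y‖ ^ 2 := ⟨_, rfl⟩
  have hs0 : 0 ≤ s := by rw [hs]; positivity
  rw [← hs]
  rcases hs0.eq_or_lt with h | h
  · rw [← h]
    simp
  · have hneg : -s < 0 := by linarith
    have hint : IntegrableOn (fun t : ℝ => Real.exp (-s * t)) (Ioi 0) :=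
      integrableOn_exp_mul_Ioi hneg 0
    have hval : ∫ t in Ioi (0 : ℝ), Real.exp (-s * t) = s⁻¹ := by
      rw [integral_exp_mul_Ioi hneg 0]
      simp
    have h1 : (fun t : ℝ => ENNReal.ofReal (Real.exp (-t * s))) =
        fun t => ENNReal.ofReal (Real.exp (-s * t)) := by
      funext t
      congr 2
      ring
    rw [h1, ← ofReal_integral_eq_lintegral_ofReal hint
      (Filter.Eventually.of_forall fun t => (Real.exp_pos _).le), hval, ENNReal.ofReal_inv_of_pos h]

end Pool.J6H16.RZ
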