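import Pool.Agent.J6H16.RZ.Stm

/-!
# RZ-B10b: the product of two Gaussians
-/

set_option autoImplicit false

open MeasureTheory Set Real
open scoped ENNReal

namespace Pool.J6H16.RZ

private theorem b10b_par (x y z : E3) :
    ‖x - z‖ ^ 2 + ‖y - z‖ ^ 2 = 2 * ‖z - (1 / 2 : ℝ) • (x + y)‖ ^ 2 + ‖x - y‖ ^ 2 / 2 := by
  have h := parallelogram_law_with_norm ℝ (x - z) (y - z)
  have e1 : x - z + (y - z) = (-2 : ℝ) • (z - (1 / 2 : ℝ) • (x + y)) := by
    module
  have e2 : x - z - (y - z) = x - y := by abel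
  rw [e1, e2, norm_smul] at h
  have h2 : ‖(-2 : ℝ)‖ = 2 := by norm_num
  rw [h2] at h
  nlinarith [h]

theorem b10b : B10b := by
  intro t ht
  have hint : Integrable (fun v : E3 => Real.exp (-(4 * t) * ‖v‖ ^ 2)) := by
    have h := GaussianFourier.integrable_cexp_neg_mul_sq_norm_add (V := E3) (b := ((4 * t : ℝ) : ℂ))
      (by simpa using ht) 0 0
    have h2 := h.norm
    refine h2.congr (Filter.Eventually.of_forall fun v => ?_)
    simp only [Complex.norm_exp]
    congr 1
    simp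
    norm_cast
    exact Or.inl rfl
  refine ⟨∫⁻ v : E3, ENNReal.ofReal (Real.exp (-(4 * t) * ‖v‖ ^ 2)), ?_, ?_, fun x y => ?_⟩
  · have hpos : ∀ v : E3, ENNReal.ofReal (Real.exp (-(4 * t) * ‖v‖ ^ 2)) ≠ 0 := fun v => by
      simpa using Real.exp_pos _
    have hm : Measurable (fun v : E3 => ENNReal.ofReal (Real.exp (-(4 * t) * ‖v‖ ^ 2))) := by
      fun_prop
    intro h0
    rw [lintegral_eq_zero_iff hm] at h0
    have h1 : ∀ᵐ v : E3, False := h0.mono fun v hv => hpos v hv
    have h2 : (volume : Measure E3) = 0 := by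
      rw [Filter.eventually_false_iff_eq_bot, ae_eq_bot] at h1
      exact h1
    have h3 : (volume : Measure E3) ≠ 0 := NeZero.ne _
    exact h3 h2
  · exact hint.lintegral_lt_top.ne
  · have key : ∀ z : E3,
        ENNReal.ofReal (Real.exp (-(2 * t) * ‖x - z‖ ^ 2)) *
          ENNReal.ofReal (Real.exp (-(2 * t) * ‖y - z‖ ^ 2)) =
        ENNReal.ofReal (Real.exp (-(4 * t) * ‖z - (1 / 2 : ℝ) • (x + y)‖ ^ 2)) *
          ENNReal.ofReal (Real.exp (-t * ‖x - y‖ ^ 2)) := fun z => by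
      rw [← ENNReal.ofReal_mul (Real.exp_pos _).le, ← ENNReal.ofReal_mul (Real.exp_pos _).le,
        ← Real.exp_add, ← Real.exp_add]
      congr 2
      have := b10b_par x y z
      linear_combination (-(2 * t)) * this
    simp_rw [key]
    rw [lintegral_mul_const' _ _ ENNReal.ofReal_ne_top]
    congr 1
    exact lintegral_sub_right_eq_self
      (fun v : E3 => ENNReal.ofReal (Real.exp (-(4 * t) * ‖v‖ ^ 2))) ((1 / 2 : ℝ) • (x + y))

end Pool.J6H16.RZ
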