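import Pool.Agent.J6H16.RZ.Stm

/-!
Project RZ: total mass one.
-/

open MeasureTheory Set Real
open scoped ENNReal

namespace Pool.J6H16.RZ

private theorem meas_w (r R : ℝ) : Measurable (w r R) := by
  unfold w
  fun_prop

private theorem meas_dens (r R : ℝ) : Measurable (dens r R) := by
  unfold dens
  refine Measurable.ite ?_ ?_ measurable_const
  · exact measurableSet_Ioo (a := r) (b := R)
  · have := meas_w r R
    fun_prop

private theorem dens_in {r R ρ : ℝ} (h1 : r < ρ) (h2 : ρ < R) : dens r R ρ =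
    (ρ ^ 2 - asq r R) / (π ^ 2 * (r ^ 2 + R ^ 2 - 2 * asq r R) * (ρ * w r R ρ)) := by
  unfold dens
  rw [if_pos ⟨h1, h2⟩]

private theorem dens_out {r R ρ : ℝ} (h : ¬ (r < ρ ∧ ρ < R)) : dens r R ρ = 0 := by
  unfold dens
  rw [if_neg h]

private theorem w_pos {r R ρ : ℝ} (hr : 0 < r) (h1 : r < ρ) (h2 : ρ < R) : 0 < w r R ρ := by
  unfold w
  apply Real.sqrt_pos.mpr
  apply mul_pos <;> nlinarith

theorem b12 (h1 : B1) (h7 : B7) (h9 : B9) : B12 := by
  intro r R hr hR
  obtain ⟨i1, e1, i2, e2⟩ := h1 r R hr hR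
  obtain ⟨-, -, ha0, ha1⟩ := h7 r R hr hR
  set a := asq r R with ha
  have hD : 0 < r ^ 2 + R ^ 2 - 2 * a := by nlinarith
  have hm : Measurable (fun ρ => ENNReal.ofReal (dens r R ρ)) := (meas_dens r R).ennreal_ofReal
  constructor
  · constructor
    unfold eqm
    rw [withDensity_apply _ MeasurableSet.univ, Measure.restrict_univ, h9 _ hm]
    have key : ∀ ρ ∈ Ioo r R, dens r R ρ * (4 * π * ρ ^ 2) =
        2 / (π * (r ^ 2 + R ^ 2 - 2 * a)) * (ρ ^ 2 * (2 * ρ / w r R ρ) - a * (2 * ρ / w r R ρ)) := by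
      intro ρ hρ
      rw [dens_in hρ.1 hρ.2, ← ha]
      have hw := w_pos hr hρ.1 hρ.2
      have hρ0 : 0 < ρ := hr.trans hρ.1
      have hπ := Real.pi_pos
      field_simp
      ring
    have hI : IntegrableOn (fun ρ => 2 / (π * (r ^ 2 + R ^ 2 - 2 * a)) *
        (ρ ^ 2 * (2 * ρ / w r R ρ) - a * (2 * ρ / w r R ρ))) (Ioo r R) :=
      (i2.sub (i1.const_mul a)).const_mul _
    have e3 : ∫⁻ ρ in Ioi (0 : ℝ), ENNReal.ofReal (dens r R ρ) * ENNReal.ofReal (4 * π * ρ ^ 2) =
        ∫⁻ ρ in Ioo r R, ENNReal.ofReal (2 / (π * (r ^ 2 + R ^ 2 - 2 * a)) *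
        (ρ ^ 2 * (2 * ρ / w r R ρ) - a * (2 * ρ / w r R ρ))) := by
      have hsub : Ioo r R ⊆ Ioi (0 : ℝ) := fun x hx => hr.trans hx.1
      rw [← lintegral_indicator measurableSet_Ioi, ← lintegral_indicator measurableSet_Ioo]
      apply lintegral_congr
      intro ρ
      by_cases hρ : ρ ∈ Ioo r R
      · rw [indicator_of_mem (hsub hρ), indicator_of_mem hρ, ← key ρ hρ,
          ENNReal.ofReal_mul' (p := dens r R ρ) (q := 4 * π * ρ ^ 2) (by positivity)]
      · rw [indicator_of_notMem hρ]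
        by_cases h0 : ρ ∈ Ioi (0 : ℝ)
        · rw [indicator_of_mem h0, dens_out hρ]
          simp
        · rw [indicator_of_notMem h0]
    rw [e3, ← ofReal_integral_eq_lintegral_ofReal hI]
    · rw [integral_const_mul, integral_sub i2 (i1.const_mul a), integral_const_mul, e1, e2]
      have hπ := Real.pi_pos
      rw [show 2 / (π * (r ^ 2 + R ^ 2 - 2 * a)) * (π * ((r ^ 2 + R ^ 2) / 2) - a * π) = 1 by
        field_simp]
      exact ENNReal.ofReal_one
    · refine (ae_restrict_iff' measurableSet_Ioo).mpr (Filter.Eventually.of_forall fun ρ hρ => ?_)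
      have hw := w_pos hr hρ.1 hρ.2
      have hρ0 : 0 < ρ := hr.trans hρ.1
      have hπ := Real.pi_pos
      have h3 : 0 < ρ ^ 2 - a := by nlinarith [hρ.1]
      show (0 : ℝ) ≤ 2 / (π * (r ^ 2 + R ^ 2 - 2 * a)) *
        (ρ ^ 2 * (2 * ρ / w r R ρ) - a * (2 * ρ / w r R ρ))
      rw [← sub_mul]
      positivity
  · have hms : MeasurableSet ({x : E3 | r ≤ ‖x‖ ∧ ‖x‖ ≤ R}ᶜ) := by
      apply MeasurableSet.compl
      exact (measurableSet_le measurable_const measurable_norm).inter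
        (measurableSet_le measurable_norm measurable_const)
    unfold eqm
    rw [withDensity_apply _ hms]
    rw [setLIntegral_congr_fun hms (g := fun _ => 0)]
    · simp
    · intro x hx
      show ENNReal.ofReal (dens r R ‖x‖) = 0
      rw [dens_out, ENNReal.ofReal_zero]
      intro h
      exact hx ⟨h.1.le, h.2.le⟩

end Pool.J6H16.RZ
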