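import Pool.Agent.J6H16.RZ.Stm

set_option autoImplicit false

/-!
Module B13 of project RZ (helper20): constant potential
-/

open MeasureTheory Set Real
open scoped ENNReal

namespace Pool.J6H16.RZ

private theorem b13_log_nonneg {X ρ : ℝ} (hX : 0 < X) (hρ : 0 < ρ) :
    0 ≤ Real.log ((X + ρ) / |X - ρ|) := by
  rcases eq_or_ne X ρ with h | h
  · rw [h, sub_self, abs_zero, div_zero, Real.log_zero]
  · have h1 : 0 < |X - ρ| := abs_pos.2 (sub_ne_zero.2 h)
    refine Real.log_nonneg ?_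
    rw [le_div_iff₀ h1, one_mul, abs_le]
    constructor <;> linarith

theorem b13 (h1 : B1) (h5 : B5) (h6 : B6) (h7 : B7) (h8 : B8) : B13 := by
  intro r R hr hrR x hx1 hx2
  obtain ⟨hint7, hzero, ha0, har⟩ := h7 r R hr hrR
  obtain ⟨a, ha⟩ : ∃ a, a = asq r R := ⟨_, rfl⟩
  obtain ⟨X, hXdef⟩ : ∃ X, X = ‖x‖ := ⟨_, rfl⟩
  rw [← ha] at hzero ha0 har
  rw [← hXdef] at hx1 hx2
  have hX : 0 < X := by linarith
  have hx0 : x ≠ 0 := by
    intro h
    rw [h, norm_zero] at hXdef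
    linarith
  have hrR2 : r ^ 2 < R ^ 2 := by nlinarith
  have hD : 0 < r ^ 2 + R ^ 2 - 2 * a := by linarith
  have hwm : Measurable (w r R) := by unfold w; fun_prop
  have hdm : Measurable (dens r R) := by
    unfold dens
    exact Measurable.ite (measurableSet_Ioo (a := r) (b := R)) (by fun_prop) measurable_const
  have hkm : Measurable (ker x) := by unfold ker; fun_prop
  have hfm : Measurable (fun ρ : ℝ => ENNReal.ofReal (dens r R ρ)) := hdm.ennreal_ofReal
  have hfm' : Measurable (fun y : E3 => ENNReal.ofReal (dens r R ‖y‖)) := hfm.comp measurable_norm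
  have e1 : (∫⁻ y, ker x y ∂(eqm r R)) = ∫⁻ y : E3, ENNReal.ofReal (dens r R ‖y‖) * ker x y := by
    unfold eqm
    rw [lintegral_withDensity_eq_lintegral_mul _ hfm' hkm]
    rfl
  rw [e1, h8 (fun ρ => ENNReal.ofReal (dens r R ρ)) hfm x hx0, ← hXdef]
  obtain ⟨hi5, he5⟩ := h5 r R a X hr hrR hx1 hx2
  have he6 := h6 r R a hr hrR har.le hint7
  rw [hzero, mul_zero, add_zero] at he6
  rw [he6] at he5
  have hI : (∫ ρ in Ioo r R, (ρ ^ 2 - a) / w r R ρ * Real.log ((X + ρ) / |X - ρ|)) = π * X := by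
    rw [he5]
    ring
  obtain ⟨C, hC⟩ : ∃ C : ℝ, C = 2 / (π * (r ^ 2 + R ^ 2 - 2 * a) * X) := ⟨_, rfl⟩
  have hC0 : 0 ≤ C := by
    rw [hC]
    have := Real.pi_pos
    positivity
  have hind : ∀ ρ : ℝ, ENNReal.ofReal (dens r R ρ) *
      ENNReal.ofReal (2 * π * ρ / X * Real.log ((X + ρ) / |X - ρ|)) =
      (Ioo r R).indicator (fun ρ => ENNReal.ofReal
        (C * ((ρ ^ 2 - a) / w r R ρ * Real.log ((X + ρ) / |X - ρ|)))) ρ := by
    intro ρ
    by_cases hρ : ρ ∈ Ioo r R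
    · rw [indicator_of_mem hρ]
      obtain ⟨h9, h10⟩ := hρ
      have hρ0 : 0 < ρ := by linarith
      have hw : 0 < w r R ρ := by
        unfold w
        refine Real.sqrt_pos.2 (mul_pos ?_ ?_) <;> nlinarith
      have hdens : dens r R ρ = (ρ ^ 2 - a) / (π ^ 2 * (r ^ 2 + R ^ 2 - 2 * a) * (ρ * w r R ρ)) := by
        unfold dens
        rw [if_pos ⟨h9, h10⟩, ha]
      have hnum : 0 ≤ ρ ^ 2 - a := by nlinarith
      have hd0 : 0 ≤ dens r R ρ := by
        rw [hdens]
        have := Real.pi_pos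
        positivity
      rw [← ENNReal.ofReal_mul hd0, hdens, hC]
      congr 1
      have hpi : π ≠ 0 := Real.pi_pos.ne'
      field_simp
    · rw [indicator_of_notMem hρ]
      have hdens : dens r R ρ = 0 := by
        unfold dens
        exact if_neg hρ
      rw [hdens, ENNReal.ofReal_zero, zero_mul]
  simp only [hind]
  have hsub : Ioo r R ⊆ Ioi (0 : ℝ) := fun ρ hρ => lt_trans hr hρ.1
  rw [setLIntegral_indicator measurableSet_Ioo, inter_eq_left.2 hsub,
    ← ofReal_integral_eq_lintegral_ofReal (hi5.const_mul C)]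
  · rw [integral_const_mul, hI, hC]
    congr 1
    have hpi : π ≠ 0 := Real.pi_pos.ne'
    rw [← ha]
    field_simp
  · refine (ae_restrict_iff' measurableSet_Ioo).2 (ae_of_all _ fun ρ hρ => ?_)
    have hρ0 : 0 < ρ := lt_trans hr hρ.1
    have hnum : 0 ≤ ρ ^ 2 - a := by nlinarith [hρ.1]
    show 0 ≤ C * ((ρ ^ 2 - a) / w r R ρ * Real.log ((X + ρ) / |X - ρ|))
    have h11 : 0 ≤ w r R ρ := Real.sqrt_nonneg _
    exact mul_nonneg hC0 (mul_nonneg (div_nonneg hnum h11) (b13_log_nonneg hX hρ0))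

end Pool.J6H16.RZ
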