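import Pool.Agent.J6H16.RZ.Stm

set_option autoImplicit false

/-!
Module B2 of project RZ: the Stieltjes transform of the arcsine density.
-/

open MeasureTheory Set Real
open scoped ENNReal

namespace Pool.J6H16.RZ

private theorem b2_deriv (A κ s θ : ℝ) (hs0 : 0 < s) (hA : 0 < A) (hs : s ^ 2 = A ^ 2 - κ ^ 2)
    (hpos : 0 < A + κ * Real.cos θ) :
    HasDerivAt (fun t : ℝ => 1 / s * (t - 2 * Real.arctan (κ * Real.sin t / (A + s + κ * Real.cos t))))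
      ((A + κ * Real.cos θ)⁻¹) θ := by
  have hD : 0 < A + s + κ * Real.cos θ := by linarith
  have h1 : HasDerivAt (fun t : ℝ => κ * Real.sin t) (κ * Real.cos θ) θ :=
    (Real.hasDerivAt_sin θ).const_mul κ
  have h2 : HasDerivAt (fun t : ℝ => A + s + κ * Real.cos t) (κ * (-Real.sin θ)) θ :=
    ((Real.hasDerivAt_cos θ).const_mul κ).const_add (A + s)
  have h3 := (h1.div h2 hD.ne').arctan
  have h4 := ((hasDerivAt_id θ).sub (h3.const_mul 2)).const_mul (1 / s)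
  have hAs : 0 < A + s := by linarith
  have hct : Real.sin θ ^ 2 + Real.cos θ ^ 2 = 1 := Real.sin_sq_add_cos_sq θ
  refine HasDerivAt.congr_deriv h4 ?_
  set c0 := Real.cos θ with hc0
  set t0 := Real.sin θ with ht0
  have e1 : 1 / (1 + (κ * t0 / (A + s + κ * c0)) ^ 2) *
      ((κ * c0 * (A + s + κ * c0) - κ * t0 * (κ * -t0)) / (A + s + κ * c0) ^ 2) =
      (κ * c0 * (A + s + κ * c0) + κ ^ 2 * t0 ^ 2) / ((A + s + κ * c0) ^ 2 + κ ^ 2 * t0 ^ 2) := by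
    field_simp
    ring
  have e2 : (A + s + κ * c0) ^ 2 + κ ^ 2 * t0 ^ 2 = 2 * (A + s) * (A + κ * c0) := by
    linear_combination κ ^ 2 * hct + hs
  have e3 : κ * c0 * (A + s + κ * c0) + κ ^ 2 * t0 ^ 2 = (A + s) * (κ * c0) + κ ^ 2 := by
    linear_combination κ ^ 2 * hct
  have e4 : 1 / s * (1 - 2 * (((A + s) * (κ * c0) + κ ^ 2) / (2 * (A + s) * (A + κ * c0)))) =
      (A + κ * c0)⁻¹ := by
    field_simp
    linear_combination (-1 : ℝ) * hs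
  simp only [Pi.div_apply]
  rw [e1, e2, e3, e4]

private theorem b2_int (A κ : ℝ) (hκ : 0 < κ) (hA : κ < A) :
    (∫ θ in (0 : ℝ)..π, (A + κ * Real.cos θ)⁻¹) = π / Real.sqrt (A ^ 2 - κ ^ 2) := by
  have h0 : 0 < A ^ 2 - κ ^ 2 := by nlinarith
  set s := Real.sqrt (A ^ 2 - κ ^ 2) with hs
  have hs0 : 0 < s := Real.sqrt_pos.2 h0
  have hs2 : s ^ 2 = A ^ 2 - κ ^ 2 := Real.sq_sqrt h0.le
  have hpos : ∀ θ : ℝ, 0 < A + κ * Real.cos θ := fun θ => by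
    have := Real.neg_one_le_cos θ
    nlinarith
  have hint : IntervalIntegrable (fun θ : ℝ => (A + κ * Real.cos θ)⁻¹) volume 0 π := by
    apply Continuous.intervalIntegrable
    exact (by fun_prop : Continuous fun θ : ℝ => A + κ * Real.cos θ).inv₀ (fun θ => (hpos θ).ne')
  have h := intervalIntegral.integral_eq_sub_of_hasDerivAt
    (fun θ _ => b2_deriv A κ s θ hs0 (hκ.trans hA) hs2 (hpos θ)) hint
  rw [h]
  simp only [Real.sin_pi, Real.sin_zero, mul_zero, zero_div, Real.arctan_zero, sub_zero]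
  ring

theorem b2 (h0 : B0) : B2 := by
  intro r R y hr hrR hy hyr
  have hκ : 0 < (R ^ 2 - r ^ 2) / 2 := by nlinarith
  have hA : (R ^ 2 - r ^ 2) / 2 < (r ^ 2 + R ^ 2) / 2 - y ^ 2 := by nlinarith
  have hpos : ∀ θ : ℝ, 0 < (r ^ 2 + R ^ 2) / 2 - y ^ 2 + (R ^ 2 - r ^ 2) / 2 * Real.cos θ := fun θ => by
    have := Real.neg_one_le_cos θ
    nlinarith
  have hfun : (fun θ : ℝ => ((r ^ 2 + R ^ 2) / 2 + (R ^ 2 - r ^ 2) / 2 * Real.cos θ - y ^ 2)⁻¹) =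
      fun θ : ℝ => ((r ^ 2 + R ^ 2) / 2 - y ^ 2 + (R ^ 2 - r ^ 2) / 2 * Real.cos θ)⁻¹ := by
    funext θ
    congr 1
    ring
  have hcont : Continuous fun θ : ℝ => ((r ^ 2 + R ^ 2) / 2 - y ^ 2 + (R ^ 2 - r ^ 2) / 2 * Real.cos θ)⁻¹ :=
    (by fun_prop : Continuous fun θ : ℝ =>
      (r ^ 2 + R ^ 2) / 2 - y ^ 2 + (R ^ 2 - r ^ 2) / 2 * Real.cos θ).inv₀ (fun θ => (hpos θ).ne')
  obtain ⟨h1, h2⟩ := h0 r R hr hrR (fun u => (u - y ^ 2)⁻¹)
  refine ⟨?_, ?_⟩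
  · refine h1.2 ?_
    show IntegrableOn (fun θ : ℝ => ((r ^ 2 + R ^ 2) / 2 + (R ^ 2 - r ^ 2) / 2 * Real.cos θ - y ^ 2)⁻¹)
      (Ioo 0 π)
    rw [hfun]
    exact (hcont.continuousOn.integrableOn_compact isCompact_Icc).mono_set Ioo_subset_Icc_self
  · refine h2.trans ?_
    have h3 : (∫ θ in Ioo 0 π, ((r ^ 2 + R ^ 2) / 2 + (R ^ 2 - r ^ 2) / 2 * Real.cos θ - y ^ 2)⁻¹) =
        π / Real.sqrt ((r ^ 2 - y ^ 2) * (R ^ 2 - y ^ 2)) := by
      rw [hfun, ← integral_Ioc_eq_integral_Ioo, ← intervalIntegral.integral_of_le Real.pi_pos.le,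
        b2_int _ _ hκ hA]
      congr 2
      ring
    exact h3

end Pool.J6H16.RZ
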