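import Pool.Agent.J6H16.RZ.Stm

/-!
# RZ-B3: the logarithmic potential of the arcsine density is constant
-/

open MeasureTheory Set Real

namespace Pool.J6H16.RZ

private noncomputable def lsn (u : ℝ) : ℝ := Real.log (Real.sin u)

private lemma lsn_ii (a b : ℝ) : IntervalIntegrable lsn volume a b := intervalIntegrable_log_sin

private lemma lsn_neg (u : ℝ) : lsn (-u) = lsn u := by
  unfold lsn
  rw [Real.sin_neg, Real.log_neg_eq_log]

private lemma lsn_per : Function.Periodic lsn π := by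
  intro u
  unfold lsn
  rw [Real.sin_add_pi, Real.log_neg_eq_log]

private lemma lsn_comp_ii (d : ℝ) :
    IntervalIntegrable (fun x => lsn (1 / 2 * x + d)) volume 0 π := by
  have h1 := ((lsn_ii (d) (π / 2 + d)).comp_add_right d).comp_mul_left (c := 1 / 2)
  have e1 : (d - d) / (1 / 2) = (0 : ℝ) := by ring
  have e2 : (π / 2 + d - d) / (1 / 2) = π := by ring
  rw [e1, e2] at h1
  exact h1

private lemma lsn_comp_int (d : ℝ) :
    ∫ x in (0 : ℝ)..π, lsn (1 / 2 * x + d) = 2 * ∫ x in d..(π / 2 + d), lsn x := by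
  rw [intervalIntegral.integral_comp_mul_add lsn (by norm_num : (1 / 2 : ℝ) ≠ 0) d]
  have e1 : (1 / 2 : ℝ) * 0 + d = d := by ring
  have e2 : (1 / 2 : ℝ) * π + d = π / 2 + d := by ring
  rw [e1, e2, smul_eq_mul]
  norm_num

private lemma lsn_sum (d : ℝ) :
    (∫ x in (0 : ℝ)..π, lsn (1 / 2 * x + d)) + ∫ x in (0 : ℝ)..π, lsn (1 / 2 * x + -d) =
      -(2 * (Real.log 2 * π)) := by
  rw [lsn_comp_int, lsn_comp_int]
  have h1 : ∫ x in (-d)..(π / 2 + -d), lsn x = ∫ x in (d - π / 2)..d, lsn x := by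
    have h2 := intervalIntegral.integral_comp_neg (a := d - π / 2) (b := d) lsn
    have e1 : -(d - π / 2) = π / 2 + -d := by ring
    rw [e1] at h2
    rw [← h2]
    exact intervalIntegral.integral_congr fun x _ => lsn_neg x
  have h3 := intervalIntegral.integral_add_adjacent_intervals (lsn_ii (d - π / 2) d)
    (lsn_ii d (π / 2 + d))
  have h4 := lsn_per.intervalIntegral_add_eq (d - π / 2) 0
  have e2 : d - π / 2 + π = π / 2 + d := by ring
  rw [e2, zero_add] at h4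
  have h5 : ∫ x in (0 : ℝ)..π, lsn x = -Real.log 2 * π := integral_log_sin_zero_pi
  rw [h1]
  linarith

private lemma G_eq {m κ φ θ : ℝ} (hκ : 0 < κ) (hφ0 : 0 ≤ φ) (hφ : φ ≤ π) (h0 : 0 < θ) (hπ : θ < π)
    (hne : θ ≠ φ) :
    Real.log |m + κ * Real.cos θ - (m + κ * Real.cos φ)| =
      Real.log κ + Real.log 2 + (lsn (1 / 2 * θ + φ / 2) + lsn (1 / 2 * θ + -(φ / 2))) := by
  have e : m + κ * Real.cos θ - (m + κ * Real.cos φ) =
      -(κ * (2 * (Real.sin (1 / 2 * θ + φ / 2) * Real.sin (1 / 2 * θ + -(φ / 2))))) := by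
    have h := Real.cos_sub_cos θ φ
    have e1 : (θ + φ) / 2 = 1 / 2 * θ + φ / 2 := by ring
    have e2 : (θ - φ) / 2 = 1 / 2 * θ + -(φ / 2) := by ring
    rw [e1, e2] at h
    calc m + κ * Real.cos θ - (m + κ * Real.cos φ) = κ * (Real.cos θ - Real.cos φ) := by ring
      _ = _ := by rw [h]; ring
  have s1 : Real.sin (1 / 2 * θ + φ / 2) ≠ 0 :=
    (Real.sin_pos_of_pos_of_lt_pi (by linarith) (by linarith)).ne'
  have s2 : Real.sin (1 / 2 * θ + -(φ / 2)) ≠ 0 := by
    rcases lt_or_gt_of_ne hne with h | h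
    · exact (Real.sin_neg_of_neg_of_neg_pi_lt (by linarith) (by linarith)).ne
    · exact (Real.sin_pos_of_pos_of_lt_pi (by linarith) (by linarith)).ne'
  rw [Real.log_abs, e, Real.log_neg_eq_log, Real.log_mul hκ.ne' (by positivity),
    Real.log_mul (by norm_num) (mul_ne_zero s1 s2), Real.log_mul s1 s2]
  unfold lsn
  ring

theorem b3 (h0 : B0) : B3 := by
  intro r R y hr hrR hry hyR
  have hκ : 0 < (R ^ 2 - r ^ 2) / 2 := by
    have : r ^ 2 < R ^ 2 := by nlinarith
    linarith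
  set κ := (R ^ 2 - r ^ 2) / 2 with hκd
  set m := (r ^ 2 + R ^ 2) / 2 with hmd
  set φ := Real.arccos ((y ^ 2 - m) / κ) with hφd
  have hφ0 : 0 ≤ φ := Real.arccos_nonneg _
  have hφπ : φ ≤ π := Real.arccos_le_pi _
  have hy1 : r ^ 2 ≤ y ^ 2 := by nlinarith
  have hy2 : y ^ 2 ≤ R ^ 2 := by nlinarith
  have hcos : Real.cos φ = (y ^ 2 - m) / κ := by
    apply Real.cos_arccos
    · rw [le_div_iff₀ hκ]; simp only [hκd, hmd]; linarith
    · rw [div_le_iff₀ hκ]; simp only [hκd, hmd]; linarith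
  have hyy : y ^ 2 = m + κ * Real.cos φ := by
    rw [hcos, mul_div_cancel₀ _ hκ.ne']; ring
  obtain ⟨h1, h2⟩ := h0 r R hr hrR (fun u => Real.log |u - y ^ 2|)
  rw [← hκd, ← hmd] at h1 h2
  have hae : ∀ᵐ θ ∂(volume.restrict (Ioo 0 π)),
      Real.log κ + Real.log 2 + (lsn (1 / 2 * θ + φ / 2) + lsn (1 / 2 * θ + -(φ / 2))) =
      Real.log |m + κ * Real.cos θ - y ^ 2| := by
    rw [ae_restrict_iff' measurableSet_Ioo]
    have h3 : ∀ᵐ θ : ℝ, θ ≠ φ := compl_mem_ae_iff.2 (measure_singleton φ)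
    filter_upwards [h3] with θ hne hθ
    rw [hyy, G_eq hκ hφ0 hφπ hθ.1 hθ.2 hne]
  have hi1 := lsn_comp_ii (φ / 2)
  have hi2 := lsn_comp_ii (-(φ / 2))
  have hint : IntervalIntegrable (fun θ => Real.log κ + Real.log 2 +
      (lsn (1 / 2 * θ + φ / 2) + lsn (1 / 2 * θ + -(φ / 2)))) volume 0 π :=
    intervalIntegrable_const.add (hi1.add hi2)
  have hint' : IntegrableOn (fun θ => Real.log κ + Real.log 2 +
      (lsn (1 / 2 * θ + φ / 2) + lsn (1 / 2 * θ + -(φ / 2)))) (Ioo 0 π) :=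
    ((intervalIntegrable_iff_integrableOn_Ioc_of_le Real.pi_pos.le).1 hint).mono_set
      Ioo_subset_Ioc_self
  have hval : ∫ θ in Ioo 0 π, Real.log |m + κ * Real.cos θ - y ^ 2| =
      π * Real.log ((R ^ 2 - r ^ 2) / 4) := by
    rw [← integral_congr_ae hae, ← integral_Ioc_eq_integral_Ioo,
      ← intervalIntegral.integral_of_le Real.pi_pos.le,
      intervalIntegral.integral_add intervalIntegrable_const (hi1.add hi2),
      intervalIntegral.integral_add hi1 hi2, lsn_sum, intervalIntegral.integral_const, smul_eq_mul]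
    have e4 : (R ^ 2 - r ^ 2) / 4 = κ / 2 := by rw [hκd]; ring
    rw [e4, Real.log_div hκ.ne' (by norm_num)]
    ring
  refine ⟨h1.2 (hint'.congr_fun_ae hae), ?_⟩
  rw [h2, hval]

end Pool.J6H16.RZ
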