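import Pool.Agent.J6H16.RZ.Stm

/-!
# RZ-B4
-/

set_option autoImplicit false

open MeasureTheory Set Real

namespace Pool.J6H16.RZ

private theorem b4_int (a ρ r x : ℝ) (hr : 0 < r) (hx : r ≤ x) (hρ : 0 < ρ) :
    IntervalIntegrable (fun y => (1 / 2 + a / (2 * y ^ 2)) * (Real.log (y + ρ) + Real.log (y - ρ)))
      volume r x := by
  have hpos : ∀ y ∈ uIcc r x, 0 < y := by
    intro y hy
    rw [uIcc_of_le hx] at hy
    exact lt_of_lt_of_le hr hy.1
  have h1 : IntervalIntegrable (fun y => Real.log (y + ρ) + Real.log (y - ρ)) volume r x := by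
    refine IntervalIntegrable.add ?_ ?_
    · apply ContinuousOn.intervalIntegrable
      apply ContinuousOn.log
      · fun_prop
      · intro y hy
        have := hpos y hy
        positivity
    · have h2 : IntervalIntegrable Real.log volume (r - ρ) (x - ρ) :=
        intervalIntegral.intervalIntegrable_log'
      have h3 := h2.comp_sub_right ρ
      simpa using h3
  refine h1.continuousOn_mul ?_
  refine ContinuousOn.add continuousOn_const (ContinuousOn.div continuousOn_const (by fun_prop) ?_)
  intro y hy
  have := hpos y hy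
  positivity

private theorem b4_eq (ρ y : ℝ) (hρ : 0 < ρ) (hy : 0 < y) (hne : y ≠ ρ) :
    Real.log |ρ ^ 2 - y ^ 2| = Real.log (y + ρ) + Real.log (y - ρ) := by
  have h1 : ρ ^ 2 - y ^ 2 = - ((y + ρ) * (y - ρ)) := by ring
  rw [h1, abs_neg, Real.log_abs, Real.log_mul (by positivity) (sub_ne_zero.2 hne)]

private theorem b4_P (a ρ x : ℝ) (hρ : 0 < ρ) (hx : 0 < x) :
    P a ρ x = (c a ρ + c a x) * Real.log (x + ρ) +
      (1 / 2 + a / (2 * x * ρ)) * ((x - ρ) * Real.log (x - ρ)) - x := by
  unfold P
  rw [Real.log_abs]
  have h1 : c a x - c a ρ = (1 / 2 + a / (2 * x * ρ)) * (x - ρ) := by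
    unfold c
    field_simp
    ring
  rw [h1]
  ring

theorem b4 : B4 := by
  intro a ρ r x hr hx hρ
  have hint := b4_int a ρ r x hr hx hρ
  have hae : ∀ᵐ y : ℝ, y ≠ ρ := by
    simp [ae_iff, measure_singleton]
  have hpos : ∀ y ∈ uIoc r x, 0 < y := by
    intro y hy
    rw [uIoc_of_le hx] at hy
    exact lt_trans hr hy.1
  have hcongr : ∀ᵐ y : ℝ, y ∈ uIoc r x →
      (1 / 2 + a / (2 * y ^ 2)) * (Real.log (y + ρ) + Real.log (y - ρ)) =
        (1 / 2 + a / (2 * y ^ 2)) * Real.log |ρ ^ 2 - y ^ 2| := by
    filter_upwards [hae] with y hy hyx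
    rw [b4_eq ρ y hρ (hpos y hyx) hy]
  constructor
  · refine hint.congr_ae ?_
    rw [Filter.EventuallyEq, ae_restrict_iff' measurableSet_uIoc]
    exact hcongr
  · rw [← intervalIntegral.integral_congr_ae hcongr]
    refine MeasureTheory.integral_eq_of_hasDerivAt_off_countable_of_le (P a ρ) _ hx
      (countable_singleton ρ) ?_ ?_ hint
    · have h1 : ContinuousOn (fun x => (c a ρ + c a x) * Real.log (x + ρ) +
          (1 / 2 + a / (2 * x * ρ)) * ((x - ρ) * Real.log (x - ρ)) - x) (Icc r x) := by
        have hp : ∀ y ∈ Icc r x, 0 < y := fun y hy => lt_of_lt_of_le hr hy.1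
        refine ContinuousOn.sub (ContinuousOn.add (ContinuousOn.mul ?_ ?_)
          (ContinuousOn.mul ?_ ?_)) continuousOn_id
        · refine ContinuousOn.add continuousOn_const ?_
          unfold c
          refine ContinuousOn.div (by fun_prop) (by fun_prop) ?_
          intro y hy
          have := hp y hy
          positivity
        · apply ContinuousOn.log
          · fun_prop
          · intro y hy
            have := hp y hy
            positivity
        · refine ContinuousOn.add continuousOn_const
            (ContinuousOn.div continuousOn_const (by fun_prop) ?_)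
          intro y hy
          have := hp y hy
          positivity
        · exact (Real.continuous_mul_log.comp (continuous_id.sub continuous_const)).continuousOn
      refine h1.congr fun y hy => b4_P a ρ y hρ (lt_of_lt_of_le hr hy.1)
    · rintro y ⟨hy, hyρ⟩
      have hy0 : 0 < y := lt_trans hr hy.1
      have hne : y ≠ ρ := hyρ
      have hsub : y - ρ ≠ 0 := sub_ne_zero.2 hne
      have hadd : y + ρ ≠ 0 := by positivity
      have hP : P a ρ = fun x => (c a ρ + c a x) * Real.log (x + ρ) +
          (c a x - c a ρ) * Real.log (x - ρ) - x := by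
        funext t
        unfold P
        rw [Real.log_abs]
      have hc : HasDerivAt (c a) (1 / 2 + a / (2 * y ^ 2)) y := by
        have h1 : HasDerivAt (fun t : ℝ => (t ^ 2 - a) / (2 * t))
            (((2 * y) * (2 * y) - (y ^ 2 - a) * 2) / (2 * y) ^ 2) y := by
          have h2 : HasDerivAt (fun t : ℝ => t ^ 2 - a) (2 * y) y := by
            simpa using (hasDerivAt_pow 2 y).sub_const a
          have h3 : HasDerivAt (fun t : ℝ => 2 * t) 2 y := by
            simpa using (hasDerivAt_id y).const_mul 2
          exact h2.div h3 (by positivity)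
        have h4 : ((2 * y) * (2 * y) - (y ^ 2 - a) * 2) / (2 * y) ^ 2 = 1 / 2 + a / (2 * y ^ 2) := by
          field_simp
          ring
        rw [h4] at h1
        exact h1
      have hl1 : HasDerivAt (fun t : ℝ => Real.log (t + ρ)) (1 / (y + ρ)) y :=
        ((hasDerivAt_id y).add_const ρ).log hadd
      have hl2 : HasDerivAt (fun t : ℝ => Real.log (t - ρ)) (1 / (y - ρ)) y :=
        ((hasDerivAt_id y).sub_const ρ).log hsub
      rw [hP]
      have h5 := (((hc.const_add (c a ρ)).mul hl1).add ((hc.sub_const (c a ρ)).mul hl2)).sub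
        (hasDerivAt_id y)
      refine h5.congr_deriv ?_
      unfold c
      field_simp
      ring

end Pool.J6H16.RZ
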