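import Pool.Agent.J6H16.RZ.Stm

/-!
Statement B5 of project RZ: the potential of the density `(ρ²-a)/w` for the kernel `log ((x+ρ)/|x-ρ|)` is affine on `[r,R]`.
-/

open MeasureTheory Set Real

namespace Pool.J6H16.RZ

private lemma w_meas (r R : ℝ) : Measurable (fun ρ => w r R ρ) := by
  unfold w
  fun_prop

private lemma c_cont (r R a : ℝ) (hr : 0 < r) : ContinuousOn (fun ρ => c a ρ) (Icc r R) := by
  unfold c
  refine ContinuousOn.div (by fun_prop) (by fun_prop) ?_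
  intro ρ hρ
  have : 0 < ρ := lt_of_lt_of_le hr hρ.1
  positivity

private lemma c_mul (r R a ρ : ℝ) (hρ : 0 < ρ) :
    (ρ ^ 2 - a) / w r R ρ = c a ρ * (2 * ρ / w r R ρ) := by
  unfold c
  have h2 : 2 * ρ ≠ 0 := by positivity
  have e : (ρ ^ 2 - a) / (2 * ρ) * (2 * ρ / w r R ρ) =
      ((ρ ^ 2 - a) / (2 * ρ) * (2 * ρ)) / w r R ρ := by ring
  rw [e, div_mul_cancel₀ _ h2]

private lemma log_split (ρ x : ℝ) (hρ : 0 < ρ) (hx : 0 < x) (hne : ρ ≠ x) :
    Real.log |ρ ^ 2 - x ^ 2| = Real.log (x + ρ) + Real.log |x - ρ| := by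
  have e : |ρ ^ 2 - x ^ 2| = (x + ρ) * |x - ρ| := by
    have : ρ ^ 2 - x ^ 2 = -((x + ρ) * (x - ρ)) := by ring
    rw [this, abs_neg, abs_mul, abs_of_pos (by linarith : 0 < x + ρ)]
  have h1 : x + ρ ≠ 0 := (add_pos hx hρ).ne'
  have h2 : |x - ρ| ≠ 0 := abs_ne_zero.2 (sub_ne_zero.2 (Ne.symm hne))
  rw [e, Real.log_mul h1 h2]

private lemma log_quot (ρ x : ℝ) (hρ : 0 < ρ) (hx : 0 < x) (hne : ρ ≠ x) :
    Real.log ((x + ρ) / |x - ρ|) = Real.log (x + ρ) - Real.log |x - ρ| := by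
  have h1 : x + ρ ≠ 0 := (add_pos hx hρ).ne'
  have h2 : |x - ρ| ≠ 0 := abs_ne_zero.2 (sub_ne_zero.2 (Ne.symm hne))
  rw [Real.log_div h1 h2]

private lemma pw (a ρ x : ℝ) (hρ : 0 < ρ) (hx : 0 < x) (hne : ρ ≠ x) :
    c a ρ * Real.log ((x + ρ) / |x - ρ|) = P a ρ x - c a x * Real.log |ρ ^ 2 - x ^ 2| + x := by
  rw [log_split ρ x hρ hx hne, log_quot ρ x hρ hx hne]
  unfold P
  ring

private lemma ae_ne (r R x : ℝ) : ∀ᵐ ρ ∂(volume.restrict (Ioo r R)), ρ ≠ x := by
  refine ae_restrict_of_ae ?_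
  have : volume ({x} : Set ℝ) = 0 := by simp
  exact (measure_eq_zero_iff_ae_notMem.1 this).mono (fun y hy => by simpa using hy)

private lemma integ (h1 : B1) (h3 : B3) (r R a x : ℝ) (hr : 0 < r) (hrR : r < R) (hrx : r ≤ x)
    (hxR : x ≤ R) :
    IntegrableOn (fun ρ => (ρ ^ 2 - a) / w r R ρ * Real.log ((x + ρ) / |x - ρ|)) (Ioo r R) := by
  have hx : 0 < x := lt_of_lt_of_le hr hrx
  have i1 := (h1 r R hr hrR).1
  have i3 := (h3 r R x hr hrR hrx hxR).1
  rw [← integrableOn_Icc_iff_integrableOn_Ioo] at i1 i3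
  have hcc : ContinuousOn (fun ρ => c a ρ * (2 * Real.log (x + ρ))) (Icc r R) := by
    refine (c_cont r R a hr).mul (continuousOn_const.mul ?_)
    refine ContinuousOn.log (by fun_prop) ?_
    intro ρ hρ
    have : 0 < ρ := lt_of_lt_of_le hr hρ.1
    exact (add_pos hx this).ne'
  have j1 := i1.continuousOn_mul hcc isCompact_Icc
  have j2 := i3.continuousOn_mul (c_cont r R a hr) isCompact_Icc
  have j3 : IntegrableOn (fun ρ => (c a ρ * (2 * Real.log (x + ρ))) * (2 * ρ / w r R ρ) -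
      c a ρ * (Real.log |ρ ^ 2 - x ^ 2| * (2 * ρ / w r R ρ))) (Ioo r R) :=
    (j1.sub j2).mono_set Ioo_subset_Icc_self
  refine Integrable.congr j3 ?_
  filter_upwards [ae_ne r R x, ae_restrict_mem measurableSet_Ioo] with ρ hne hρ
  have hρ0 : 0 < ρ := hr.trans hρ.1
  rw [c_mul r R a ρ hρ0, log_split ρ x hρ0 hx hne, log_quot ρ x hρ0 hx hne]
  ring

private lemma w_nonneg (r R ρ : ℝ) : 0 ≤ w r R ρ := Real.sqrt_nonneg _

private lemma abs_log_le (R t : ℝ) (ht : 0 ≤ t) (htR : t ≤ R ^ 2) :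
    |Real.log t| ≤ 2 * R ^ 2 - Real.log t := by
  have hl : Real.log t ≤ R ^ 2 := by
    have := Real.log_le_self ht
    linarith
  have h0 : 0 ≤ R ^ 2 := sq_nonneg R
  rcases le_or_gt 0 (Real.log t) with h | h
  · rw [abs_of_nonneg h]; linarith
  · rw [abs_of_neg h]; linarith

private lemma abs_sq_le (r R ρ y : ℝ) (hr : 0 < r) (hρ : ρ ∈ Ioo r R) (hy : r ≤ y) (hyR : y ≤ R) :
    |ρ ^ 2 - y ^ 2| ≤ R ^ 2 := by
  have h1 : ρ ^ 2 ≤ R ^ 2 := by nlinarith [hρ.1, hρ.2]
  have h2 : y ^ 2 ≤ R ^ 2 := by nlinarith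
  rw [abs_le]
  constructor <;> nlinarith [sq_nonneg ρ, sq_nonneg y]

private lemma c_int (r a x : ℝ) (hr : 0 < r) (hrx : r ≤ x) :
    (∫ y in r..x, (1 / 2 + a / (2 * y ^ 2))) = c a x - c a r := by
  have hpos : ∀ y ∈ uIcc r x, 0 < y := by
    intro y hy
    rw [uIcc_of_le hrx] at hy
    exact lt_of_lt_of_le hr hy.1
  refine intervalIntegral.integral_eq_sub_of_hasDerivAt (f := fun y => c a y) ?_ ?_
  · intro y hy
    have hy0 : 0 < y := hpos y hy
    have h2 : (2 * y) ≠ 0 := by positivity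
    have d1 : HasDerivAt (fun y : ℝ => y ^ 2 - a) (2 * y) y := by
      simpa using (hasDerivAt_pow 2 y).sub_const a
    have d2 : HasDerivAt (fun y : ℝ => 2 * y) 2 y := by
      simpa using (hasDerivAt_id y).const_mul 2
    have d3 := d1.div d2 h2
    have e : (2 * y * (2 * y) - (y ^ 2 - a) * 2) / (2 * y) ^ 2 = 1 / 2 + a / (2 * y ^ 2) := by
      field_simp
      ring
    rw [e] at d3
    exact d3
  · refine ContinuousOn.intervalIntegrable ?_
    refine continuousOn_const.add (ContinuousOn.div (by fun_prop) (by fun_prop) ?_)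
    intro y hy
    have := hpos y hy
    positivity

private lemma fub_int (h1 : B1) (h3 : B3) (r R a x : ℝ) (hr : 0 < r) (hrR : r < R) (hrx : r ≤ x)
    (hxR : x ≤ R) :
    Integrable (Function.uncurry fun ρ y : ℝ =>
      (1 / 2 + a / (2 * y ^ 2)) * Real.log |ρ ^ 2 - y ^ 2| * (2 * ρ / w r R ρ))
      ((volume.restrict (Ioo r R)).prod (volume.restrict (Ioc r x))) := by
  have hm : Measurable (Function.uncurry fun ρ y : ℝ =>
      (1 / 2 + a / (2 * y ^ 2)) * Real.log |ρ ^ 2 - y ^ 2| * (2 * ρ / w r R ρ)) := by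
    have hw := w_meas r R
    unfold Function.uncurry
    have hw' : Measurable (fun p : ℝ × ℝ => w r R p.1) := hw.comp measurable_fst
    fun_prop
  have hi : ∀ y ∈ Ioc r x, Integrable (fun ρ =>
      (1 / 2 + a / (2 * y ^ 2)) * Real.log |ρ ^ 2 - y ^ 2| * (2 * ρ / w r R ρ))
      (volume.restrict (Ioo r R)) := by
    intro y hy
    have := ((h3 r R y hr hrR hy.1.le (hy.2.trans hxR)).1).const_mul (1 / 2 + a / (2 * y ^ 2))
    refine Integrable.congr this (Filter.Eventually.of_forall fun ρ => ?_)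
    simp only
    ring
  rw [integrable_prod_iff' hm.aestronglyMeasurable]
  refine ⟨?_, ?_⟩
  · filter_upwards [ae_restrict_mem measurableSet_Ioc] with y hy
    exact hi y hy
  · set ℓ := π * Real.log ((R ^ 2 - r ^ 2) / 4) with hℓ
    have hnorm : AEStronglyMeasurable (fun y => ∫ ρ, ‖(Function.uncurry fun ρ y : ℝ =>
        (1 / 2 + a / (2 * y ^ 2)) * Real.log |ρ ^ 2 - y ^ 2| * (2 * ρ / w r R ρ)) (ρ, y)‖
        ∂(volume.restrict (Ioo r R))) (volume.restrict (Ioc r x)) := by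
      have := (hm.norm.stronglyMeasurable).integral_prod_left' (μ := volume.restrict (Ioo r R))
      exact this.aestronglyMeasurable
    refine Integrable.mono' (g := fun _ => (1 / 2 + |a| / (2 * r ^ 2)) * (2 * R ^ 2 * π - ℓ))
      ?_ hnorm ?_
    · exact integrable_const _
    · filter_upwards [ae_restrict_mem measurableSet_Ioc] with y hy
      have hy0 : 0 < y := hr.trans hy.1
      have i1 := h1 r R hr hrR
      have i3 := h3 r R y hr hrR hy.1.le (hy.2.trans hxR)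
      have hcoef : |1 / 2 + a / (2 * y ^ 2)| ≤ 1 / 2 + |a| / (2 * r ^ 2) := by
        refine (abs_add_le _ _).trans ?_
        rw [abs_of_pos (by norm_num : (0 : ℝ) < 1 / 2), abs_div,
          abs_of_pos (by positivity : (0 : ℝ) < 2 * y ^ 2)]
        have : 2 * r ^ 2 ≤ 2 * y ^ 2 := by nlinarith [hy.1]
        have h4 := div_le_div_of_nonneg_left (abs_nonneg a) (by positivity : (0 : ℝ) < 2 * r ^ 2) this
        linarith
      have hB : (∫ ρ in Ioo r R, abs (Real.log (abs (ρ ^ 2 - y ^ 2))) * (2 * ρ / w r R ρ)) ≤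
          2 * R ^ 2 * π - ℓ := by
        have e : 2 * R ^ 2 * π - ℓ = ∫ ρ in Ioo r R, (2 * R ^ 2 * (2 * ρ / w r R ρ) -
            Real.log |ρ ^ 2 - y ^ 2| * (2 * ρ / w r R ρ)) := by
          rw [integral_sub (i1.1.const_mul _) i3.1, integral_const_mul, i1.2.1, i3.2]
        rw [e]
        refine integral_mono_of_nonneg ?_ ((i1.1.const_mul _).sub i3.1) ?_
        · filter_upwards [ae_restrict_mem measurableSet_Ioo] with ρ hρ
          have : 0 < ρ := hr.trans hρ.1
          have := w_nonneg r R ρ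
          positivity
        · filter_upwards [ae_restrict_mem measurableSet_Ioo] with ρ hρ
          have h0 : 0 < ρ := hr.trans hρ.1
          have hw := w_nonneg r R ρ
          have hW : 0 ≤ 2 * ρ / w r R ρ := by positivity
          have := abs_log_le R |ρ ^ 2 - y ^ 2| (abs_nonneg _)
            (abs_sq_le r R ρ y hr hρ hy.1.le (hy.2.trans hxR))
          have := mul_le_mul_of_nonneg_right this hW
          linarith
      have hB0 : 0 ≤ (∫ ρ in Ioo r R, abs (Real.log (abs (ρ ^ 2 - y ^ 2))) * (2 * ρ / w r R ρ)) := by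
        refine setIntegral_nonneg measurableSet_Ioo ?_
        intro ρ hρ
        have : 0 < ρ := hr.trans hρ.1
        have := w_nonneg r R ρ
        positivity
      have e2 : (∫ ρ, ‖(Function.uncurry fun ρ y : ℝ =>
          (1 / 2 + a / (2 * y ^ 2)) * Real.log |ρ ^ 2 - y ^ 2| * (2 * ρ / w r R ρ)) (ρ, y)‖
          ∂(volume.restrict (Ioo r R))) = |1 / 2 + a / (2 * y ^ 2)| *
          ∫ ρ in Ioo r R, abs (Real.log (abs (ρ ^ 2 - y ^ 2))) * (2 * ρ / w r R ρ) := by
        rw [← integral_const_mul]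
        refine setIntegral_congr_fun measurableSet_Ioo ?_
        intro ρ hρ
        have h0 : 0 < ρ := hr.trans hρ.1
        have hw := w_nonneg r R ρ
        have hW : 0 ≤ 2 * ρ / w r R ρ := by positivity
        simp only [Function.uncurry, Real.norm_eq_abs]
        rw [abs_mul, abs_mul, abs_of_nonneg hW]
        ring
      rw [e2, Real.norm_eq_abs, abs_of_nonneg (mul_nonneg (abs_nonneg _) hB0)]
      exact mul_le_mul hcoef hB hB0 (by positivity)

theorem b5 (h1 : B1) (h3 : B3) (h4 : B4) : B5 := by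
  intro r R a x hr hrR hrx hxR
  have hx : 0 < x := lt_of_lt_of_le hr hrx
  have hIx := integ h1 h3 r R a x hr hrR hrx hxR
  have hIr := integ h1 h3 r R a r hr hrR le_rfl hrR.le
  refine ⟨hIx, ?_⟩
  have hF := fub_int h1 h3 r R a x hr hrR hrx hxR
  have i1 := h1 r R hr hrR
  have i3x := h3 r R x hr hrR hrx hxR
  have i3r := h3 r R r hr hrR le_rfl hrR.le
  -- the two evaluations of the double integral
  have hsw := integral_integral_swap hF
  have hleft : (fun ρ => ∫ y in Ioc r x,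
      (1 / 2 + a / (2 * y ^ 2)) * Real.log |ρ ^ 2 - y ^ 2| * (2 * ρ / w r R ρ)) =
      fun ρ => (∫ y in r..x, (1 / 2 + a / (2 * y ^ 2)) * Real.log |ρ ^ 2 - y ^ 2|) *
        (2 * ρ / w r R ρ) := by
    funext ρ
    rw [integral_mul_const, intervalIntegral.integral_of_le hrx]
  have hIL : Integrable (fun ρ =>
      (∫ y in r..x, (1 / 2 + a / (2 * y ^ 2)) * Real.log |ρ ^ 2 - y ^ 2|) *
        (2 * ρ / w r R ρ)) (volume.restrict (Ioo r R)) := by
    rw [← hleft]
    exact hF.integral_prod_left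
  have hright : (∫ y in Ioc r x, ∫ ρ in Ioo r R,
      (1 / 2 + a / (2 * y ^ 2)) * Real.log |ρ ^ 2 - y ^ 2| * (2 * ρ / w r R ρ)) =
      (c a x - c a r) * (π * Real.log ((R ^ 2 - r ^ 2) / 4)) := by
    rw [← c_int r a x hr hrx, intervalIntegral.integral_of_le hrx, ← integral_mul_const]
    refine setIntegral_congr_fun measurableSet_Ioc ?_
    intro y hy
    have := (h3 r R y hr hrR hy.1.le (hy.2.trans hxR)).2
    simp only
    rw [← this, ← integral_const_mul]
    refine integral_congr_ae (Filter.Eventually.of_forall fun ρ => ?_)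
    simp only
    ring
  have hL : (∫ ρ in Ioo r R,
      (∫ y in r..x, (1 / 2 + a / (2 * y ^ 2)) * Real.log |ρ ^ 2 - y ^ 2|) *
        (2 * ρ / w r R ρ)) = (c a x - c a r) * (π * Real.log ((R ^ 2 - r ^ 2) / 4)) := by
    rw [← hright, ← hsw]
    exact congrArg (fun g : ℝ → ℝ => ∫ ρ in Ioo r R, g ρ) hleft.symm
  -- the pointwise identity
  have hpt : (∫ ρ in Ioo r R, ((ρ ^ 2 - a) / w r R ρ * Real.log ((x + ρ) / |x - ρ|) -
      (ρ ^ 2 - a) / w r R ρ * Real.log ((r + ρ) / |r - ρ|))) =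
      ∫ ρ in Ioo r R, ((∫ y in r..x, (1 / 2 + a / (2 * y ^ 2)) * Real.log |ρ ^ 2 - y ^ 2|) *
        (2 * ρ / w r R ρ) - c a x * (Real.log |ρ ^ 2 - x ^ 2| * (2 * ρ / w r R ρ)) +
        c a r * (Real.log |ρ ^ 2 - r ^ 2| * (2 * ρ / w r R ρ)) +
        (x - r) * (2 * ρ / w r R ρ)) := by
    refine integral_congr_ae ?_
    filter_upwards [ae_ne r R x, ae_restrict_mem measurableSet_Ioo] with ρ hne hρ
    have hρ0 : 0 < ρ := hr.trans hρ.1
    have p1 := pw a ρ x hρ0 hx hne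
    have p2 := pw a ρ r hρ0 hr hρ.1.ne'
    have p3 := (h4 a ρ r x hr hrx hρ0).2
    rw [c_mul r R a ρ hρ0, p3]
    have q1 : c a ρ * (2 * ρ / w r R ρ) * Real.log ((x + ρ) / |x - ρ|) =
        (c a ρ * Real.log ((x + ρ) / |x - ρ|)) * (2 * ρ / w r R ρ) := by ring
    have q2 : c a ρ * (2 * ρ / w r R ρ) * Real.log ((r + ρ) / |r - ρ|) =
        (c a ρ * Real.log ((r + ρ) / |r - ρ|)) * (2 * ρ / w r R ρ) := by ring
    rw [q1, q2, p1, p2]
    ring
  have s1 := (i3x.1.const_mul (c a x))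
  have s2 := (i3r.1.const_mul (c a r))
  have s3 := (i1.1.const_mul (x - r))
  have u1 : Integrable (fun ρ =>
      (∫ y in r..x, (1 / 2 + a / (2 * y ^ 2)) * Real.log |ρ ^ 2 - y ^ 2|) *
        (2 * ρ / w r R ρ) - c a x * (Real.log |ρ ^ 2 - x ^ 2| * (2 * ρ / w r R ρ)))
      (volume.restrict (Ioo r R)) := hIL.sub s1
  have u2 : Integrable (fun ρ =>
      (∫ y in r..x, (1 / 2 + a / (2 * y ^ 2)) * Real.log |ρ ^ 2 - y ^ 2|) *
        (2 * ρ / w r R ρ) - c a x * (Real.log |ρ ^ 2 - x ^ 2| * (2 * ρ / w r R ρ)) +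
        c a r * (Real.log |ρ ^ 2 - r ^ 2| * (2 * ρ / w r R ρ)))
      (volume.restrict (Ioo r R)) := u1.add s2
  rw [integral_sub hIx hIr, integral_add u2 s3, integral_add u1 s2,
    integral_sub hIL s1, integral_const_mul, integral_const_mul, integral_const_mul, hL,
    i3x.2, i3r.2, i1.2.1] at hpt
  linarith

end Pool.J6H16.RZ
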