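import Pool.Agent.J6H16.RZ.Stm

open MeasureTheory Set Real
open scoped ENNReal

namespace Pool.J6H16.RZ

private theorem b6_log (r ρ : ℝ) (hr : 0 < r) (hρ : r < ρ) :
    (∫ y in Ioo 0 r, 2 * ρ / (ρ ^ 2 - y ^ 2)) = Real.log ((r + ρ) / |r - ρ|) := by
  rw [← integral_Ioc_eq_integral_Ioo, ← intervalIntegral.integral_of_le hr.le]
  have h1 : ∀ y ∈ uIcc 0 r, HasDerivAt (fun y => Real.log (ρ + y) - Real.log (ρ - y))
      (2 * ρ / (ρ ^ 2 - y ^ 2)) y := by
    intro y hy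
    rw [uIcc_of_le hr.le] at hy
    have hp : 0 < ρ + y := by linarith [hy.1]
    have hm : 0 < ρ - y := by linarith [hy.2]
    have e1 : HasDerivAt (fun y => Real.log (ρ + y)) (1 / (ρ + y)) y :=
      ((hasDerivAt_id y).const_add ρ).log hp.ne'
    have e2 : HasDerivAt (fun y => Real.log (ρ - y)) (-1 / (ρ - y)) y :=
      ((hasDerivAt_id y).const_sub ρ).log hm.ne'
    have e3 := e1.sub e2
    have e4 : 2 * ρ / (ρ ^ 2 - y ^ 2) = 1 / (ρ + y) - -1 / (ρ - y) := by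
      have : ρ ^ 2 - y ^ 2 = (ρ + y) * (ρ - y) := by ring
      rw [this]
      field_simp
      ring
    rw [e4]
    exact e3
  rw [intervalIntegral.integral_eq_sub_of_hasDerivAt h1]
  · have hm : 0 < ρ - r := by linarith
    have hp : 0 < r + ρ := by linarith
    rw [abs_sub_comm, abs_of_pos hm, Real.log_div hp.ne' hm.ne', add_zero, sub_zero, sub_self,
      sub_zero, add_comm ρ r]
  · apply ContinuousOn.intervalIntegrable
    rw [uIcc_of_le hr.le]
    apply ContinuousOn.div (by fun_prop) (by fun_prop)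
    intro y hy
    have : 0 < (ρ + y) * (ρ - y) := mul_pos (by linarith [hy.1]) (by linarith [hy.2])
    have h2 : ρ ^ 2 - y ^ 2 = (ρ + y) * (ρ - y) := by ring
    rw [h2]
    exact this.ne'

theorem b6 (h1 : B1) (h2 : B2) : B6 := by
  intro r R a hr hrR ha hint
  obtain ⟨i1, e1, -, -⟩ := h1 r R hr hrR
  obtain ⟨F, hF⟩ : ∃ F : ℝ → ℝ → ℝ, ∀ ρ y, F ρ y =
      (ρ ^ 2 - a) / w r R ρ * (2 * ρ / (ρ ^ 2 - y ^ 2)) := ⟨_, fun _ _ => rfl⟩
  have hlhs : (∫ ρ in Ioo r R, (ρ ^ 2 - a) / w r R ρ * Real.log ((r + ρ) / |r - ρ|)) =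
      ∫ ρ in Ioo r R, ∫ y in Ioo 0 r, F ρ y := by
    apply setIntegral_congr_fun measurableSet_Ioo
    intro ρ hρ
    simp only [hF]
    rw [integral_const_mul, b6_log r ρ hr hρ.1]
  have hD : ∀ y ∈ Ioo 0 r, ∀ ρ ∈ Ioo r R, 0 < ρ ^ 2 - y ^ 2 := by
    intro y hy ρ hρ
    have : 0 < (ρ + y) * (ρ - y) := mul_pos (by linarith [hy.1, hρ.1]) (by linarith [hy.2, hρ.1])
    have h3 : ρ ^ 2 - y ^ 2 = (ρ + y) * (ρ - y) := by ring
    rw [h3]
    exact this
  have hpt : ∀ y ∈ Ioo 0 r, ∀ ρ ∈ Ioo r R, F ρ y = 2 * ρ / w r R ρ +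
      (y ^ 2 - a) * ((ρ ^ 2 - y ^ 2)⁻¹ * (2 * ρ / w r R ρ)) := by
    intro y hy ρ hρ
    have h := mul_inv_cancel₀ (hD y hy ρ hρ).ne'
    rw [hF]
    simp only [div_eq_mul_inv]
    linear_combination (2 * ρ * (w r R ρ)⁻¹) * h
  have hnn : ∀ y ∈ Ioo 0 r, ∀ ρ ∈ Ioo r R, 0 ≤ F ρ y := by
    intro y hy ρ hρ
    rw [hF]
    have h3 : 0 ≤ ρ ^ 2 - a := by nlinarith [hρ.1]
    have h4 : 0 ≤ w r R ρ := Real.sqrt_nonneg _
    have h5 : 0 ≤ 2 * ρ := by linarith [hρ.1]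
    exact mul_nonneg (div_nonneg h3 h4) (div_nonneg h5 (hD y hy ρ hρ).le)
  have hinner : ∀ y ∈ Ioo 0 r, IntegrableOn (fun ρ => F ρ y) (Ioo r R) ∧
      (∫ ρ in Ioo r R, F ρ y) =
        π + (y ^ 2 - a) * (π / Real.sqrt ((r ^ 2 - y ^ 2) * (R ^ 2 - y ^ 2))) := by
    intro y hy
    obtain ⟨i2, e2⟩ := h2 r R y hr hrR hy.1.le hy.2
    have i3 : IntegrableOn (fun ρ => 2 * ρ / w r R ρ +
      (y ^ 2 - a) * ((ρ ^ 2 - y ^ 2)⁻¹ * (2 * ρ / w r R ρ))) (Ioo r R) :=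
      i1.add (i2.const_mul (y ^ 2 - a))
    refine ⟨i3.congr_fun (fun ρ hρ => (hpt y hy ρ hρ).symm) measurableSet_Ioo, ?_⟩
    rw [setIntegral_congr_fun measurableSet_Ioo (fun ρ hρ => hpt y hy ρ hρ),
      integral_add i1 (i2.const_mul (y ^ 2 - a)), e1, integral_const_mul, e2]
  have hg : IntegrableOn (fun y => (y ^ 2 - a) *
      (π / Real.sqrt ((r ^ 2 - y ^ 2) * (R ^ 2 - y ^ 2)))) (Ioo 0 r) := by
    refine Integrable.mono' (hint.const_mul ((r ^ 2 + |a|) * π)) ?_ ?_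
    · apply Measurable.aestronglyMeasurable
      fun_prop
    · filter_upwards [ae_restrict_mem measurableSet_Ioo] with y hy
      have h3 : |y ^ 2 - a| ≤ r ^ 2 + |a| := by
        refine (abs_sub _ _).trans ?_
        rw [abs_of_nonneg (sq_nonneg y)]
        have : y ^ 2 ≤ r ^ 2 := by nlinarith [hy.1, hy.2]
        linarith
      have h4 : 0 ≤ 1 / Real.sqrt ((r ^ 2 - y ^ 2) * (R ^ 2 - y ^ 2)) := by positivity
      have h5 : π / Real.sqrt ((r ^ 2 - y ^ 2) * (R ^ 2 - y ^ 2)) =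
        π * (1 / Real.sqrt ((r ^ 2 - y ^ 2) * (R ^ 2 - y ^ 2))) := by ring
      rw [Real.norm_eq_abs, abs_mul, h5, abs_mul, abs_of_pos Real.pi_pos, abs_of_nonneg h4,
        ← mul_assoc]
      exact mul_le_mul_of_nonneg_right (mul_le_mul_of_nonneg_right h3 Real.pi_pos.le) h4
  have hconst : IntegrableOn (fun _ : ℝ => π) (Ioo 0 r) := by
    refine integrableOn_const ?_ ?_
    · rw [Real.volume_Ioo]
      exact ENNReal.ofReal_ne_top
    · exact enorm_ne_top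
  have hmeas : Measurable (Function.uncurry F) := by
    have : Function.uncurry F = fun p : ℝ × ℝ =>
        (p.1 ^ 2 - a) / w r R p.1 * (2 * p.1 / (p.1 ^ 2 - p.2 ^ 2)) := by
      funext p
      exact hF p.1 p.2
    rw [this]
    unfold w
    fun_prop
  have hI : Integrable (Function.uncurry F)
      ((volume.restrict (Ioo r R)).prod (volume.restrict (Ioo 0 r))) := by
    rw [integrable_prod_iff' hmeas.aestronglyMeasurable]
    constructor
    · filter_upwards [ae_restrict_mem measurableSet_Ioo] with y hy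
      exact (hinner y hy).1
    · refine (hconst.add hg).congr ?_
      filter_upwards [ae_restrict_mem measurableSet_Ioo] with y hy
      rw [Pi.add_apply, ← (hinner y hy).2]
      apply setIntegral_congr_fun measurableSet_Ioo
      intro ρ hρ
      show F ρ y = ‖F ρ y‖
      rw [Real.norm_eq_abs, abs_of_nonneg (hnn y hy ρ hρ)]
  rw [hlhs, integral_integral_swap hI,
    setIntegral_congr_fun measurableSet_Ioo (fun y hy => (hinner y hy).2),
    integral_add hconst hg]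
  have h6 : (∫ _ in Ioo 0 r, π) = π * r := by
    rw [setIntegral_const, Real.volume_real_Ioo_of_le hr.le, sub_zero, smul_eq_mul, mul_comm]
  rw [h6, ← integral_const_mul]
  congr 1
  apply setIntegral_congr_fun measurableSet_Ioo
  intro y _
  show (y ^ 2 - a) * (π / Real.sqrt ((r ^ 2 - y ^ 2) * (R ^ 2 - y ^ 2))) =
    π * ((y ^ 2 - a) / Real.sqrt ((r ^ 2 - y ^ 2) * (R ^ 2 - y ^ 2)))
  ring

end Pool.J6H16.RZ
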