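import Pool.Agent.J6H16.RZ.Stm

/-!
# RZ-B7: the elliptic integrals (helper57 for helper16)
-/

set_option autoImplicit false

open MeasureTheory Set Real

namespace Pool.J6H16.RZ

private lemma b7_img {r : ℝ} (hr : 0 < r) :
    (fun θ : ℝ => r * Real.sin θ) '' Ioo 0 (π / 2) = Ioo 0 r := by
  ext y
  constructor
  · rintro ⟨θ, ⟨h1, h2⟩, rfl⟩
    have h3 : 0 < Real.sin θ := Real.sin_pos_of_pos_of_lt_pi h1 (by linarith [Real.pi_pos])
    have h4 : Real.sin θ < 1 := by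
      rw [← Real.sin_pi_div_two]
      exact Real.sin_lt_sin_of_lt_of_le_pi_div_two (by linarith [Real.pi_pos]) le_rfl h2
    exact ⟨mul_pos hr h3, by nlinarith⟩
  · rintro ⟨h1, h2⟩
    have h3 : 0 < y / r := div_pos h1 hr
    have h4 : y / r < 1 := (div_lt_one hr).2 h2
    refine ⟨Real.arcsin (y / r), ⟨Real.arcsin_pos.2 h3, Real.arcsin_lt_pi_div_two.2 h4⟩, ?_⟩
    change r * Real.sin (Real.arcsin (y / r)) = y
    rw [Real.sin_arcsin (by linarith) h4.le]
    field_simp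

private lemma b7_inj {r : ℝ} (hr : 0 < r) :
    InjOn (fun θ : ℝ => r * Real.sin θ) (Ioo 0 (π / 2)) := by
  intro x hx y hy h
  have h1 : Real.sin x = Real.sin y := mul_left_cancel₀ hr.ne' h
  exact Real.injOn_sin ⟨by linarith [hx.1, Real.pi_pos], hx.2.le⟩
    ⟨by linarith [hy.1, Real.pi_pos], hy.2.le⟩ h1

private lemma b7_der (r : ℝ) (θ : ℝ) (s : Set ℝ) :
    HasDerivWithinAt (fun θ : ℝ => r * Real.sin θ) (r * Real.cos θ) s θ :=
  ((Real.hasDerivAt_sin θ).const_mul r).hasDerivWithinAt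

private lemma b7_D {k : ℝ} (hk : k ^ 2 < 1) (θ : ℝ) : 0 < 1 - k ^ 2 * Real.sin θ ^ 2 := by
  have h1 := Real.sin_sq_le_one θ
  nlinarith [sq_nonneg k, sq_nonneg (Real.sin θ)]

private lemma b7_key {r R k : ℝ} (hr : 0 < r) (hR : 0 < R) (hk : r = k * R) (hk2 : k ^ 2 < 1)
    {θ : ℝ} (hθ : θ ∈ Ioo 0 (π / 2)) :
    |r * Real.cos θ| / Real.sqrt ((r ^ 2 - (r * Real.sin θ) ^ 2) * (R ^ 2 - (r * Real.sin θ) ^ 2)) =
      1 / R * (1 / Real.sqrt (1 - k ^ 2 * Real.sin θ ^ 2)) := by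
  have hc : 0 < Real.cos θ := Real.cos_pos_of_mem_Ioo ⟨by linarith [hθ.1, Real.pi_pos], hθ.2⟩
  have hD := b7_D hk2 θ
  have h1 : (r ^ 2 - (r * Real.sin θ) ^ 2) * (R ^ 2 - (r * Real.sin θ) ^ 2) =
      (r * Real.cos θ) ^ 2 * (R ^ 2 * (1 - k ^ 2 * Real.sin θ ^ 2)) := by
    have h2 : Real.cos θ ^ 2 = 1 - Real.sin θ ^ 2 := Real.cos_sq' θ
    rw [mul_pow r (Real.cos θ), h2]
    rw [hk]
    ring
  have hs : 0 < Real.sqrt (1 - k ^ 2 * Real.sin θ ^ 2) := Real.sqrt_pos.2 hD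
  have hrc : 0 < r * Real.cos θ := mul_pos hr hc
  rw [h1, Real.sqrt_mul (sq_nonneg _), Real.sqrt_mul (sq_nonneg _), Real.sqrt_sq hrc.le,
    Real.sqrt_sq hR.le, abs_of_pos hrc]
  field_simp

theorem b7 : B7 := by
  intro r R hr hrR
  have hR : 0 < R := hr.trans hrR
  obtain ⟨k, hk⟩ : ∃ k, k = r / R := ⟨_, rfl⟩
  have hkR : r = k * R := by rw [hk]; field_simp
  have hk0 : 0 < k := by rw [hk]; exact div_pos hr hR
  have hk1 : k < 1 := by rw [hk]; exact (div_lt_one hR).2 hrR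
  have hk2 : k ^ 2 < 1 := by nlinarith
  have hπ : (0 : ℝ) < π / 2 := by positivity
  have hD := b7_D hk2
  have hsc : Continuous fun θ : ℝ => Real.sqrt (1 - k ^ 2 * Real.sin θ ^ 2) := by fun_prop
  have hs0 : ∀ θ : ℝ, 0 < Real.sqrt (1 - k ^ 2 * Real.sin θ ^ 2) := fun θ => Real.sqrt_pos.2 (hD θ)
  have hgc : Continuous fun θ : ℝ => 1 / Real.sqrt (1 - k ^ 2 * Real.sin θ ^ 2) :=
    continuous_const.div hsc fun θ => (hs0 θ).ne'
  have hg0 : ∀ θ : ℝ, 0 < 1 / Real.sqrt (1 - k ^ 2 * Real.sin θ ^ 2) := fun θ =>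
    one_div_pos.2 (hs0 θ)
  have hsg : ∀ θ : ℝ, Real.sqrt (1 - k ^ 2 * Real.sin θ ^ 2) =
      (1 - k ^ 2 * Real.sin θ ^ 2) * (1 / Real.sqrt (1 - k ^ 2 * Real.sin θ ^ 2)) := by
    intro θ
    have h1 := Real.mul_self_sqrt (hD θ).le
    have h2 := (hs0 θ).ne'
    rw [mul_one_div, eq_div_iff h2]
    exact h1
  have hK : 0 < ellK k :=
    intervalIntegral.intervalIntegral_pos_of_pos_on (hgc.intervalIntegrable _ _)
      (fun θ _ => hg0 θ) hπ
  have hgi := hgc.intervalIntegrable (μ := volume) 0 (π / 2)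
  have hsi := hsc.intervalIntegrable (μ := volume) 0 (π / 2)
  -- `K - E > 0`
  have hKE : ellK k - ellE k =
      ∫ θ in (0 : ℝ)..(π / 2), k ^ 2 * Real.sin θ ^ 2 *
        (1 / Real.sqrt (1 - k ^ 2 * Real.sin θ ^ 2)) := by
    unfold ellK ellE
    rw [← intervalIntegral.integral_sub hgi hsi]
    congr 1
    funext θ
    have h3 := hsg θ
    linarith
  have hEK : ellE k - (1 - k ^ 2) * ellK k =
      ∫ θ in (0 : ℝ)..(π / 2), k ^ 2 * Real.cos θ ^ 2 *
        (1 / Real.sqrt (1 - k ^ 2 * Real.sin θ ^ 2)) := by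
    unfold ellK ellE
    rw [← intervalIntegral.integral_const_mul, ← intervalIntegral.integral_sub hsi
      (hgi.const_mul _)]
    congr 1
    funext θ
    have h3 := hsg θ
    have h4 := Real.cos_sq' θ
    rw [h4]
    linarith
  have hpos1 : 0 < ellK k - ellE k := by
    rw [hKE]
    refine intervalIntegral.intervalIntegral_pos_of_pos_on ?_ ?_ hπ
    · exact (Continuous.mul (by fun_prop) hgc).intervalIntegrable _ _
    · intro θ hθ
      have h1 : 0 < Real.sin θ := Real.sin_pos_of_pos_of_lt_pi hθ.1 (by linarith [hθ.2, Real.pi_pos])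
      have := hg0 θ
      positivity
  have hpos2 : 0 < ellE k - (1 - k ^ 2) * ellK k := by
    rw [hEK]
    refine intervalIntegral.intervalIntegral_pos_of_pos_on ?_ ?_ hπ
    · exact (Continuous.mul (by fun_prop) hgc).intervalIntegrable _ _
    · intro θ hθ
      have h1 : 0 < Real.cos θ := Real.cos_pos_of_mem_Ioo ⟨by linarith [hθ.1, Real.pi_pos], hθ.2⟩
      have := hg0 θ
      positivity
  have ha : asq r R * ellK k = R ^ 2 * (ellK k - ellE k) := by
    unfold asq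
    rw [← hk]
    field_simp
  refine ⟨?_, ?_, ?_, ?_⟩
  · rw [← b7_img hr, integrableOn_image_iff_integrableOn_abs_deriv_smul measurableSet_Ioo
      (fun θ _ => b7_der r θ _) (b7_inj hr)]
    have h1 : IntegrableOn (fun θ : ℝ => 1 / R * (1 / Real.sqrt (1 - k ^ 2 * Real.sin θ ^ 2)))
        (Ioo 0 (π / 2)) :=
      ((hgc.const_mul (1 / R)).integrableOn_Icc (μ := volume) (a := 0) (b := π / 2)).mono_set
        Ioo_subset_Icc_self
    refine h1.congr_fun (fun θ hθ => ?_) measurableSet_Ioo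
    change _ = |r * Real.cos θ| * (1 / _)
    rw [mul_one_div]
    exact (b7_key hr hR hkR hk2 hθ).symm
  · rw [← b7_img hr, integral_image_eq_integral_abs_deriv_smul measurableSet_Ioo
      (fun θ _ => b7_der r θ _) (b7_inj hr)]
    have h1 : ∫ θ in Ioo 0 (π / 2), |r * Real.cos θ| •
        (((r * Real.sin θ) ^ 2 - asq r R) /
          Real.sqrt ((r ^ 2 - (r * Real.sin θ) ^ 2) * (R ^ 2 - (r * Real.sin θ) ^ 2))) =
        ∫ θ in Ioo 0 (π / 2), 1 / R * (R ^ 2 * (k ^ 2 * Real.sin θ ^ 2 *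
          (1 / Real.sqrt (1 - k ^ 2 * Real.sin θ ^ 2))) - asq r R *
          (1 / Real.sqrt (1 - k ^ 2 * Real.sin θ ^ 2))) := by
      refine setIntegral_congr_fun measurableSet_Ioo fun θ hθ => ?_
      have h2 := b7_key hr hR hkR hk2 hθ
      change |r * Real.cos θ| * (((r * Real.sin θ) ^ 2 - asq r R) /
          Real.sqrt ((r ^ 2 - (r * Real.sin θ) ^ 2) * (R ^ 2 - (r * Real.sin θ) ^ 2))) = _
      rw [mul_div_left_comm, h2]
      have h3 : (r * Real.sin θ) ^ 2 = R ^ 2 * (k ^ 2 * Real.sin θ ^ 2) := by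
        rw [hkR]; ring
      rw [h3]
      ring
    rw [h1, ← integral_Ioc_eq_integral_Ioo, ← intervalIntegral.integral_of_le hπ.le,
      intervalIntegral.integral_const_mul, intervalIntegral.integral_sub,
      intervalIntegral.integral_const_mul, intervalIntegral.integral_const_mul, ← hKE]
    · change 1 / R * (R ^ 2 * (ellK k - ellE k) - asq r R * ellK k) = 0
      rw [ha]
      ring
    · exact (Continuous.mul continuous_const (Continuous.mul (by fun_prop) hgc)).intervalIntegrable _ _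
    · exact (Continuous.mul continuous_const hgc).intervalIntegrable _ _
  · have h1 : 0 < asq r R * ellK k := by
      rw [ha]
      positivity
    exact pos_of_mul_pos_left h1 hK.le
  · have h1 : asq r R * ellK k < r ^ 2 * ellK k := by
      rw [ha, hkR]
      have h2 : 0 < R ^ 2 * (ellE k - (1 - k ^ 2) * ellK k) := by positivity
      nlinarith
    exact lt_of_mul_lt_mul_right h1 hK.le

end Pool.J6H16.RZ
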