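import Pool.Agent.J6H16.RZ.Stm

/-! # Project RZ: B8 from B8a, B8b, B8c -/

set_option autoImplicit false

open MeasureTheory Set Real
open scoped ENNReal

namespace Pool.J6H16.RZ

theorem b8 (h8a : B8a) (h8b : B8b) (h8c : B8c) : B8 := by
  intro f hf x hx
  have hX : 0 < ‖x‖ := norm_pos_iff.2 hx
  rw [h8b f hf x, ← h8c f hf ‖x‖ hX]
  have hG : Measurable (Function.uncurry fun h u : ℝ =>
      f (Real.sqrt (h ^ 2 + u ^ 2)) * (ENNReal.ofReal ((‖x‖ - h) ^ 2 + u ^ 2))⁻¹) := by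
    unfold Function.uncurry
    refine Measurable.mul (hf.comp ?_) ?_
    · fun_prop
    · fun_prop
  rw [← h8a _ hG]
  refine lintegral_congr fun y => ?_
  have h1 : Real.sqrt (y 1 ^ 2 + y 2 ^ 2) ^ 2 = y 1 ^ 2 + y 2 ^ 2 := Real.sq_sqrt (by positivity)
  have h2 : ‖y‖ = Real.sqrt (y 0 ^ 2 + Real.sqrt (y 1 ^ 2 + y 2 ^ 2) ^ 2) := by
    rw [h1, EuclideanSpace.norm_eq, Fin.sum_univ_three]
    simp [add_assoc]
  simp only [h1]
  rw [h2, h1]

end Pool.J6H16.RZ
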