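import Mathlib

/-!
Project RZ (helper16): MP_619363_an, the Riesz equilibrium measure of the shell {r <= |x| <= R} in R^3 for s = 2.

Density C (|x|^2 - a)/(|x| sqrt((|x|^2-r^2)(R^2-|x|^2))), a = R^2 (1 - E(r/R)/K(r/R)), C = 1/(pi^2 (r^2+R^2-2a)).
-/

open MeasureTheory Set Real
open scoped ENNReal

namespace Pool.J6H16.RZ

abbrev E3 := EuclideanSpace ℝ (Fin 3)

/-- the weight `sqrt ((ρ²-r²)(R²-ρ²))` -/
noncomputable def w (r R ρ : ℝ) : ℝ := Real.sqrt ((ρ ^ 2 - r ^ 2) * (R ^ 2 - ρ ^ 2))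

/-- complete elliptic integral of the first kind with modulus `k` -/
noncomputable def ellK (k : ℝ) : ℝ := ∫ t in (0 : ℝ)..(π / 2), 1 / Real.sqrt (1 - k ^ 2 * Real.sin t ^ 2)

/-- complete elliptic integral of the second kind with modulus `k` -/
noncomputable def ellE (k : ℝ) : ℝ := ∫ t in (0 : ℝ)..(π / 2), Real.sqrt (1 - k ^ 2 * Real.sin t ^ 2)

/-- the zero `a` of the density (as a function of `|x|²`) -/
noncomputable def asq (r R : ℝ) : ℝ := R ^ 2 * (1 - ellE (r / R) / ellK (r / R))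

/-- the kernel `1/|x-y|²`, infinite on the diagonal -/
noncomputable def ker (x y : E3) : ℝ≥0∞ := (ENNReal.ofReal (‖x - y‖ ^ 2))⁻¹

/-- `c a t = (t² - a)/(2t)` -/
noncomputable def c (a t : ℝ) : ℝ := (t ^ 2 - a) / (2 * t)

/-- `P a ρ x`, see B4 -/
noncomputable def P (a ρ x : ℝ) : ℝ :=
  (c a ρ + c a x) * Real.log (x + ρ) + (c a x - c a ρ) * Real.log |x - ρ| - x

/-! ### B0 : substitution `ρ = sqrt (m + κ cos θ)`, `m = (r²+R²)/2`, `κ = (R²-r²)/2`.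
Proof: `f θ = sqrt (m + κ cos θ)` is injective on `Ioo 0 π` with image `Ioo r R`, `w r R (f θ) = κ sin θ`
(as `(m+κcos-r²)(R²-m-κcos) = κ²(1+cos)(1-cos)`), `|f' θ| = κ sin θ/(2 f θ)`, hence `|f' θ| * (2 f θ / w) = 1`.
Use `integral_image_eq_integral_abs_deriv_smul`, `integrableOn_image_iff_integrableOn_abs_deriv_smul`. -/
def B0 : Prop := ∀ r R : ℝ, 0 < r → r < R → ∀ h : ℝ → ℝ,
  (IntegrableOn (fun ρ => h (ρ ^ 2) * (2 * ρ / w r R ρ)) (Ioo r R) ↔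
    IntegrableOn (fun θ => h ((r ^ 2 + R ^ 2) / 2 + (R ^ 2 - r ^ 2) / 2 * Real.cos θ)) (Ioo 0 π)) ∧
  (∫ ρ in Ioo r R, h (ρ ^ 2) * (2 * ρ / w r R ρ)) =
    ∫ θ in Ioo 0 π, h ((r ^ 2 + R ^ 2) / 2 + (R ^ 2 - r ^ 2) / 2 * Real.cos θ)

/-! ### B1 : total mass and first moment of the arcsine density; from B0 with `h = 1` and `h = id`. -/
def B1 : Prop := ∀ r R : ℝ, 0 < r → r < R →
  IntegrableOn (fun ρ => 2 * ρ / w r R ρ) (Ioo r R) ∧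
  (∫ ρ in Ioo r R, 2 * ρ / w r R ρ) = π ∧
  IntegrableOn (fun ρ => ρ ^ 2 * (2 * ρ / w r R ρ)) (Ioo r R) ∧
  (∫ ρ in Ioo r R, ρ ^ 2 * (2 * ρ / w r R ρ)) = π * ((r ^ 2 + R ^ 2) / 2)

/-! ### B2 : Stieltjes transform; from B0 with `h u = (u - y²)⁻¹` and `∫_0^π dθ/(A+κ cos θ) = π/sqrt(A²-κ²)` for `A > κ > 0`
(`A = m - y²`, `A² - κ² = (r²-y²)(R²-y²)`). Antiderivative, smooth on `[0,π]`, with `s = sqrt(A²-κ²)`:
`(1/s) (θ - 2 arctan (κ sin θ / (A + s + κ cos θ)))`. -/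
def B2 : Prop := ∀ r R y : ℝ, 0 < r → r < R → 0 ≤ y → y < r →
  IntegrableOn (fun ρ => (ρ ^ 2 - y ^ 2)⁻¹ * (2 * ρ / w r R ρ)) (Ioo r R) ∧
  (∫ ρ in Ioo r R, (ρ ^ 2 - y ^ 2)⁻¹ * (2 * ρ / w r R ρ)) =
    π / Real.sqrt ((r ^ 2 - y ^ 2) * (R ^ 2 - y ^ 2))

/-! ### B3 : the logarithmic potential of the arcsine density is constant; from B0 with `h u = log |u - y²|`,
`y² = m + κ cos φ`, `φ ∈ [0,π]`: `|u - y²| = κ |cos θ - cos φ| = 2 κ |sin((θ+φ)/2)| |sin((θ-φ)/2)|`. The integrand is even in θ;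
over `-π..π`: `∫ log|sin((θ±φ)/2)| dθ = 2 ∫_0^π log (sin u) du = -2π log 2` by periodicity of `log|sin u|` (period π) and
`integral_log_sin_zero_pi`. So `∫_0^π log|cos θ - cos φ| = -π log 2`. -/
def B3 : Prop := ∀ r R y : ℝ, 0 < r → r < R → r ≤ y → y ≤ R →
  IntegrableOn (fun ρ => Real.log |ρ ^ 2 - y ^ 2| * (2 * ρ / w r R ρ)) (Ioo r R) ∧
  (∫ ρ in Ioo r R, Real.log |ρ ^ 2 - y ^ 2| * (2 * ρ / w r R ρ)) = π * Real.log ((R ^ 2 - r ^ 2) / 4)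

/-! ### B4 : `P a ρ` is continuous on `(0,∞)` (`c a x - c a ρ = (x-ρ)(1/2 + a/(2xρ))` and `t log|t|` is continuous) and for
`x ≠ ρ` has the derivative `(1/2 + a/(2x²)) log |ρ²-x²|`; the integrand is interval integrable (log singularity:
`log|ρ²-y²| = log (ρ+y) + log|y-ρ|`, `intervalIntegral.intervalIntegrable_log'` shifted);
use `MeasureTheory.integral_eq_of_hasDerivAt_off_countable` (exceptional set `{ρ}`). -/
def B4 : Prop := ∀ a ρ r x : ℝ, 0 < r → r ≤ x → 0 < ρ →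
  IntervalIntegrable (fun y => (1 / 2 + a / (2 * y ^ 2)) * Real.log |ρ ^ 2 - y ^ 2|) volume r x ∧
  (∫ y in r..x, (1 / 2 + a / (2 * y ^ 2)) * Real.log |ρ ^ 2 - y ^ 2|) = P a ρ x - P a ρ r

/-! ### B5 : the potential of the density `(ρ²-a)/w` for the kernel `log ((x+ρ)/|x-ρ|)` is affine on `[r,R]`.
Proof from B1, B3, B4: `(ρ²-a)/w = c a ρ * (2ρ/w)`. For `ρ ≠ x`, `c a ρ * log((x+ρ)/|x-ρ|) = P a ρ x - c a x * log|ρ²-x²| + x`.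
Hence `c a ρ (log((x+ρ)/|x-ρ|) - log((r+ρ)/|r-ρ|)) = ∫_r^x (1/2 + a/(2y²)) log|ρ²-y²| dy - c a x log|ρ²-x²| + c a r log|ρ²-r²| + (x-r)`
for ρ in (r,R), ρ ≠ x. Integrate against `2ρ/w dρ`: with `ℓ = π log((R²-r²)/4)` and Fubini the right side is
`ℓ ∫_r^x (1/2+a/(2y²)) dy - c a x ℓ + c a r ℓ + π (x-r) = π (x-r)`, since `(c a)' y = 1/2 + a/(2y²)`.
Fubini: `|log|ρ²-y²|| ≤ 2 M - log|ρ²-y²|` with `M = |log (R²)|`... (`integrable_prod_iff`); integrability of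
`c a ρ log((x+ρ)/|x-ρ|) (2ρ/w)` directly: `log((x+ρ)/|x-ρ|) = 2 log(x+ρ) - log|ρ²-x²|`, `c a ρ` bounded on [r,R], B3. -/
def B5 : Prop := ∀ r R a x : ℝ, 0 < r → r < R → r ≤ x → x ≤ R →
  IntegrableOn (fun ρ => (ρ ^ 2 - a) / w r R ρ * Real.log ((x + ρ) / |x - ρ|)) (Ioo r R) ∧
  (∫ ρ in Ioo r R, (ρ ^ 2 - a) / w r R ρ * Real.log ((x + ρ) / |x - ρ|)) =
    (∫ ρ in Ioo r R, (ρ ^ 2 - a) / w r R ρ * Real.log ((r + ρ) / |r - ρ|)) + π * (x - r)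

/-! ### B6 : the value at `x = r`. From B1, B2: for ρ > r, `log((r+ρ)/|r-ρ|) = ∫_0^r 2ρ/(ρ²-y²) dy`; the integrand is nonnegative
(as `a ≤ r²`), so by Tonelli the integral is `∫_0^r (∫_r^R (ρ²-a)(ρ²-y²)⁻¹ (2ρ/w) dρ) dy`, and
`(ρ²-a)(ρ²-y²)⁻¹ = 1 + (y²-a)(ρ²-y²)⁻¹`, so the inner integral is `π + (y²-a) π/sqrt((r²-y²)(R²-y²))`. -/
def B6 : Prop := ∀ r R a : ℝ, 0 < r → r < R → a ≤ r ^ 2 →
  IntegrableOn (fun y => 1 / Real.sqrt ((r ^ 2 - y ^ 2) * (R ^ 2 - y ^ 2))) (Ioo 0 r) →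
  (∫ ρ in Ioo r R, (ρ ^ 2 - a) / w r R ρ * Real.log ((r + ρ) / |r - ρ|)) =
    π * r + π * ∫ y in Ioo 0 r, (y ^ 2 - a) / Real.sqrt ((r ^ 2 - y ^ 2) * (R ^ 2 - y ^ 2))

/-! ### B7 : the elliptic integrals. Substitution `y = r sin θ` on `Ioo 0 (π/2)`, `k = r/R`:
`dy / sqrt((r²-y²)(R²-y²)) = dθ / (R sqrt(1-k² sin²θ))`, `r² sin²θ = R² (1 - (1 - k² sin²θ))`. -/
def B7 : Prop := ∀ r R : ℝ, 0 < r → r < R →
  IntegrableOn (fun y => 1 / Real.sqrt ((r ^ 2 - y ^ 2) * (R ^ 2 - y ^ 2))) (Ioo 0 r) ∧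
  (∫ y in Ioo 0 r, (y ^ 2 - asq r R) / Real.sqrt ((r ^ 2 - y ^ 2) * (R ^ 2 - y ^ 2))) = 0 ∧
  0 < asq r R ∧ asq r R < r ^ 2

/-! ### B8a : cylindrical coordinates in `E3`. (`EuclideanSpace.volume_preserving_symm_measurableEquiv_toLp` or its variant, splitting
`Fin 3 → ℝ` as `ℝ × (Fin 2 → ℝ)` (`MeasureTheory.volume_preserving_piFinSuccAbove`) and `Fin 2 → ℝ` as `ℝ × ℝ`
(`volume_preserving_finTwoArrow`), Tonelli, and `lintegral_comp_polarCoord_symm`; the angle runs over `Ioo (-π) π`.) -/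
def B8a : Prop := ∀ G : ℝ → ℝ → ℝ≥0∞, Measurable (Function.uncurry G) →
  (∫⁻ y : E3, G (y 0) (Real.sqrt (y 1 ^ 2 + y 2 ^ 2))) =
    ∫⁻ h : ℝ, ∫⁻ u in Ioi (0 : ℝ), ENNReal.ofReal (2 * π * u) * G h u

/-! ### B8b : rotation. There is a linear isometry taking `x` to `‖x‖ e₀` (`reflection_sub` or
`Submodule.reflection_sub`), and it preserves the volume (`LinearIsometryEquiv.measurePreserving`). -/
def B8b : Prop := ∀ f : ℝ → ℝ≥0∞, Measurable f → ∀ x : E3,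
  (∫⁻ y : E3, f ‖y‖ * ker x y) =
    ∫⁻ y : E3, f ‖y‖ * (ENNReal.ofReal ((‖x‖ - y 0) ^ 2 + (y 1 ^ 2 + y 2 ^ 2)))⁻¹

/-! ### B8c : `∫_h ∫_{u>0} 2πu f(√(h²+u²)) /((X-h)²+u²) = ∫_{ρ>0} f(ρ) (2πρ/X) log((X+ρ)/|X-ρ|)`. For fixed h substitute
`ρ = √(h²+u²)` (a bijection from `(0,∞)` to `(|h|,∞)`, `ρ dρ = u du`, `(X-h)²+u² = X²-2Xh+ρ²`;
`lintegral_image_eq_lintegral_abs_deriv_mul`), swap (Tonelli), and for ρ ≠ X
`∫_{-ρ}^{ρ} dh/(X²-2Xh+ρ²) = (1/(2X)) log((X+ρ)²/(X-ρ)²)`. -/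
def B8c : Prop := ∀ f : ℝ → ℝ≥0∞, Measurable f → ∀ X : ℝ, 0 < X →
  (∫⁻ h : ℝ, ∫⁻ u in Ioi (0 : ℝ), ENNReal.ofReal (2 * π * u) *
      (f (Real.sqrt (h ^ 2 + u ^ 2)) * (ENNReal.ofReal ((X - h) ^ 2 + u ^ 2))⁻¹)) =
    ∫⁻ ρ in Ioi (0 : ℝ), f ρ * ENNReal.ofReal (2 * π * ρ / X * Real.log ((X + ρ) / |X - ρ|))

/-! ### B8 : from B8a, B8b, B8c. -/
def B8 : Prop := ∀ f : ℝ → ℝ≥0∞, Measurable f → ∀ x : E3, x ≠ 0 →
  (∫⁻ y : E3, f ‖y‖ * ker x y) =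
    ∫⁻ ρ in Ioi (0 : ℝ), f ρ * ENNReal.ofReal (2 * π * ρ / ‖x‖ * Real.log ((‖x‖ + ρ) / |‖x‖ - ρ|))

/-! ### B9 : radial integrals; `MeasureTheory.lintegral_fun_norm_addHaar`, `EuclideanSpace.volume_ball_fin_three`. -/
def B9 : Prop := ∀ f : ℝ → ℝ≥0∞, Measurable f →
  (∫⁻ y : E3, f ‖y‖) = ∫⁻ ρ in Ioi (0 : ℝ), f ρ * ENNReal.ofReal (4 * π * ρ ^ 2)

/-! ### B10a : `1/|x-y|² = ∫_0^∞ exp(-t|x-y|²) dt` (both sides infinite for x = y). -/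
def B10a : Prop := ∀ x y : E3,
  ker x y = ∫⁻ t in Ioi (0 : ℝ), ENNReal.ofReal (Real.exp (-t * ‖x - y‖ ^ 2))

/-! ### B10b : product of Gaussians: `‖x-z‖²+‖y-z‖² = 2‖z-(x+y)/2‖² + ‖x-y‖²/2` (parallelogram law),
`∫ exp(-4t‖z-m‖²) dz = (π/(4t))^(3/2)` (`GaussianFourier.integral_rexp_neg_mul_sq_norm`). -/
def B10b : Prop := ∀ t : ℝ, 0 < t → ∃ K : ℝ≥0∞, K ≠ 0 ∧ K ≠ ⊤ ∧ ∀ x y : E3,
  (∫⁻ z : E3, ENNReal.ofReal (Real.exp (-(2 * t) * ‖x - z‖ ^ 2)) * ENNReal.ofReal (Real.exp (-(2 * t) * ‖y - z‖ ^ 2))) =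
    K * ENNReal.ofReal (Real.exp (-t * ‖x - y‖ ^ 2))

/-- the Gaussian potential -/
noncomputable def gp (t : ℝ) (μ : Measure E3) (z : E3) : ℝ≥0∞ :=
  ∫⁻ x, ENNReal.ofReal (Real.exp (-(2 * t) * ‖x - z‖ ^ 2)) ∂μ

/-- mutual energy -/
noncomputable def en (μ ν : Measure E3) : ℝ≥0∞ := ∫⁻ x, ∫⁻ y, ker x y ∂ν ∂μ

/-! ### B10 : positive definiteness with its case of equality. From B10a, B10b, B11a and Tonelli,
`en μ ν = ∫_{t>0} K_t⁻¹ ∫_z gp t μ z * gp t ν z`; `2ab ≤ a²+b²` pointwise. If `2 en μ ν = en μ μ + en ν ν < ∞`, then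
for almost all t > 0 and almost all z `gp t μ z = gp t ν z`, and B11a gives `μ = ν`. -/
def B10 : Prop := ∀ μ ν : Measure E3, IsProbabilityMeasure μ → IsProbabilityMeasure ν →
  2 * en μ ν ≤ en μ μ + en ν ν ∧
  (en μ μ + en ν ν ≠ ⊤ → 2 * en μ ν = en μ μ + en ν ν → μ = ν)

/-! ### B11a : injectivity of Gaussian smoothing (one t). Both sides are densities (up to one constant) of the convolutions of μ, ν with a
centred Gaussian measure on E3, whose characteristic function never vanishes: `charFun_conv`, `Measure.ext_of_charFun`. Or directly: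
integrate `exp(i⟨ξ,z⟩)` against both sides (Fubini): `charFun μ ξ * G ξ = charFun ν ξ * G ξ` with
`G ξ = ∫ exp(i⟨ξ,z⟩ - 2t‖z‖²) dz ≠ 0` (`GaussianFourier`). -/
def B11a : Prop := ∀ t : ℝ, 0 < t → ∀ μ ν : Measure E3, IsProbabilityMeasure μ → IsProbabilityMeasure ν →
  (∀ᵐ z : E3, gp t μ z = gp t ν z) → μ = ν

/-- the density of the equilibrium measure -/
noncomputable def dens (r R : ℝ) (ρ : ℝ) : ℝ :=
  if r < ρ ∧ ρ < R then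
    (ρ ^ 2 - asq r R) / (π ^ 2 * (r ^ 2 + R ^ 2 - 2 * asq r R) * (ρ * w r R ρ))
  else 0

/-- the equilibrium measure -/
noncomputable def eqm (r R : ℝ) : Measure E3 := volume.withDensity fun x => ENNReal.ofReal (dens r R ‖x‖)

/-! ### B12 : total mass one. B9 and B1: `4πρ² (ρ²-a)/(π² D ρ w) = (2/(π D)) (ρ²-a) (2ρ/w)`, `D = r²+R²-2a`;
the integral is `(2/(π D)) (π (r²+R²)/2 - a π) = 1`. -/
def B12 : Prop := ∀ r R : ℝ, 0 < r → r < R → IsProbabilityMeasure (eqm r R) ∧ eqm r R {x | r ≤ ‖x‖ ∧ ‖x‖ ≤ R}ᶜ = 0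

/-! ### B13 : constant potential. B8, B5, B6, B7: `∫ ker x y d eqm(y) = (2π/(X π² D)) ∫ (ρ²-a)/w log((X+ρ)/|X-ρ|) dρ = 2/D`, `X = ‖x‖`. -/
def B13 : Prop := ∀ r R : ℝ, 0 < r → r < R → ∀ x : E3, r ≤ ‖x‖ → ‖x‖ ≤ R →
  (∫⁻ y, ker x y ∂(eqm r R)) = ENNReal.ofReal (2 / (r ^ 2 + R ^ 2 - 2 * asq r R))

end Pool.J6H16.RZ
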