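import Mathlib
import Pool.Agent.J6H16.RZ.Stm

/-!
Project RZ, module B8a (helper8): cylindrical coordinates.
-/

set_option autoImplicit false

open MeasureTheory Set Real
open scoped ENNReal

namespace Pool.J6H16.RZ

private lemma b8a_mp : MeasurePreserving (fun y : E3 => ((y 0, (y 1, y 2)) : ℝ × (ℝ × ℝ))) volume volume := by
  have h1 : MeasurePreserving (fun y : E3 => (WithLp.ofLp y : Fin 3 → ℝ)) volume volume :=
    PiLp.volume_preserving_ofLp (Fin 3)
  have h2 : MeasurePreserving (MeasurableEquiv.piFinSuccAbove (fun _ : Fin 3 => ℝ) 0) volume volume :=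
    volume_preserving_piFinSuccAbove (fun _ : Fin 3 => ℝ) 0
  have h3 : MeasurePreserving (@MeasurableEquiv.finTwoArrow ℝ _) volume volume :=
    volume_preserving_finTwoArrow ℝ
  have h4 : MeasurePreserving (Prod.map (id : ℝ → ℝ) (@MeasurableEquiv.finTwoArrow ℝ _)) volume volume :=
    (MeasurePreserving.id (volume : Measure ℝ)).prod h3
  exact h4.comp (h2.comp h1)

private lemma b8a_polar (g : ℝ → ℝ≥0∞) (hg : Measurable g) :
    (∫⁻ q : ℝ × ℝ, g (Real.sqrt (q.1 ^ 2 + q.2 ^ 2))) =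
      ∫⁻ u in Ioi (0 : ℝ), ENNReal.ofReal (2 * π * u) * g u := by
  rw [← lintegral_comp_polarCoord_symm]
  have h1 : (∫⁻ p in polarCoord.target, ENNReal.ofReal p.1 •
      g (Real.sqrt ((polarCoord.symm p).1 ^ 2 + (polarCoord.symm p).2 ^ 2))) =
      ∫⁻ p in Ioi (0 : ℝ) ×ˢ Ioo (-π) π, ENNReal.ofReal p.1 * g p.1 := by
    have h2 : polarCoord.target = Ioi (0 : ℝ) ×ˢ Ioo (-π) π := rfl
    rw [h2]
    refine setLIntegral_congr_fun (measurableSet_Ioi.prod measurableSet_Ioo) ?_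
    intro p hp
    have h0 : 0 < p.1 := hp.1
    have h3 : (polarCoord.symm p).1 ^ 2 + (polarCoord.symm p).2 ^ 2 = p.1 ^ 2 := by
      rw [polarCoord_symm_apply]
      have := Real.cos_sq_add_sin_sq p.2
      calc (p.1 * Real.cos p.2) ^ 2 + (p.1 * Real.sin p.2) ^ 2
          = p.1 ^ 2 * (Real.cos p.2 ^ 2 + Real.sin p.2 ^ 2) := by ring
        _ = p.1 ^ 2 := by rw [this, mul_one]
    simp only
    rw [h3, Real.sqrt_sq h0.le, smul_eq_mul]
  rw [h1, Measure.volume_eq_prod, ← Measure.prod_restrict, lintegral_prod]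
  · refine lintegral_congr fun u => ?_
    simp only
    rw [lintegral_const, Measure.restrict_apply MeasurableSet.univ, univ_inter, Real.volume_Ioo]
    have h4 : ENNReal.ofReal (2 * π * u) = ENNReal.ofReal (2 * π) * ENNReal.ofReal u :=
      ENNReal.ofReal_mul (by positivity)
    rw [show π - -π = 2 * π by ring, h4]
    ring
  · exact ((ENNReal.measurable_ofReal.comp measurable_fst).mul (hg.comp measurable_fst)).aemeasurable

theorem b8a : B8a := by
  intro G hG
  have hm : Measurable fun q : ℝ × ℝ => Real.sqrt (q.1 ^ 2 + q.2 ^ 2) := by fun_prop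
  have hF : Measurable fun p : ℝ × (ℝ × ℝ) => G p.1 (Real.sqrt (p.2.1 ^ 2 + p.2.2 ^ 2)) :=
    hG.comp (measurable_fst.prodMk (hm.comp measurable_snd))
  have h1 := b8a_mp.lintegral_comp hF
  have h2 : (∫⁻ y : E3, G (y 0) (Real.sqrt (y 1 ^ 2 + y 2 ^ 2))) =
      ∫⁻ p : ℝ × (ℝ × ℝ), G p.1 (Real.sqrt (p.2.1 ^ 2 + p.2.2 ^ 2)) := h1
  rw [h2, Measure.volume_eq_prod, lintegral_prod _ hF.aemeasurable]
  refine lintegral_congr fun h => ?_
  exact b8a_polar (G h) (hG.comp measurable_prodMk_left)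

end Pool.J6H16.RZ
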