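import Pool.Agent.J6H16.RZ.Stm

/-!
# Module RZ-B8b: rotation invariance of the Riesz potential
-/

set_option autoImplicit false

open MeasureTheory Set Real
open scoped ENNReal

namespace Pool.J6H16.RZ

/-- a linear isometry which maps `x` to a given vector of the same norm -/
private theorem exists_isom (x z : E3) (h : ‖x‖ = ‖z‖) : ∃ T : E3 ≃ₗᵢ[ℝ] E3, T x = z :=
  ⟨Submodule.reflection (ℝ ∙ (x - z))ᗮ, Submodule.reflection_sub h⟩

theorem b8b : B8b := by
  intro f _ x
  have hz : ‖x‖ = ‖(EuclideanSpace.single (0 : Fin 3) ‖x‖ : E3)‖ := by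
    simp
  obtain ⟨T, hT⟩ := exists_isom x _ hz
  have h1 : (∫⁻ y : E3, f ‖y‖ * ker x y) =
      ∫⁻ y : E3, (fun y' : E3 => f ‖y'‖ * ker (T x) y') (T y) := by
    refine lintegral_congr fun y => ?_
    have h2 : ‖T x - T y‖ = ‖x - y‖ := by rw [← map_sub, T.norm_map]
    simp only [ker, T.norm_map, h2]
  have h4 := T.measurePreserving.lintegral_comp_emb T.toHomeomorph.measurableEmbedding
    (fun y' : E3 => f ‖y'‖ * ker (T x) y')
  refine h1.trans (h4.trans ?_)
  refine lintegral_congr fun y => ?_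
  have h3 : ‖(EuclideanSpace.single (0 : Fin 3) ‖x‖ : E3) - y‖ ^ 2 =
      (‖x‖ - y 0) ^ 2 + (y 1 ^ 2 + y 2 ^ 2) := by
    rw [EuclideanSpace.real_norm_sq_eq, Fin.sum_univ_three]
    simp
    ring
  simp only [ker, hT, h3]

end Pool.J6H16.RZ
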