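import Pool.Agent.J6H16.RZ.Stm

set_option autoImplicit false

open MeasureTheory Set Real
open scoped ENNReal

namespace Pool.J6H16.RZ

private theorem sub1 (f : ℝ → ℝ≥0∞) (X h : ℝ) :
    (∫⁻ u in Ioi (0 : ℝ), ENNReal.ofReal (2 * π * u) *
      (f (Real.sqrt (h ^ 2 + u ^ 2)) * (ENNReal.ofReal ((X - h) ^ 2 + u ^ 2))⁻¹)) =
    ∫⁻ ρ in Ioi |h|, ENNReal.ofReal (2 * π * ρ) *
      (f ρ * (ENNReal.ofReal (X ^ 2 - 2 * X * h + ρ ^ 2))⁻¹) := by
  have himg : (fun u : ℝ => Real.sqrt (h ^ 2 + u ^ 2)) '' Ioi (0 : ℝ) = Ioi |h| := by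
    ext ρ
    simp only [mem_image, mem_Ioi]
    constructor
    · rintro ⟨u, hu, rfl⟩
      rw [← Real.sqrt_sq_eq_abs]
      exact Real.sqrt_lt_sqrt (sq_nonneg h) (by nlinarith [pow_pos hu 2])
    · intro hρ
      have h0 : 0 ≤ |h| := abs_nonneg h
      have h1 : h ^ 2 < ρ ^ 2 := by rw [← sq_abs h]; nlinarith
      refine ⟨Real.sqrt (ρ ^ 2 - h ^ 2), Real.sqrt_pos.2 (by linarith), ?_⟩
      rw [Real.sq_sqrt (by linarith)]
      rw [show h ^ 2 + (ρ ^ 2 - h ^ 2) = ρ ^ 2 by ring]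
      exact Real.sqrt_sq (by linarith)
  rw [← himg]
  have hpos : ∀ u : ℝ, 0 < u → 0 < h ^ 2 + u ^ 2 := fun u hu => by positivity
  rw [lintegral_image_eq_lintegral_abs_deriv_mul measurableSet_Ioi
    (f' := fun u => u / Real.sqrt (h ^ 2 + u ^ 2))]
  · refine setLIntegral_congr_fun measurableSet_Ioi fun u hu => ?_
    have hu : 0 < u := hu
    have hs : 0 < Real.sqrt (h ^ 2 + u ^ 2) := Real.sqrt_pos.2 (hpos u hu)
    show _ = ENNReal.ofReal |u / Real.sqrt (h ^ 2 + u ^ 2)| * (ENNReal.ofReal (2 * π * Real.sqrt (h ^ 2 + u ^ 2)) *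
      (f (Real.sqrt (h ^ 2 + u ^ 2)) *
        (ENNReal.ofReal (X ^ 2 - 2 * X * h + Real.sqrt (h ^ 2 + u ^ 2) ^ 2))⁻¹))
    rw [← mul_assoc (ENNReal.ofReal |u / Real.sqrt (h ^ 2 + u ^ 2)|), ← ENNReal.ofReal_mul (abs_nonneg _),
      abs_of_pos (div_pos hu hs),
      Real.sq_sqrt (hpos u hu).le]
    rw [show u / Real.sqrt (h ^ 2 + u ^ 2) * (2 * π * Real.sqrt (h ^ 2 + u ^ 2)) = 2 * π * u by
      field_simp]
    rw [show X ^ 2 - 2 * X * h + (h ^ 2 + u ^ 2) = (X - h) ^ 2 + u ^ 2 by ring]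
  · intro u hu
    have hu : 0 < u := hu
    have h1 : HasDerivAt (fun u : ℝ => h ^ 2 + u ^ 2) (2 * u) u := by
      simpa using (hasDerivAt_pow 2 u).const_add (h ^ 2)
    have h2 := (h1.sqrt (hpos u hu).ne')
    have h3 : 2 * u / (2 * Real.sqrt (h ^ 2 + u ^ 2)) = u / Real.sqrt (h ^ 2 + u ^ 2) := by
      rw [mul_div_mul_left _ _ (two_ne_zero)]
    rw [h3] at h2
    exact h2.hasDerivWithinAt
  · intro u hu v hv huv
    have hu : 0 < u := hu
    have hv : 0 < v := hv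
    have h1 : h ^ 2 + u ^ 2 = h ^ 2 + v ^ 2 :=
      (Real.sqrt_inj (hpos u hu).le (hpos v hv).le).1 huv
    have h2 : u ^ 2 = v ^ 2 := by linarith
    exact (pow_left_inj₀ hu.le hv.le two_ne_zero).1 h2

private theorem inner1 (X ρ : ℝ) (hX : 0 < X) (hρ : 0 < ρ) (hne : ρ ≠ X) :
    (∫⁻ h in Ioo (-ρ) ρ, (ENNReal.ofReal (X ^ 2 - 2 * X * h + ρ ^ 2))⁻¹) =
      ENNReal.ofReal (1 / X * Real.log ((X + ρ) / |X - ρ|)) := by
  have hd : 0 < (X - ρ) ^ 2 := by
    have : X - ρ ≠ 0 := sub_ne_zero.2 hne.symm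
    positivity
  have hp : ∀ h ∈ Icc (-ρ) ρ, 0 < X ^ 2 - 2 * X * h + ρ ^ 2 := by
    intro h hh
    nlinarith [hh.1, hh.2, mul_le_mul_of_nonneg_left hh.2 hX.le]
  have hcont : ContinuousOn (fun h : ℝ => (X ^ 2 - 2 * X * h + ρ ^ 2)⁻¹) (Icc (-ρ) ρ) := by
    refine ContinuousOn.inv₀ (by fun_prop) fun h hh => (hp h hh).ne'
  have hint : IntervalIntegrable (fun h : ℝ => (X ^ 2 - 2 * X * h + ρ ^ 2)⁻¹) volume (-ρ) ρ := by
    apply ContinuousOn.intervalIntegrable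
    rwa [uIcc_of_le (by linarith)]
  have hftc : ∫ h in (-ρ)..ρ, (X ^ 2 - 2 * X * h + ρ ^ 2)⁻¹ =
      (-(1 / (2 * X)) * Real.log (X ^ 2 - 2 * X * ρ + ρ ^ 2)) -
        (-(1 / (2 * X)) * Real.log (X ^ 2 - 2 * X * (-ρ) + ρ ^ 2)) := by
    refine intervalIntegral.integral_eq_sub_of_hasDerivAt
      (f := fun h => -(1 / (2 * X)) * Real.log (X ^ 2 - 2 * X * h + ρ ^ 2)) ?_ hint
    intro h hh
    rw [uIcc_of_le (by linarith)] at hh
    have h0 := hp h hh
    have h1 : HasDerivAt (fun h : ℝ => X ^ 2 - 2 * X * h + ρ ^ 2) (-(2 * X)) h := by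
      have := (((hasDerivAt_id h).const_mul (2 * X)).const_sub (X ^ 2)).add_const (ρ ^ 2)
      simpa using this
    have h2 := (h1.log h0.ne').const_mul (-(1 / (2 * X)))
    have h3 : -(1 / (2 * X)) * (-(2 * X) / (X ^ 2 - 2 * X * h + ρ ^ 2)) =
        (X ^ 2 - 2 * X * h + ρ ^ 2)⁻¹ := by
      have h4 := h0.ne'
      have h5 := hX.ne'
      rw [neg_mul, neg_div, mul_neg, neg_neg, one_div, div_eq_mul_inv, ← mul_assoc,
        inv_mul_cancel₀ (by positivity), one_mul]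
    rw [h3] at h2
    exact h2
  have hval : ∫ h in (-ρ)..ρ, (X ^ 2 - 2 * X * h + ρ ^ 2)⁻¹ =
      1 / X * Real.log ((X + ρ) / |X - ρ|) := by
    rw [hftc]
    have e1 : X ^ 2 - 2 * X * ρ + ρ ^ 2 = |X - ρ| ^ 2 := by rw [sq_abs]; ring
    have e2 : X ^ 2 - 2 * X * (-ρ) + ρ ^ 2 = (X + ρ) ^ 2 := by ring
    have hab : |X - ρ| ≠ 0 := abs_ne_zero.2 (sub_ne_zero.2 hne.symm)
    rw [e1, e2, Real.log_pow, Real.log_pow, Real.log_div (by positivity) hab]
    push_cast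
    field_simp
    ring
  rw [← hval, intervalIntegral.integral_of_le (by linarith), integral_Ioc_eq_integral_Ioo,
    ofReal_integral_eq_lintegral_ofReal]
  · refine setLIntegral_congr_fun measurableSet_Ioo fun h hh => ?_
    exact (ENNReal.ofReal_inv_of_pos (hp h ⟨hh.1.le, hh.2.le⟩)).symm
  · exact (hcont.integrableOn_Icc).mono_set Ioo_subset_Icc_self
  · refine (ae_restrict_iff' measurableSet_Ioo).2 (Filter.Eventually.of_forall fun h hh => ?_)
    exact (inv_pos.2 (hp h ⟨hh.1.le, hh.2.le⟩)).le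

theorem b8c : B8c := by
  intro f hf X hX
  simp_rw [sub1 f X]
  set G : ℝ → ℝ → ℝ≥0∞ := fun h ρ => ENNReal.ofReal (2 * π * ρ) *
      (f ρ * (ENNReal.ofReal (X ^ 2 - 2 * X * h + ρ ^ 2))⁻¹) with hG
  have hmeas : Measurable (Function.uncurry G) := by
    rw [hG]
    unfold Function.uncurry
    refine Measurable.mul (by fun_prop) (Measurable.mul (hf.comp measurable_snd) ?_)
    exact Measurable.inv (by fun_prop)
  have hS : MeasurableSet {p : ℝ × ℝ | |p.1| < p.2} :=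
    measurableSet_lt (by fun_prop) measurable_snd
  have h1 : ∀ h : ℝ, (∫⁻ ρ in Ioi |h|, G h ρ) =
      ∫⁻ ρ, {p : ℝ × ℝ | |p.1| < p.2}.indicator (Function.uncurry G) (h, ρ) := by
    intro h
    rw [← lintegral_indicator measurableSet_Ioi]
    refine lintegral_congr fun ρ => ?_
    by_cases hρ : |h| < ρ
    · rw [indicator_of_mem (show ρ ∈ Ioi |h| from hρ), indicator_of_mem (show (h, ρ) ∈ {p : ℝ × ℝ | |p.1| < p.2} from hρ)]
      rfl
    · rw [indicator_of_notMem (show ρ ∉ Ioi |h| from hρ), indicator_of_notMem (show (h, ρ) ∉ {p : ℝ × ℝ | |p.1| < p.2} from hρ)]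
  rw [lintegral_congr h1]
  rw [lintegral_lintegral_swap (f := fun h ρ =>
    {p : ℝ × ℝ | |p.1| < p.2}.indicator (Function.uncurry G) (h, ρ)) (by
      exact (hmeas.indicator hS).aemeasurable), ← lintegral_indicator measurableSet_Ioi]
  have hneX : ∀ᵐ ρ : ℝ, ρ ≠ X := by
    rw [ae_iff]
    simp
  refine lintegral_congr_ae ?_
  filter_upwards [hneX] with ρ hρX
  by_cases hρ : 0 < ρ
  · rw [indicator_of_mem (show ρ ∈ Ioi (0 : ℝ) from hρ)]
    have h2 : ∀ h : ℝ, {p : ℝ × ℝ | |p.1| < p.2}.indicator (Function.uncurry G) (h, ρ) =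
        (Ioo (-ρ) ρ).indicator (fun h => G h ρ) h := by
      intro h
      by_cases hh : |h| < ρ
      · rw [indicator_of_mem (show (h, ρ) ∈ {p : ℝ × ℝ | |p.1| < p.2} from hh), indicator_of_mem (show h ∈ Ioo (-ρ) ρ from abs_lt.1 hh)]
        rfl
      · rw [indicator_of_notMem (show (h, ρ) ∉ {p : ℝ × ℝ | |p.1| < p.2} from hh), indicator_of_notMem (show h ∉ Ioo (-ρ) ρ from fun hc => hh (abs_lt.2 hc))]
    simp_rw [h2]
    rw [lintegral_indicator measurableSet_Ioo]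
    have hc : Measurable fun h : ℝ => (ENNReal.ofReal (X ^ 2 - 2 * X * h + ρ ^ 2))⁻¹ :=
      Measurable.inv (by fun_prop)
    simp only [hG]
    rw [lintegral_const_mul _ (hc.const_mul _), lintegral_const_mul _ hc, inner1 X ρ hX hρ hρX]
    rw [mul_left_comm, ← ENNReal.ofReal_mul (by positivity)]
    congr 2
    ring
  · rw [indicator_of_notMem (show ρ ∉ Ioi (0 : ℝ) from hρ)]
    have h2 : ∀ h : ℝ, {p : ℝ × ℝ | |p.1| < p.2}.indicator (Function.uncurry G) (h, ρ) = 0 := by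
      intro h
      refine indicator_of_notMem ?_ _
      intro hc
      have hc : |h| < ρ := hc
      exact hρ (lt_of_le_of_lt (abs_nonneg h) hc)
    simp_rw [h2]
    simp

end Pool.J6H16.RZ
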