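import Pool.Agent.J6H16.RZ.Stm

/-! Project RZ (helper16), module B9 (helper10): radial integrals in `ℝ³`. -/

set_option autoImplicit false

open MeasureTheory Set Real
open scoped ENNReal

namespace Pool.J6H16.RZ

/-- **B9** -/
theorem b9 : B9 := by
  intro f hf
  have hdim : Module.finrank ℝ E3 = 3 := by simp [E3]
  have h1 : (∫⁻ y : E3, f ‖y‖) = ∫⁻ x : ({(0 : E3)}ᶜ : Set E3), f ‖x.1‖ ∂((volume : Measure E3).comap (↑)) := by
    rw [lintegral_subtype_comap (measurableSet_singleton _).compl (fun x : E3 => f ‖x‖), restrict_compl_singleton]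
  have h2 : ∫⁻ x : ({(0 : E3)}ᶜ : Set E3), f ‖x.1‖ ∂((volume : Measure E3).comap (↑)) =
      ∫⁻ x, f x.2 ∂((volume : Measure E3).toSphere.prod (Measure.volumeIoiPow (Module.finrank ℝ E3 - 1))) := by
    have h := (volume : Measure E3).measurePreserving_homeomorphUnitSphereProd.lintegral_comp_emb
      (Homeomorph.measurableEmbedding _) (fun x => f x.2)
    rw [← h]
    refine lintegral_congr fun x => ?_
    rw [homeomorphUnitSphereProd_apply_snd_coe]
  have h3 : ∫⁻ x, f x.2 ∂((volume : Measure E3).toSphere.prod (Measure.volumeIoiPow (Module.finrank ℝ E3 - 1))) =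
      (volume : Measure E3).toSphere univ * ∫⁻ x : Ioi (0 : ℝ), f x ∂(Measure.volumeIoiPow (Module.finrank ℝ E3 - 1)) := by
    rw [lintegral_prod (fun x : Metric.sphere (0 : E3) 1 × Ioi (0 : ℝ) => f x.2) (by fun_prop)]
    show ∫⁻ _ : Metric.sphere (0 : E3) 1, (∫⁻ y : Ioi (0 : ℝ), f y ∂(Measure.volumeIoiPow (Module.finrank ℝ E3 - 1)))
      ∂(volume : Measure E3).toSphere = _
    rw [lintegral_const, mul_comm]
  have h4 : ∫⁻ x : Ioi (0 : ℝ), f x ∂(Measure.volumeIoiPow (Module.finrank ℝ E3 - 1)) =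
      ∫⁻ ρ in Ioi (0 : ℝ), ENNReal.ofReal (ρ ^ 2) * f ρ := by
    rw [hdim, Measure.volumeIoiPow, lintegral_withDensity_eq_lintegral_mul _ (by fun_prop) (by fun_prop)]
    exact lintegral_subtype_comap measurableSet_Ioi (fun ρ : ℝ => ENNReal.ofReal (ρ ^ 2) * f ρ)
  rw [h1, h2, h3, h4, Measure.toSphere_apply_univ, hdim, EuclideanSpace.volume_ball_fin_three,
    ← lintegral_const_mul _ (by fun_prop)]
  refine setLIntegral_congr_fun measurableSet_Ioi fun ρ hρ => ?_
  have h5 : ((3 : ℕ) : ℝ≥0∞) * (ENNReal.ofReal 1 ^ 3 * ENNReal.ofReal (π * 4 / 3)) = ENNReal.ofReal (4 * π) := by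
    rw [ENNReal.ofReal_one, one_pow, one_mul, ← ENNReal.ofReal_natCast, ← ENNReal.ofReal_mul (by positivity)]
    congr 1
    push_cast
    ring
  show _ * (ENNReal.ofReal (ρ ^ 2) * f ρ) = f ρ * ENNReal.ofReal (4 * π * ρ ^ 2)
  have h6 : ENNReal.ofReal (4 * π * ρ ^ 2) = ENNReal.ofReal (4 * π) * ENNReal.ofReal (ρ ^ 2) :=
    ENNReal.ofReal_mul (by positivity)
  rw [h5, h6]
  ring

end Pool.J6H16.RZ
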