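import Pool.Agent.J6H16.RZ.Stm

/-! # Project RZ: the minimum property from the constant potential and positive definiteness -/

set_option autoImplicit false

open MeasureTheory Set Real
open scoped ENNReal

namespace Pool.J6H16.RZ

theorem en_const (W : ℝ≥0∞) (A : Set E3) (μ ν : Measure E3) [IsProbabilityMeasure ν] (hν : ν Aᶜ = 0)
    (h : ∀ x ∈ A, (∫⁻ y, ker x y ∂μ) = W) : en ν μ = W := by
  unfold en
  have h1 : ∀ᵐ x ∂ν, (∫⁻ y, ker x y ∂μ) = W := by
    have h2 : ∀ᵐ x ∂ν, x ∈ A := by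
      rw [ae_iff]
      exact hν
    filter_upwards [h2] with x hx using h x hx
  rw [lintegral_congr_ae h1]
  simp

theorem fin (h10 : B10) (W : ℝ≥0∞) (hW : W ≠ ⊤) (A : Set E3) (μ ν : Measure E3)
    [IsProbabilityMeasure μ] [IsProbabilityMeasure ν] (hμ : μ Aᶜ = 0) (hν : ν Aᶜ = 0)
    (h : ∀ x ∈ A, (∫⁻ y, ker x y ∂μ) = W) :
    en μ μ = W ∧ W ≤ en ν ν ∧ (en ν ν = W → ν = μ) := by
  have h1 : en μ μ = W := en_const W A μ μ hμ h
  have h2 : en ν μ = W := en_const W A μ ν hν h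
  obtain ⟨h3, h4⟩ := h10 ν μ inferInstance inferInstance
  rw [h1, h2] at h3
  rw [h1, h2] at h4
  refine ⟨h1, ?_, ?_⟩
  · rw [two_mul] at h3
    exact (ENNReal.add_le_add_iff_right hW).1 h3
  · intro h5
    rw [h5] at h4
    exact h4 (ENNReal.add_ne_top.2 ⟨hW, hW⟩) (two_mul W)

end Pool.J6H16.RZ
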