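import Pool.Agent.J6H16.RZ.Stm2

/-! # Project RY: the integrals `J_k` in terms of the complete elliptic integrals `K` and `E` -/

set_option autoImplicit false

open MeasureTheory Set Real

namespace Pool.J6H16.RZ

namespace JR

theorem img {r : ℝ} (hr : 0 < r) :
    (fun θ : ℝ => r * Real.sin θ) '' Ioo 0 (π / 2) = Ioo 0 r := by
  ext y
  constructor
  · rintro ⟨θ, ⟨h1, h2⟩, rfl⟩
    have h3 : 0 < Real.sin θ := Real.sin_pos_of_pos_of_lt_pi h1 (by linarith [Real.pi_pos])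
    have h4 : Real.sin θ < 1 := by
      rw [← Real.sin_pi_div_two]
      exact Real.sin_lt_sin_of_lt_of_le_pi_div_two (by linarith [Real.pi_pos]) le_rfl h2
    exact ⟨mul_pos hr h3, by nlinarith⟩
  · rintro ⟨h1, h2⟩
    have h3 : 0 < y / r := div_pos h1 hr
    have h4 : y / r < 1 := (div_lt_one hr).2 h2
    refine ⟨Real.arcsin (y / r), ⟨Real.arcsin_pos.2 h3, Real.arcsin_lt_pi_div_two.2 h4⟩, ?_⟩
    change r * Real.sin (Real.arcsin (y / r)) = y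
    rw [Real.sin_arcsin (by linarith) h4.le]
    field_simp

theorem inj {r : ℝ} (hr : 0 < r) :
    InjOn (fun θ : ℝ => r * Real.sin θ) (Ioo 0 (π / 2)) := by
  intro x hx y hy h
  have h1 : Real.sin x = Real.sin y := mul_left_cancel₀ hr.ne' h
  exact Real.injOn_sin ⟨by linarith [hx.1, Real.pi_pos], hx.2.le⟩
    ⟨by linarith [hy.1, Real.pi_pos], hy.2.le⟩ h1

theorem der (r : ℝ) (θ : ℝ) (s : Set ℝ) :
    HasDerivWithinAt (fun θ : ℝ => r * Real.sin θ) (r * Real.cos θ) s θ :=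
  ((Real.hasDerivAt_sin θ).const_mul r).hasDerivWithinAt

theorem dpos {k : ℝ} (hk : k ^ 2 < 1) (θ : ℝ) : 0 < 1 - k ^ 2 * Real.sin θ ^ 2 := by
  have h1 := Real.sin_sq_le_one θ
  nlinarith [sq_nonneg k, sq_nonneg (Real.sin θ)]

theorem key {r R k : ℝ} (hr : 0 < r) (hR : 0 < R) (hk : r = k * R) (hk2 : k ^ 2 < 1)
    {θ : ℝ} (hθ : θ ∈ Ioo 0 (π / 2)) :
    |r * Real.cos θ| / Real.sqrt ((r ^ 2 - (r * Real.sin θ) ^ 2) * (R ^ 2 - (r * Real.sin θ) ^ 2)) =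
      1 / R * (1 / Real.sqrt (1 - k ^ 2 * Real.sin θ ^ 2)) := by
  have hc : 0 < Real.cos θ := Real.cos_pos_of_mem_Ioo ⟨by linarith [hθ.1, Real.pi_pos], hθ.2⟩
  have hD := dpos hk2 θ
  have h1 : (r ^ 2 - (r * Real.sin θ) ^ 2) * (R ^ 2 - (r * Real.sin θ) ^ 2) =
      (r * Real.cos θ) ^ 2 * (R ^ 2 * (1 - k ^ 2 * Real.sin θ ^ 2)) := by
    have h2 : Real.cos θ ^ 2 = 1 - Real.sin θ ^ 2 := Real.cos_sq' θ
    rw [mul_pow r (Real.cos θ), h2]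
    rw [hk]
    ring
  have hs : 0 < Real.sqrt (1 - k ^ 2 * Real.sin θ ^ 2) := Real.sqrt_pos.2 hD
  have hrc : 0 < r * Real.cos θ := mul_pos hr hc
  rw [h1, Real.sqrt_mul (sq_nonneg _), Real.sqrt_mul (sq_nonneg _), Real.sqrt_sq hrc.le,
    Real.sqrt_sq hR.le, abs_of_pos hrc]
  field_simp

end JR

open JR in
theorem j_zero {r R : ℝ} (hr : 0 < r) (hrR : r < R) : Jn r R 0 = ellK (r / R) / R ∧ 0 < ellK (r / R) := by
  have hR : 0 < R := hr.trans hrR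
  obtain ⟨k, hk⟩ : ∃ k, k = r / R := ⟨_, rfl⟩
  have hkR : r = k * R := by rw [hk]; field_simp
  have hk0 : 0 < k := by rw [hk]; exact div_pos hr hR
  have hk1 : k < 1 := by rw [hk]; exact (div_lt_one hR).2 hrR
  have hk2 : k ^ 2 < 1 := by nlinarith
  have hπ : (0 : ℝ) < π / 2 := by positivity
  have hD := dpos hk2
  have hsc : Continuous fun θ : ℝ => Real.sqrt (1 - k ^ 2 * Real.sin θ ^ 2) := by fun_prop
  have hs0 : ∀ θ : ℝ, 0 < Real.sqrt (1 - k ^ 2 * Real.sin θ ^ 2) := fun θ => Real.sqrt_pos.2 (hD θ)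
  have hgc : Continuous fun θ : ℝ => 1 / Real.sqrt (1 - k ^ 2 * Real.sin θ ^ 2) :=
    continuous_const.div hsc fun θ => (hs0 θ).ne'
  have hg0 : ∀ θ : ℝ, 0 < 1 / Real.sqrt (1 - k ^ 2 * Real.sin θ ^ 2) := fun θ =>
    one_div_pos.2 (hs0 θ)
  have hK : 0 < ellK k :=
    intervalIntegral.intervalIntegral_pos_of_pos_on (hgc.intervalIntegrable _ _)
      (fun θ _ => hg0 θ) hπ
  rw [← hk]
  refine ⟨?_, hK⟩
  unfold Jn
  rw [← img hr, integral_image_eq_integral_abs_deriv_smul measurableSet_Ioo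
      (fun θ _ => der r θ _) (inj hr)]
  have h1 : ∫ θ in Ioo 0 (π / 2), |r * Real.cos θ| •
      ((r * Real.sin θ) ^ (2 * 0) /
        Real.sqrt ((r ^ 2 - (r * Real.sin θ) ^ 2) * (R ^ 2 - (r * Real.sin θ) ^ 2))) =
      ∫ θ in Ioo 0 (π / 2), 1 / R * (1 / Real.sqrt (1 - k ^ 2 * Real.sin θ ^ 2)) := by
    refine setIntegral_congr_fun measurableSet_Ioo fun θ hθ => ?_
    have h2 := key hr hR hkR hk2 hθ
    change |r * Real.cos θ| * ((r * Real.sin θ) ^ (2 * 0) /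
        Real.sqrt ((r ^ 2 - (r * Real.sin θ) ^ 2) * (R ^ 2 - (r * Real.sin θ) ^ 2))) = _
    rw [mul_zero, pow_zero, mul_one_div, h2]
  rw [h1, ← integral_Ioc_eq_integral_Ioo, ← intervalIntegral.integral_of_le hπ.le,
    intervalIntegral.integral_const_mul]
  change 1 / R * ellK k = ellK k / R
  ring

theorem j_int (hb7 : B7) {r R : ℝ} (hr : 0 < r) (hrR : r < R) (n : ℕ) :
    IntegrableOn (fun y => y ^ (2 * n) / Real.sqrt ((r ^ 2 - y ^ 2) * (R ^ 2 - y ^ 2))) (Ioo 0 r) := by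
  obtain ⟨h1, -, -, -⟩ := hb7 r R hr hrR
  have hm : Measurable fun y : ℝ => y ^ (2 * n) := by fun_prop
  have h4 : IntegrableOn (fun y => y ^ (2 * n) * (1 / Real.sqrt ((r ^ 2 - y ^ 2) * (R ^ 2 - y ^ 2)))) (Ioo 0 r) := by
    refine Integrable.bdd_mul (c := r ^ (2 * n)) h1 hm.aestronglyMeasurable ?_
    refine (ae_restrict_iff' measurableSet_Ioo).2 (Filter.Eventually.of_forall fun y hy => ?_)
    rw [Real.norm_of_nonneg (pow_nonneg hy.1.le _)]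
    exact pow_le_pow_left₀ hy.1.le hy.2.le _
  refine h4.congr (Filter.Eventually.of_forall fun y => ?_)
  show y ^ (2 * n) * (1 / Real.sqrt ((r ^ 2 - y ^ 2) * (R ^ 2 - y ^ 2))) =
    y ^ (2 * n) / Real.sqrt ((r ^ 2 - y ^ 2) * (R ^ 2 - y ^ 2))
  rw [mul_one_div]

theorem j_one (hb7 : B7) {r R : ℝ} (hr : 0 < r) (hrR : r < R) :
    Jn r R 1 = R * (ellK (r / R) - ellE (r / R)) := by
  have hR : 0 < R := hr.trans hrR
  obtain ⟨h1, h2, -, -⟩ := hb7 r R hr hrR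
  obtain ⟨h0, hK⟩ := j_zero hr hrR
  have h5 : (∫ y in Ioo 0 r, (y ^ 2 - asq r R) / Real.sqrt ((r ^ 2 - y ^ 2) * (R ^ 2 - y ^ 2))) =
      Jn r R 1 - asq r R * Jn r R 0 := by
    unfold Jn
    rw [← integral_const_mul, ← integral_sub (j_int hb7 hr hrR 1) ((j_int hb7 hr hrR 0).const_mul _)]
    refine integral_congr_ae (Filter.Eventually.of_forall fun y => ?_)
    show (y ^ 2 - asq r R) / Real.sqrt ((r ^ 2 - y ^ 2) * (R ^ 2 - y ^ 2)) =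
      y ^ (2 * 1) / Real.sqrt ((r ^ 2 - y ^ 2) * (R ^ 2 - y ^ 2)) -
      asq r R * (y ^ (2 * 0) / Real.sqrt ((r ^ 2 - y ^ 2) * (R ^ 2 - y ^ 2)))
    rw [mul_one, mul_zero, pow_zero]
    ring
  rw [h5, h0] at h2
  have h6 : Jn r R 1 = asq r R * (ellK (r / R) / R) := by linarith
  rw [h6]
  unfold asq
  field_simp

theorem j_rec (hb7 : B7) {r R : ℝ} (hr : 0 < r) (hrR : r < R) (k : ℕ) :
    (2 * (k : ℝ) + 3) * Jn r R (k + 2) =
      (2 * k + 2) * (r ^ 2 + R ^ 2) * Jn r R (k + 1) - (2 * k + 1) * (r ^ 2 * R ^ 2) * Jn r R k := by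
  have hR : 0 < R := hr.trans hrR
  have i0 := j_int hb7 hr hrR k
  have i1 := j_int hb7 hr hrR (k + 1)
  have i2 := j_int hb7 hr hrR (k + 2)
  have hint : IntegrableOn (fun y => (2 * (k : ℝ) + 1) * (r ^ 2 * R ^ 2) *
      (y ^ (2 * k) / Real.sqrt ((r ^ 2 - y ^ 2) * (R ^ 2 - y ^ 2))) -
      (2 * k + 2) * (r ^ 2 + R ^ 2) * (y ^ (2 * (k + 1)) / Real.sqrt ((r ^ 2 - y ^ 2) * (R ^ 2 - y ^ 2))) +
      (2 * k + 3) * (y ^ (2 * (k + 2)) / Real.sqrt ((r ^ 2 - y ^ 2) * (R ^ 2 - y ^ 2)))) (Ioo 0 r) :=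
    ((i0.const_mul _).sub (i1.const_mul _)).add (i2.const_mul _)
  have hftc := intervalIntegral.integral_eq_sub_of_hasDerivAt_of_le hr.le
    (f := fun y => y ^ (2 * k + 1) * Real.sqrt ((r ^ 2 - y ^ 2) * (R ^ 2 - y ^ 2)))
    (f' := fun y => (2 * (k : ℝ) + 1) * (r ^ 2 * R ^ 2) *
      (y ^ (2 * k) / Real.sqrt ((r ^ 2 - y ^ 2) * (R ^ 2 - y ^ 2))) -
      (2 * k + 2) * (r ^ 2 + R ^ 2) * (y ^ (2 * (k + 1)) / Real.sqrt ((r ^ 2 - y ^ 2) * (R ^ 2 - y ^ 2))) +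
      (2 * k + 3) * (y ^ (2 * (k + 2)) / Real.sqrt ((r ^ 2 - y ^ 2) * (R ^ 2 - y ^ 2))))
    (by fun_prop) (by
      intro y hy
      have hy0 : 0 < y := hy.1
      have hp : 0 < (r ^ 2 - y ^ 2) * (R ^ 2 - y ^ 2) := by
        have hyr : y < r := hy.2
        refine mul_pos ?_ ?_ <;> nlinarith
      have hs := Real.sqrt_pos.2 hp
      have hss := Real.sq_sqrt hp.le
      have h1 : HasDerivAt (fun y : ℝ => (r ^ 2 - y ^ 2) * (R ^ 2 - y ^ 2))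
          (-(2 * y) * (R ^ 2 - y ^ 2) + (r ^ 2 - y ^ 2) * (-(2 * y))) y := by
        have h2 : HasDerivAt (fun y : ℝ => r ^ 2 - y ^ 2) (-(2 * y)) y := by
          simpa using ((hasDerivAt_id y).pow 2).const_sub (r ^ 2)
        have h3 : HasDerivAt (fun y : ℝ => R ^ 2 - y ^ 2) (-(2 * y)) y := by
          simpa using ((hasDerivAt_id y).pow 2).const_sub (R ^ 2)
        exact h2.mul h3
      have h4 := (hasDerivAt_pow (2 * k + 1) y).mul (h1.sqrt hp.ne')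
      refine h4.congr_deriv ?_
      have e1 : 2 * k + 1 - 1 = 2 * k := by omega
      rw [e1]
      have e2 : y ^ (2 * (k + 1)) = y ^ (2 * k) * y ^ 2 := by ring
      have e3 : y ^ (2 * (k + 2)) = y ^ (2 * k) * y ^ 4 := by ring
      have e4 : y ^ (2 * k + 1) = y ^ (2 * k) * y := by ring
      rw [e2, e3, e4]
      push_cast
      generalize Real.sqrt ((r ^ 2 - y ^ 2) * (R ^ 2 - y ^ 2)) = S at *
      generalize y ^ (2 * k) = A at *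
      field_simp
      rw [hss]
      ring)
    (by
      rw [intervalIntegrable_iff_integrableOn_Ioo_of_le hr.le]
      exact hint)
  rw [intervalIntegral.integral_of_le hr.le, integral_Ioc_eq_integral_Ioo] at hftc
  have e5 := integral_sub (i0.const_mul ((2 * (k : ℝ) + 1) * (r ^ 2 * R ^ 2))) (i1.const_mul ((2 * (k : ℝ) + 2) * (r ^ 2 + R ^ 2)))
  have e6 : (∫ y in Ioo 0 r, ((2 * (k : ℝ) + 1) * (r ^ 2 * R ^ 2) *
      (y ^ (2 * k) / Real.sqrt ((r ^ 2 - y ^ 2) * (R ^ 2 - y ^ 2))) -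
      (2 * k + 2) * (r ^ 2 + R ^ 2) * (y ^ (2 * (k + 1)) / Real.sqrt ((r ^ 2 - y ^ 2) * (R ^ 2 - y ^ 2))) +
      (2 * k + 3) * (y ^ (2 * (k + 2)) / Real.sqrt ((r ^ 2 - y ^ 2) * (R ^ 2 - y ^ 2))))) =
      (∫ y in Ioo 0 r, ((2 * (k : ℝ) + 1) * (r ^ 2 * R ^ 2) *
      (y ^ (2 * k) / Real.sqrt ((r ^ 2 - y ^ 2) * (R ^ 2 - y ^ 2))) -
      (2 * k + 2) * (r ^ 2 + R ^ 2) * (y ^ (2 * (k + 1)) / Real.sqrt ((r ^ 2 - y ^ 2) * (R ^ 2 - y ^ 2))))) +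
      ∫ y in Ioo 0 r, (2 * k + 3) * (y ^ (2 * (k + 2)) / Real.sqrt ((r ^ 2 - y ^ 2) * (R ^ 2 - y ^ 2))) :=
    integral_add ((i0.const_mul ((2 * (k : ℝ) + 1) * (r ^ 2 * R ^ 2))).sub
      (i1.const_mul ((2 * (k : ℝ) + 2) * (r ^ 2 + R ^ 2)))) (i2.const_mul (2 * (k : ℝ) + 3))
  rw [e6, e5, integral_const_mul, integral_const_mul, integral_const_mul] at hftc
  have h0 : r ^ (2 * k + 1) * Real.sqrt ((r ^ 2 - r ^ 2) * (R ^ 2 - r ^ 2)) -
      (0 : ℝ) ^ (2 * k + 1) * Real.sqrt ((r ^ 2 - 0 ^ 2) * (R ^ 2 - 0 ^ 2)) = 0 := by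
    simp
  rw [h0] at hftc
  unfold Jn
  linarith

end Pool.J6H16.RZ
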