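import Pool.Agent.J6H16.RZ.Stm

/-!
Project RY (helper16): MP_619363_an for all odd d = 2n+3, s = d-1 = 2n+2 (n = 0 is done: ShellInThreeSpace).
Density C p(|x|²)/(|x|^(2n+1) sqrt((|x|²-r²)(R²-|x|²))), p monic of degree n+1 with the Toeplitz conditions `Cond`.
All statements were checked numerically for n ≤ 4.
-/

open MeasureTheory Set Real
open scoped ENNReal

namespace Pool.J6H16.RZ

/-- `F_k(X)` -/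
noncomputable def Fk (r R : ℝ) (k : ℤ) (X : ℝ) : ℝ :=
  ∫ ρ in Ioo r R, (ρ ^ 2) ^ k / w r R ρ * Real.log ((X + ρ) / |X - ρ|)

/-- moments of the arcsine density -/
noncomputable def Mo (r R : ℝ) (k : ℤ) : ℝ := ∫ ρ in Ioo r R, (ρ ^ 2) ^ k * (2 * ρ / w r R ρ)

/-- elliptic integrals -/
noncomputable def Jn (r R : ℝ) (n : ℕ) : ℝ :=
  ∫ y in Ioo 0 r, y ^ (2 * n) / Real.sqrt ((r ^ 2 - y ^ 2) * (R ^ 2 - y ^ 2))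

/-- the entries of the Toeplitz matrix -/
noncomputable def JJ (r R : ℝ) (k : ℤ) : ℝ :=
  if 0 ≤ k then Jn r R k.natAbs else Jn r R k.natAbs / (r * R) ^ (2 * k.natAbs)

/-- `C(2n,n)/4^n` -/
noncomputable def ac (n : ℕ) : ℝ := (Nat.centralBinom n : ℝ) / 4 ^ n

/-- Copson's integral -/
noncomputable def Nn (n : ℕ) (X ρ : ℝ) : ℝ :=
  ∫ v in Ioo 0 ((min X ρ) ^ 2), v ^ n / Real.sqrt ((X ^ 2 - v) * (ρ ^ 2 - v))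

noncomputable def wn (n : ℕ) : ℝ := ∑ j ∈ Finset.range (n + 1), ac j * ac (n - j) / (2 * j + 1)

/-- the conditions on `p` -/
def Cond (r R : ℝ) (n : ℕ) (p : Polynomial ℝ) : Prop :=
  p.Monic ∧ p.natDegree = n + 1 ∧
    ∀ i : ℕ, i ≤ n → ∑ j ∈ Finset.range (n + 2), p.coeff j * JJ r R ((j : ℤ) - (i : ℤ)) = 0

/-- exponent `2(n-i)-1` -/
def q (n i : ℕ) : ℕ := 2 * (n - i) - 1

/-! ### Y1 : generalization of B5 (same proof; helper75's B5.lean, helper92's B4.lean; hypotheses B1, B3). `c t = E(t²)/(2t)`,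
`P x = (c ρ + c x) log(x+ρ) + (c x - c ρ) log|x-ρ| - ∫_r^x D(ρ²,y²) dy` is continuous on `(0,∞)`, and for `x ≠ ρ` its derivative is
`c'(x) log|ρ²-x²|`, `c'(x) = E'(x²) - E(x²)/(2x²)`, as `(c ρ 2ρ - c x 2x)/(ρ²-x²) = D(ρ²,x²)`. Integrate against `2ρ/w`, Fubini, B3. -/
def Y1 : Prop := ∀ r R X : ℝ, 0 < r → r < R → r ≤ X → X ≤ R → ∀ (E E' : ℝ → ℝ) (D : ℝ → ℝ → ℝ),
  (∀ u, 0 < u → HasDerivAt E (E' u) u) → ContinuousOn E' (Ioi 0) →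
  ContinuousOn (Function.uncurry D) (Ioi 0 ×ˢ Ioi 0) →
  (∀ u v, 0 < u → 0 < v → E u - E v = (u - v) * D u v) →
  IntegrableOn (fun ρ => E (ρ ^ 2) / w r R ρ * Real.log ((X + ρ) / |X - ρ|)) (Ioo r R) ∧
  (∫ ρ in Ioo r R, E (ρ ^ 2) / w r R ρ * Real.log ((X + ρ) / |X - ρ|)) =
    (∫ ρ in Ioo r R, E (ρ ^ 2) / w r R ρ * Real.log ((r + ρ) / |r - ρ|)) +
      ∫ Y in r..X, ∫ ρ in Ioo r R, D (ρ ^ 2) (Y ^ 2) * (2 * ρ / w r R ρ)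

/-! ### Y2 : from Y1 (and B1) with `E u = u^k`. For k = n ≥ 0: `D u v = ∑_{i<n} u^i v^(n-1-i)`; for k = -n:
`D u v = -∑_{i<n} u^(-(i+1)) v^(-(n-i))`. Then integrate the powers of Y (`q n i = 2(n-i)-1`, for i < n). -/
def Y2 : Prop := ∀ r R X : ℝ, 0 < r → r < R → r ≤ X → X ≤ R →
  (∀ k : ℤ, IntegrableOn (fun ρ => (ρ ^ 2) ^ k / w r R ρ * Real.log ((X + ρ) / |X - ρ|)) (Ioo r R)) ∧
  (∀ n : ℕ, Fk r R n X = Fk r R n r +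
    ∑ i ∈ Finset.range n, Mo r R i * (X ^ q n i - r ^ q n i) / (q n i : ℝ)) ∧
  (∀ n : ℕ, Fk r R (-(n : ℤ)) X = Fk r R (-(n : ℤ)) r +
    ∑ i ∈ Finset.range n, Mo r R (-((i : ℤ) + 1)) * ((X ^ q n i)⁻¹ - (r ^ q n i)⁻¹) / (q n i : ℝ))

/-! ### Y3 : the value at r (like B6, helper35's B6.lean; hypotheses B1, B2, B7): `log((r+ρ)/|r-ρ|) = ∫_0^r 2ρ/(ρ²-y²) dy`,
`ρ^(2n)/(ρ²-y²) = ∑_{i<n} ρ^(2i) y^(2(n-1-i)) + y^(2n)/(ρ²-y²)`, Tonelli (everything is nonnegative), B2. -/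
def Y3 : Prop := ∀ r R : ℝ, 0 < r → r < R → ∀ n : ℕ,
  IntegrableOn (fun y => y ^ (2 * n) / Real.sqrt ((r ^ 2 - y ^ 2) * (R ^ 2 - y ^ 2))) (Ioo 0 r) ∧
  Fk r R n r = π * Jn r R n + ∑ i ∈ Finset.range n, Mo r R i * r ^ q n i / (q n i : ℝ)

/-! ### Y4 : inversion: substitute `ρ = rR/σ` (maps `(r,R)` to itself): `w(ρ) = (rR/σ²) w(σ)`, `dρ = rR/σ² dσ`,
`(r+ρ)/(ρ-r) = (R+σ)/(R-σ)`. -/
def Y4 : Prop := ∀ r R : ℝ, 0 < r → r < R → ∀ n : ℕ,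
  Fk r R (-(n : ℤ)) r = ((r * R) ^ (2 * n))⁻¹ * Fk r R n R ∧
  Mo r R (-((n : ℤ) + 1)) = ((r * R) ^ (2 * n + 1))⁻¹ * Mo r R n

/-! ### Y5 : from Y2, Y3, Y4: the second formula at X: `F_{-n}(X) = (rR)^(-2n) F_n(R) + ∑ Mo(-(i+1)) (X^(-q) - r^(-q))/q`,
`F_n(R) = π J_n + ∑ Mo(i) R^q/q`, and `(rR)^(-2n) Mo(i) R^q = Mo(-(i+1)) r^(-q)`, `q = 2(n-i)-1`. -/
def Y5 : Prop := ∀ r R X : ℝ, 0 < r → r < R → r ≤ X → X ≤ R → ∀ n : ℕ,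
  Fk r R n X = π * Jn r R n + ∑ i ∈ Finset.range n, Mo r R i * X ^ q n i / (q n i : ℝ) ∧
  Fk r R (-(n : ℤ)) X = π * (Jn r R n / (r * R) ^ (2 * n)) +
    ∑ i ∈ Finset.range n, Mo r R (-((i : ℤ) + 1)) * (X ^ q n i)⁻¹ / (q n i : ℝ)

/-! ### Y6 : Copson's formula. For `0 < v < min²` and `S = sqrt((X²-v)(ρ²-v))` the two solutions `h ∈ (-ρ,ρ)` of
`X²(ρ²-h²) = v (X²+ρ²-2Xh)` are `h± = (v ± S)/X`; `h₊` maps `(0,min²)` decreasingly onto `(min²/X, ρ)`, `h₋` increasingly onto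
`(-ρ, min²/X)`; `X²+ρ²-2Xh± = X²+ρ²-2v ∓ 2S > 0`, `|dh±/dv| = (X²+ρ²-2Xh±)/(2SX)`. So
`(ρ²-h²)^n/(X²+ρ²-2Xh)^(n+1) |dh| = (v/X²)^n dv/(2SX)` on both branches (`lintegral_image_eq_lintegral_abs_deriv_mul` twice). -/
def Y6 : Prop := ∀ (n : ℕ) (X ρ : ℝ), 0 < X → 0 < ρ → X ≠ ρ →
  IntegrableOn (fun v => v ^ n / Real.sqrt ((X ^ 2 - v) * (ρ ^ 2 - v))) (Ioo 0 ((min X ρ) ^ 2)) ∧
  (∫⁻ h in Ioo (-ρ) ρ, ENNReal.ofReal ((ρ ^ 2 - h ^ 2) ^ n / (X ^ 2 + ρ ^ 2 - 2 * X * h) ^ (n + 1))) =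
    ENNReal.ofReal (Nn n X ρ / X ^ (2 * n + 1))

/-! ### Y7 : `N_0 = log((X+ρ)/|X-ρ|)` (antiderivative of `1/sqrt((X²-v)(ρ²-v))`: `-log (√(X²-v)+√(ρ²-v))·2`, at `v = min²`: `-log|X²-ρ²|`), and
`N_{n+1}(X) = X² N_n(X) - ∫_0^X Y N_n(Y) dY`: by Tonelli `∫_0^X Y N_n(Y) dY = ∫_0^(min²) v^n (ρ²-v)^(-1/2) ∫_{√v}^X Y (Y²-v)^(-1/2) dY dv
= ∫ v^n (ρ²-v)^(-1/2) (X²-v)^(1/2) dv`, and `X² - (X²-v) = v`. -/
def Y7 : Prop := ∀ X ρ : ℝ, 0 < X → 0 < ρ → X ≠ ρ →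
  Nn 0 X ρ = Real.log ((X + ρ) / |X - ρ|) ∧
  ∀ n : ℕ, IntervalIntegrable (fun Y => Y * Nn n Y ρ) volume 0 X ∧
    Nn (n + 1) X ρ = X ^ 2 * Nn n X ρ - ∫ Y in (0 : ℝ)..X, Y * Nn n Y ρ

/-- `S_j(X) = ∫_0^X Y^(2j) dL(Y)`, `L = log((X+ρ)/|X-ρ|)` -/
noncomputable def Sj (j : ℕ) (X ρ : ℝ) : ℝ :=
  ρ ^ (2 * j) * Real.log ((X + ρ) / |X - ρ|) -
    2 * ∑ i ∈ Finset.range j, ρ ^ (2 * i + 1) * X ^ q j i / (q j i : ℝ)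

/-! ### Y7b : `∫_0^X Y^(2i+1) S_j(Y) dY = (X^(2i+2) S_j(X) - S_{i+j+1}(X))/(2i+2)`. The right side is continuous in X (its log term is
`(X^(2i+2)-ρ^(2i+2)) ρ^(2j) L`), 0 at 0, and has the right derivative for `X ≠ ρ` (`S_j' = X^(2j) 2ρ/(ρ²-X²)`: use
`ρ^(2j) - (ρ²-X²) ∑_{i<j} ρ^(2i) X^(2(j-1-i)) = X^(2j)`). `integral_eq_of_hasDerivAt_off_countable`; integrability: `log' `. -/
def Y7b : Prop := ∀ (i j : ℕ) (X ρ : ℝ), 0 < X → 0 < ρ → X ≠ ρ →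
  IntervalIntegrable (fun Y => Y ^ (2 * i + 1) * Sj j Y ρ) volume 0 X ∧
  (∫ Y in (0 : ℝ)..X, Y ^ (2 * i + 1) * Sj j Y ρ) = (X ^ (2 * i + 2) * Sj j X ρ - Sj (i + j + 1) X ρ) / (2 * i + 2)

/-! ### Y9a, Y9b : combinatorics. `(2i+2) a_{i+1} = (2i+1) a_i` (`Nat.succ_mul_centralBinom_succ`). Y9a: `c_n = ∑ a_j a_{n-j}`;
`∑ j a_j a_{n-j} = (n/2) c_n` by symmetry; `∑_{i≤n} (2i+2) a_{i+1} a_{n-i} = ∑ (2i+1) a_i a_{n-i}` gives `(n+1) c_{n+1} = (n+1) c_n`.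
Y9b: e.g. from `∑_{j≤n} a_j a_{n-j}/(x+j) = ∏_{l=1}^n (x+l-1/2) / ∏_{k=0}^n (x+k)` (partial fractions; induction or Lagrange) at `x = -l-1/2`. -/
def Y9a : Prop := ∀ n : ℕ, ∑ j ∈ Finset.range (n + 1), ac j * ac (n - j) = 1

def Y9b : Prop := ∀ n l : ℕ, l < n →
  ∑ j ∈ Finset.range (n + 1), ac j * ac (n - j) / (2 * (j : ℝ) - 2 * (l : ℝ) - 1) = 0

/-! ### Y8 : closed form, from Y7, Y7b, Y9a by induction on n: with `c_{n,j} = a_j a_{n-j}` (j ↔ S_j), Y7 and Y7b give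
`N_{n+1} = ∑_j c_{n,j} (X^(2(n-j)+2) S_j - (X^(2(n-j)+2) S_j - S_{n+1})/(2(n-j)+2))
= ∑_j a_j a_{n-j} (2(n-j)+1)/(2(n-j)+2) X^(2(n+1-j)) S_j + (∑_j a_j a_{n-j}/(2(n-j)+2)) S_{n+1}`,
`a_i (2i+1)/(2i+2) = a_{i+1}`, `a_i/(2i+2) = a_i - a_{i+1}`, so the last coefficient is `1 - (1 - a_{n+1} a_0) = a_{n+1}` by Y9a. -/
def Y8 : Prop := ∀ (n : ℕ) (X ρ : ℝ), 0 < X → 0 < ρ → X ≠ ρ →
  Nn n X ρ = ∑ j ∈ Finset.range (n + 1), ac j * ac (n - j) * X ^ (2 * (n - j)) * Sj j X ρ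

/-! ### Y10 : the potential, pure algebra from Y2 (integrability), Y5, Y8, Y9b, B1 (and integrability of `(ρ²)^k * (2ρ/w)` on `Ioo r R` for all
k, which follows from B1 by boundedness of `(ρ²)^k`). With `k = j' - n` for the coefficient `p_{j'}`, `0 ≤ j' ≤ n+1`:
`∫ (ρ²)^k/w N_n(X,ρ) dρ = ∑_j a_j a_{n-j} X^(2(n-j)) S_{k,j}`, `S_{k,j} = F_{k+j}(X) - ∑_{i<j} Mo(k+i) X^(q j i)/(q j i)`. By Y5
(for `X ∈ [r,R]`): `S_{1,j} = π JJ(j+1) + π X^(2j+1)/(2j+1)` (`Mo 0 = π`), `S_{0,j} = π JJ(j)`, and for `k = -e < 0`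
`S_{-e,j} = π JJ(j-e) - ∑_{l<e} Mo(l-e) X^(2j-2l-1)/(2j-2l-1)` (integer exponents; the terms i with `k+i ≥ 0` cancel). The sum over j of
`a_j a_{n-j}/(2j-2l-1)` is 0 for `l < e ≤ n` (Y9b), and `∑_{j'} p_{j'} JJ(j'-n+j) = 0` (Cond with `i = n - j`). What remains is
`π X^(2n+1) ∑_j a_j a_{n-j}/(2j+1)`. -/
def Y10 : Prop := ∀ (r R : ℝ) (n : ℕ) (p : Polynomial ℝ), 0 < r → r < R → Cond r R n p →
  ∀ X : ℝ, r ≤ X → X ≤ R →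
  IntegrableOn (fun ρ => p.eval (ρ ^ 2) / (ρ ^ (2 * n) * w r R ρ) * Nn n X ρ) (Ioo r R) ∧
  (∫ ρ in Ioo r R, p.eval (ρ ^ 2) / (ρ ^ (2 * n) * w r R ρ) * Nn n X ρ) = π * wn n * X ^ (2 * n + 1)

/-! ### Y11 : existence and uniqueness of p (hypothesis Y3 for integrability). The matrix `JJ(j-i)`, `0 ≤ i,j ≤ n`, is nonsingular: with
`c = rR`, `η_j = ξ_j c^j`, `t = y²/c ∈ (0,1)`: if `∑_j ξ_j JJ(j-i) = 0` for all i, then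
`0 = ∫_0^r (∑_{i,j} η_i η_j t^|i-j|) dy/sqrt(..)`, and `∑ η_i η_j t^|i-j| = s_0² + (1-t²) ∑_{k=1}^n s_k²`, `s_k = ∑_{i≥k} t^(i-k) η_i`
(`η_k = s_k - t s_{k+1}`, `∑_{i,j} = ∑_k η_k (2 s_k - η_k) = ∑_k (s_k² - t² s_{k+1}²)`), which is `≥ (1-t²) η_n²`; so `η_n = 0`, and then
induction downwards. -/
def Y11 : Prop := ∀ (r R : ℝ) (n : ℕ), 0 < r → r < R → ∃! p : Polynomial ℝ, Cond r R n p

/-! ### Y12 : p has no zero in `(r²,R²)` (hypothesis Y3 for integrability). Suppose `p(x) = 0`; `p = (X - x) g`, coefficients `γ_0..γ_n` of g,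
`γ_n = 1`. Cond: `∑_j γ_j (x JJ(j-i) - JJ(j+1-i)) = 0` for `0 ≤ i ≤ n`. Put `c = rR`, `N_{ij} = x JJ(i+j-n) - JJ(i+j+1-n)` (i replaced by n-i):
for `i+j ≥ n`: `N_{ij} = ∫ (x-y²) y^(2(i+j-n)) /√`, for `i+j < n`: `N_{ij} = -∫ (c²-xy²) c^(-2(n-i-j)) y^(2(n-i-j)-2)/√`. Let `ε_i = -1` for
`2i < n`, `ε_i = 1` for `2i ≥ n`. `0 = ∑_i ε_i γ_i ∑_j N_{ij} γ_j = ∫ (x-y²) (∑_{2i≥n} γ_i y^(2i-n))²/√ + ∫ (c²-xy²) (∑_{2i<n} γ_i c^(-(n-2i)) y^(n-2i-1))²/√`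
(the mixed terms cancel since N is symmetric). As `x > r² > y²` and `c² > x y²`, the polynomial `∑_{2i≥n} γ_i y^(2i-n)` vanishes on `(0,r)`: contradiction to `γ_n = 1`. -/
def Y12 : Prop := ∀ (r R : ℝ) (n : ℕ) (p : Polynomial ℝ), 0 < r → r < R → Cond r R n p →
  ∀ u : ℝ, r ^ 2 < u → u < R ^ 2 → p.eval u ≠ 0

/-! ### Y13 : positivity from Y10 (at X = r) and Y12: no zero, so constant sign (IVT); if negative, the integral in Y10 would be `≤ 0`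
(`Nn ≥ 0`), but `π wn n r^(2n+1) > 0`. -/
def Y13 : Prop := ∀ (r R : ℝ) (n : ℕ) (p : Polynomial ℝ), 0 < r → r < R → Cond r R n p →
  ∀ u : ℝ, r ^ 2 < u → u < R ^ 2 → 0 < p.eval u

/-! ## Geometry -/

abbrev ED (n : ℕ) := EuclideanSpace ℝ (Fin (2 * n + 3))

/-- the kernel `|x-y|^(-(2n+2))` -/
noncomputable def kerD (n : ℕ) (x y : ED n) : ℝ≥0∞ := (ENNReal.ofReal (‖x - y‖ ^ (2 * n + 2)))⁻¹

/-! ### Z1 : cylindrical coordinates, generalizes B8a (helper8). Split `Fin (2n+3) → ℝ` by `measurePreserving_piFinSuccAbove` at 0, and use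
`lintegral_fun_norm_addHaar` in `EuclideanSpace ℝ (Fin (2n+2))`; ω = dimension times volume of the unit ball. -/
def Z1 : Prop := ∀ n : ℕ, ∃ ω : ℝ, 0 < ω ∧ ∀ G : ℝ → ℝ → ℝ≥0∞, Measurable (Function.uncurry G) →
  (∫⁻ y : ED n, G (y 0) (Real.sqrt (∑ i : Fin (2 * n + 2), y i.succ ^ 2))) =
    ∫⁻ h : ℝ, ∫⁻ u in Ioi (0 : ℝ), ENNReal.ofReal (ω * u ^ (2 * n + 1)) * G h u

/-! ### Z2 : rotation, generalizes B8b (helper1). -/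
def Z2 : Prop := ∀ (n : ℕ) (f : ℝ → ℝ≥0∞), Measurable f → ∀ x : ED n,
  (∫⁻ y : ED n, f ‖y‖ * kerD n x y) =
    ∫⁻ y : ED n, f ‖y‖ * (ENNReal.ofReal (((‖x‖ - y 0) ^ 2 + ∑ i : Fin (2 * n + 2), y i.succ ^ 2) ^ (n + 1)))⁻¹

/-! ### Z3 : generalizes B8c (helper28), hypothesis Y6: substitute `ρ = √(h²+u²)`, `u^(2n+1) du = (ρ²-h²)^n ρ dρ`, swap, Y6. -/
def Z3 : Prop := ∀ (n : ℕ) (f : ℝ → ℝ≥0∞), Measurable f → ∀ X : ℝ, 0 < X →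
  (∫⁻ h : ℝ, ∫⁻ u in Ioi (0 : ℝ), ENNReal.ofReal (u ^ (2 * n + 1)) *
      (f (Real.sqrt (h ^ 2 + u ^ 2)) * (ENNReal.ofReal (((X - h) ^ 2 + u ^ 2) ^ (n + 1)))⁻¹)) =
    ∫⁻ ρ in Ioi (0 : ℝ), f ρ * ENNReal.ofReal (ρ / X ^ (2 * n + 1) * Nn n X ρ)

/-! ### Z4 : from Z1, Z2, Z3 (like B8.lean). -/
def Z4 : Prop := ∀ n : ℕ, ∃ ω : ℝ, 0 < ω ∧ ∀ f : ℝ → ℝ≥0∞, Measurable f → ∀ x : ED n, x ≠ 0 →
  (∫⁻ y : ED n, f ‖y‖ * kerD n x y) =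
    ∫⁻ ρ in Ioi (0 : ℝ), f ρ * ENNReal.ofReal (ω * (ρ / ‖x‖ ^ (2 * n + 1) * Nn n ‖x‖ ρ))

/-! ### Z5 : radial integrals, generalizes B9 (helper10). -/
def Z5 : Prop := ∀ n : ℕ, ∃ Ω : ℝ, 0 < Ω ∧ ∀ f : ℝ → ℝ≥0∞, Measurable f →
  (∫⁻ y : ED n, f ‖y‖) = ∫⁻ ρ in Ioi (0 : ℝ), f ρ * ENNReal.ofReal (Ω * ρ ^ (2 * n + 2))

/-- Gaussian potential -/
noncomputable def gpD (n : ℕ) (t : ℝ) (μ : Measure (ED n)) (z : ED n) : ℝ≥0∞ :=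
  ∫⁻ x, ENNReal.ofReal (Real.exp (-(2 * t) * ‖x - z‖ ^ 2)) ∂μ

/-- mutual energy -/
noncomputable def enD (n : ℕ) (μ ν : Measure (ED n)) : ℝ≥0∞ := ∫⁻ x, ∫⁻ y, kerD n x y ∂ν ∂μ

/-! ### Z6a : `n! |x-y|^(-(2n+2)) = ∫_0^∞ t^n exp(-t|x-y|²) dt`, both sides infinite for x = y (generalizes B10a, helper74;
`Real.integral_rpow_mul_exp_neg_mul_Ioi`, `Real.Gamma_nat_eq_factorial`). -/
def Z6a : Prop := ∀ (n : ℕ) (x y : ED n),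
  ENNReal.ofReal (n.factorial : ℝ) * kerD n x y =
    ∫⁻ t in Ioi (0 : ℝ), ENNReal.ofReal (t ^ n) * ENNReal.ofReal (Real.exp (-t * ‖x - y‖ ^ 2))

/-! ### Z6b : product of Gaussians (generalizes B10b, helper97; any dimension). -/
def Z6b : Prop := ∀ (n : ℕ) (t : ℝ), 0 < t → ∃ K : ℝ≥0∞, K ≠ 0 ∧ K ≠ ⊤ ∧ ∀ x y : ED n,
  (∫⁻ z : ED n, ENNReal.ofReal (Real.exp (-(2 * t) * ‖x - z‖ ^ 2)) * ENNReal.ofReal (Real.exp (-(2 * t) * ‖y - z‖ ^ 2))) =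
    K * ENNReal.ofReal (Real.exp (-t * ‖x - y‖ ^ 2))

/-! ### Z6c : injectivity of Gaussian smoothing (generalizes B11a, helper27; any dimension). -/
def Z6c : Prop := ∀ (n : ℕ) (t : ℝ), 0 < t → ∀ μ ν : Measure (ED n), IsProbabilityMeasure μ → IsProbabilityMeasure ν →
  (∀ᵐ z : ED n, gpD n t μ z = gpD n t ν z) → μ = ν

/-! ### Z6 : positive definiteness with the case of equality, from Z6a, Z6b, Z6c (generalizes B10, helper87). -/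
def Z6 : Prop := ∀ (n : ℕ) (μ ν : Measure (ED n)), IsProbabilityMeasure μ → IsProbabilityMeasure ν →
  2 * enD n μ ν ≤ enD n μ μ + enD n ν ν ∧
  (enD n μ μ + enD n ν ν ≠ ⊤ → 2 * enD n μ ν = enD n μ μ + enD n ν ν → μ = ν)

/-- the density as a function of `ρ = |x|` -/
noncomputable def gD (n : ℕ) (r R : ℝ) (p : Polynomial ℝ) (C : ℝ) (ρ : ℝ) : ℝ :=
  if r < ρ ∧ ρ < R then C * p.eval (ρ ^ 2) / (ρ ^ (2 * n + 1) * w r R ρ) else 0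

/-- the measure -/
noncomputable def mD (n : ℕ) (r R : ℝ) (p : Polynomial ℝ) (C : ℝ) : Measure (ED n) :=
  volume.withDensity fun x => ENNReal.ofReal (gD n r R p C ‖x‖)

/-! ### Z7 : total mass one for a suitable C, from Z5, Y13, B1: `∫ gD = C Ω ∫_r^R p(ρ²) ρ/w dρ`, finite (`p` bounded, B1) and positive. -/
def Z7 : Prop := ∀ (n : ℕ) (r R : ℝ) (p : Polynomial ℝ), 0 < r → r < R → Cond r R n p →
  ∃ C : ℝ, 0 < C ∧ IsProbabilityMeasure (mD n r R p C) ∧ mD n r R p C {x | r ≤ ‖x‖ ∧ ‖x‖ ≤ R}ᶜ = 0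

/-! ### Z8 : constant potential, from Z4, Y10, Y13: for `r ≤ ‖x‖ = X ≤ R`,
`∫ kerD x y d mD(y) = ω C X^(-(2n+1)) ∫_r^R p(ρ²)/(ρ^(2n) w) N_n(X,ρ) dρ = ω C π wn n`. -/
def Z8 : Prop := ∀ (n : ℕ) (r R : ℝ) (p : Polynomial ℝ) (C : ℝ), 0 < r → r < R → 0 < C → Cond r R n p →
  ∃ W : ℝ, 0 < W ∧ ∀ x : ED n, r ≤ ‖x‖ → ‖x‖ ≤ R → (∫⁻ y, kerD n x y ∂(mD n r R p C)) = ENNReal.ofReal W

end Pool.J6H16.RZ
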