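import Pool.Agent.J6H16.RZ.Stm2

/-!
Statement Y1 of project RY: the potential of the density `E(ρ²)/w` for the kernel `log ((x+ρ)/|x-ρ|)`
(generalization of B5, with the proofs of `B4.lean` and `B5.lean`).
-/

set_option autoImplicit false

open MeasureTheory Set Real

namespace Pool.J6H16.RZ

namespace Y1p

/-- `c t = E (t²) / (2t)` -/
noncomputable def cc (E : ℝ → ℝ) (t : ℝ) : ℝ := E (t ^ 2) / (2 * t)

/-- the derivative of `cc` -/
noncomputable def cd (E E' : ℝ → ℝ) (t : ℝ) : ℝ := E' (t ^ 2) - E (t ^ 2) / (2 * t ^ 2)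

/-- `P` without the integral of `D` -/
noncomputable def PP (E : ℝ → ℝ) (ρ x : ℝ) : ℝ :=
  (cc E ρ + cc E x) * Real.log (x + ρ) + (cc E x - cc E ρ) * Real.log |x - ρ|

/-- the hypotheses on `E` -/
structure Hy (E E' : ℝ → ℝ) (D : ℝ → ℝ → ℝ) : Prop where
  der : ∀ u, 0 < u → HasDerivAt E (E' u) u
  con : ContinuousOn E' (Ioi 0)
  Dc : ContinuousOn (Function.uncurry D) (Ioi 0 ×ˢ Ioi 0)
  Deq : ∀ u v, 0 < u → 0 < v → E u - E v = (u - v) * D u v

variable {E E' : ℝ → ℝ} {D : ℝ → ℝ → ℝ}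

lemma Econ (h : Hy E E' D) : ContinuousOn (fun t : ℝ => E (t ^ 2)) (Ioi 0) := by
  have h1 : ContinuousOn E (Ioi 0) := fun u hu => (h.der u hu).continuousAt.continuousWithinAt
  refine h1.comp (by fun_prop) ?_
  intro t ht
  have ht' : (0 : ℝ) < t := ht
  show (0 : ℝ) < t ^ 2
  positivity

lemma ccon (h : Hy E E' D) : ContinuousOn (cc E) (Ioi 0) := by
  unfold cc
  refine (Econ h).div (by fun_prop) ?_
  intro t ht
  have ht' : (0 : ℝ) < t := ht
  positivity

lemma cdcon (h : Hy E E' D) : ContinuousOn (cd E E') (Ioi 0) := by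
  unfold cd
  refine ContinuousOn.sub ?_ ((Econ h).div (by fun_prop) ?_)
  · refine h.con.comp (by fun_prop) ?_
    intro t ht
    have ht' : (0 : ℝ) < t := ht
    show (0 : ℝ) < t ^ 2
    positivity
  · intro t ht
    have ht' : (0 : ℝ) < t := ht
    positivity

lemma cder (h : Hy E E' D) (y : ℝ) (hy : 0 < y) : HasDerivAt (cc E) (cd E E' y) y := by
  have h1 : HasDerivAt (fun t : ℝ => E (t ^ 2)) (E' (y ^ 2) * (2 * y)) y := by
    have h2 : HasDerivAt (fun t : ℝ => t ^ 2) (2 * y) y := by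
      simpa using hasDerivAt_pow 2 y
    exact (h.der (y ^ 2) (by positivity)).comp y h2
  have h3 : HasDerivAt (fun t : ℝ => 2 * t) 2 y := by
    simpa using (hasDerivAt_id y).const_mul 2
  have h4 := h1.div h3 (by positivity)
  refine h4.congr_deriv ?_
  unfold cd
  field_simp

lemma D2con (h : Hy E E' D) (ρ : ℝ) (hρ : 0 < ρ) : ContinuousOn (fun y : ℝ => D (y ^ 2) (ρ ^ 2)) (Ioi 0) := by
  have h1 : (fun y : ℝ => D (y ^ 2) (ρ ^ 2)) = (Function.uncurry D) ∘ (fun y : ℝ => (y ^ 2, ρ ^ 2)) := rfl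
  rw [h1]
  refine h.Dc.comp (by fun_prop) ?_
  intro t ht
  have ht' : (0 : ℝ) < t := ht
  exact ⟨by show (0 : ℝ) < t ^ 2; positivity, by show (0 : ℝ) < ρ ^ 2; positivity⟩

lemma D1con (h : Hy E E' D) (ρ : ℝ) (hρ : 0 < ρ) : ContinuousOn (fun y : ℝ => D (ρ ^ 2) (y ^ 2)) (Ioi 0) := by
  have h1 : (fun y : ℝ => D (ρ ^ 2) (y ^ 2)) = (Function.uncurry D) ∘ (fun y : ℝ => (ρ ^ 2, y ^ 2)) := rfl
  rw [h1]
  refine h.Dc.comp (by fun_prop) ?_
  intro t ht
  have ht' : (0 : ℝ) < t := ht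
  exact ⟨by show (0 : ℝ) < ρ ^ 2; positivity, by show (0 : ℝ) < t ^ 2; positivity⟩

lemma int_D (h : Hy E E' D) (ρ r x : ℝ) (hr : 0 < r) (hx : r ≤ x) (hρ : 0 < ρ) :
    IntervalIntegrable (fun y : ℝ => D (ρ ^ 2) (y ^ 2)) volume r x := by
  refine ((D1con h ρ hρ).mono ?_).intervalIntegrable
  intro y hy
  rw [uIcc_of_le hx] at hy
  exact lt_of_lt_of_le hr hy.1

theorem b4_int (h : Hy E E' D) (ρ r x : ℝ) (hr : 0 < r) (hx : r ≤ x) (hρ : 0 < ρ) :
    IntervalIntegrable (fun y => cd E E' y * (Real.log (y + ρ) + Real.log (y - ρ)))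
      volume r x := by
  have hpos : ∀ y ∈ uIcc r x, 0 < y := by
    intro y hy
    rw [uIcc_of_le hx] at hy
    exact lt_of_lt_of_le hr hy.1
  have h1 : IntervalIntegrable (fun y => Real.log (y + ρ) + Real.log (y - ρ)) volume r x := by
    refine IntervalIntegrable.add ?_ ?_
    · apply ContinuousOn.intervalIntegrable
      apply ContinuousOn.log
      · fun_prop
      · intro y hy
        have := hpos y hy
        positivity
    · have h2 : IntervalIntegrable Real.log volume (r - ρ) (x - ρ) :=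
        intervalIntegral.intervalIntegrable_log'
      have h3 := h2.comp_sub_right ρ
      simpa using h3
  exact h1.continuousOn_mul ((cdcon h).mono hpos)

theorem b4_eq (ρ y : ℝ) (hρ : 0 < ρ) (hy : 0 < y) (hne : y ≠ ρ) :
    Real.log |ρ ^ 2 - y ^ 2| = Real.log (y + ρ) + Real.log (y - ρ) := by
  have h1 : ρ ^ 2 - y ^ 2 = - ((y + ρ) * (y - ρ)) := by ring
  rw [h1, abs_neg, Real.log_abs, Real.log_mul (by positivity) (sub_ne_zero.2 hne)]

theorem b4_P (h : Hy E E' D) (ρ x : ℝ) (hρ : 0 < ρ) (hx : 0 < x) :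
    PP E ρ x = (cc E ρ + cc E x) * Real.log (x + ρ) +
      ((x + ρ) * D (x ^ 2) (ρ ^ 2) / (2 * x) - E (ρ ^ 2) / (2 * x * ρ)) *
        ((x - ρ) * Real.log (x - ρ)) := by
  unfold PP
  rw [Real.log_abs]
  have h1 : cc E x - cc E ρ =
      ((x + ρ) * D (x ^ 2) (ρ ^ 2) / (2 * x) - E (ρ ^ 2) / (2 * x * ρ)) * (x - ρ) := by
    have h2 := h.Deq (x ^ 2) (ρ ^ 2) (by positivity) (by positivity)
    have h3 : E (x ^ 2) = (x ^ 2 - ρ ^ 2) * D (x ^ 2) (ρ ^ 2) + E (ρ ^ 2) := by linarith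
    unfold cc
    rw [h3]
    field_simp
    ring
  rw [h1]
  ring

/-- generalization of B4 -/
theorem b4 (h : Hy E E' D) (ρ r x : ℝ) (hr : 0 < r) (hx : r ≤ x) (hρ : 0 < ρ) :
    (∫ y in r..x, (cd E E' y * Real.log |ρ ^ 2 - y ^ 2| + D (ρ ^ 2) (y ^ 2))) =
      PP E ρ x - PP E ρ r ∧
    IntervalIntegrable (fun y => cd E E' y * Real.log |ρ ^ 2 - y ^ 2|) volume r x := by
  have hint := b4_int h ρ r x hr hx hρ
  have hintD := int_D h ρ r x hr hx hρ
  have hae : ∀ᵐ y : ℝ, y ≠ ρ := by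
    simp [ae_iff, measure_singleton]
  have hpos : ∀ y ∈ uIoc r x, 0 < y := by
    intro y hy
    rw [uIoc_of_le hx] at hy
    exact lt_trans hr hy.1
  have hcongr : ∀ᵐ y : ℝ, y ∈ uIoc r x →
      cd E E' y * (Real.log (y + ρ) + Real.log (y - ρ)) =
        cd E E' y * Real.log |ρ ^ 2 - y ^ 2| := by
    filter_upwards [hae] with y hy hyx
    rw [b4_eq ρ y hρ (hpos y hyx) hy]
  have hcongr2 : ∀ᵐ y : ℝ, y ∈ uIoc r x →
      cd E E' y * (Real.log (y + ρ) + Real.log (y - ρ)) + D (ρ ^ 2) (y ^ 2) =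
        cd E E' y * Real.log |ρ ^ 2 - y ^ 2| + D (ρ ^ 2) (y ^ 2) := by
    filter_upwards [hae] with y hy hyx
    rw [b4_eq ρ y hρ (hpos y hyx) hy]
  constructor
  · rw [← intervalIntegral.integral_congr_ae hcongr2]
    refine MeasureTheory.integral_eq_of_hasDerivAt_off_countable_of_le (PP E ρ) _ hx
      (countable_singleton ρ) ?_ ?_ (hint.add hintD)
    · have hp : ∀ y ∈ Icc r x, y ∈ Ioi (0 : ℝ) := fun y hy => lt_of_lt_of_le hr hy.1
      have h1 : ContinuousOn (fun x => (cc E ρ + cc E x) * Real.log (x + ρ) +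
          ((x + ρ) * D (x ^ 2) (ρ ^ 2) / (2 * x) - E (ρ ^ 2) / (2 * x * ρ)) *
            ((x - ρ) * Real.log (x - ρ))) (Icc r x) := by
        refine ContinuousOn.add (ContinuousOn.mul ?_ ?_) (ContinuousOn.mul ?_ ?_)
        · exact ContinuousOn.add continuousOn_const ((ccon h).mono hp)
        · apply ContinuousOn.log
          · fun_prop
          · intro y hy
            have : (0 : ℝ) < y := hp y hy
            positivity
        · refine ContinuousOn.sub (ContinuousOn.div (ContinuousOn.mul (by fun_prop)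
            ((D2con h ρ hρ).mono hp)) (by fun_prop) ?_) (ContinuousOn.div continuousOn_const (by fun_prop) ?_)
          · intro y hy
            have : (0 : ℝ) < y := hp y hy
            positivity
          · intro y hy
            have : (0 : ℝ) < y := hp y hy
            positivity
        · exact (Real.continuous_mul_log.comp (continuous_id.sub continuous_const)).continuousOn
      refine h1.congr fun y hy => b4_P h ρ y hρ (lt_of_lt_of_le hr hy.1)
    · rintro y ⟨hy, hyρ⟩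
      have hy0 : 0 < y := lt_trans hr hy.1
      have hne : y ≠ ρ := hyρ
      have hsub : y - ρ ≠ 0 := sub_ne_zero.2 hne
      have hadd : y + ρ ≠ 0 := by positivity
      have hP : PP E ρ = fun x => (cc E ρ + cc E x) * Real.log (x + ρ) +
          (cc E x - cc E ρ) * Real.log (x - ρ) := by
        funext t
        unfold PP
        rw [Real.log_abs]
      have hc := cder h y hy0
      have hl1 : HasDerivAt (fun t : ℝ => Real.log (t + ρ)) (1 / (y + ρ)) y :=
        ((hasDerivAt_id y).add_const ρ).log hadd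
      have hl2 : HasDerivAt (fun t : ℝ => Real.log (t - ρ)) (1 / (y - ρ)) y :=
        ((hasDerivAt_id y).sub_const ρ).log hsub
      rw [hP]
      have h5 := ((hc.const_add (cc E ρ)).mul hl1).add ((hc.sub_const (cc E ρ)).mul hl2)
      refine h5.congr_deriv ?_
      have h6 := h.Deq (ρ ^ 2) (y ^ 2) (by positivity) (by positivity)
      have h7 : (cc E ρ + cc E y) * (1 / (y + ρ)) + (cc E y - cc E ρ) * (1 / (y - ρ)) =
          D (ρ ^ 2) (y ^ 2) := by
        have h8 : E (ρ ^ 2) = (ρ ^ 2 - y ^ 2) * D (ρ ^ 2) (y ^ 2) + E (y ^ 2) := by linarith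
        unfold cc
        rw [h8]
        field_simp
        ring
      linear_combination h7
  · refine hint.congr_ae ?_
    rw [Filter.EventuallyEq, ae_restrict_iff' measurableSet_uIoc]
    exact hcongr

lemma w_meas (r R : ℝ) : Measurable (fun ρ => w r R ρ) := by
  unfold w
  fun_prop

lemma c_mul (r R ρ : ℝ) (hρ : 0 < ρ) :
    E (ρ ^ 2) / w r R ρ = cc E ρ * (2 * ρ / w r R ρ) := by
  unfold cc
  have h2 : 2 * ρ ≠ 0 := by positivity
  have e : E (ρ ^ 2) / (2 * ρ) * (2 * ρ / w r R ρ) =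
      (E (ρ ^ 2) / (2 * ρ) * (2 * ρ)) / w r R ρ := by ring
  rw [e, div_mul_cancel₀ _ h2]

lemma log_split (ρ x : ℝ) (hρ : 0 < ρ) (hx : 0 < x) (hne : ρ ≠ x) :
    Real.log |ρ ^ 2 - x ^ 2| = Real.log (x + ρ) + Real.log |x - ρ| := by
  have e : |ρ ^ 2 - x ^ 2| = (x + ρ) * |x - ρ| := by
    have : ρ ^ 2 - x ^ 2 = -((x + ρ) * (x - ρ)) := by ring
    rw [this, abs_neg, abs_mul, abs_of_pos (by linarith : 0 < x + ρ)]
  have h1 : x + ρ ≠ 0 := (add_pos hx hρ).ne'
  have h2 : |x - ρ| ≠ 0 := abs_ne_zero.2 (sub_ne_zero.2 (Ne.symm hne))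
  rw [e, Real.log_mul h1 h2]

lemma log_quot (ρ x : ℝ) (hρ : 0 < ρ) (hx : 0 < x) (hne : ρ ≠ x) :
    Real.log ((x + ρ) / |x - ρ|) = Real.log (x + ρ) - Real.log |x - ρ| := by
  have h1 : x + ρ ≠ 0 := (add_pos hx hρ).ne'
  have h2 : |x - ρ| ≠ 0 := abs_ne_zero.2 (sub_ne_zero.2 (Ne.symm hne))
  rw [Real.log_div h1 h2]

lemma pw (ρ x : ℝ) (hρ : 0 < ρ) (hx : 0 < x) (hne : ρ ≠ x) :
    cc E ρ * Real.log ((x + ρ) / |x - ρ|) = PP E ρ x - cc E x * Real.log |ρ ^ 2 - x ^ 2| := by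
  rw [log_split ρ x hρ hx hne, log_quot ρ x hρ hx hne]
  unfold PP
  ring

lemma ae_ne (r R x : ℝ) : ∀ᵐ ρ ∂(volume.restrict (Ioo r R)), ρ ≠ x := by
  refine ae_restrict_of_ae ?_
  have : volume ({x} : Set ℝ) = 0 := by simp
  exact (measure_eq_zero_iff_ae_notMem.1 this).mono (fun y hy => by simpa using hy)

lemma integ (h : Hy E E' D) (h1 : B1) (h3 : B3) (r R x : ℝ) (hr : 0 < r) (hrR : r < R) (hrx : r ≤ x)
    (hxR : x ≤ R) :
    IntegrableOn (fun ρ => E (ρ ^ 2) / w r R ρ * Real.log ((x + ρ) / |x - ρ|)) (Ioo r R) := by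
  have hx : 0 < x := lt_of_lt_of_le hr hrx
  have hsub : Icc r R ⊆ Ioi 0 := fun y hy => lt_of_lt_of_le hr hy.1
  have i1 := (h1 r R hr hrR).1
  have i3 := (h3 r R x hr hrR hrx hxR).1
  rw [← integrableOn_Icc_iff_integrableOn_Ioo] at i1 i3
  have hcc : ContinuousOn (fun ρ => cc E ρ * (2 * Real.log (x + ρ))) (Icc r R) := by
    refine ((ccon h).mono hsub).mul (continuousOn_const.mul ?_)
    refine ContinuousOn.log (by fun_prop) ?_
    intro ρ hρ
    have : 0 < ρ := lt_of_lt_of_le hr hρ.1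
    exact (add_pos hx this).ne'
  have j1 := i1.continuousOn_mul hcc isCompact_Icc
  have j2 := i3.continuousOn_mul ((ccon h).mono hsub) isCompact_Icc
  have j3 : IntegrableOn (fun ρ => (cc E ρ * (2 * Real.log (x + ρ))) * (2 * ρ / w r R ρ) -
      cc E ρ * (Real.log |ρ ^ 2 - x ^ 2| * (2 * ρ / w r R ρ))) (Ioo r R) :=
    (j1.sub j2).mono_set Ioo_subset_Icc_self
  refine Integrable.congr j3 ?_
  filter_upwards [ae_ne r R x, ae_restrict_mem measurableSet_Ioo] with ρ hne hρ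
  have hρ0 : 0 < ρ := hr.trans hρ.1
  rw [c_mul r R ρ hρ0, log_split ρ x hρ0 hx hne, log_quot ρ x hρ0 hx hne]
  ring

lemma w_nonneg (r R ρ : ℝ) : 0 ≤ w r R ρ := Real.sqrt_nonneg _

lemma abs_log_le (R t : ℝ) (ht : 0 ≤ t) (htR : t ≤ R ^ 2) :
    |Real.log t| ≤ 2 * R ^ 2 - Real.log t := by
  have hl : Real.log t ≤ R ^ 2 := by
    have := Real.log_le_self ht
    linarith
  have h0 : 0 ≤ R ^ 2 := sq_nonneg R
  rcases le_or_gt 0 (Real.log t) with h | h
  · rw [abs_of_nonneg h]; linarith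
  · rw [abs_of_neg h]; linarith

lemma abs_sq_le (r R ρ y : ℝ) (hr : 0 < r) (hρ : ρ ∈ Ioo r R) (hy : r ≤ y) (hyR : y ≤ R) :
    |ρ ^ 2 - y ^ 2| ≤ R ^ 2 := by
  have h1 : ρ ^ 2 ≤ R ^ 2 := by nlinarith [hρ.1, hρ.2]
  have h2 : y ^ 2 ≤ R ^ 2 := by nlinarith
  rw [abs_le]
  constructor <;> nlinarith [sq_nonneg ρ, sq_nonneg y]

lemma c_int (h : Hy E E' D) (r x : ℝ) (hr : 0 < r) (hrx : r ≤ x) :
    (∫ y in r..x, cd E E' y) = cc E x - cc E r := by
  have hpos : ∀ y ∈ uIcc r x, 0 < y := by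
    intro y hy
    rw [uIcc_of_le hrx] at hy
    exact lt_of_lt_of_le hr hy.1
  refine intervalIntegral.integral_eq_sub_of_hasDerivAt (f := cc E) ?_ ?_
  · intro y hy
    exact cder h y (hpos y hy)
  · exact ((cdcon h).mono hpos).intervalIntegrable

lemma fub_int (h : Hy E E' D) (h1 : B1) (h3 : B3) (r R x : ℝ) (hr : 0 < r) (hrR : r < R) (hrx : r ≤ x)
    (hxR : x ≤ R) :
    Integrable (Function.uncurry fun ρ y : ℝ =>
      cd E E' y * Real.log |ρ ^ 2 - y ^ 2| * (2 * ρ / w r R ρ))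
      ((volume.restrict (Ioo r R)).prod (volume.restrict (Ioc r x))) := by
  have hsub : Icc r x ⊆ Ioi 0 := fun y hy => lt_of_lt_of_le hr hy.1
  have hcdm : AEStronglyMeasurable (cd E E') (volume.restrict (Ioc r x)) :=
    ((cdcon h).mono (Ioc_subset_Icc_self.trans hsub)).aestronglyMeasurable measurableSet_Ioc
  have hm : AEStronglyMeasurable (Function.uncurry fun ρ y : ℝ =>
      cd E E' y * Real.log |ρ ^ 2 - y ^ 2| * (2 * ρ / w r R ρ))
      ((volume.restrict (Ioo r R)).prod (volume.restrict (Ioc r x))) := by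
    have hw := w_meas r R
    have hw' : Measurable (fun p : ℝ × ℝ => w r R p.1) := hw.comp measurable_fst
    have hm1 : Measurable (fun p : ℝ × ℝ => Real.log |p.1 ^ 2 - p.2 ^ 2| * (2 * p.1 / w r R p.1)) := by
      fun_prop
    have hm2 := (hcdm.comp_snd (μ := volume.restrict (Ioo r R))).mul hm1.aestronglyMeasurable
    refine hm2.congr (Filter.Eventually.of_forall fun p => ?_)
    show cd E E' p.2 * (Real.log |p.1 ^ 2 - p.2 ^ 2| * (2 * p.1 / w r R p.1)) =
      cd E E' p.2 * Real.log |p.1 ^ 2 - p.2 ^ 2| * (2 * p.1 / w r R p.1)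
    ring
  have hi : ∀ y ∈ Ioc r x, Integrable (fun ρ =>
      cd E E' y * Real.log |ρ ^ 2 - y ^ 2| * (2 * ρ / w r R ρ))
      (volume.restrict (Ioo r R)) := by
    intro y hy
    have := ((h3 r R y hr hrR hy.1.le (hy.2.trans hxR)).1).const_mul (cd E E' y)
    refine Integrable.congr this (Filter.Eventually.of_forall fun ρ => ?_)
    simp only
    ring
  obtain ⟨M, hM⟩ : ∃ M, ∀ y ∈ Icc r x, |cd E E' y| ≤ M := by
    obtain ⟨M, hM⟩ := isCompact_Icc.exists_bound_of_continuousOn ((cdcon h).mono hsub)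
    exact ⟨M, fun y hy => by simpa [Real.norm_eq_abs] using hM y hy⟩
  rw [integrable_prod_iff' hm]
  refine ⟨?_, ?_⟩
  · filter_upwards [ae_restrict_mem measurableSet_Ioc] with y hy
    exact hi y hy
  · set ℓ := π * Real.log ((R ^ 2 - r ^ 2) / 4) with hℓ
    have hnorm : AEStronglyMeasurable (fun y => ∫ ρ, ‖(Function.uncurry fun ρ y : ℝ =>
        cd E E' y * Real.log |ρ ^ 2 - y ^ 2| * (2 * ρ / w r R ρ)) (ρ, y)‖
        ∂(volume.restrict (Ioo r R))) (volume.restrict (Ioc r x)) :=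
      hm.norm.prod_swap.integral_prod_right'
    refine Integrable.mono' (g := fun _ => M * (2 * R ^ 2 * π - ℓ))
      ?_ hnorm ?_
    · exact integrable_const _
    · filter_upwards [ae_restrict_mem measurableSet_Ioc] with y hy
      have hy0 : 0 < y := hr.trans hy.1
      have i1 := h1 r R hr hrR
      have i3 := h3 r R y hr hrR hy.1.le (hy.2.trans hxR)
      have hcoef : |cd E E' y| ≤ M := hM y ⟨hy.1.le, hy.2⟩
      have hB : (∫ ρ in Ioo r R, abs (Real.log (abs (ρ ^ 2 - y ^ 2))) * (2 * ρ / w r R ρ)) ≤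
          2 * R ^ 2 * π - ℓ := by
        have e : 2 * R ^ 2 * π - ℓ = ∫ ρ in Ioo r R, (2 * R ^ 2 * (2 * ρ / w r R ρ) -
            Real.log |ρ ^ 2 - y ^ 2| * (2 * ρ / w r R ρ)) := by
          rw [integral_sub (i1.1.const_mul _) i3.1, integral_const_mul, i1.2.1, i3.2]
        rw [e]
        refine integral_mono_of_nonneg ?_ ((i1.1.const_mul _).sub i3.1) ?_
        · filter_upwards [ae_restrict_mem measurableSet_Ioo] with ρ hρ
          have : 0 < ρ := hr.trans hρ.1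
          have := w_nonneg r R ρ
          positivity
        · filter_upwards [ae_restrict_mem measurableSet_Ioo] with ρ hρ
          have h0 : 0 < ρ := hr.trans hρ.1
          have hw := w_nonneg r R ρ
          have hW : 0 ≤ 2 * ρ / w r R ρ := by positivity
          have := abs_log_le R |ρ ^ 2 - y ^ 2| (abs_nonneg _)
            (abs_sq_le r R ρ y hr hρ hy.1.le (hy.2.trans hxR))
          have := mul_le_mul_of_nonneg_right this hW
          linarith
      have hB0 : 0 ≤ (∫ ρ in Ioo r R, abs (Real.log (abs (ρ ^ 2 - y ^ 2))) * (2 * ρ / w r R ρ)) := by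
        refine setIntegral_nonneg measurableSet_Ioo ?_
        intro ρ hρ
        have : 0 < ρ := hr.trans hρ.1
        have := w_nonneg r R ρ
        positivity
      have e2 : (∫ ρ, ‖(Function.uncurry fun ρ y : ℝ =>
          cd E E' y * Real.log |ρ ^ 2 - y ^ 2| * (2 * ρ / w r R ρ)) (ρ, y)‖
          ∂(volume.restrict (Ioo r R))) = |cd E E' y| *
          ∫ ρ in Ioo r R, abs (Real.log (abs (ρ ^ 2 - y ^ 2))) * (2 * ρ / w r R ρ) := by
        rw [← integral_const_mul]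
        refine setIntegral_congr_fun measurableSet_Ioo ?_
        intro ρ hρ
        have h0 : 0 < ρ := hr.trans hρ.1
        have hw := w_nonneg r R ρ
        have hW : 0 ≤ 2 * ρ / w r R ρ := by positivity
        simp only [Function.uncurry, Real.norm_eq_abs]
        rw [abs_mul, abs_mul, abs_of_nonneg hW]
        ring
      rw [e2, Real.norm_eq_abs, abs_of_nonneg (mul_nonneg (abs_nonneg _) hB0)]
      exact mul_le_mul hcoef hB hB0 ((abs_nonneg _).trans hcoef)

lemma fub_D (h : Hy E E' D) (h1 : B1) (r R x : ℝ) (hr : 0 < r) (hrR : r < R) (hrx : r ≤ x) :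
    Integrable (Function.uncurry fun ρ y : ℝ => D (ρ ^ 2) (y ^ 2) * (2 * ρ / w r R ρ))
      ((volume.restrict (Ioo r R)).prod (volume.restrict (Ioc r x))) := by
  have hc : ContinuousOn (fun p : ℝ × ℝ => D (p.1 ^ 2) (p.2 ^ 2)) (Ioi 0 ×ˢ Ioi 0) := by
    have e : (fun p : ℝ × ℝ => D (p.1 ^ 2) (p.2 ^ 2)) =
        (Function.uncurry D) ∘ (fun p : ℝ × ℝ => (p.1 ^ 2, p.2 ^ 2)) := rfl
    rw [e]
    refine h.Dc.comp (by fun_prop) ?_
    rintro ⟨a, b⟩ ⟨ha, hb⟩
    have ha' : (0 : ℝ) < a := ha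
    have hb' : (0 : ℝ) < b := hb
    exact ⟨by show (0 : ℝ) < a ^ 2; positivity, by show (0 : ℝ) < b ^ 2; positivity⟩
  have hsub : Icc r R ×ˢ Icc r x ⊆ Ioi 0 ×ˢ Ioi 0 :=
    prod_mono (fun y hy => lt_of_lt_of_le hr hy.1) (fun y hy => lt_of_lt_of_le hr hy.1)
  have hsub2 : Ioo r R ×ˢ Ioc r x ⊆ Ioi (0 : ℝ) ×ˢ Ioi (0 : ℝ) :=
    (prod_mono Ioo_subset_Icc_self Ioc_subset_Icc_self).trans hsub
  obtain ⟨M, hM⟩ := (isCompact_Icc.prod isCompact_Icc).exists_bound_of_continuousOn (hc.mono hsub)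
  have i1 := (h1 r R hr hrR).1
  have hg : Integrable (fun p : ℝ × ℝ => 2 * p.1 / w r R p.1)
      ((volume.restrict (Ioo r R)).prod (volume.restrict (Ioc r x))) :=
    Integrable.comp_fst (f := fun ρ : ℝ => 2 * ρ / w r R ρ) i1 (volume.restrict (Ioc r x))
  have hm : AEStronglyMeasurable (fun p : ℝ × ℝ => D (p.1 ^ 2) (p.2 ^ 2))
      ((volume.restrict (Ioo r R)).prod (volume.restrict (Ioc r x))) := by
    rw [Measure.prod_restrict]
    exact (hc.mono hsub2).aestronglyMeasurable (measurableSet_Ioo.prod measurableSet_Ioc)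
  refine Integrable.bdd_mul (c := M) hg hm ?_
  rw [Measure.prod_restrict]
  filter_upwards [ae_restrict_mem (measurableSet_Ioo.prod measurableSet_Ioc)] with p hp
  exact hM p ⟨Ioo_subset_Icc_self hp.1, Ioc_subset_Icc_self hp.2⟩

end Y1p

open Y1p

theorem y1 (hb1 : B1) (hb3 : B3) : Y1 := by
  intro r R x hr hrR hrx hxR E E' D k1 k2 k3 k4
  have h : Hy E E' D := ⟨k1, k2, k3, k4⟩
  have hx : 0 < x := lt_of_lt_of_le hr hrx
  have hIx := integ h hb1 hb3 r R x hr hrR hrx hxR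
  have hIr := integ h hb1 hb3 r R r hr hrR le_rfl hrR.le
  refine ⟨hIx, ?_⟩
  have hF := fub_int h hb1 hb3 r R x hr hrR hrx hxR
  have hG := fub_D h hb1 r R x hr hrR hrx
  have i1 := hb1 r R hr hrR
  have i3x := hb3 r R x hr hrR hrx hxR
  have i3r := hb3 r R r hr hrR le_rfl hrR.le
  -- the two evaluations of the double integral
  have hsw := integral_integral_swap hF
  have hswD := integral_integral_swap hG
  have hleft : (fun ρ => ∫ y in Ioc r x,
      cd E E' y * Real.log |ρ ^ 2 - y ^ 2| * (2 * ρ / w r R ρ)) =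
      fun ρ => (∫ y in r..x, cd E E' y * Real.log |ρ ^ 2 - y ^ 2|) *
        (2 * ρ / w r R ρ) := by
    funext ρ
    rw [integral_mul_const, intervalIntegral.integral_of_le hrx]
  have hleftD : (fun ρ => ∫ y in Ioc r x, D (ρ ^ 2) (y ^ 2) * (2 * ρ / w r R ρ)) =
      fun ρ => (∫ y in r..x, D (ρ ^ 2) (y ^ 2)) * (2 * ρ / w r R ρ) := by
    funext ρ
    rw [integral_mul_const, intervalIntegral.integral_of_le hrx]
  have hIL : Integrable (fun ρ =>
      (∫ y in r..x, cd E E' y * Real.log |ρ ^ 2 - y ^ 2|) *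
        (2 * ρ / w r R ρ)) (volume.restrict (Ioo r R)) := by
    rw [← hleft]
    exact hF.integral_prod_left
  have hILD : Integrable (fun ρ => (∫ y in r..x, D (ρ ^ 2) (y ^ 2)) *
        (2 * ρ / w r R ρ)) (volume.restrict (Ioo r R)) := by
    rw [← hleftD]
    exact hG.integral_prod_left
  have hright : (∫ y in Ioc r x, ∫ ρ in Ioo r R,
      cd E E' y * Real.log |ρ ^ 2 - y ^ 2| * (2 * ρ / w r R ρ)) =
      (cc E x - cc E r) * (π * Real.log ((R ^ 2 - r ^ 2) / 4)) := by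
    rw [← c_int h r x hr hrx, intervalIntegral.integral_of_le hrx, ← integral_mul_const]
    refine setIntegral_congr_fun measurableSet_Ioc ?_
    intro y hy
    have := (hb3 r R y hr hrR hy.1.le (hy.2.trans hxR)).2
    simp only
    rw [← this, ← integral_const_mul]
    refine integral_congr_ae (Filter.Eventually.of_forall fun ρ => ?_)
    simp only
    ring
  have hL : (∫ ρ in Ioo r R,
      (∫ y in r..x, cd E E' y * Real.log |ρ ^ 2 - y ^ 2|) *
        (2 * ρ / w r R ρ)) = (cc E x - cc E r) * (π * Real.log ((R ^ 2 - r ^ 2) / 4)) := by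
    rw [← hright, ← hsw]
    exact congrArg (fun g : ℝ → ℝ => ∫ ρ in Ioo r R, g ρ) hleft.symm
  have hLD : (∫ ρ in Ioo r R, (∫ y in r..x, D (ρ ^ 2) (y ^ 2)) * (2 * ρ / w r R ρ)) =
      ∫ y in r..x, ∫ ρ in Ioo r R, D (ρ ^ 2) (y ^ 2) * (2 * ρ / w r R ρ) := by
    rw [intervalIntegral.integral_of_le hrx, ← hswD]
    exact congrArg (fun g : ℝ → ℝ => ∫ ρ in Ioo r R, g ρ) hleftD.symm
  -- the pointwise identity
  have hpt : (∫ ρ in Ioo r R, (E (ρ ^ 2) / w r R ρ * Real.log ((x + ρ) / |x - ρ|) -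
      E (ρ ^ 2) / w r R ρ * Real.log ((r + ρ) / |r - ρ|))) =
      ∫ ρ in Ioo r R, ((∫ y in r..x, cd E E' y * Real.log |ρ ^ 2 - y ^ 2|) *
        (2 * ρ / w r R ρ) - cc E x * (Real.log |ρ ^ 2 - x ^ 2| * (2 * ρ / w r R ρ)) +
        cc E r * (Real.log |ρ ^ 2 - r ^ 2| * (2 * ρ / w r R ρ)) +
        (∫ y in r..x, D (ρ ^ 2) (y ^ 2)) * (2 * ρ / w r R ρ)) := by
    refine integral_congr_ae ?_
    filter_upwards [ae_ne r R x, ae_restrict_mem measurableSet_Ioo] with ρ hne hρ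
    have hρ0 : 0 < ρ := hr.trans hρ.1
    have p1 := pw (E := E) ρ x hρ0 hx hne
    have p2 := pw (E := E) ρ r hρ0 hr hρ.1.ne'
    have p3 := b4 h ρ r x hr hrx hρ0
    have p4 := intervalIntegral.integral_add p3.2 (int_D h ρ r x hr hrx hρ0)
    rw [c_mul r R ρ hρ0]
    have q1 : cc E ρ * (2 * ρ / w r R ρ) * Real.log ((x + ρ) / |x - ρ|) =
        (cc E ρ * Real.log ((x + ρ) / |x - ρ|)) * (2 * ρ / w r R ρ) := by ring
    have q2 : cc E ρ * (2 * ρ / w r R ρ) * Real.log ((r + ρ) / |r - ρ|) =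
        (cc E ρ * Real.log ((r + ρ) / |r - ρ|)) * (2 * ρ / w r R ρ) := by ring
    rw [q1, q2, p1, p2]
    have p5 : PP E ρ x = PP E ρ r + ((∫ y in r..x, cd E E' y * Real.log |ρ ^ 2 - y ^ 2|) +
        ∫ y in r..x, D (ρ ^ 2) (y ^ 2)) := by
      rw [← p4, p3.1]
      ring
    rw [p5]
    ring
  have s1 := (i3x.1.const_mul (cc E x))
  have s2 := (i3r.1.const_mul (cc E r))
  have u1 : Integrable (fun ρ =>
      (∫ y in r..x, cd E E' y * Real.log |ρ ^ 2 - y ^ 2|) *
        (2 * ρ / w r R ρ) - cc E x * (Real.log |ρ ^ 2 - x ^ 2| * (2 * ρ / w r R ρ)))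
      (volume.restrict (Ioo r R)) := hIL.sub s1
  have u2 : Integrable (fun ρ =>
      (∫ y in r..x, cd E E' y * Real.log |ρ ^ 2 - y ^ 2|) *
        (2 * ρ / w r R ρ) - cc E x * (Real.log |ρ ^ 2 - x ^ 2| * (2 * ρ / w r R ρ)) +
        cc E r * (Real.log |ρ ^ 2 - r ^ 2| * (2 * ρ / w r R ρ)))
      (volume.restrict (Ioo r R)) := u1.add s2
  rw [integral_sub hIx hIr, integral_add u2 hILD, integral_add u1 s2,
    integral_sub hIL s1, integral_const_mul, integral_const_mul, hL,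
    i3x.2, i3r.2, hLD] at hpt
  linarith

end Pool.J6H16.RZ
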