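import Pool.Agent.J6H16.RZ.Stm2

/-!
# Module RY-Y10 (helper48): the potential
-/

set_option autoImplicit false

open MeasureTheory Set Real
open scoped ENNReal

namespace Pool.J6H16.RZ

namespace Y10aux

/-- integrable on the interval, with the integral `v` -/
def HI (r R : ℝ) (f : ℝ → ℝ) (v : ℝ) : Prop :=
  IntegrableOn f (Ioo r R) ∧ ∫ ρ in Ioo r R, f ρ = v

theorem HI.sum {ι : Type} {r R : ℝ} (s : Finset ι) (f : ι → ℝ → ℝ) (v : ι → ℝ)
    (h : ∀ i ∈ s, HI r R (f i) (v i)) : HI r R (fun ρ => ∑ i ∈ s, f i ρ) (∑ i ∈ s, v i) :=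
  ⟨integrable_finsetSum s (fun i hi => (h i hi).1), by
    rw [integral_finsetSum s (fun i hi => (h i hi).1)]
    exact Finset.sum_congr rfl (fun i hi => (h i hi).2)⟩

theorem HI.const_mul {r R : ℝ} {f : ℝ → ℝ} {v : ℝ} (h : HI r R f v) (c : ℝ) :
    HI r R (fun ρ => c * f ρ) (c * v) :=
  ⟨h.1.const_mul c, by rw [integral_const_mul, h.2]⟩

theorem HI.mul_const {r R : ℝ} {f : ℝ → ℝ} {v : ℝ} (h : HI r R f v) (c : ℝ) :
    HI r R (fun ρ => f ρ * c) (v * c) :=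
  ⟨h.1.mul_const c, by rw [integral_mul_const, h.2]⟩

theorem HI.sub {r R : ℝ} {f g : ℝ → ℝ} {v u : ℝ} (h : HI r R f v) (h' : HI r R g u) :
    HI r R (fun ρ => f ρ - g ρ) (v - u) :=
  ⟨h.1.sub h'.1, by rw [integral_sub h.1 h'.1, h.2, h'.2]⟩

theorem mo_term (hb1 : B1) {r R : ℝ} (hr : 0 < r) (hrR : r < R) (k : ℤ) :
    HI r R (fun ρ => (ρ ^ 2) ^ k * (2 * ρ / w r R ρ)) (Mo r R k) := by
  refine ⟨?_, rfl⟩
  have h1 := (hb1 r R hr hrR).1
  rw [← integrableOn_Icc_iff_integrableOn_Ioo] at h1 ⊢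
  refine IntegrableOn.continuousOn_mul (g := fun ρ : ℝ => (ρ ^ 2) ^ k) ?_ h1 isCompact_Icc
  intro x hx
  have hx0 : x ^ 2 ≠ 0 := by
    have : 0 < x := lt_of_lt_of_le hr hx.1
    positivity
  exact ((continuousAt_zpow₀ (x ^ 2) k (Or.inl hx0)).comp
    (f := fun x : ℝ => x ^ 2) (by fun_prop)).continuousWithinAt

/-- the value of one integral -/
noncomputable def Sv (r R X : ℝ) (k : ℤ) (j : ℕ) : ℝ :=
  Fk r R (k + j) X - ∑ i ∈ Finset.range j, Mo r R (k + i) * (X ^ q j i / (q j i : ℝ))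

theorem sv_term (hy2 : Y2) (hb1 : B1) {r R X : ℝ} (hr : 0 < r) (hrR : r < R) (hX : r ≤ X)
    (hXR : X ≤ R) (k : ℤ) (j : ℕ) :
    HI r R (fun ρ => (ρ ^ 2) ^ (k + (j : ℤ)) / w r R ρ * Real.log ((X + ρ) / |X - ρ|) -
      ∑ i ∈ Finset.range j, (ρ ^ 2) ^ (k + (i : ℤ)) * (2 * ρ / w r R ρ) *
        (X ^ q j i / (q j i : ℝ))) (Sv r R X k j) := by
  refine HI.sub ⟨(hy2 r R X hr hrR hX hXR).1 _, rfl⟩ ?_
  exact HI.sum _ _ _ (fun i _ => (mo_term hb1 hr hrR _).mul_const _)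

theorem mo_zero (hb1 : B1) {r R : ℝ} (hr : 0 < r) (hrR : r < R) : Mo r R 0 = π := by
  have h := (hb1 r R hr hrR).2.1
  unfold Mo
  simp only [zpow_zero, one_mul]
  exact h

theorem sv_one (hy5 : Y5) (hb1 : B1) {r R X : ℝ} (hr : 0 < r) (hrR : r < R) (hX : r ≤ X)
    (hXR : X ≤ R) (j : ℕ) :
    Sv r R X 1 j = π * JJ r R (1 + (j : ℤ)) + π * X ^ (2 * j + 1) / (2 * (j : ℝ) + 1) := by
  have h := (hy5 r R X hr hrR hX hXR (j + 1)).1
  rw [Finset.sum_range_succ'] at h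
  have e1 : ((j + 1 : ℕ) : ℤ) = 1 + (j : ℤ) := by push_cast; ring
  have e2 : JJ r R (1 + (j : ℤ)) = Jn r R (j + 1) := by
    unfold JJ
    rw [if_pos (by omega)]
    congr 1
    omega
  have e3 : q (j + 1) 0 = 2 * j + 1 := by unfold q; omega
  have e4 : ∀ i, q (j + 1) (i + 1) = q j i := by
    intro i
    unfold q
    omega
  rw [e1, e3, Nat.cast_zero, mo_zero hb1 hr hrR] at h
  unfold Sv
  rw [h, e2]
  have e5 : ∑ i ∈ Finset.range j, Mo r R ((i + 1 : ℕ) : ℤ) * X ^ q (j + 1) (i + 1) /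
      (q (j + 1) (i + 1) : ℝ) =
      ∑ i ∈ Finset.range j, Mo r R (1 + (i : ℤ)) * (X ^ q j i / (q j i : ℝ)) := by
    refine Finset.sum_congr rfl (fun i _ => ?_)
    rw [e4 i, mul_div_assoc]
    congr 2
    push_cast
    ring
  rw [e5]
  push_cast
  ring

theorem sv_neg (hy5 : Y5) {r R X : ℝ} (hr : 0 < r) (hrR : r < R) (hX : r ≤ X)
    (hXR : X ≤ R) (e j : ℕ) :
    Sv r R X (-(e : ℤ)) j = π * JJ r R (-(e : ℤ) + (j : ℤ)) -
      ∑ l ∈ Finset.range e, Mo r R (-(e : ℤ) + (l : ℤ)) *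
        (X ^ (2 * (j : ℤ) - 2 * (l : ℤ) - 1) / (2 * (j : ℝ) - 2 * (l : ℝ) - 1)) := by
  have hX0 : 0 < X := lt_of_lt_of_le hr hX
  have key : ∀ l : ℕ, l < j → X ^ q j l / (q j l : ℝ) =
      X ^ (2 * (j : ℤ) - 2 * (l : ℤ) - 1) / (2 * (j : ℝ) - 2 * (l : ℝ) - 1) := by
    intro l hl
    have e1 : ((q j l : ℕ) : ℤ) = 2 * (j : ℤ) - 2 * (l : ℤ) - 1 := by
      unfold q
      omega
    have e2 : ((q j l : ℕ) : ℝ) = 2 * (j : ℝ) - 2 * (l : ℝ) - 1 := by
      have := congrArg (fun z : ℤ => (z : ℝ)) e1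
      push_cast at this
      exact this
    rw [← e2, ← e1, zpow_natCast]
  rcases Nat.le_total e j with hej | hej
  · obtain ⟨m, rfl⟩ := Nat.exists_eq_add_of_le hej
    have h := (hy5 r R X hr hrR hX hXR m).1
    have e1 : -(e : ℤ) + ((e + m : ℕ) : ℤ) = (m : ℤ) := by push_cast; ring
    have e2 : JJ r R (m : ℤ) = Jn r R m := by
      unfold JJ
      rw [if_pos (by omega)]
      congr 1
    unfold Sv
    rw [e1, h, e2, Finset.sum_range_add]
    have e3 : ∑ i ∈ Finset.range m, Mo r R (-(e : ℤ) + ((e + i : ℕ) : ℤ)) *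
        (X ^ q (e + m) (e + i) / (q (e + m) (e + i) : ℝ)) =
        ∑ i ∈ Finset.range m, Mo r R i * X ^ q m i / (q m i : ℝ) := by
      refine Finset.sum_congr rfl (fun i _ => ?_)
      have e4 : -(e : ℤ) + ((e + i : ℕ) : ℤ) = (i : ℤ) := by push_cast; ring
      have e5 : q (e + m) (e + i) = q m i := by unfold q; omega
      rw [e4, e5, mul_div_assoc]
    have e6 : ∑ l ∈ Finset.range e, Mo r R (-(e : ℤ) + (l : ℤ)) *
        (X ^ q (e + m) l / (q (e + m) l : ℝ)) =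
        ∑ l ∈ Finset.range e, Mo r R (-(e : ℤ) + (l : ℤ)) *
        (X ^ (2 * ((e + m : ℕ) : ℤ) - 2 * (l : ℤ) - 1) /
          (2 * ((e + m : ℕ) : ℝ) - 2 * (l : ℝ) - 1)) := by
      refine Finset.sum_congr rfl (fun l hl => ?_)
      rw [key l (by have := Finset.mem_range.mp hl; omega)]
    rw [e3, e6]
    ring
  · obtain ⟨m, rfl⟩ := Nat.exists_eq_add_of_le hej
    have h := (hy5 r R X hr hrR hX hXR m).2
    have e1 : -((j + m : ℕ) : ℤ) + (j : ℤ) = -(m : ℤ) := by push_cast; ring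
    have e2 : JJ r R (-(m : ℤ)) = Jn r R m / (r * R) ^ (2 * m) := by
      unfold JJ
      rcases Nat.eq_zero_or_pos m with h0 | h0
      · subst h0
        simp
      · rw [if_neg (by omega)]
        have : (-(m : ℤ)).natAbs = m := by omega
        rw [this]
    unfold Sv
    rw [e1, h, e2, Finset.sum_range_add]
    have e6 : ∑ l ∈ Finset.range j, Mo r R (-((j + m : ℕ) : ℤ) + (l : ℤ)) *
        (X ^ q j l / (q j l : ℝ)) =
        ∑ l ∈ Finset.range j, Mo r R (-((j + m : ℕ) : ℤ) + (l : ℤ)) *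
        (X ^ (2 * (j : ℤ) - 2 * (l : ℤ) - 1) / (2 * (j : ℝ) - 2 * (l : ℝ) - 1)) := by
      refine Finset.sum_congr rfl (fun l hl => ?_)
      rw [key l (Finset.mem_range.mp hl)]
    have e7 : ∑ l ∈ Finset.range m, Mo r R (-((j + m : ℕ) : ℤ) + ((j + l : ℕ) : ℤ)) *
        (X ^ (2 * (j : ℤ) - 2 * ((j + l : ℕ) : ℤ) - 1) /
          (2 * (j : ℝ) - 2 * ((j + l : ℕ) : ℝ) - 1)) =
        - ∑ i ∈ Finset.range m, Mo r R (-((i : ℤ) + 1)) * (X ^ q m i)⁻¹ / (q m i : ℝ) := by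
      rw [← Finset.sum_range_reflect, ← Finset.sum_neg_distrib]
      refine Finset.sum_congr rfl (fun i hi => ?_)
      have him := Finset.mem_range.mp hi
      obtain ⟨l, hl⟩ : ∃ l, m = i + 1 + l := Nat.exists_eq_add_of_le (by omega)
      have hl' : m - 1 - i = l := by omega
      have e8 : -((j + m : ℕ) : ℤ) + ((j + l : ℕ) : ℤ) = -((i : ℤ) + 1) := by
        push_cast
        have : (m : ℤ) = i + 1 + l := by exact_mod_cast hl
        rw [this]
        ring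
      have e9 : q m i = 2 * l + 1 := by unfold q; omega
      have e10 : 2 * (j : ℤ) - 2 * ((j + l : ℕ) : ℤ) - 1 = -((2 * l + 1 : ℕ) : ℤ) := by
        push_cast
        ring
      have e11 : 2 * (j : ℝ) - 2 * ((j + l : ℕ) : ℝ) - 1 = -((2 * l + 1 : ℕ) : ℝ) := by
        push_cast
        ring
      rw [hl', e8, e9, e10, e11, zpow_neg, zpow_natCast, div_neg, mul_neg, mul_div_assoc]
    rw [e6, e7]
    ring

/-- the terms without the entries of the matrix cancel -/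
theorem cancel (hy9b : Y9b) {X : ℝ} (hX0 : 0 < X) (M : ℕ → ℝ) (n e : ℕ) (he : e ≤ n) :
    ∑ j ∈ Finset.range (n + 1), ac j * ac (n - j) * X ^ (2 * (n - j)) *
      ∑ l ∈ Finset.range e, M l *
        (X ^ (2 * (j : ℤ) - 2 * (l : ℤ) - 1) / (2 * (j : ℝ) - 2 * (l : ℝ) - 1)) = 0 := by
  simp_rw [Finset.mul_sum]
  rw [Finset.sum_comm]
  refine Finset.sum_eq_zero (fun l hl => ?_)
  have hln : l < n := by have := Finset.mem_range.mp hl; omega
  have h := hy9b n l hln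
  have h1 : ∑ j ∈ Finset.range (n + 1), ac j * ac (n - j) * X ^ (2 * (n - j)) *
      (M l * (X ^ (2 * (j : ℤ) - 2 * (l : ℤ) - 1) / (2 * (j : ℝ) - 2 * (l : ℝ) - 1))) =
      M l * X ^ (2 * (n : ℤ) - 2 * (l : ℤ) - 1) *
        ∑ j ∈ Finset.range (n + 1), ac j * ac (n - j) / (2 * (j : ℝ) - 2 * (l : ℝ) - 1) := by
    rw [Finset.mul_sum]
    refine Finset.sum_congr rfl (fun j hj => ?_)
    have hjn : j ≤ n := by have := Finset.mem_range.mp hj; omega
    have e1 : X ^ (2 * (n : ℤ) - 2 * (l : ℤ) - 1) =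
        X ^ (2 * (n - j)) * X ^ (2 * (j : ℤ) - 2 * (l : ℤ) - 1) := by
      rw [← zpow_natCast, ← zpow_add₀ hX0.ne']
      congr 1
      push_cast [Nat.cast_sub hjn]
      ring
    rw [e1]
    ring
  rw [h1, h, mul_zero]

/-- the algebra -/
theorem total (hy5 : Y5) (hy9b : Y9b) (hb1 : B1) {r R : ℝ} {n : ℕ} {p : Polynomial ℝ}
    (hr : 0 < r) (hrR : r < R) (hp : Cond r R n p) {X : ℝ} (hX : r ≤ X) (hXR : X ≤ R) :
    ∑ j' ∈ Finset.range (n + 2), ∑ j ∈ Finset.range (n + 1),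
      p.coeff j' * (ac j * ac (n - j) * X ^ (2 * (n - j)) * Sv r R X ((j' : ℤ) - n) j) =
      π * wn n * X ^ (2 * n + 1) := by
  have hX0 : 0 < X := lt_of_lt_of_le hr hX
  obtain ⟨hmon, hdeg, hcond⟩ := hp
  have hlead : p.coeff (n + 1) = 1 := by
    rw [← hdeg]
    exact hmon
  -- the part with the matrix
  have hA : ∑ j' ∈ Finset.range (n + 2), ∑ j ∈ Finset.range (n + 1),
      p.coeff j' * (ac j * ac (n - j) * X ^ (2 * (n - j)) *
        (π * JJ r R ((j' : ℤ) - n + j))) = 0 := by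
    rw [Finset.sum_comm]
    refine Finset.sum_eq_zero (fun j hj => ?_)
    have hjn : j ≤ n := by have := Finset.mem_range.mp hj; omega
    have h := hcond (n - j) (Nat.sub_le _ _)
    have h1 : ∑ j' ∈ Finset.range (n + 2), p.coeff j' * (ac j * ac (n - j) * X ^ (2 * (n - j)) *
        (π * JJ r R ((j' : ℤ) - n + j))) =
        (ac j * ac (n - j) * X ^ (2 * (n - j)) * π) *
          ∑ j' ∈ Finset.range (n + 2), p.coeff j' * JJ r R ((j' : ℤ) - ((n - j : ℕ) : ℤ)) := by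
      rw [Finset.mul_sum]
      refine Finset.sum_congr rfl (fun j' _ => ?_)
      have e1 : (j' : ℤ) - n + j = (j' : ℤ) - ((n - j : ℕ) : ℤ) := by
        rw [Nat.cast_sub hjn]
        ring
      rw [e1]
      ring
    rw [h1, h, mul_zero]
  -- the terms with a small index
  have hB : ∀ j' ∈ Finset.range (n + 1), ∑ j ∈ Finset.range (n + 1),
      p.coeff j' * (ac j * ac (n - j) * X ^ (2 * (n - j)) * Sv r R X ((j' : ℤ) - n) j) =
      ∑ j ∈ Finset.range (n + 1), p.coeff j' * (ac j * ac (n - j) * X ^ (2 * (n - j)) *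
        (π * JJ r R ((j' : ℤ) - n + j))) := by
    intro j' hj'
    have hj'n : j' ≤ n := by have := Finset.mem_range.mp hj'; omega
    obtain ⟨e, he⟩ := Nat.exists_eq_add_of_le hj'n
    have e1 : (j' : ℤ) - n = -(e : ℤ) := by
      have : (n : ℤ) = j' + e := by exact_mod_cast he
      rw [this]
      ring
    rw [e1]
    have h := cancel hy9b hX0 (fun l => Mo r R (-(e : ℤ) + (l : ℤ))) n e (by omega)
    rw [← sub_eq_zero, ← Finset.sum_sub_distrib]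
    have h2 : ∀ j ∈ Finset.range (n + 1),
        p.coeff j' * (ac j * ac (n - j) * X ^ (2 * (n - j)) * Sv r R X (-(e : ℤ)) j) -
        p.coeff j' * (ac j * ac (n - j) * X ^ (2 * (n - j)) *
          (π * JJ r R (-(e : ℤ) + j))) =
        - p.coeff j' * (ac j * ac (n - j) * X ^ (2 * (n - j)) *
          ∑ l ∈ Finset.range e, Mo r R (-(e : ℤ) + (l : ℤ)) *
            (X ^ (2 * (j : ℤ) - 2 * (l : ℤ) - 1) / (2 * (j : ℝ) - 2 * (l : ℝ) - 1))) := by
      intro j _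
      rw [sv_neg hy5 hr hrR hX hXR e j]
      ring
    rw [Finset.sum_congr rfl h2, ← Finset.mul_sum, h, mul_zero]
  -- the last term
  have hC : ∑ j ∈ Finset.range (n + 1),
      p.coeff (n + 1) * (ac j * ac (n - j) * X ^ (2 * (n - j)) *
        Sv r R X (((n + 1 : ℕ) : ℤ) - n) j) =
      ∑ j ∈ Finset.range (n + 1), p.coeff (n + 1) * (ac j * ac (n - j) * X ^ (2 * (n - j)) *
        (π * JJ r R (((n + 1 : ℕ) : ℤ) - n + j))) + π * wn n * X ^ (2 * n + 1) := by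
    have e1 : ((n + 1 : ℕ) : ℤ) - n = 1 := by push_cast; ring
    rw [e1, hlead]
    unfold wn
    rw [Finset.mul_sum, Finset.sum_mul, ← Finset.sum_add_distrib]
    refine Finset.sum_congr rfl (fun j hj => ?_)
    have hjn : j ≤ n := by have := Finset.mem_range.mp hj; omega
    rw [sv_one hy5 hb1 hr hrR hX hXR j]
    have e2 : X ^ (2 * n + 1) = X ^ (2 * (n - j)) * X ^ (2 * j + 1) := by
      rw [← pow_add]
      congr 1
      omega
    rw [e2]
    ring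
  rw [Finset.sum_range_succ, Finset.sum_congr rfl hB, hC, ← add_assoc, ← Finset.sum_range_succ
    (fun j' => ∑ j ∈ Finset.range (n + 1), p.coeff j' * (ac j * ac (n - j) * X ^ (2 * (n - j)) *
        (π * JJ r R ((j' : ℤ) - n + j)))), hA, zero_add]

/-- the integrand -/
theorem integrand (hy8 : Y8) {r R : ℝ} {n : ℕ} {p : Polynomial ℝ} (hdeg : p.natDegree = n + 1)
    {X ρ : ℝ} (hX0 : 0 < X) (hρ : 0 < ρ) (hne : X ≠ ρ) :
    p.eval (ρ ^ 2) / (ρ ^ (2 * n) * w r R ρ) * Nn n X ρ =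
      ∑ j' ∈ Finset.range (n + 2), ∑ j ∈ Finset.range (n + 1),
        p.coeff j' * (ac j * ac (n - j) * X ^ (2 * (n - j)) *
          ((ρ ^ 2) ^ ((j' : ℤ) - n + (j : ℤ)) / w r R ρ * Real.log ((X + ρ) / |X - ρ|) -
            ∑ i ∈ Finset.range j, (ρ ^ 2) ^ ((j' : ℤ) - n + (i : ℤ)) * (2 * ρ / w r R ρ) *
              (X ^ q j i / (q j i : ℝ)))) := by
  have hρ2 : ρ ^ 2 ≠ 0 := by positivity
  have e0 : p.eval (ρ ^ 2) = ∑ j' ∈ Finset.range (n + 2), p.coeff j' * (ρ ^ 2) ^ j' := by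
    rw [Polynomial.eval_eq_sum_range, hdeg]
  have ez : ∀ (j' i : ℕ), (ρ ^ 2) ^ ((j' : ℤ) - n + (i : ℤ)) =
      (ρ ^ 2) ^ j' / ρ ^ (2 * n) * ρ ^ (2 * i) := by
    intro j' i
    rw [zpow_add₀ hρ2, zpow_sub₀ hρ2, zpow_natCast, zpow_natCast, zpow_natCast, ← pow_mul ρ 2 n,
      ← pow_mul ρ 2 i]
  rw [hy8 n X ρ hX0 hρ hne, e0, Finset.sum_div, Finset.sum_mul_sum]
  refine Finset.sum_congr rfl (fun j' _ => Finset.sum_congr rfl (fun j _ => ?_))
  have e1 : ∑ i ∈ Finset.range j, (ρ ^ 2) ^ ((j' : ℤ) - n + (i : ℤ)) * (2 * ρ / w r R ρ) *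
      (X ^ q j i / (q j i : ℝ)) =
      (ρ ^ 2) ^ j' / ρ ^ (2 * n) / w r R ρ *
        (2 * ∑ i ∈ Finset.range j, ρ ^ (2 * i + 1) * X ^ q j i / (q j i : ℝ)) := by
    rw [Finset.mul_sum, Finset.mul_sum]
    refine Finset.sum_congr rfl (fun i _ => ?_)
    rw [ez j' i, pow_succ]
    ring
  rw [e1, ez j' j]
  unfold Sj
  rw [← div_div]
  ring

end Y10aux

open Y10aux in
theorem y10 (hy2 : Y2) (hy5 : Y5) (hy8 : Y8) (hy9b : Y9b) (hb1 : B1) : Y10 := by
  intro r R n p hr hrR hp X hX hXR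
  have hX0 : 0 < X := lt_of_lt_of_le hr hX
  have hH : HI r R (fun ρ => ∑ j' ∈ Finset.range (n + 2), ∑ j ∈ Finset.range (n + 1),
        p.coeff j' * (ac j * ac (n - j) * X ^ (2 * (n - j)) *
          ((ρ ^ 2) ^ ((j' : ℤ) - n + (j : ℤ)) / w r R ρ * Real.log ((X + ρ) / |X - ρ|) -
            ∑ i ∈ Finset.range j, (ρ ^ 2) ^ ((j' : ℤ) - n + (i : ℤ)) * (2 * ρ / w r R ρ) *
              (X ^ q j i / (q j i : ℝ)))))
      (∑ j' ∈ Finset.range (n + 2), ∑ j ∈ Finset.range (n + 1),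
        p.coeff j' * (ac j * ac (n - j) * X ^ (2 * (n - j)) * Sv r R X ((j' : ℤ) - n) j)) :=
    HI.sum _ _ _ (fun j' _ => HI.sum _ _ _ (fun j _ =>
      (((sv_term hy2 hb1 hr hrR hX hXR _ j).const_mul _).const_mul _)))
  rw [total hy5 hy9b hb1 hr hrR hp hX hXR] at hH
  have hae : (fun ρ => p.eval (ρ ^ 2) / (ρ ^ (2 * n) * w r R ρ) * Nn n X ρ)
      =ᵐ[volume.restrict (Ioo r R)] (fun ρ => ∑ j' ∈ Finset.range (n + 2),
        ∑ j ∈ Finset.range (n + 1),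
        p.coeff j' * (ac j * ac (n - j) * X ^ (2 * (n - j)) *
          ((ρ ^ 2) ^ ((j' : ℤ) - n + (j : ℤ)) / w r R ρ * Real.log ((X + ρ) / |X - ρ|) -
            ∑ i ∈ Finset.range j, (ρ ^ 2) ^ ((j' : ℤ) - n + (i : ℤ)) * (2 * ρ / w r R ρ) *
              (X ^ q j i / (q j i : ℝ))))) := by
    have h1 : ∀ᵐ ρ ∂(volume : Measure ℝ), ρ ∉ ({X} : Set ℝ) :=
      (Set.countable_singleton X).ae_notMem volume
    rw [Filter.EventuallyEq, ae_restrict_iff' measurableSet_Ioo]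
    filter_upwards [h1] with ρ hρX hρ
    exact integrand hy8 hp.2.1 hX0 (hr.trans hρ.1) (fun h => hρX (by rw [h]; rfl))
  refine ⟨?_, ?_⟩
  · exact (integrable_congr hae).mpr hH.1
  · rw [integral_congr_ae hae]
    exact hH.2

end Pool.J6H16.RZ
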