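import Pool.Agent.J6H16.RZ.Stm2

open MeasureTheory Set Real
open scoped ENNReal

namespace Pool.J6H16.RZ

namespace Y11aux

/-- prefix sums -/
noncomputable def sp (η : ℕ → ℝ) (t : ℝ) : ℕ → ℝ
  | 0 => η 0
  | k + 1 => η (k + 1) + t * sp η t k

theorem sp_eq (η : ℕ → ℝ) (t : ℝ) (k : ℕ) :
    sp η t k = ∑ i ∈ Finset.range (k + 1), η i * t ^ (k - i) := by
  induction k with
  | zero => simp [sp]
  | succ k ih =>
    rw [sp, ih, Finset.sum_range_succ _ (k + 1), Nat.sub_self, pow_zero, mul_one, add_comm,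
      Finset.mul_sum]
    congr 1
    apply Finset.sum_congr rfl
    intro i hi
    have hi' := Finset.mem_range.1 hi
    have : k + 1 - i = (k - i) + 1 := by omega
    rw [this, pow_succ]
    ring

/-- the quadratic form -/
noncomputable def Q (η : ℕ → ℝ) (t : ℝ) (n : ℕ) : ℝ :=
  ∑ i ∈ Finset.range (n + 1), ∑ j ∈ Finset.range (n + 1),
    η i * η j * t ^ ((j : ℤ) - (i : ℤ)).natAbs

theorem Q_eq (η : ℕ → ℝ) (t : ℝ) (n : ℕ) :
    Q η t n = sp η t n ^ 2 + (1 - t ^ 2) * ∑ k ∈ Finset.range n, sp η t k ^ 2 := by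
  induction n with
  | zero =>
    simp [Q, sp]
    ring
  | succ n ih =>
    have e2 : ∑ i ∈ Finset.range (n + 1),
        η i * η (n + 1) * t ^ (((n + 1 : ℕ) : ℤ) - (i : ℤ)).natAbs =
        η (n + 1) * (t * sp η t n) := by
      rw [sp_eq, Finset.mul_sum, Finset.mul_sum]
      apply Finset.sum_congr rfl
      intro i hi
      have hi' := Finset.mem_range.1 hi
      have : (((n + 1 : ℕ) : ℤ) - (i : ℤ)).natAbs = (n - i) + 1 := by omega
      rw [this, pow_succ]
      ring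
    have e3 : ∑ j ∈ Finset.range (n + 1),
        η (n + 1) * η j * t ^ ((j : ℤ) - ((n + 1 : ℕ) : ℤ)).natAbs =
        η (n + 1) * (t * sp η t n) := by
      rw [sp_eq, Finset.mul_sum, Finset.mul_sum]
      apply Finset.sum_congr rfl
      intro i hi
      have hi' := Finset.mem_range.1 hi
      have : ((i : ℤ) - ((n + 1 : ℕ) : ℤ)).natAbs = (n - i) + 1 := by omega
      rw [this, pow_succ]
      ring
    have h1 : Q η t (n + 1) = Q η t n + 2 * (η (n + 1) * (t * sp η t n)) + η (n + 1) ^ 2 := by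
      have e4 : Q η t (n + 1) = ∑ i ∈ Finset.range (n + 1), (∑ j ∈ Finset.range (n + 1),
          η i * η j * t ^ ((j : ℤ) - (i : ℤ)).natAbs +
            η i * η (n + 1) * t ^ (((n + 1 : ℕ) : ℤ) - (i : ℤ)).natAbs) +
          (∑ j ∈ Finset.range (n + 1),
            η (n + 1) * η j * t ^ ((j : ℤ) - ((n + 1 : ℕ) : ℤ)).natAbs +
            η (n + 1) * η (n + 1) * t ^ (((n + 1 : ℕ) : ℤ) - ((n + 1 : ℕ) : ℤ)).natAbs) := by
        unfold Q
        rw [Finset.sum_range_succ _ (n + 1), Finset.sum_range_succ _ (n + 1)]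
        congr 1
        apply Finset.sum_congr rfl
        intro i _
        rw [Finset.sum_range_succ _ (n + 1)]
      rw [e4, Finset.sum_add_distrib, e2, e3, sub_self, Int.natAbs_zero, pow_zero]
      unfold Q
      ring
    rw [h1, ih, Finset.sum_range_succ, sp]
    ring

theorem eta_zero (η : ℕ → ℝ) (t : ℝ) (n : ℕ) (ht0 : 0 < t) (ht1 : t < 1)
    (h : Q η t n = 0) : ∀ k ≤ n, η k = 0 := by
  have hpos : 0 < 1 - t ^ 2 := by nlinarith
  have hs : 0 ≤ ∑ k ∈ Finset.range n, sp η t k ^ 2 := Finset.sum_nonneg fun _ _ => sq_nonneg _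
  rw [Q_eq] at h
  have h1 : 0 ≤ (1 - t ^ 2) * ∑ k ∈ Finset.range n, sp η t k ^ 2 := mul_nonneg hpos.le hs
  have h2 : sp η t n ^ 2 = 0 := by nlinarith [sq_nonneg (sp η t n)]
  have h3 : ∑ k ∈ Finset.range n, sp η t k ^ 2 = 0 := by
    have : (1 - t ^ 2) * ∑ k ∈ Finset.range n, sp η t k ^ 2 = 0 := by
      rw [h2, zero_add] at h
      exact h
    exact (mul_eq_zero.1 this).resolve_left hpos.ne'
  have h4 : ∀ k ≤ n, sp η t k = 0 := by
    intro k hk
    rcases Nat.eq_or_lt_of_le hk with rfl | hk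
    · exact pow_eq_zero_iff (two_ne_zero) |>.1 h2
    · have := (Finset.sum_eq_zero_iff_of_nonneg (fun _ _ => sq_nonneg _)).1 h3 k
        (Finset.mem_range.2 hk)
      exact pow_eq_zero_iff (two_ne_zero) |>.1 this
  intro k hk
  cases k with
  | zero => exact h4 0 hk
  | succ k =>
    have e1 := h4 (k + 1) hk
    have e2 := h4 k (by omega)
    rw [sp, e2, mul_zero, add_zero] at e1
    exact e1

/-- normalized moments -/
noncomputable def T (r R : ℝ) (m : ℕ) : ℝ :=
  ∫ y in Ioo 0 r, (y ^ 2 / (r * R)) ^ m / Real.sqrt ((r ^ 2 - y ^ 2) * (R ^ 2 - y ^ 2))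

theorem Jn_eq (r R : ℝ) (hc : 0 < r * R) (m : ℕ) : Jn r R m = (r * R) ^ m * T r R m := by
  unfold Jn T
  rw [← integral_const_mul]
  congr 1
  funext y
  rw [div_pow, pow_mul]
  have : (r * R) ^ m ≠ 0 := pow_ne_zero _ hc.ne'
  field_simp

theorem JJ_eq (r R : ℝ) (hc : 0 < r * R) (k : ℤ) :
    JJ r R k = (r * R) ^ k * T r R k.natAbs := by
  unfold JJ
  split_ifs with hk
  · obtain ⟨m, rfl⟩ := Int.eq_ofNat_of_zero_le hk
    rw [Int.natAbs_natCast, Jn_eq r R hc, zpow_natCast]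
  · obtain ⟨m, rfl⟩ : ∃ m : ℕ, k = -(m : ℤ) := ⟨k.natAbs, by omega⟩
    rw [Int.natAbs_neg, Int.natAbs_natCast, Jn_eq r R hc, zpow_neg, zpow_natCast]
    have : (r * R) ^ m ≠ 0 := pow_ne_zero _ hc.ne'
    rw [two_mul, pow_add]
    field_simp

theorem hom (hy3 : Y3) (r R : ℝ) (n : ℕ) (hr : 0 < r) (hrR : r < R) (ξ : ℕ → ℝ)
    (h : ∀ i ≤ n, ∑ j ∈ Finset.range (n + 1), ξ j * JJ r R ((j : ℤ) - (i : ℤ)) = 0) :
    ∀ j ≤ n, ξ j = 0 := by
  have hR : 0 < R := hr.trans hrR
  have hc : 0 < r * R := mul_pos hr hR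
  obtain ⟨η, hη⟩ : ∃ η : ℕ → ℝ, ∀ j, η j = ξ j * (r * R) ^ j := ⟨_, fun _ => rfl⟩
  have hT : ∀ i ≤ n, ∑ j ∈ Finset.range (n + 1), η j * T r R ((j : ℤ) - (i : ℤ)).natAbs = 0 := by
    intro i hi
    have e : ∀ j : ℕ, ξ j * JJ r R ((j : ℤ) - (i : ℤ)) =
        ((r * R) ^ i)⁻¹ * (η j * T r R ((j : ℤ) - (i : ℤ)).natAbs) := by
      intro j
      rw [JJ_eq r R hc, zpow_sub₀ hc.ne', zpow_natCast, zpow_natCast, hη]
      ring
    have h1 := h i hi
    rw [Finset.sum_congr rfl (fun j _ => e j), ← Finset.mul_sum] at h1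
    exact (mul_eq_zero.1 h1).resolve_left (inv_ne_zero (pow_ne_zero _ hc.ne'))
  have int : ∀ m : ℕ, IntegrableOn (fun y => (y ^ 2 / (r * R)) ^ m /
      Real.sqrt ((r ^ 2 - y ^ 2) * (R ^ 2 - y ^ 2))) (Ioo 0 r) := by
    intro m
    have h1 := ((hy3 r R hr hrR m).1).const_mul ((r * R) ^ m)⁻¹
    refine h1.congr (Filter.Eventually.of_forall fun y => ?_)
    show ((r * R) ^ m)⁻¹ * (y ^ (2 * m) / Real.sqrt ((r ^ 2 - y ^ 2) * (R ^ 2 - y ^ 2))) =
      (y ^ 2 / (r * R)) ^ m / Real.sqrt ((r ^ 2 - y ^ 2) * (R ^ 2 - y ^ 2))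
    rw [div_pow, pow_mul]
    ring
  have eQ : ∀ y, Q η (y ^ 2 / (r * R)) n / Real.sqrt ((r ^ 2 - y ^ 2) * (R ^ 2 - y ^ 2)) =
      ∑ i ∈ Finset.range (n + 1), ∑ j ∈ Finset.range (n + 1), η i * η j *
        ((y ^ 2 / (r * R)) ^ ((j : ℤ) - (i : ℤ)).natAbs /
          Real.sqrt ((r ^ 2 - y ^ 2) * (R ^ 2 - y ^ 2))) := by
    intro y
    unfold Q
    rw [Finset.sum_div]
    refine Finset.sum_congr rfl fun i _ => ?_
    rw [Finset.sum_div]
    refine Finset.sum_congr rfl fun j _ => ?_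
    ring
  have hint : IntegrableOn (fun y => Q η (y ^ 2 / (r * R)) n /
      Real.sqrt ((r ^ 2 - y ^ 2) * (R ^ 2 - y ^ 2))) (Ioo 0 r) := by
    simp_rw [eQ]
    exact integrable_finsetSum _ fun i _ => integrable_finsetSum _ fun j _ =>
      (int _).const_mul _
  have hI : (∫ y in Ioo 0 r, Q η (y ^ 2 / (r * R)) n /
      Real.sqrt ((r ^ 2 - y ^ 2) * (R ^ 2 - y ^ 2))) = 0 := by
    simp_rw [eQ]
    rw [integral_finsetSum _ (fun i _ => integrable_finsetSum _ fun j _ =>
      (int _).const_mul _)]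
    apply Finset.sum_eq_zero
    intro i hi
    rw [integral_finsetSum _ (fun j _ => (int _).const_mul _)]
    have e : ∀ j : ℕ, (∫ y in Ioo 0 r, η i * η j *
        ((y ^ 2 / (r * R)) ^ ((j : ℤ) - (i : ℤ)).natAbs /
          Real.sqrt ((r ^ 2 - y ^ 2) * (R ^ 2 - y ^ 2)))) =
        η i * (η j * T r R ((j : ℤ) - (i : ℤ)).natAbs) := by
      intro j
      rw [integral_const_mul, mul_assoc]
      rfl
    rw [Finset.sum_congr rfl (fun j _ => e j), ← Finset.mul_sum,
      hT i (by have := Finset.mem_range.1 hi; omega), mul_zero]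
  have ht : ∀ y ∈ Ioo 0 r, 0 < y ^ 2 / (r * R) ∧ y ^ 2 / (r * R) < 1 := by
    intro y hy
    have hy0 : 0 < y := hy.1
    refine ⟨by positivity, ?_⟩
    rw [div_lt_one hc]
    nlinarith [hy.1, hy.2]
  have hD : ∀ y ∈ Ioo 0 r, 0 < Real.sqrt ((r ^ 2 - y ^ 2) * (R ^ 2 - y ^ 2)) := by
    intro y hy
    apply Real.sqrt_pos.2
    apply mul_pos <;> nlinarith [hy.1, hy.2]
  have hnn : 0 ≤ᵐ[volume.restrict (Ioo 0 r)] fun y => Q η (y ^ 2 / (r * R)) n /
      Real.sqrt ((r ^ 2 - y ^ 2) * (R ^ 2 - y ^ 2)) := by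
    filter_upwards [ae_restrict_mem measurableSet_Ioo] with y hy
    have h1 := ht y hy
    have h2 : 0 ≤ 1 - (y ^ 2 / (r * R)) ^ 2 := by nlinarith [h1.1, h1.2]
    show 0 ≤ Q η (y ^ 2 / (r * R)) n / Real.sqrt ((r ^ 2 - y ^ 2) * (R ^ 2 - y ^ 2))
    rw [Q_eq]
    exact div_nonneg (add_nonneg (sq_nonneg _)
      (mul_nonneg h2 (Finset.sum_nonneg fun _ _ => sq_nonneg _))) (hD y hy).le
  have hz := (integral_eq_zero_iff_of_nonneg_ae hnn hint).1 hI
  have hne : (ae (volume.restrict (Ioo (0 : ℝ) r))).NeBot := by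
    rw [ae_neBot]
    intro h0
    have h1 := Measure.restrict_eq_zero.1 h0
    rw [Real.volume_Ioo, sub_zero, ENNReal.ofReal_eq_zero] at h1
    linarith
  obtain ⟨y, hy1, hy2⟩ := (hz.and (ae_restrict_mem measurableSet_Ioo)).exists
  have h1 : Q η (y ^ 2 / (r * R)) n = 0 := by
    have : Q η (y ^ 2 / (r * R)) n / Real.sqrt ((r ^ 2 - y ^ 2) * (R ^ 2 - y ^ 2)) = 0 := hy1
    exact (div_eq_zero_iff.1 this).resolve_right (hD y hy2).ne'
  intro j hj
  have h2 := eta_zero η _ n (ht y hy2).1 (ht y hy2).2 h1 j hj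
  rw [hη] at h2
  exact (mul_eq_zero.1 h2).resolve_right (pow_ne_zero _ hc.ne')

end Y11aux

open Y11aux in
theorem y11 (hy3 : Y3) : Y11 := by
  classical
  intro r R n hr hrR
  obtain ⟨M, hM⟩ : ∃ M : Matrix (Fin (n + 1)) (Fin (n + 1)) ℝ, ∀ i j, M i j =
    JJ r R (((j : ℕ) : ℤ) - ((i : ℕ) : ℤ)) := ⟨fun i j => JJ r R (((j : ℕ) : ℤ) - ((i : ℕ) : ℤ)),
      fun _ _ => rfl⟩
  have hinj : Function.Injective M.mulVecLin := by
    rw [injective_iff_map_eq_zero]
    intro a ha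
    obtain ⟨ξ, hξ⟩ : ∃ ξ : ℕ → ℝ, ∀ j, ξ j = if hj : j < n + 1 then a ⟨j, hj⟩ else 0 :=
      ⟨_, fun _ => rfl⟩
    have h1 := hom hy3 r R n hr hrR ξ (by
      intro i hi
      have h2 := congrFun ha ⟨i, by omega⟩
      rw [Matrix.mulVecLin_apply, Matrix.mulVec, dotProduct] at h2
      rw [Finset.sum_range]
      rw [Pi.zero_apply] at h2
      rw [← h2]
      refine Finset.sum_congr rfl fun j _ => ?_
      rw [hM, hξ, dif_pos j.2, mul_comm])
    funext j
    have h2 := h1 j (by have := j.2; omega)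
    rw [hξ, dif_pos j.2] at h2
    exact h2
  have hsurj : Function.Surjective M.mulVecLin := LinearMap.injective_iff_surjective.1 hinj
  obtain ⟨a, ha⟩ := hsurj fun i => -JJ r R (((n + 1 : ℕ) : ℤ) - ((i : ℕ) : ℤ))
  obtain ⟨q, hq⟩ : ∃ q : Polynomial ℝ, q = ∑ j : Fin (n + 1),
    Polynomial.C (a j) * Polynomial.X ^ (j : ℕ) := ⟨_, rfl⟩
  have hqd : q.degree < ((n + 1 : ℕ) : WithBot ℕ) := by
    rw [hq]
    exact Polynomial.degree_sum_fin_lt a
  have hqc : ∀ j : Fin (n + 1), q.coeff j = a j := by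
    intro j
    rw [hq, Polynomial.finsetSum_coeff, Finset.sum_eq_single j]
    · rw [Polynomial.coeff_C_mul_X_pow, if_pos rfl]
    · intro b _ hb
      rw [Polynomial.coeff_C_mul_X_pow, if_neg]
      intro h
      exact hb (Fin.ext h.symm)
    · intro h
      exact absurd (Finset.mem_univ _) h
  have hpn : (Polynomial.X ^ (n + 1) + q).natDegree = n + 1 := by
    rw [Polynomial.natDegree_add_eq_left_of_degree_lt (by
      rw [Polynomial.degree_X_pow]
      exact hqd), Polynomial.natDegree_X_pow]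
  have hpm : (Polynomial.X ^ (n + 1) + q).Monic := Polynomial.monic_X_pow_add hqd
  refine ⟨Polynomial.X ^ (n + 1) + q, ⟨hpm, hpn, ?_⟩, ?_⟩
  · intro i hi
    rw [Finset.sum_range_succ]
    have h1 : (Polynomial.X ^ (n + 1) + q).coeff (n + 1) = 1 := by
      have := hpm
      rw [Polynomial.Monic, Polynomial.leadingCoeff, hpn] at this
      exact this
    have h2 : ∑ j ∈ Finset.range (n + 1), (Polynomial.X ^ (n + 1) + q).coeff j *
        JJ r R ((j : ℤ) - (i : ℤ)) = -JJ r R (((n + 1 : ℕ) : ℤ) - (i : ℤ)) := by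
      have h3 := congrFun ha ⟨i, by omega⟩
      rw [Matrix.mulVecLin_apply, Matrix.mulVec, dotProduct] at h3
      rw [Finset.sum_range]
      refine Eq.trans ?_ h3
      refine Finset.sum_congr rfl fun j _ => ?_
      rw [hM, Polynomial.coeff_add, Polynomial.coeff_X_pow, if_neg (by have := j.2; omega),
        zero_add, hqc, mul_comm]
    rw [h2, h1, one_mul, neg_add_cancel]
  · rintro p ⟨hm, hd, hp⟩
    have h1 := hom hy3 r R n hr hrR
      (fun j => p.coeff j - (Polynomial.X ^ (n + 1) + q).coeff j) (by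
      intro i hi
      have e1 := hp i hi
      have e2 : ∑ j ∈ Finset.range (n + 2), (Polynomial.X ^ (n + 1) + q).coeff j *
          JJ r R ((j : ℤ) - (i : ℤ)) = 0 := by
        rw [Finset.sum_range_succ]
        have h1 : (Polynomial.X ^ (n + 1) + q).coeff (n + 1) = 1 := by
          have := hpm
          rw [Polynomial.Monic, Polynomial.leadingCoeff, hpn] at this
          exact this
        have h2 : ∑ j ∈ Finset.range (n + 1), (Polynomial.X ^ (n + 1) + q).coeff j *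
            JJ r R ((j : ℤ) - (i : ℤ)) = -JJ r R (((n + 1 : ℕ) : ℤ) - (i : ℤ)) := by
          have h3 := congrFun ha ⟨i, by omega⟩
          rw [Matrix.mulVecLin_apply, Matrix.mulVec, dotProduct] at h3
          rw [Finset.sum_range]
          refine Eq.trans ?_ h3
          refine Finset.sum_congr rfl fun j _ => ?_
          rw [hM, Polynomial.coeff_add, Polynomial.coeff_X_pow, if_neg (by have := j.2; omega),
            zero_add, hqc, mul_comm]
        rw [h2, h1, one_mul, neg_add_cancel]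
      have e3 : p.coeff (n + 1) = 1 := by
        rw [Polynomial.Monic, Polynomial.leadingCoeff, hd] at hm
        exact hm
      have e4 : (Polynomial.X ^ (n + 1) + q).coeff (n + 1) = 1 := by
        have := hpm
        rw [Polynomial.Monic, Polynomial.leadingCoeff, hpn] at this
        exact this
      rw [Finset.sum_range_succ, e3] at e1
      rw [Finset.sum_range_succ, e4] at e2
      simp only [sub_mul, Finset.sum_sub_distrib]
      linarith)
    ext j
    rcases lt_trichotomy j (n + 1) with hj | hj | hj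
    · exact sub_eq_zero.1 (h1 j (by omega))
    · rw [hj]
      have e3 : p.coeff (n + 1) = 1 := by
        rw [Polynomial.Monic, Polynomial.leadingCoeff, hd] at hm
        exact hm
      have e4 : (Polynomial.X ^ (n + 1) + q).coeff (n + 1) = 1 := by
        have := hpm
        rw [Polynomial.Monic, Polynomial.leadingCoeff, hpn] at this
        exact this
      rw [e3, e4]
    · rw [Polynomial.coeff_eq_zero_of_natDegree_lt (by omega),
        Polynomial.coeff_eq_zero_of_natDegree_lt (by omega)]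

end Pool.J6H16.RZ
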