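import Pool.Agent.J6H16.RZ.Stm2

/-!
# Module RY-Y12: the polynomial `p` has no zero in `(r², R²)`
-/

set_option autoImplicit false

open MeasureTheory Set Real

namespace Pool.J6H16.RZ

namespace Y12

/-- the denominator -/
private noncomputable def s (r R y : ℝ) : ℝ := Real.sqrt ((r ^ 2 - y ^ 2) * (R ^ 2 - y ^ 2))

private theorem JJ_nat (r R : ℝ) (m : ℕ) : JJ r R (m : ℤ) = Jn r R m := by
  simp [JJ]

private theorem JJ_neg (r R : ℝ) (m : ℕ) : JJ r R (-(m : ℤ)) = Jn r R m / (r * R) ^ (2 * m) := by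
  rcases Nat.eq_zero_or_pos m with rfl | hm
  · simp [JJ]
  · have h : ¬ (0 : ℤ) ≤ -(m : ℤ) := by omega
    rw [JJ, if_neg h]
    simp

/-- the integrand for the entry `(i, j)` -/
private noncomputable def M (r R x : ℝ) (n i j : ℕ) (y : ℝ) : ℝ :=
  if n ≤ i + j then
    x * (y ^ (2 * (i + j - n)) / s r R y) - y ^ (2 * (i + j - n + 1)) / s r R y
  else
    (x / (r * R) ^ (2 * (n - i - j))) * (y ^ (2 * (n - i - j)) / s r R y) -
      (1 / (r * R) ^ (2 * (n - i - j - 1))) * (y ^ (2 * (n - i - j - 1)) / s r R y)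

private theorem M_int (r R x : ℝ) (n i j : ℕ)
    (h : ∀ m : ℕ, IntegrableOn (fun y => y ^ (2 * m) / s r R y) (Ioo 0 r)) :
    IntegrableOn (M r R x n i j) (Ioo 0 r) := by
  unfold M
  by_cases hc : n ≤ i + j
  · simp only [if_pos hc]
    exact ((h _).const_mul x).sub (h _)
  · simp only [if_neg hc]
    exact ((h _).const_mul _).sub ((h _).const_mul _)

private theorem M_val (r R x : ℝ) (n i j : ℕ) (hi : i ≤ n)
    (h : ∀ m : ℕ, IntegrableOn (fun y => y ^ (2 * m) / s r R y) (Ioo 0 r)) :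
    x * JJ r R ((j : ℤ) - ((n - i : ℕ) : ℤ)) - JJ r R (((j + 1 : ℕ) : ℤ) - ((n - i : ℕ) : ℤ)) =
      ∫ y in Ioo 0 r, M r R x n i j y := by
  have hJ : ∀ m : ℕ, Jn r R m = ∫ y in Ioo 0 r, y ^ (2 * m) / s r R y := fun m => rfl
  by_cases hc : n ≤ i + j
  · have e1 : (j : ℤ) - ((n - i : ℕ) : ℤ) = ((i + j - n : ℕ) : ℤ) := by omega
    have e2 : ((j + 1 : ℕ) : ℤ) - ((n - i : ℕ) : ℤ) = ((i + j - n + 1 : ℕ) : ℤ) := by omega
    rw [e1, e2, JJ_nat, JJ_nat, hJ, hJ]
    have e3 : (∫ y in Ioo 0 r, M r R x n i j y) =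
        ∫ y in Ioo 0 r, (x * (y ^ (2 * (i + j - n)) / s r R y) -
          y ^ (2 * (i + j - n + 1)) / s r R y) := by
      unfold M
      simp only [if_pos hc]
    rw [e3, integral_sub ((h _).const_mul x) (h _), integral_const_mul]
  · have e1 : (j : ℤ) - ((n - i : ℕ) : ℤ) = -((n - i - j : ℕ) : ℤ) := by omega
    have e2 : ((j + 1 : ℕ) : ℤ) - ((n - i : ℕ) : ℤ) = -((n - i - j - 1 : ℕ) : ℤ) := by omega
    rw [e1, e2, JJ_neg, JJ_neg, hJ, hJ]
    have e3 : (∫ y in Ioo 0 r, M r R x n i j y) =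
        ∫ y in Ioo 0 r, ((x / (r * R) ^ (2 * (n - i - j))) * (y ^ (2 * (n - i - j)) / s r R y) -
      (1 / (r * R) ^ (2 * (n - i - j - 1))) * (y ^ (2 * (n - i - j - 1)) / s r R y)) := by
      unfold M
      simp only [if_neg hc]
    rw [e3, integral_sub ((h _).const_mul _) ((h _).const_mul _), integral_const_mul,
      integral_const_mul]
    ring

private theorem M_symm (r R x : ℝ) (n i j : ℕ) : M r R x n i j = M r R x n j i := by
  funext y
  unfold M
  rw [Nat.add_comm j i, Nat.sub_right_comm n j i]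

/-- the sign -/
private noncomputable def ep (n i : ℕ) : ℝ := if n ≤ 2 * i then 1 else -1

private noncomputable def Ai (g : Polynomial ℝ) (n i : ℕ) (y : ℝ) : ℝ :=
  if n ≤ 2 * i then g.coeff i * y ^ (2 * i - n) else 0

private noncomputable def Bi (r R : ℝ) (g : Polynomial ℝ) (n i : ℕ) (y : ℝ) : ℝ :=
  if n ≤ 2 * i then 0 else g.coeff i / (r * R) ^ (n - 2 * i) * y ^ (n - 2 * i - 1)

private theorem point (r R x : ℝ) (g : Polynomial ℝ) (n i j : ℕ) (y : ℝ) (hc : r * R ≠ 0) :
    (ep n i + ep n j) / 2 * (g.coeff i * g.coeff j * M r R x n i j y) =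
      ((x - y ^ 2) * (Ai g n i y * Ai g n j y) +
        ((r * R) ^ 2 - x * y ^ 2) * (Bi r R g n i y * Bi r R g n j y)) / s r R y := by
  unfold ep Ai Bi M
  by_cases h1 : n ≤ 2 * i
  · by_cases h2 : n ≤ 2 * j
    · have h3 : n ≤ i + j := by omega
      simp only [if_pos h1, if_pos h2, if_pos h3]
      have e1 : y ^ (2 * (i + j - n)) = y ^ (2 * i - n) * y ^ (2 * j - n) := by
        rw [← pow_add]
        congr 1
        omega
      have e2 : y ^ (2 * (i + j - n + 1)) = y ^ (2 * i - n) * y ^ (2 * j - n) * y ^ 2 := by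
        rw [← pow_add, ← pow_add]
        congr 1
        omega
      rw [e1, e2]
      ring
    · simp only [if_pos h1, if_neg h2]
      ring
  · by_cases h2 : n ≤ 2 * j
    · simp only [if_neg h1, if_pos h2]
      ring
    · have h3 : ¬ n ≤ i + j := by omega
      simp only [if_neg h1, if_neg h2, if_neg h3]
      have e1 : y ^ (2 * (n - i - j)) = y ^ (n - 2 * i - 1) * y ^ (n - 2 * j - 1) * y ^ 2 := by
        rw [← pow_add, ← pow_add]
        congr 1
        omega
      have e2 : y ^ (2 * (n - i - j - 1)) = y ^ (n - 2 * i - 1) * y ^ (n - 2 * j - 1) := by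
        rw [← pow_add]
        congr 1
        omega
      have e3 : (r * R) ^ (2 * (n - i - j)) = (r * R) ^ (n - 2 * i) * (r * R) ^ (n - 2 * j) := by
        rw [← pow_add]
        congr 1
        omega
      have e4 : 1 / (r * R) ^ (2 * (n - i - j - 1)) =
          (r * R) ^ 2 / ((r * R) ^ (n - 2 * i) * (r * R) ^ (n - 2 * j)) := by
        rw [← e3]
        have e5 : 2 * (n - i - j) = 2 * (n - i - j - 1) + 2 := by omega
        have e6 : (r * R) ^ (2 * (n - i - j - 1)) ≠ 0 := pow_ne_zero _ hc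
        rw [e5, pow_add, div_eq_div_iff e6 (mul_ne_zero e6 (pow_ne_zero _ hc))]
        ring
      rw [e1, e2, e3, e4]
      have h5 : (r * R) ^ (n - 2 * i) ≠ 0 := pow_ne_zero _ hc
      have h6 : (r * R) ^ (n - 2 * j) ≠ 0 := pow_ne_zero _ hc
      generalize (r * R) ^ (n - 2 * i) = u at *
      generalize (r * R) ^ (n - 2 * j) = v at *
      generalize (s r R y) = t at *
      rw [div_eq_mul_inv, div_eq_mul_inv, div_eq_mul_inv, div_eq_mul_inv, div_eq_mul_inv,
        div_eq_mul_inv, div_eq_mul_inv, mul_inv]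
      ring

/-- the polynomial of the `Ai` -/
private noncomputable def PA (g : Polynomial ℝ) (n : ℕ) : Polynomial ℝ :=
  ∑ i ∈ Finset.range (n + 1), if n ≤ 2 * i then Polynomial.monomial (2 * i - n) (g.coeff i) else 0

private theorem PA_eval (g : Polynomial ℝ) (n : ℕ) (y : ℝ) :
    (PA g n).eval y = ∑ i ∈ Finset.range (n + 1), Ai g n i y := by
  unfold PA Ai
  rw [Polynomial.eval_finsetSum]
  refine Finset.sum_congr rfl fun i _ => ?_
  by_cases h : n ≤ 2 * i
  · rw [if_pos h, if_pos h, Polynomial.eval_monomial]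
  · rw [if_neg h, if_neg h, Polynomial.eval_zero]

private theorem PA_coeff (g : Polynomial ℝ) (n : ℕ) : (PA g n).coeff n = g.coeff n := by
  unfold PA
  rw [Polynomial.finsetSum_coeff, Finset.sum_eq_single n]
  · rw [if_pos (by omega), Polynomial.coeff_monomial, if_pos (by omega)]
  · intro i hi hin
    have hi' := Finset.mem_range.1 hi
    by_cases h : n ≤ 2 * i
    · rw [if_pos h, Polynomial.coeff_monomial, if_neg (by omega)]
    · rw [if_neg h, Polynomial.coeff_zero]
  · intro h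
    exact absurd (Finset.mem_range.2 (by omega)) h

/-- the equations for the coefficients of the quotient -/
private theorem eqs (r R x : ℝ) (n : ℕ) (g : Polynomial ℝ) (hg : g.natDegree = n)
    (h : ∀ i : ℕ, i ≤ n → ∑ j ∈ Finset.range (n + 2),
      ((Polynomial.X - Polynomial.C x) * g).coeff j * JJ r R ((j : ℤ) - (i : ℤ)) = 0)
    (i : ℕ) :
    ∑ j ∈ Finset.range (n + 1), g.coeff j *
      (x * JJ r R ((j : ℤ) - ((n - i : ℕ) : ℤ)) - JJ r R (((j + 1 : ℕ) : ℤ) - ((n - i : ℕ) : ℤ))) = 0 := by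
  have h1 := h (n - i) (Nat.sub_le _ _)
  have h2 : ∀ j : ℕ, ((Polynomial.X - Polynomial.C x) * g).coeff j * JJ r R ((j : ℤ) - ((n - i : ℕ) : ℤ)) =
      (Polynomial.X * g).coeff j * JJ r R ((j : ℤ) - ((n - i : ℕ) : ℤ)) -
        g.coeff j * (x * JJ r R ((j : ℤ) - ((n - i : ℕ) : ℤ))) := by
    intro j
    rw [sub_mul, Polynomial.coeff_sub, Polynomial.coeff_C_mul]
    ring
  rw [Finset.sum_congr rfl fun j _ => h2 j, Finset.sum_sub_distrib, Finset.sum_range_succ',
    Polynomial.coeff_X_mul_zero, zero_mul, add_zero,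
    Finset.sum_range_succ (fun j => g.coeff j * (x * JJ r R ((j : ℤ) - ((n - i : ℕ) : ℤ)))) (n + 1),
    Polynomial.coeff_eq_zero_of_natDegree_lt (by omega : g.natDegree < n + 1), zero_mul, add_zero] at h1
  simp only [Polynomial.coeff_X_mul] at h1
  simp only [mul_sub]
  rw [Finset.sum_sub_distrib]
  linarith

end Y12

open Y12 in
theorem y12 (hy3 : Y3) : Y12 := by
  intro r R n p hr hrR hC x hx1 hx2 hp0
  obtain ⟨hm, hd, hcond⟩ := hC
  have hR : 0 < R := hr.trans hrR
  have hc : r * R ≠ 0 := (mul_pos hr hR).ne'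
  have h3 : ∀ m : ℕ, IntegrableOn (fun y => y ^ (2 * m) / s r R y) (Ioo 0 r) :=
    fun m => (hy3 r R hr hrR m).1
  obtain ⟨g, rfl⟩ := Polynomial.dvd_iff_isRoot.2 hp0
  have hgm : g.Monic := (Polynomial.monic_X_sub_C x).of_mul_monic_left hm
  have hgd : g.natDegree = n := by
    rw [(Polynomial.monic_X_sub_C x).natDegree_mul hgm, Polynomial.natDegree_X_sub_C] at hd
    omega
  have hgn : g.coeff n = 1 := by
    rw [← hgd]
    exact hgm
  have hE := fun (i : ℕ) (_ : i ≤ n) => eqs r R x n g hgd hcond i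
  -- the double sum
  have h4 : ∀ i ∈ Finset.range (n + 1), ∑ j ∈ Finset.range (n + 1),
      g.coeff i * g.coeff j * (∫ y in Ioo 0 r, M r R x n i j y) = 0 := by
    intro i hi
    have hi' : i ≤ n := by
      have := Finset.mem_range.1 hi
      omega
    have h5 := hE i hi'
    have h6 : ∑ j ∈ Finset.range (n + 1), g.coeff i * g.coeff j * (∫ y in Ioo 0 r, M r R x n i j y) =
        g.coeff i * ∑ j ∈ Finset.range (n + 1), g.coeff j *
      (x * JJ r R ((j : ℤ) - ((n - i : ℕ) : ℤ)) - JJ r R (((j + 1 : ℕ) : ℤ) - ((n - i : ℕ) : ℤ))) := by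
      rw [Finset.mul_sum]
      refine Finset.sum_congr rfl fun j _ => ?_
      rw [M_val r R x n i j hi' h3]
      ring
    rw [h6, h5, mul_zero]
  have h7 : ∑ i ∈ Finset.range (n + 1), ∑ j ∈ Finset.range (n + 1),
      ep n i * (g.coeff i * g.coeff j * (∫ y in Ioo 0 r, M r R x n i j y)) = 0 := by
    refine Finset.sum_eq_zero fun i hi => ?_
    rw [← Finset.mul_sum, h4 i hi, mul_zero]
  have h8 : ∑ i ∈ Finset.range (n + 1), ∑ j ∈ Finset.range (n + 1),
      ep n j * (g.coeff i * g.coeff j * (∫ y in Ioo 0 r, M r R x n i j y)) = 0 := by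
    refine Finset.sum_comm.trans (Eq.trans ?_ h7)
    refine Finset.sum_congr rfl fun j _ => Finset.sum_congr rfl fun i _ => ?_
    rw [M_symm]
    ring
  have h9 : ∑ i ∈ Finset.range (n + 1), ∑ j ∈ Finset.range (n + 1),
      (∫ y in Ioo 0 r, (ep n i + ep n j) / 2 * (g.coeff i * g.coeff j * M r R x n i j y)) = 0 := by
    have h10 : ∀ i j, (∫ y in Ioo 0 r, (ep n i + ep n j) / 2 * (g.coeff i * g.coeff j * M r R x n i j y)) =
        1 / 2 * (ep n i * (g.coeff i * g.coeff j * (∫ y in Ioo 0 r, M r R x n i j y))) +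
        1 / 2 * (ep n j * (g.coeff i * g.coeff j * (∫ y in Ioo 0 r, M r R x n i j y))) := by
      intro i j
      rw [integral_const_mul, integral_const_mul]
      ring
    have h10a : ∑ i ∈ Finset.range (n + 1), ∑ j ∈ Finset.range (n + 1),
        (1 / 2 * (ep n i * (g.coeff i * g.coeff j * (∫ y in Ioo 0 r, M r R x n i j y)))) = 0 := by
      have : ∑ i ∈ Finset.range (n + 1), ∑ j ∈ Finset.range (n + 1),
        (1 / 2 * (ep n i * (g.coeff i * g.coeff j * (∫ y in Ioo 0 r, M r R x n i j y)))) =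
        1 / 2 * ∑ i ∈ Finset.range (n + 1), ∑ j ∈ Finset.range (n + 1),
        (ep n i * (g.coeff i * g.coeff j * (∫ y in Ioo 0 r, M r R x n i j y))) := by
        simp only [Finset.mul_sum]
      rw [this, h7, mul_zero]
    have h10b : ∑ i ∈ Finset.range (n + 1), ∑ j ∈ Finset.range (n + 1),
        (1 / 2 * (ep n j * (g.coeff i * g.coeff j * (∫ y in Ioo 0 r, M r R x n i j y)))) = 0 := by
      have : ∑ i ∈ Finset.range (n + 1), ∑ j ∈ Finset.range (n + 1),
        (1 / 2 * (ep n j * (g.coeff i * g.coeff j * (∫ y in Ioo 0 r, M r R x n i j y)))) =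
        1 / 2 * ∑ i ∈ Finset.range (n + 1), ∑ j ∈ Finset.range (n + 1),
        (ep n j * (g.coeff i * g.coeff j * (∫ y in Ioo 0 r, M r R x n i j y))) := by
        simp only [Finset.mul_sum]
      rw [this, h8, mul_zero]
    simp only [h10, Finset.sum_add_distrib]
    rw [h10a, h10b, add_zero]
  -- the integrand
  set A : ℝ → ℝ := fun y => ∑ i ∈ Finset.range (n + 1), Ai g n i y with hA
  set B : ℝ → ℝ := fun y => ∑ i ∈ Finset.range (n + 1), Bi r R g n i y with hB
  have h11 : ∀ y, ∑ i ∈ Finset.range (n + 1), ∑ j ∈ Finset.range (n + 1),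
      ((ep n i + ep n j) / 2 * (g.coeff i * g.coeff j * M r R x n i j y)) =
      ((x - y ^ 2) * A y ^ 2 + ((r * R) ^ 2 - x * y ^ 2) * B y ^ 2) / s r R y := by
    intro y
    simp only [point r R x g n _ _ y hc]
    simp only [← Finset.sum_div, Finset.sum_add_distrib, ← Finset.mul_sum, ← Finset.sum_mul]
    simp only [hA, hB]
    ring
  have hint : ∀ i j, IntegrableOn
      (fun y => (ep n i + ep n j) / 2 * (g.coeff i * g.coeff j * M r R x n i j y)) (Ioo 0 r) :=
    fun i j => ((M_int r R x n i j h3).const_mul _).const_mul _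
  have hint1 : ∀ i, IntegrableOn (fun y => ∑ j ∈ Finset.range (n + 1),
      ((ep n i + ep n j) / 2 * (g.coeff i * g.coeff j * M r R x n i j y))) (Ioo 0 r) :=
    fun i => integrable_finsetSum _ fun j _ => hint i j
  have hint2 : IntegrableOn (fun y => ((x - y ^ 2) * A y ^ 2 +
      ((r * R) ^ 2 - x * y ^ 2) * B y ^ 2) / s r R y) (Ioo 0 r) := by
    have : IntegrableOn (fun y => ∑ i ∈ Finset.range (n + 1), ∑ j ∈ Finset.range (n + 1),
      ((ep n i + ep n j) / 2 * (g.coeff i * g.coeff j * M r R x n i j y))) (Ioo 0 r) :=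
      integrable_finsetSum _ fun i _ => hint1 i
    simpa only [h11] using this
  have h12 : (∫ y in Ioo 0 r, ((x - y ^ 2) * A y ^ 2 +
      ((r * R) ^ 2 - x * y ^ 2) * B y ^ 2) / s r R y) = 0 := by
    refine Eq.trans ?_ h9
    simp only [← h11]
    rw [integral_finsetSum _ fun i _ => hint1 i]
    refine Finset.sum_congr rfl fun i _ => ?_
    rw [integral_finsetSum _ fun j _ => hint i j]
  have hs : ∀ y ∈ Ioo 0 r, 0 < s r R y := by
    intro y hy
    have h1 : 0 < r ^ 2 - y ^ 2 := by nlinarith [hy.1, hy.2]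
    have h2 : 0 < R ^ 2 - y ^ 2 := by nlinarith [hy.1, hy.2]
    exact Real.sqrt_pos.2 (mul_pos h1 h2)
  have hx : ∀ y ∈ Ioo 0 r, 0 < x - y ^ 2 := by
    intro y hy
    nlinarith [hy.1, hy.2]
  have hx' : ∀ y ∈ Ioo 0 r, 0 < (r * R) ^ 2 - x * y ^ 2 := by
    intro y hy
    have h1 : y ^ 2 < r ^ 2 := by nlinarith [hy.1, hy.2]
    have h2 : 0 < y ^ 2 := by nlinarith [hy.1, hy.2]
    have h3 : 0 < R ^ 2 := by positivity
    calc (0 : ℝ) < R ^ 2 * (r ^ 2 - y ^ 2) := mul_pos h3 (by linarith)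
      _ ≤ (r * R) ^ 2 - x * y ^ 2 := by nlinarith
  have h13 : ∀ᵐ y ∂(volume.restrict (Ioo 0 r)), A y = 0 := by
    have h14 := (setIntegral_eq_zero_iff_of_nonneg_ae (μ := volume) (s := Ioo 0 r) ?_ hint2).1 h12
    · filter_upwards [h14, ae_restrict_mem measurableSet_Ioo] with y hy hyr
      have h15 := hs y hyr
      have h16 := hx y hyr
      have h17 := hx' y hyr
      simp only [Pi.zero_apply] at hy
      rw [div_eq_zero_iff] at hy
      rcases hy with hy | hy
      · have h18 : (x - y ^ 2) * A y ^ 2 = 0 := by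
          nlinarith [mul_nonneg h16.le (sq_nonneg (A y)), mul_nonneg h17.le (sq_nonneg (B y))]
        rcases mul_eq_zero.1 h18 with h | h
        · exact absurd h h16.ne'
        · exact pow_eq_zero_iff (two_ne_zero) |>.1 h
      · exact absurd hy h15.ne'
    · filter_upwards [ae_restrict_mem measurableSet_Ioo] with y hyr
      have h15 := hs y hyr
      have h16 := hx y hyr
      have h17 := hx' y hyr
      have h18 := mul_nonneg h16.le (sq_nonneg (A y))
      have h19 := mul_nonneg h17.le (sq_nonneg (B y))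
      exact div_nonneg (add_nonneg h18 h19) h15.le
  have hPA : PA g n ≠ 0 := by
    intro h
    have h1 := PA_coeff g n
    rw [h, hgn, Polynomial.coeff_zero] at h1
    exact zero_ne_one h1
  have h20 : ∀ᵐ y ∂(volume.restrict (Ioo 0 r)), A y ≠ 0 := by
    have hfin : ({y : ℝ | (PA g n).IsRoot y}).Finite := Polynomial.finite_setOfPred_isRoot hPA
    have h21 : ∀ᵐ y ∂(volume : Measure ℝ), y ∉ {y : ℝ | (PA g n).IsRoot y} :=
      measure_eq_zero_iff_ae_notMem.1 (hfin.measure_zero volume)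
    filter_upwards [ae_restrict_of_ae h21] with y hy h
    apply hy
    show (PA g n).eval y = 0
    rw [PA_eval]
    exact h
  have h22 : ∀ᵐ y ∂(volume.restrict (Ioo 0 r)), False := by
    filter_upwards [h13, h20] with y h1 h2
    exact h2 h1
  rw [Filter.eventually_false_iff_eq_bot, ae_eq_bot, Measure.restrict_eq_zero, Real.volume_Ioo,
    ENNReal.ofReal_eq_zero] at h22
  linarith

end Pool.J6H16.RZ
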