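import Pool.Agent.J6H16.RZ.Stm2

/-! # Project RY (helper16), module Y13 (helper42): positivity of the polynomial -/

open MeasureTheory Set Real
open scoped ENNReal

namespace Pool.J6H16.RZ

namespace Y13aux

lemma ac_pos (n : ℕ) : 0 < ac n := by
  unfold ac
  have h : 0 < Nat.centralBinom n := Nat.centralBinom_pos n
  have h2 : (0 : ℝ) < (Nat.centralBinom n : ℝ) := by exact_mod_cast h
  positivity

lemma wn_pos (n : ℕ) : 0 < wn n := by
  unfold wn
  refine Finset.sum_pos (fun j _ => ?_) ⟨0, by simp⟩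
  have h1 := ac_pos j
  have h2 := ac_pos (n - j)
  positivity

lemma Nn_nonneg (n : ℕ) (X ρ : ℝ) : 0 ≤ Nn n X ρ := by
  unfold Nn
  refine setIntegral_nonneg measurableSet_Ioo (fun v hv => ?_)
  have h : 0 < v := hv.1
  positivity

end Y13aux

open Y13aux in
theorem y13 (hy10 : Y10) (hy12 : Y12) : Y13 := by
  intro r R n p hr hR hc u hu1 hu2
  by_contra hneg
  push Not at hneg
  have hu : p.eval u < 0 := lt_of_le_of_ne hneg (hy12 r R n p hr hR hc u hu1 hu2)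
  -- the sign is constant
  have hall : ∀ v : ℝ, r ^ 2 < v → v < R ^ 2 → p.eval v < 0 := by
    intro v hv1 hv2
    by_contra hv
    push Not at hv
    have hcont : ContinuousOn (fun x : ℝ => p.eval x) (Ioo (r ^ 2) (R ^ 2)) :=
      p.continuous.continuousOn
    have hmem := (isPreconnected_Ioo (a := r ^ 2) (b := R ^ 2)).intermediate_value
      (⟨hu1, hu2⟩ : u ∈ Ioo (r ^ 2) (R ^ 2)) (⟨hv1, hv2⟩ : v ∈ Ioo (r ^ 2) (R ^ 2)) hcont
    obtain ⟨x, hx, hx0⟩ := hmem ⟨hu.le, hv⟩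
    exact hy12 r R n p hr hR hc x hx.1 hx.2 hx0
  have h1 := (hy10 r R n p hr hR hc r le_rfl hR.le).2
  have h2 : (∫ ρ in Ioo r R, p.eval (ρ ^ 2) / (ρ ^ (2 * n) * w r R ρ) * Nn n r ρ) ≤ 0 := by
    refine setIntegral_nonpos measurableSet_Ioo (fun ρ hρ => ?_)
    have hρ0 : 0 < ρ := hr.trans hρ.1
    have e1 : r ^ 2 < ρ ^ 2 := pow_lt_pow_left₀ hρ.1 hr.le two_ne_zero
    have e2 : ρ ^ 2 < R ^ 2 := pow_lt_pow_left₀ hρ.2 hρ0.le two_ne_zero
    have e3 : p.eval (ρ ^ 2) < 0 := hall _ e1 e2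
    have e4 : 0 ≤ w r R ρ := Real.sqrt_nonneg _
    have e5 : 0 ≤ ρ ^ (2 * n) * w r R ρ := by positivity
    exact mul_nonpos_of_nonpos_of_nonneg (div_nonpos_of_nonpos_of_nonneg e3.le e5) (Nn_nonneg _ _ _)
  have h3 : 0 < π * wn n * r ^ (2 * n + 1) := by
    have := wn_pos n
    positivity
  rw [h1] at h2
  linarith

end Pool.J6H16.RZ
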