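import Pool.Agent.J6H16.RZ.Stm2

/-!
Y2 of project RY (helper16): powers `E u = u^k` in Y1 (helper34).
-/

open MeasureTheory Set Real
open scoped ENNReal

namespace Pool.J6H16.RZ

namespace Y2aux

theorem int_mo {r R : ℝ} (hr : 0 < r) (hb : IntegrableOn (fun ρ => 2 * ρ / w r R ρ) (Ioo r R))
    (k : ℤ) : IntegrableOn (fun ρ => (ρ ^ 2) ^ k * (2 * ρ / w r R ρ)) (Ioo r R) := by
  have hc : ContinuousOn (fun ρ : ℝ => (ρ ^ 2) ^ k) (Icc r R) := by
    refine ContinuousOn.zpow₀ (by fun_prop) k ?_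
    intro x hx
    left
    have : 0 < x := lt_of_lt_of_le hr hx.1
    positivity
  exact hb.continuousOn_mul_of_subset hc isCompact_Icc measurableSet_Ioo Ioo_subset_Icc_self

theorem sum_int {r R : ℝ} (hr : 0 < r) (hb : IntegrableOn (fun ρ => 2 * ρ / w r R ρ) (Ioo r R))
    (n : ℕ) (k : ℕ → ℤ) (b : ℕ → ℝ) :
    (∫ ρ in Ioo r R, (∑ i ∈ Finset.range n, (ρ ^ 2) ^ (k i) * b i) * (2 * ρ / w r R ρ)) =
      ∑ i ∈ Finset.range n, Mo r R (k i) * b i := by
  simp_rw [Finset.sum_mul]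
  rw [integral_finsetSum]
  · refine Finset.sum_congr rfl fun i _ => ?_
    rw [Mo, ← integral_mul_const]
    congr 1
    ext ρ
    ring
  · intro i _
    have h := (int_mo hr hb (k i)).mul_const (b i)
    refine h.congr (Filter.Eventually.of_forall fun ρ => ?_)
    show (ρ ^ 2) ^ k i * (2 * ρ / w r R ρ) * b i = (ρ ^ 2) ^ k i * b i * (2 * ρ / w r R ρ)
    ring

end Y2aux

open Y2aux in
theorem y2 (hy1 : Y1) (hb1 : B1) : Y2 := by
  intro r R X hr hrR hrX hXR
  have hb := (hb1 r R hr hrR).1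
  have hmain : ∀ (k : ℤ) (D : ℝ → ℝ → ℝ), ContinuousOn (Function.uncurry D) (Ioi 0 ×ˢ Ioi 0) →
      (∀ u v : ℝ, 0 < u → 0 < v → u ^ k - v ^ k = (u - v) * D u v) →
      IntegrableOn (fun ρ => (ρ ^ 2) ^ k / w r R ρ * Real.log ((X + ρ) / |X - ρ|)) (Ioo r R) ∧
      Fk r R k X = Fk r R k r +
        ∫ Y in r..X, ∫ ρ in Ioo r R, D (ρ ^ 2) (Y ^ 2) * (2 * ρ / w r R ρ) := by
    intro k D hD h
    exact hy1 r R X hr hrR hrX hXR (fun u => u ^ k) (fun u => k * u ^ (k - 1)) D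
      (fun u hu => hasDerivAt_zpow k u (Or.inl hu.ne'))
      (continuousOn_const.mul (ContinuousOn.zpow₀ continuousOn_id (k - 1)
        (fun x hx => Or.inl (ne_of_gt (mem_Ioi.1 hx)))))
      hD h
  have hX : 0 < X := lt_of_lt_of_le hr hrX
  have hpos : ∀ n : ℕ,
      IntegrableOn (fun ρ => (ρ ^ 2) ^ (n : ℤ) / w r R ρ * Real.log ((X + ρ) / |X - ρ|)) (Ioo r R) ∧
      Fk r R n X = Fk r R n r +
        ∑ i ∈ Finset.range n, Mo r R i * (X ^ q n i - r ^ q n i) / (q n i : ℝ) := by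
    intro n
    obtain ⟨h1, h2⟩ := hmain n
      (fun u v => ∑ i ∈ Finset.range n, u ^ ((i : ℕ) : ℤ) * v ^ (n - 1 - i)) (by
        refine continuousOn_finsetSum _ fun i _ => ?_
        simp only [zpow_natCast]
        fun_prop) (by
        intro u v _ _
        simp only [zpow_natCast]
        rw [mul_comm, geom_sum₂_mul])
    refine ⟨h1, ?_⟩
    rw [h2]
    congr 1
    have h3 : ∀ Y : ℝ, (∫ ρ in Ioo r R, (∑ i ∈ Finset.range n, (ρ ^ 2) ^ ((i : ℕ) : ℤ) * (Y ^ 2) ^ (n - 1 - i)) *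
        (2 * ρ / w r R ρ)) = ∑ i ∈ Finset.range n, Mo r R ((i : ℕ) : ℤ) * (Y ^ 2) ^ (n - 1 - i) := fun Y =>
      sum_int hr hb n (fun i => (i : ℤ)) (fun i => (Y ^ 2) ^ (n - 1 - i))
    simp_rw [h3]
    rw [intervalIntegral.integral_finsetSum]
    · refine Finset.sum_congr rfl fun i hi => ?_
      have hi' := Finset.mem_range.1 hi
      rw [intervalIntegral.integral_const_mul]
      simp_rw [← pow_mul]
      rw [integral_pow]
      have hq : q n i = 2 * (n - 1 - i) + 1 := by unfold q; omega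
      rw [hq]
      push_cast
      ring
    · intro i _
      apply Continuous.intervalIntegrable
      fun_prop
  have hneg : ∀ n : ℕ,
      IntegrableOn (fun ρ => (ρ ^ 2) ^ (-(n : ℤ)) / w r R ρ * Real.log ((X + ρ) / |X - ρ|)) (Ioo r R) ∧
      Fk r R (-(n : ℤ)) X = Fk r R (-(n : ℤ)) r +
        ∑ i ∈ Finset.range n, Mo r R (-((i : ℤ) + 1)) * ((X ^ q n i)⁻¹ - (r ^ q n i)⁻¹) / (q n i : ℝ) := by
    intro n
    obtain ⟨h1, h2⟩ := hmain (-(n : ℤ))
      (fun u v => ∑ i ∈ Finset.range n, u ^ (-((i : ℤ) + 1)) * -((v ^ (n - i))⁻¹)) (by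
        refine continuousOn_finsetSum _ fun i _ => ?_
        have hf : ContinuousOn (fun p : ℝ × ℝ => p.1) (Ioi 0 ×ˢ Ioi 0) := continuous_fst.continuousOn
        have hs : ContinuousOn (fun p : ℝ × ℝ => p.2) (Ioi 0 ×ˢ Ioi 0) := continuous_snd.continuousOn
        refine (hf.zpow₀ _ (fun p hp => Or.inl (ne_of_gt (mem_Ioi.1 hp.1)))).mul ?_
        refine ((hs.pow _).inv₀ (fun p hp => ?_)).neg
        exact pow_ne_zero _ (ne_of_gt (mem_Ioi.1 hp.2))) (by
        intro u v hu hv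
        have hu' : u ≠ 0 := hu.ne'
        have hv' : v ≠ 0 := hv.ne'
        have e1 : ∑ i ∈ Finset.range n, u ^ (-((i : ℤ) + 1)) * -((v ^ (n - i))⁻¹) =
            -(∑ i ∈ Finset.range n, u ^ (n - 1 - i) * v ^ i) * ((u ^ n)⁻¹ * (v ^ n)⁻¹) := by
          rw [← Finset.sum_neg_distrib, Finset.sum_mul]
          refine Finset.sum_congr rfl fun i hi => ?_
          have hi' := Finset.mem_range.1 hi
          obtain ⟨m, rfl⟩ : ∃ m, n = i + 1 + m := ⟨n - (i + 1), by omega⟩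
          have a1 : i + 1 + m - 1 - i = m := by omega
          have a2 : i + 1 + m - i = m + 1 := by omega
          rw [a1, a2, zpow_neg]
          have a3 : u ^ ((i : ℤ) + 1) = u ^ (i + 1) := by exact_mod_cast zpow_natCast u (i + 1)
          rw [a3]
          field_simp
          ring
        have e2 : (∑ i ∈ Finset.range n, u ^ (n - 1 - i) * v ^ i) * (v - u) = v ^ n - u ^ n := by
          have := geom_sum₂_mul v u n
          rw [← this]
          congr 1
          refine Finset.sum_congr rfl fun i _ => ?_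
          ring
        rw [e1, zpow_neg, zpow_neg, zpow_natCast, zpow_natCast]
        have e3 : (u - v) * (-(∑ i ∈ Finset.range n, u ^ (n - 1 - i) * v ^ i) * ((u ^ n)⁻¹ * (v ^ n)⁻¹)) =
            ((∑ i ∈ Finset.range n, u ^ (n - 1 - i) * v ^ i) * (v - u)) * ((u ^ n)⁻¹ * (v ^ n)⁻¹) := by ring
        rw [e3, e2]
        field_simp)
    refine ⟨h1, ?_⟩
    rw [h2]
    congr 1
    have h3 : ∀ Y : ℝ, (∫ ρ in Ioo r R, (∑ i ∈ Finset.range n, (ρ ^ 2) ^ (-((i : ℤ) + 1)) * -(((Y ^ 2) ^ (n - i))⁻¹)) *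
        (2 * ρ / w r R ρ)) = ∑ i ∈ Finset.range n, Mo r R (-((i : ℤ) + 1)) * -(((Y ^ 2) ^ (n - i))⁻¹) := fun Y =>
      sum_int hr hb n (fun i => -((i : ℤ) + 1)) (fun i => -(((Y ^ 2) ^ (n - i))⁻¹))
    simp_rw [h3]
    have hne : ∀ Y ∈ uIcc r X, Y ≠ 0 := by
      intro Y hY
      rw [uIcc_of_le hrX] at hY
      exact (lt_of_lt_of_le hr hY.1).ne'
    rw [intervalIntegral.integral_finsetSum]
    · refine Finset.sum_congr rfl fun i hi => ?_
      have hi' := Finset.mem_range.1 hi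
      rw [intervalIntegral.integral_const_mul]
      obtain ⟨m, rfl⟩ : ∃ m, n = i + 1 + m := ⟨n - (i + 1), by omega⟩
      have hq : q (i + 1 + m) i = 2 * m + 1 := by unfold q; omega
      have hm : i + 1 + m - i = m + 1 := by omega
      rw [hq, hm]
      have h4 : ∀ Y : ℝ, -(((Y ^ 2) ^ (m + 1))⁻¹) = -(Y ^ (-(2 * (m : ℤ) + 2))) := by
        intro Y
        have h5 : (2 * (m : ℤ) + 2) = ((2 * (m + 1) : ℕ) : ℤ) := by push_cast; ring
        rw [zpow_neg, ← pow_mul, h5, zpow_natCast]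
      simp_rw [h4]
      rw [intervalIntegral.integral_neg, integral_zpow]
      · have e1 : -(2 * (m : ℤ) + 2) + 1 = -((2 * m + 1 : ℕ) : ℤ) := by push_cast; ring
        rw [e1, zpow_neg, zpow_neg, zpow_natCast, zpow_natCast]
        have e2 : (((-(2 * (m : ℤ) + 2) : ℤ) : ℝ) + 1) = -((2 * m + 1 : ℕ) : ℝ) := by push_cast; ring
        rw [e2, div_neg, neg_neg, mul_div_assoc]
      · right
        refine ⟨by omega, ?_⟩
        intro h0
        exact hne 0 h0 rfl
    · intro i _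
      apply ContinuousOn.intervalIntegrable
      refine continuousOn_const.mul (ContinuousOn.neg (ContinuousOn.inv₀ (by fun_prop) ?_))
      intro Y hY
      have := hne Y hY
      positivity
  refine ⟨?_, fun n => (hpos n).2, fun n => (hneg n).2⟩
  intro k
  obtain ⟨n, rfl | rfl⟩ := k.eq_nat_or_neg
  · exact (hpos n).1
  · exact (hneg n).1

end Pool.J6H16.RZ
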