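import Pool.Agent.J6H16.RZ.Stm2

/-! Project RY (helper16), module Y3 (helper18), adapted from B6 (helper35) -/

open MeasureTheory Set Real
open scoped ENNReal

namespace Pool.J6H16.RZ

namespace Y3aux

theorem y3_log (r ρ : ℝ) (hr : 0 < r) (hρ : r < ρ) :
    (∫ y in Ioo 0 r, 2 * ρ / (ρ ^ 2 - y ^ 2)) = Real.log ((r + ρ) / |r - ρ|) := by
  rw [← integral_Ioc_eq_integral_Ioo, ← intervalIntegral.integral_of_le hr.le]
  have h1 : ∀ y ∈ uIcc 0 r, HasDerivAt (fun y => Real.log (ρ + y) - Real.log (ρ - y))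
      (2 * ρ / (ρ ^ 2 - y ^ 2)) y := by
    intro y hy
    rw [uIcc_of_le hr.le] at hy
    have hp : 0 < ρ + y := by linarith [hy.1]
    have hm : 0 < ρ - y := by linarith [hy.2]
    have e1 : HasDerivAt (fun y => Real.log (ρ + y)) (1 / (ρ + y)) y :=
      ((hasDerivAt_id y).const_add ρ).log hp.ne'
    have e2 : HasDerivAt (fun y => Real.log (ρ - y)) (-1 / (ρ - y)) y :=
      ((hasDerivAt_id y).const_sub ρ).log hm.ne'
    have e3 := e1.sub e2
    have e4 : 2 * ρ / (ρ ^ 2 - y ^ 2) = 1 / (ρ + y) - -1 / (ρ - y) := by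
      have : ρ ^ 2 - y ^ 2 = (ρ + y) * (ρ - y) := by ring
      rw [this]
      field_simp
      ring
    rw [e4]
    exact e3
  rw [intervalIntegral.integral_eq_sub_of_hasDerivAt h1]
  · have hm : 0 < ρ - r := by linarith
    have hp : 0 < r + ρ := by linarith
    rw [abs_sub_comm, abs_of_pos hm, Real.log_div hp.ne' hm.ne', add_zero, sub_zero, sub_self,
      sub_zero, add_comm ρ r]
  · apply ContinuousOn.intervalIntegrable
    rw [uIcc_of_le hr.le]
    apply ContinuousOn.div (by fun_prop) (by fun_prop)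
    intro y hy
    have : 0 < (ρ + y) * (ρ - y) := mul_pos (by linarith [hy.1]) (by linarith [hy.2])
    have h2 : ρ ^ 2 - y ^ 2 = (ρ + y) * (ρ - y) := by ring
    rw [h2]
    exact this.ne'

theorem y3_pow (r : ℝ) (hr : 0 < r) (m : ℕ) :
    IntegrableOn (fun y : ℝ => y ^ m) (Ioo 0 r) ∧ (∫ y in Ioo 0 r, y ^ m) = r ^ (m + 1) / ((m : ℝ) + 1) := by
  constructor
  · exact ((continuous_pow m).continuousOn.integrableOn_Icc).mono_set Ioo_subset_Icc_self
  · rw [← integral_Ioc_eq_integral_Ioo, ← intervalIntegral.integral_of_le hr.le, integral_pow]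
    rw [zero_pow (Nat.succ_ne_zero m), sub_zero]

end Y3aux

open Y3aux in
/-- **Y3** -/
theorem y3 (hb1 : B1) (hb2 : B2) (hb7 : B7) : Y3 := by
  intro r R hr hrR n
  obtain ⟨i1, e1, -, -⟩ := hb1 r R hr hrR
  obtain ⟨hint, -, -, -⟩ := hb7 r R hr hrR
  -- integrability of the powers over the root
  have hJ : IntegrableOn (fun y => y ^ (2 * n) / Real.sqrt ((r ^ 2 - y ^ 2) * (R ^ 2 - y ^ 2))) (Ioo 0 r) := by
    refine Integrable.mono' (hint.const_mul (r ^ (2 * n))) ?_ ?_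
    · apply Measurable.aestronglyMeasurable
      fun_prop
    · filter_upwards [ae_restrict_mem measurableSet_Ioo] with y hy
      have h3 : |y ^ (2 * n)| ≤ r ^ (2 * n) := by
        rw [abs_of_nonneg (pow_nonneg hy.1.le _)]
        exact pow_le_pow_left₀ hy.1.le hy.2.le _
      have h4 : 0 ≤ 1 / Real.sqrt ((r ^ 2 - y ^ 2) * (R ^ 2 - y ^ 2)) := by positivity
      have h5 : y ^ (2 * n) / Real.sqrt ((r ^ 2 - y ^ 2) * (R ^ 2 - y ^ 2)) =
        y ^ (2 * n) * (1 / Real.sqrt ((r ^ 2 - y ^ 2) * (R ^ 2 - y ^ 2))) := by ring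
      rw [Real.norm_eq_abs, h5, abs_mul, abs_of_nonneg h4]
      exact mul_le_mul_of_nonneg_right h3 h4
  refine ⟨hJ, ?_⟩
  -- integrability of the moments
  have hM : ∀ i : ℕ, IntegrableOn (fun ρ => (ρ ^ 2) ^ i * (2 * ρ / w r R ρ)) (Ioo r R) := by
    intro i
    refine Integrable.mono' (i1.const_mul ((R ^ 2) ^ i)) ?_ ?_
    · apply Measurable.aestronglyMeasurable
      unfold w
      fun_prop
    · filter_upwards [ae_restrict_mem measurableSet_Ioo] with ρ hρ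
      have hρ0 : 0 < ρ := hr.trans hρ.1
      have h4 : 0 ≤ 2 * ρ / w r R ρ := div_nonneg (by linarith) (Real.sqrt_nonneg _)
      rw [Real.norm_eq_abs, abs_mul, abs_of_nonneg h4, abs_of_nonneg (pow_nonneg (sq_nonneg ρ) i)]
      refine mul_le_mul_of_nonneg_right ?_ h4
      exact pow_le_pow_left₀ (sq_nonneg ρ) (pow_le_pow_left₀ hρ0.le hρ.2.le 2) i
  have hMo : ∀ i : ℕ, Mo r R i = ∫ ρ in Ioo r R, (ρ ^ 2) ^ i * (2 * ρ / w r R ρ) := by
    intro i
    unfold Mo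
    simp only [zpow_natCast]
  obtain ⟨F, hF⟩ : ∃ F : ℝ → ℝ → ℝ, ∀ ρ y, F ρ y =
      (ρ ^ 2) ^ n / w r R ρ * (2 * ρ / (ρ ^ 2 - y ^ 2)) := ⟨_, fun _ _ => rfl⟩
  have hlhs : Fk r R n r = ∫ ρ in Ioo r R, ∫ y in Ioo 0 r, F ρ y := by
    unfold Fk
    apply setIntegral_congr_fun measurableSet_Ioo
    intro ρ hρ
    simp only [hF, zpow_natCast]
    rw [integral_const_mul, y3_log r ρ hr hρ.1]
  have hD : ∀ y ∈ Ioo 0 r, ∀ ρ ∈ Ioo r R, 0 < ρ ^ 2 - y ^ 2 := by
    intro y hy ρ hρ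
    have : 0 < (ρ + y) * (ρ - y) := mul_pos (by linarith [hy.1, hρ.1]) (by linarith [hy.2, hρ.1])
    have h3 : ρ ^ 2 - y ^ 2 = (ρ + y) * (ρ - y) := by ring
    rw [h3]
    exact this
  have hpt : ∀ y ∈ Ioo 0 r, ∀ ρ ∈ Ioo r R, F ρ y =
      ∑ i ∈ Finset.range n, (y ^ 2) ^ (n - 1 - i) * ((ρ ^ 2) ^ i * (2 * ρ / w r R ρ)) +
      (y ^ 2) ^ n * ((ρ ^ 2 - y ^ 2)⁻¹ * (2 * ρ / w r R ρ)) := by
    intro y hy ρ hρ
    have h := mul_inv_cancel₀ (hD y hy ρ hρ).ne'
    have hg := geom_sum₂_mul (ρ ^ 2) (y ^ 2) n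
    have hs : ∑ i ∈ Finset.range n, (y ^ 2) ^ (n - 1 - i) * ((ρ ^ 2) ^ i * (2 * ρ / w r R ρ)) =
        (∑ i ∈ Finset.range n, (ρ ^ 2) ^ i * (y ^ 2) ^ (n - 1 - i)) * (2 * ρ / w r R ρ) := by
      rw [Finset.sum_mul]
      refine Finset.sum_congr rfl fun i _ => ?_
      ring
    rw [hs, hF]
    generalize (∑ i ∈ Finset.range n, (ρ ^ 2) ^ i * (y ^ 2) ^ (n - 1 - i)) = s at hg
    simp only [div_eq_mul_inv]
    linear_combination (-(2 * ρ * (w r R ρ)⁻¹) * (ρ ^ 2 - y ^ 2)⁻¹) * hg + (2 * ρ * (w r R ρ)⁻¹ * s) * h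
  have hnn : ∀ y ∈ Ioo 0 r, ∀ ρ ∈ Ioo r R, 0 ≤ F ρ y := by
    intro y hy ρ hρ
    rw [hF]
    have h3 : 0 ≤ (ρ ^ 2) ^ n := pow_nonneg (sq_nonneg ρ) n
    have h4 : 0 ≤ w r R ρ := Real.sqrt_nonneg _
    have h5 : 0 ≤ 2 * ρ := by linarith [hρ.1]
    exact mul_nonneg (div_nonneg h3 h4) (div_nonneg h5 (hD y hy ρ hρ).le)
  have hinner : ∀ y ∈ Ioo 0 r, IntegrableOn (fun ρ => F ρ y) (Ioo r R) ∧
      (∫ ρ in Ioo r R, F ρ y) =
        ∑ i ∈ Finset.range n, (y ^ 2) ^ (n - 1 - i) * Mo r R i +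
          (y ^ 2) ^ n * (π / Real.sqrt ((r ^ 2 - y ^ 2) * (R ^ 2 - y ^ 2))) := by
    intro y hy
    obtain ⟨i2, e2⟩ := hb2 r R y hr hrR hy.1.le hy.2
    have i4 : IntegrableOn (fun ρ =>
        ∑ i ∈ Finset.range n, (y ^ 2) ^ (n - 1 - i) * ((ρ ^ 2) ^ i * (2 * ρ / w r R ρ))) (Ioo r R) :=
      integrable_finsetSum _ fun i _ => (hM i).const_mul _
    have i3 := i4.add (i2.const_mul ((y ^ 2) ^ n))
    refine ⟨IntegrableOn.congr_fun i3 (fun ρ hρ => (hpt y hy ρ hρ).symm) measurableSet_Ioo, ?_⟩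
    rw [setIntegral_congr_fun measurableSet_Ioo (fun ρ hρ => hpt y hy ρ hρ),
      integral_add i4 (i2.const_mul ((y ^ 2) ^ n)), integral_const_mul, e2,
      integral_finsetSum _ fun i _ => (hM i).const_mul _]
    congr 1
    refine Finset.sum_congr rfl fun i _ => ?_
    rw [integral_const_mul, hMo]
  have hJ' : IntegrableOn (fun y => (y ^ 2) ^ n *
      (π / Real.sqrt ((r ^ 2 - y ^ 2) * (R ^ 2 - y ^ 2)))) (Ioo 0 r) := by
    refine IntegrableOn.congr_fun (Integrable.const_mul hJ π) (fun y _ => ?_) measurableSet_Ioo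
    show π * (y ^ (2 * n) / Real.sqrt ((r ^ 2 - y ^ 2) * (R ^ 2 - y ^ 2))) = _
    rw [pow_mul]
    ring
  have hpow : ∀ i, IntegrableOn (fun y : ℝ => (y ^ 2) ^ (n - 1 - i) * Mo r R i) (Ioo 0 r) := by
    intro i
    refine Integrable.mul_const ?_ _
    have := (y3_pow r hr (2 * (n - 1 - i))).1
    refine IntegrableOn.congr_fun this (fun y _ => ?_) measurableSet_Ioo
    show y ^ (2 * (n - 1 - i)) = (y ^ 2) ^ (n - 1 - i)
    rw [pow_mul]
  have hsum : IntegrableOn (fun y : ℝ => ∑ i ∈ Finset.range n, (y ^ 2) ^ (n - 1 - i) * Mo r R i) (Ioo 0 r) :=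
    integrable_finsetSum _ fun i _ => hpow i
  have hmeas : Measurable (Function.uncurry F) := by
    have : Function.uncurry F = fun p : ℝ × ℝ =>
        (p.1 ^ 2) ^ n / w r R p.1 * (2 * p.1 / (p.1 ^ 2 - p.2 ^ 2)) := by
      funext p
      exact hF p.1 p.2
    rw [this]
    unfold w
    fun_prop
  have hI : Integrable (Function.uncurry F)
      ((volume.restrict (Ioo r R)).prod (volume.restrict (Ioo 0 r))) := by
    rw [integrable_prod_iff' hmeas.aestronglyMeasurable]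
    constructor
    · filter_upwards [ae_restrict_mem measurableSet_Ioo] with y hy
      exact (hinner y hy).1
    · refine (hsum.add hJ').congr ?_
      filter_upwards [ae_restrict_mem measurableSet_Ioo] with y hy
      rw [Pi.add_apply, ← (hinner y hy).2]
      apply setIntegral_congr_fun measurableSet_Ioo
      intro ρ hρ
      show F ρ y = ‖F ρ y‖
      rw [Real.norm_eq_abs, abs_of_nonneg (hnn y hy ρ hρ)]
  rw [hlhs, integral_integral_swap hI,
    setIntegral_congr_fun measurableSet_Ioo (fun y hy => (hinner y hy).2),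
    integral_add hsum hJ', integral_finsetSum _ fun i _ => hpow i, add_comm]
  congr 1
  · unfold Jn
    rw [← integral_const_mul]
    apply setIntegral_congr_fun measurableSet_Ioo
    intro y _
    show (y ^ 2) ^ n * (π / Real.sqrt ((r ^ 2 - y ^ 2) * (R ^ 2 - y ^ 2))) =
      π * (y ^ (2 * n) / Real.sqrt ((r ^ 2 - y ^ 2) * (R ^ 2 - y ^ 2)))
    rw [pow_mul]
    ring
  · refine Finset.sum_congr rfl fun i hi => ?_
    have hi' : i < n := Finset.mem_range.1 hi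
    rw [integral_mul_const]
    have e5 : (∫ y in Ioo 0 r, (y ^ 2) ^ (n - 1 - i)) = r ^ q n i / (q n i : ℝ) := by
      have h6 : (∫ y in Ioo 0 r, (y ^ 2) ^ (n - 1 - i)) = ∫ y in Ioo 0 r, y ^ (2 * (n - 1 - i)) := by
        apply setIntegral_congr_fun measurableSet_Ioo
        intro y _
        show (y ^ 2) ^ (n - 1 - i) = y ^ (2 * (n - 1 - i))
        rw [pow_mul]
      have h7 : q n i = 2 * (n - 1 - i) + 1 := by
        unfold q
        omega
      rw [h6, (y3_pow r hr (2 * (n - 1 - i))).2, h7]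
      push_cast
      rfl
    rw [e5]
    ring

end Pool.J6H16.RZ
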