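import Pool.Agent.J6H16.RZ.Stm2

set_option autoImplicit false

open MeasureTheory Set Real
open scoped ENNReal

namespace Pool.J6H16.RZ
namespace Y4x

lemma image {r R : ℝ} (hr : 0 < r) (hR : r < R) : (fun σ : ℝ => r * R / σ) '' Ioo r R = Ioo r R := by
  have hR0 : 0 < R := hr.trans hR
  have key : ∀ σ ∈ Ioo r R, r * R / σ ∈ Ioo r R := by
    intro σ hσ
    have hσ0 : 0 < σ := hr.trans hσ.1
    constructor
    · rw [lt_div_iff₀ hσ0]
      exact mul_lt_mul_of_pos_left hσ.2 hr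
    · rw [div_lt_iff₀ hσ0, mul_comm R σ]
      exact mul_lt_mul_of_pos_right hσ.1 hR0
  apply Subset.antisymm
  · rintro _ ⟨σ, hσ, rfl⟩
    exact key σ hσ
  · intro x hx
    refine ⟨r * R / x, key x hx, ?_⟩
    have hx0 : 0 < x := hr.trans hx.1
    simp only
    field_simp

lemma subst {r R : ℝ} (hr : 0 < r) (hR : r < R) (g : ℝ → ℝ) :
    ∫ ρ in Ioo r R, g ρ = ∫ σ in Ioo r R, (r * R / σ ^ 2) * g (r * R / σ) := by
  have hR0 : 0 < R := hr.trans hR
  have h := integral_image_eq_integral_abs_deriv_smul (s := Ioo r R) (f := fun σ : ℝ => r * R / σ)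
    (f' := fun σ : ℝ => -(r * R) / σ ^ 2) measurableSet_Ioo
    (fun σ hσ => by
      have hσ0 : σ ≠ 0 := (hr.trans hσ.1).ne'
      have h1 := (hasDerivAt_inv hσ0).const_mul (r * R)
      have h2 : HasDerivAt (fun σ : ℝ => r * R / σ) (-(r * R) / σ ^ 2) σ := by
        have e : -(r * R) / σ ^ 2 = r * R * -(σ ^ 2)⁻¹ := by rw [div_eq_mul_inv]; ring
        rw [e]
        exact h1
      exact h2.hasDerivWithinAt)
    (fun x hx y hy hxy => by
      have hx0 : x ≠ 0 := (hr.trans hx.1).ne'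
      have hy0 : y ≠ 0 := (hr.trans hy.1).ne'
      have hrR : r * R ≠ 0 := (mul_pos hr hR0).ne'
      simp only at hxy
      rw [div_eq_div_iff hx0 hy0] at hxy
      exact (mul_left_cancel₀ hrR hxy).symm)
    g
  rw [image hr hR] at h
  rw [h]
  refine setIntegral_congr_fun measurableSet_Ioo (fun σ hσ => ?_)
  have hσ0 : 0 < σ := hr.trans hσ.1
  simp only [smul_eq_mul]
  rw [abs_div, abs_neg, abs_of_pos (mul_pos hr hR0), abs_of_pos (by positivity : 0 < σ ^ 2)]

lemma w_inv {r R σ : ℝ} (hr : 0 < r) (hR : r < R) (hσ : σ ∈ Ioo r R) :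
    w r R (r * R / σ) = r * R / σ ^ 2 * w r R σ ∧ 0 < w r R σ := by
  have hR0 : 0 < R := hr.trans hR
  have hσ0 : 0 < σ := hr.trans hσ.1
  have h1 : 0 < σ ^ 2 - r ^ 2 := by nlinarith [hσ.1]
  have h2 : 0 < R ^ 2 - σ ^ 2 := by nlinarith [hσ.2]
  unfold w
  constructor
  · have e : ((r * R / σ) ^ 2 - r ^ 2) * (R ^ 2 - (r * R / σ) ^ 2) =
        (r * R / σ ^ 2) ^ 2 * ((σ ^ 2 - r ^ 2) * (R ^ 2 - σ ^ 2)) := by
      field_simp
    rw [e, Real.sqrt_mul (sq_nonneg _), Real.sqrt_sq (by positivity)]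
  · exact Real.sqrt_pos.2 (mul_pos h1 h2)

end Y4x

open Y4x in
theorem y4 : Y4 := by
  intro r R hr hR n
  have hR0 : 0 < R := hr.trans hR
  constructor
  · unfold Fk
    rw [subst hr hR, ← integral_const_mul]
    refine setIntegral_congr_fun measurableSet_Ioo (fun σ hσ => ?_)
    obtain ⟨hw, hw0⟩ := w_inv hr hR hσ
    have hσ0 : 0 < σ := hr.trans hσ.1
    beta_reduce
    rw [hw]
    have hlog : (r + r * R / σ) / |r - r * R / σ| = (R + σ) / |R - σ| := by
      have e1 : r + r * R / σ = (r / σ) * (R + σ) := by field_simp; ring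
      have e2 : |r - r * R / σ| = (r / σ) * |R - σ| := by
        have : r - r * R / σ = -((r / σ) * (R - σ)) := by field_simp; ring
        rw [this, abs_neg, abs_mul, abs_of_pos (by positivity)]
      rw [e1, e2, mul_div_mul_left _ _ (by positivity)]
    rw [hlog]
    have hpow : ((r * R / σ) ^ 2) ^ (-(n : ℤ)) = ((r * R) ^ (2 * n))⁻¹ * (σ ^ 2) ^ (n : ℤ) := by
      rw [zpow_neg, zpow_natCast, zpow_natCast, div_pow, div_pow, ← pow_mul, ← pow_mul]
      field_simp
    rw [hpow]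
    have hrR : 0 < r * R := mul_pos hr hR0
    field_simp
  · unfold Mo
    rw [subst hr hR, ← integral_const_mul]
    refine setIntegral_congr_fun measurableSet_Ioo (fun σ hσ => ?_)
    obtain ⟨hw, hw0⟩ := w_inv hr hR hσ
    have hσ0 : 0 < σ := hr.trans hσ.1
    beta_reduce
    rw [hw]
    have hpow : ((r * R / σ) ^ 2) ^ (-((n : ℤ) + 1)) = ((r * R) ^ (2 * n + 2))⁻¹ * (σ ^ (2 * n + 2)) := by
      have e : (n : ℤ) + 1 = ((n + 1 : ℕ) : ℤ) := by push_cast; ring
      rw [e, zpow_neg, zpow_natCast, div_pow, div_pow, ← pow_mul, ← pow_mul]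
      have : 2 * (n + 1) = 2 * n + 2 := by ring
      rw [this]
      field_simp
    rw [hpow]
    have hpow2 : (σ ^ 2) ^ (n : ℤ) = σ ^ (2 * n) := by rw [zpow_natCast, ← pow_mul]
    rw [hpow2]
    have hrR : 0 < r * R := mul_pos hr hR0
    have e3 : (r * R) ^ (2 * n + 2) = (r * R) ^ (2 * n + 1) * (r * R) := by ring
    rw [e3]
    field_simp
    ring

end Pool.J6H16.RZ
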