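import Pool.Agent.J6H16.RZ.Stm2

/-!
# Module RY-Y5: combination of Y2, Y3, Y4
-/

set_option autoImplicit false

open MeasureTheory Set Real
open scoped ENNReal

namespace Pool.J6H16.RZ

theorem y5 (hy2 : Y2) (hy3 : Y3) (hy4 : Y4) : Y5 := by
  intro r R X hr hrR hrX hXR n
  have hR : 0 < R := hr.trans hrR
  have ha : ∀ Y : ℝ, r ≤ Y → Y ≤ R → Fk r R n Y = π * Jn r R n +
      ∑ i ∈ Finset.range n, Mo r R i * Y ^ q n i / (q n i : ℝ) := by
    intro Y h1 h2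
    rw [(hy2 r R Y hr hrR h1 h2).2.1 n, (hy3 r R hr hrR n).2, add_assoc, ← Finset.sum_add_distrib]
    congr 1
    refine Finset.sum_congr rfl fun i _ => ?_
    ring
  refine ⟨ha X hrX hXR, ?_⟩
  rw [(hy2 r R X hr hrR hrX hXR).2.2 n, (hy4 r R hr hrR n).1, ha R hrR.le le_rfl]
  have key : ∀ i ∈ Finset.range n, ((r * R) ^ (2 * n))⁻¹ * (Mo r R i * R ^ q n i / (q n i : ℝ)) =
      Mo r R (-((i : ℤ) + 1)) * (r ^ q n i)⁻¹ / (q n i : ℝ) := by
    intro i hi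
    rw [Finset.mem_range] at hi
    rw [(hy4 r R hr hrR i).2]
    have h1 : 2 * n = (2 * i + 1) + q n i := by
      unfold q
      omega
    have h2 : (r * R) ^ (2 * n) = (r * R) ^ (2 * i + 1) * (r ^ q n i * R ^ q n i) := by
      rw [h1, pow_add, ← mul_pow r R (q n i)]
    rw [h2]
    have h3 : R ^ q n i ≠ 0 := pow_ne_zero _ hR.ne'
    have h4 : r ^ q n i ≠ 0 := pow_ne_zero _ hr.ne'
    have h5 : (r * R) ^ (2 * i + 1) ≠ 0 := pow_ne_zero _ (mul_pos hr hR).ne'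
    rw [mul_inv, mul_inv]
    have h6 : (R ^ q n i)⁻¹ * R ^ q n i = 1 := inv_mul_cancel₀ h3
    calc ((r * R) ^ (2 * i + 1))⁻¹ * ((r ^ q n i)⁻¹ * (R ^ q n i)⁻¹) *
          (Mo r R i * R ^ q n i / (q n i : ℝ))
        = ((r * R) ^ (2 * i + 1))⁻¹ * Mo r R i * (r ^ q n i)⁻¹ / (q n i : ℝ) *
          ((R ^ q n i)⁻¹ * R ^ q n i) := by ring
      _ = ((r * R) ^ (2 * i + 1))⁻¹ * Mo r R i * (r ^ q n i)⁻¹ / (q n i : ℝ) := by
          rw [h6, mul_one]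
  rw [mul_add, Finset.mul_sum, Finset.sum_congr rfl key, add_assoc, ← Finset.sum_add_distrib]
  congr 1
  · rw [div_eq_mul_inv]
    ring
  · refine Finset.sum_congr rfl fun i _ => ?_
    ring

end Pool.J6H16.RZ
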