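import Pool.Agent.J6H16.RZ.Stm2

/-!
Project RY of helper16, module Y6: Copson's formula by the substitution
`v = X^2 (ρ^2-h^2)/(X^2+ρ^2-2Xh)` on the two branches.
-/

open MeasureTheory Set Real
open scoped ENNReal

namespace Pool.J6H16.RZ

namespace Y6p

/-- the substitution -/
noncomputable def V (X ρ h : ℝ) : ℝ := X ^ 2 * (ρ ^ 2 - h ^ 2) / (X ^ 2 + ρ ^ 2 - 2 * X * h)

lemma D_pos {X ρ h : ℝ} (hX : 0 < X) (hne : X ≠ ρ) (hh : h ≤ ρ) :
    0 < X ^ 2 + ρ ^ 2 - 2 * X * h := by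
  have h1 : 0 < (X - ρ) ^ 2 := by
    have : X - ρ ≠ 0 := sub_ne_zero.mpr hne
    positivity
  nlinarith [mul_nonneg hX.le (sub_nonneg.mpr hh)]

lemma V_deriv {X ρ h : ℝ} (hD : X ^ 2 + ρ ^ 2 - 2 * X * h ≠ 0) :
    HasDerivAt (V X ρ)
      (2 * X ^ 2 * ((h - X) * (X * h - ρ ^ 2)) / (X ^ 2 + ρ ^ 2 - 2 * X * h) ^ 2) h := by
  have e1 : HasDerivAt (fun h : ℝ => X ^ 2 * (ρ ^ 2 - h ^ 2)) (X ^ 2 * (-(2 * h))) h := by
    have := ((hasDerivAt_pow 2 h).const_sub (ρ ^ 2)).const_mul (X ^ 2)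
    exact this.congr_deriv (by norm_num)
  have e2 : HasDerivAt (fun h : ℝ => X ^ 2 + ρ ^ 2 - 2 * X * h) (-(2 * X)) h := by
    have := ((hasDerivAt_id h).const_mul (2 * X)).const_sub (X ^ 2 + ρ ^ 2)
    exact this.congr_deriv (by ring)
  have := e1.div e2 hD
  refine this.congr_deriv ?_
  congr 1
  ring

lemma branch {X ρ : ℝ} (n : ℕ) (hX : 0 < X) (hne : X ≠ ρ) {a b m : ℝ}
    (hb : b ≤ ρ)
    (himg : V X ρ '' Ioo a b = Ioo 0 m) (hinj : InjOn (V X ρ) (Ioo a b))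
    (hnz : ∀ h ∈ Ioo a b, (h - X) * (X * h - ρ ^ 2) ≠ 0) :
    ∫⁻ v in Ioo 0 m, ENNReal.ofReal (v ^ n / Real.sqrt ((X ^ 2 - v) * (ρ ^ 2 - v))) =
      ∫⁻ h in Ioo a b, ENNReal.ofReal (2 * X ^ (2 * n + 1) *
        ((ρ ^ 2 - h ^ 2) ^ n / (X ^ 2 + ρ ^ 2 - 2 * X * h) ^ (n + 1))) := by
  rw [← himg, lintegral_image_eq_lintegral_abs_deriv_mul measurableSet_Ioo
    (fun h hh => (V_deriv (D_pos hX hne (hh.2.le.trans hb)).ne').hasDerivWithinAt) hinj]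
  refine setLIntegral_congr_fun measurableSet_Ioo ?_
  intro h hh
  have hD : 0 < X ^ 2 + ρ ^ 2 - 2 * X * h := D_pos hX hne (hh.2.le.trans hb)
  have hz := hnz h hh
  have hz1 : h - X ≠ 0 := left_ne_zero_of_mul hz
  have hz2 : X * h - ρ ^ 2 ≠ 0 := right_ne_zero_of_mul hz
  simp only
  rw [← ENNReal.ofReal_mul (abs_nonneg _)]
  congr 1
  have k1 : X ^ 2 - V X ρ h = X ^ 2 * (h - X) ^ 2 / (X ^ 2 + ρ ^ 2 - 2 * X * h) := by
    unfold V
    rw [eq_div_iff hD.ne', sub_mul, div_mul_cancel₀ _ hD.ne']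
    ring
  have k2 : ρ ^ 2 - V X ρ h = (X * h - ρ ^ 2) ^ 2 / (X ^ 2 + ρ ^ 2 - 2 * X * h) := by
    unfold V
    rw [eq_div_iff hD.ne', sub_mul, div_mul_cancel₀ _ hD.ne']
    ring
  have k3 : Real.sqrt ((X ^ 2 - V X ρ h) * (ρ ^ 2 - V X ρ h)) =
      X * |(h - X) * (X * h - ρ ^ 2)| / (X ^ 2 + ρ ^ 2 - 2 * X * h) := by
    rw [k1, k2]
    have : X ^ 2 * (h - X) ^ 2 / (X ^ 2 + ρ ^ 2 - 2 * X * h) *
        ((X * h - ρ ^ 2) ^ 2 / (X ^ 2 + ρ ^ 2 - 2 * X * h)) =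
        (X * |(h - X) * (X * h - ρ ^ 2)| / (X ^ 2 + ρ ^ 2 - 2 * X * h)) ^ 2 := by
      rw [div_pow, mul_pow, sq_abs]
      field_simp
    rw [this, Real.sqrt_sq]
    positivity
  rw [k3]
  have k4 : |2 * X ^ 2 * ((h - X) * (X * h - ρ ^ 2)) / (X ^ 2 + ρ ^ 2 - 2 * X * h) ^ 2| =
      2 * X ^ 2 * |(h - X) * (X * h - ρ ^ 2)| / (X ^ 2 + ρ ^ 2 - 2 * X * h) ^ 2 := by
    rw [abs_div, abs_mul, abs_of_pos (by positivity : (0:ℝ) < 2 * X ^ 2),
      abs_of_pos (by positivity : 0 < (X ^ 2 + ρ ^ 2 - 2 * X * h) ^ 2)]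
  rw [k4]
  have hA : |(h - X) * (X * h - ρ ^ 2)| ≠ 0 := abs_ne_zero.mpr hz
  generalize |(h - X) * (X * h - ρ ^ 2)| = A at hA
  unfold V
  generalize X ^ 2 + ρ ^ 2 - 2 * X * h = D at hD
  have hD' := hD.ne'
  rw [div_pow, mul_pow, ← pow_mul]
  field_simp
  ring

lemma V_cont {X ρ : ℝ} (hX : 0 < X) (hne : X ≠ ρ) {a b : ℝ} (hb : b ≤ ρ) :
    ContinuousOn (V X ρ) (Icc a b) := by
  intro h hh
  exact (V_deriv (D_pos hX hne (hh.2.trans hb)).ne').continuousAt.continuousWithinAt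

lemma V_rho {X ρ : ℝ} : V X ρ ρ = 0 := by simp [V]

lemma V_neg_rho {X ρ : ℝ} : V X ρ (-ρ) = 0 := by simp [V]

lemma V_mid {X ρ : ℝ} (hX : 0 < X) (hρ : 0 < ρ) (hne : X ≠ ρ) :
    V X ρ ((min X ρ) ^ 2 / X) = (min X ρ) ^ 2 := by
  have hX' := hX.ne'
  rcases lt_or_gt_of_ne hne with h | h
  · rw [min_eq_left h.le]
    have e : X ^ 2 / X = X := by field_simp
    rw [e]
    have hD : 0 < X ^ 2 + ρ ^ 2 - 2 * X * X := D_pos hX hne h.le
    unfold V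
    rw [div_eq_iff hD.ne']
    ring
  · rw [min_eq_right h.le]
    have h1 : ρ ^ 2 / X ≤ ρ := by
      rw [div_le_iff₀ hX]; nlinarith
    have hD : 0 < X ^ 2 + ρ ^ 2 - 2 * X * (ρ ^ 2 / X) := D_pos hX hne h1
    unfold V
    rw [div_eq_iff hD.ne']
    field_simp
    ring

lemma mid_lt {X ρ : ℝ} (hX : 0 < X) (hρ : 0 < ρ) (hne : X ≠ ρ) : (min X ρ) ^ 2 / X < ρ := by
  rw [div_lt_iff₀ hX]
  rcases lt_or_gt_of_ne hne with h | h
  · rw [min_eq_left h.le]; nlinarith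
  · rw [min_eq_right h.le]; nlinarith

lemma left_pos {X ρ h : ℝ} (hX : 0 < X) (hρ : 0 < ρ) (hne : X ≠ ρ)
    (hh : h < (min X ρ) ^ 2 / X) : 0 < (h - X) * (X * h - ρ ^ 2) := by
  rw [lt_div_iff₀ hX] at hh
  apply mul_pos_of_neg_of_neg
  · rcases lt_or_gt_of_ne hne with h' | h'
    · rw [min_eq_left h'.le] at hh
      by_contra hc
      push Not at hc
      nlinarith
    · rw [min_eq_right h'.le] at hh
      by_contra hc
      push Not at hc
      nlinarith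
  · rcases lt_or_gt_of_ne hne with h' | h'
    · rw [min_eq_left h'.le] at hh
      nlinarith
    · rw [min_eq_right h'.le] at hh
      nlinarith

lemma right_neg {X ρ h : ℝ} (hX : 0 < X) (hρ : 0 < ρ) (hne : X ≠ ρ)
    (hh : (min X ρ) ^ 2 / X < h) (hh2 : h < ρ) : (h - X) * (X * h - ρ ^ 2) < 0 := by
  rw [div_lt_iff₀ hX] at hh
  rcases lt_or_gt_of_ne hne with h' | h'
  · rw [min_eq_left h'.le] at hh
    have h1 : X < h := by
      by_contra hc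
      push Not at hc
      nlinarith
    apply mul_neg_of_pos_of_neg (by linarith)
    nlinarith
  · rw [min_eq_right h'.le] at hh
    apply mul_neg_of_neg_of_pos (by linarith)
    nlinarith

lemma mono_left {X ρ : ℝ} (hX : 0 < X) (hρ : 0 < ρ) (hne : X ≠ ρ) :
    StrictMonoOn (V X ρ) (Icc (-ρ) ((min X ρ) ^ 2 / X)) := by
  have hm := mid_lt hX hρ hne
  apply strictMonoOn_of_deriv_pos (convex_Icc _ _) (V_cont hX hne hm.le)
  intro h hh
  rw [interior_Icc] at hh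
  have hD := D_pos hX hne (hh.2.trans hm).le
  rw [(V_deriv hD.ne').deriv]
  have := left_pos hX hρ hne hh.2
  positivity

lemma anti_right {X ρ : ℝ} (hX : 0 < X) (hρ : 0 < ρ) (hne : X ≠ ρ) :
    StrictAntiOn (V X ρ) (Icc ((min X ρ) ^ 2 / X) ρ) := by
  apply strictAntiOn_of_deriv_neg (convex_Icc _ _) (V_cont hX hne le_rfl)
  intro h hh
  rw [interior_Icc] at hh
  have hD := D_pos hX hne hh.2.le
  rw [(V_deriv hD.ne').deriv]
  have := right_neg hX hρ hne hh.1 hh.2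
  apply div_neg_of_neg_of_pos _ (by positivity)
  exact mul_neg_of_pos_of_neg (by positivity) this

lemma img_left {X ρ : ℝ} (hX : 0 < X) (hρ : 0 < ρ) (hne : X ≠ ρ) :
    V X ρ '' Ioo (-ρ) ((min X ρ) ^ 2 / X) = Ioo 0 ((min X ρ) ^ 2) := by
  have hm := mid_lt hX hρ hne
  have hmp : 0 < (min X ρ) ^ 2 / X := by
    have : 0 < min X ρ := lt_min hX hρ
    positivity
  have hab : -ρ ≤ (min X ρ) ^ 2 / X := by linarith
  have hmono := mono_left hX hρ hne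
  apply Subset.antisymm
  · rintro _ ⟨h, hh, rfl⟩
    constructor
    · have := hmono (left_mem_Icc.mpr hab) (Ioo_subset_Icc_self hh) hh.1
      rwa [V_neg_rho] at this
    · have := hmono (Ioo_subset_Icc_self hh) (right_mem_Icc.mpr hab) hh.2
      rwa [V_mid hX hρ hne] at this
  · have := intermediate_value_Ioo hab (V_cont hX hne hm.le)
    rwa [V_neg_rho, V_mid hX hρ hne] at this

lemma img_right {X ρ : ℝ} (hX : 0 < X) (hρ : 0 < ρ) (hne : X ≠ ρ) :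
    V X ρ '' Ioo ((min X ρ) ^ 2 / X) ρ = Ioo 0 ((min X ρ) ^ 2) := by
  have hm := mid_lt hX hρ hne
  have hmono := anti_right hX hρ hne
  apply Subset.antisymm
  · rintro _ ⟨h, hh, rfl⟩
    constructor
    · have := hmono (Ioo_subset_Icc_self hh) (right_mem_Icc.mpr hm.le) hh.2
      rwa [V_rho] at this
    · have := hmono (left_mem_Icc.mpr hm.le) (Ioo_subset_Icc_self hh) hh.1
      rwa [V_mid hX hρ hne] at this
  · have := intermediate_value_Ioo' hm.le (V_cont hX hne le_rfl)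
    rwa [V_rho, V_mid hX hρ hne] at this

end Y6p

open Y6p in
theorem y6 : Y6 := by
  intro n X ρ hX hρ hne
  have hm := mid_lt hX hρ hne
  have hmp : 0 < (min X ρ) ^ 2 / X := by
    have : 0 < min X ρ := lt_min hX hρ
    positivity
  have hab : -ρ < (min X ρ) ^ 2 / X := by linarith
  have hL := branch n hX hne hm.le (img_left hX hρ hne)
    ((mono_left hX hρ hne).injOn.mono Ioo_subset_Icc_self)
    (fun h hh => (left_pos hX hρ hne hh.2).ne')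
  have hR := branch n hX hne le_rfl (img_right hX hρ hne)
    ((anti_right hX hρ hne).injOn.mono Ioo_subset_Icc_self)
    (fun h hh => (right_neg hX hρ hne hh.1 hh.2).ne)
  set c : ℝ := (min X ρ) ^ 2 / X with hc
  set F : ℝ → ℝ := fun h => (ρ ^ 2 - h ^ 2) ^ n / (X ^ 2 + ρ ^ 2 - 2 * X * h) ^ (n + 1) with hF
  have hcont : ContinuousOn F (Icc (-ρ) ρ) := by
    apply ContinuousOn.div (by fun_prop) (by fun_prop)
    intro h hh
    exact pow_ne_zero _ (D_pos hX hne hh.2).ne'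
  have hint : IntegrableOn F (Ioo (-ρ) ρ) :=
    (hcont.integrableOn_compact isCompact_Icc).mono_set Ioo_subset_Icc_self
  have hFnn : ∀ h ∈ Ioo (-ρ) ρ, 0 ≤ F h := by
    intro h hh
    have h1 : 0 ≤ ρ ^ 2 - h ^ 2 := by nlinarith [hh.1, hh.2]
    have h2 := D_pos hX hne hh.2.le
    simp only [hF]
    positivity
  have hfin : (∫⁻ v in Ioo 0 ((min X ρ) ^ 2),
      ENNReal.ofReal (v ^ n / Real.sqrt ((X ^ 2 - v) * (ρ ^ 2 - v)))) < ⊤ := by
    rw [hL]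
    have : IntegrableOn (fun h => 2 * X ^ (2 * n + 1) * F h) (Ioo (-ρ) c) :=
      (hint.mono_set (Ioo_subset_Ioo le_rfl hm.le)).const_mul _
    exact this.lintegral_lt_top
  have hgnn : ∀ v ∈ Ioo (0 : ℝ) ((min X ρ) ^ 2),
      0 ≤ v ^ n / Real.sqrt ((X ^ 2 - v) * (ρ ^ 2 - v)) := by
    intro v hv
    exact div_nonneg (pow_nonneg hv.1.le _) (Real.sqrt_nonneg _)
  have hgm : Measurable (fun v : ℝ => v ^ n / Real.sqrt ((X ^ 2 - v) * (ρ ^ 2 - v))) := by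
    fun_prop
  have hgi : IntegrableOn (fun v => v ^ n / Real.sqrt ((X ^ 2 - v) * (ρ ^ 2 - v)))
      (Ioo 0 ((min X ρ) ^ 2)) := by
    refine ⟨hgm.aestronglyMeasurable, ?_⟩
    rw [hasFiniteIntegral_iff_ofReal]
    · exact hfin
    · exact (ae_restrict_iff' measurableSet_Ioo).mpr (Filter.Eventually.of_forall hgnn)
  refine ⟨hgi, ?_⟩
  have hN : ENNReal.ofReal (Nn n X ρ) = ∫⁻ v in Ioo 0 ((min X ρ) ^ 2),
      ENNReal.ofReal (v ^ n / Real.sqrt ((X ^ 2 - v) * (ρ ^ 2 - v))) := by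
    unfold Nn
    exact ofReal_integral_eq_lintegral_ofReal hgi
      ((ae_restrict_iff' measurableSet_Ioo).mpr (Filter.Eventually.of_forall hgnn))
  have hsplit : (∫⁻ h in Ioo (-ρ) ρ, ENNReal.ofReal (F h)) =
      (∫⁻ h in Ioo (-ρ) c, ENNReal.ofReal (F h)) + ∫⁻ h in Ioo c ρ, ENNReal.ofReal (F h) := by
    rw [← Ioc_union_Ioo_eq_Ioo hab.le hm, lintegral_union measurableSet_Ioo]
    · rw [setLIntegral_congr (Ioo_ae_eq_Ioc (μ := volume) (a := -ρ) (b := c)).symm]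
    · rw [disjoint_left]
      intro x hx hx'
      exact absurd hx.2 (not_le.mpr hx'.1)
  have hK : (0 : ℝ) < 2 * X ^ (2 * n + 1) := by positivity
  have hmul : ∀ s : Set ℝ, (∫⁻ h in s, ENNReal.ofReal (2 * X ^ (2 * n + 1) * F h)) =
      ENNReal.ofReal (2 * X ^ (2 * n + 1)) * ∫⁻ h in s, ENNReal.ofReal (F h) := by
    intro s
    rw [← lintegral_const_mul']
    · refine lintegral_congr fun h => ?_
      rw [ENNReal.ofReal_mul hK.le]
    · exact ENNReal.ofReal_ne_top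
  have hL' : ENNReal.ofReal (Nn n X ρ) =
      ENNReal.ofReal (2 * X ^ (2 * n + 1)) * ∫⁻ h in Ioo (-ρ) c, ENNReal.ofReal (F h) := by
    rw [hN, hL, ← hmul]
  have hR' : ENNReal.ofReal (Nn n X ρ) =
      ENNReal.ofReal (2 * X ^ (2 * n + 1)) * ∫⁻ h in Ioo c ρ, ENNReal.ofReal (F h) := by
    rw [hN, hR, ← hmul]
  have hK0 : ENNReal.ofReal (2 * X ^ (2 * n + 1)) ≠ 0 := by
    simpa using hK
  have hKt : ENNReal.ofReal (2 * X ^ (2 * n + 1)) ≠ ⊤ := ENNReal.ofReal_ne_top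
  have hNn : 0 ≤ Nn n X ρ := by
    unfold Nn
    exact setIntegral_nonneg measurableSet_Ioo hgnn
  have hsum : ENNReal.ofReal (2 * X ^ (2 * n + 1)) * (∫⁻ h in Ioo (-ρ) ρ, ENNReal.ofReal (F h)) =
      ENNReal.ofReal (2 * Nn n X ρ) := by
    rw [hsplit, mul_add, ← hL', ← hR', ← ENNReal.ofReal_add hNn hNn, two_mul]
  have : (∫⁻ h in Ioo (-ρ) ρ, ENNReal.ofReal (F h)) = ENNReal.ofReal (Nn n X ρ / X ^ (2 * n + 1)) := by
    have e : Nn n X ρ / X ^ (2 * n + 1) = 2 * Nn n X ρ / (2 * X ^ (2 * n + 1)) := by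
      rw [mul_div_mul_left _ _ two_ne_zero]
    rw [e, ENNReal.ofReal_div_of_pos hK, ← hsum, mul_comm, mul_div_assoc,
      ENNReal.div_self hK0 hKt, mul_one]
  exact this

end Pool.J6H16.RZ
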