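import Pool.Agent.J6H16.RZ.Stm2

/-!
# Module RY-Y7 of helper16's project RY: the recursion of Copson's integrals (Tonelli)
-/

set_option autoImplicit false

open MeasureTheory Set Real
open scoped ENNReal

namespace Pool.J6H16.RZ

namespace Y7aux

lemma base (m M : ℝ) (hm : 0 < m) (hM : m < M) :
    IntegrableOn (fun v => 1 / Real.sqrt ((M ^ 2 - v) * (m ^ 2 - v))) (Ioo 0 (m ^ 2)) ∧
    ∫ v in Ioo 0 (m ^ 2), 1 / Real.sqrt ((M ^ 2 - v) * (m ^ 2 - v)) =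
      Real.log ((M + m) / (M - m)) := by
  have hM0 : 0 < M := hm.trans hM
  have hmM : m ^ 2 < M ^ 2 := by nlinarith
  have hm2 : 0 < m ^ 2 := by positivity
  have hcont : ContinuousOn (fun v => (-2 : ℝ) * Real.log (Real.sqrt (M ^ 2 - v) + Real.sqrt (m ^ 2 - v)))
      (Icc 0 (m ^ 2)) := by
    refine ContinuousOn.mul continuousOn_const (ContinuousOn.log (by fun_prop) ?_)
    intro v hv
    have h1 : 0 < Real.sqrt (M ^ 2 - v) := Real.sqrt_pos.mpr (by linarith [hv.2])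
    have h2 : 0 ≤ Real.sqrt (m ^ 2 - v) := Real.sqrt_nonneg _
    exact ne_of_gt (by linarith)
  have hderiv : ∀ v ∈ Ioo 0 (m ^ 2), HasDerivAt
      (fun v => (-2 : ℝ) * Real.log (Real.sqrt (M ^ 2 - v) + Real.sqrt (m ^ 2 - v)))
      (1 / Real.sqrt ((M ^ 2 - v) * (m ^ 2 - v))) v := by
    intro v hv
    have h1 : 0 < M ^ 2 - v := by linarith [hv.2]
    have h2 : 0 < m ^ 2 - v := by linarith [hv.2]
    have ha : 0 < Real.sqrt (M ^ 2 - v) := Real.sqrt_pos.mpr h1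
    have hb : 0 < Real.sqrt (m ^ 2 - v) := Real.sqrt_pos.mpr h2
    have d1 : HasDerivAt (fun v => Real.sqrt (M ^ 2 - v)) (-1 / (2 * Real.sqrt (M ^ 2 - v))) v :=
      ((hasDerivAt_id v).const_sub (M ^ 2)).sqrt h1.ne'
    have d2 : HasDerivAt (fun v => Real.sqrt (m ^ 2 - v)) (-1 / (2 * Real.sqrt (m ^ 2 - v))) v :=
      ((hasDerivAt_id v).const_sub (m ^ 2)).sqrt h2.ne'
    have hne : Real.sqrt (M ^ 2 - v) + Real.sqrt (m ^ 2 - v) ≠ 0 := by positivity
    have d3 := ((d1.add d2).log hne).const_mul (-2 : ℝ)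
    have d4 : (-2 : ℝ) * ((-1 / (2 * Real.sqrt (M ^ 2 - v)) + -1 / (2 * Real.sqrt (m ^ 2 - v))) /
        (Real.sqrt (M ^ 2 - v) + Real.sqrt (m ^ 2 - v))) =
        1 / Real.sqrt ((M ^ 2 - v) * (m ^ 2 - v)) := by
      rw [Real.sqrt_mul h1.le]
      generalize Real.sqrt (M ^ 2 - v) = a at *
      generalize Real.sqrt (m ^ 2 - v) = b at *
      field_simp
      ring
    exact HasDerivAt.congr_deriv d3 d4
  have hint : IntegrableOn (fun v => 1 / Real.sqrt ((M ^ 2 - v) * (m ^ 2 - v))) (Ioc 0 (m ^ 2)) :=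
    intervalIntegral.integrableOn_deriv_of_nonneg hcont hderiv
      (fun v _ => by positivity)
  refine ⟨hint.mono_set Ioo_subset_Ioc_self, ?_⟩
  rw [← integral_Ioc_eq_integral_Ioo, ← intervalIntegral.integral_of_le hm2.le]
  rw [intervalIntegral.integral_eq_sub_of_hasDerivAt_of_le hm2.le hcont hderiv
    ((intervalIntegrable_iff_integrableOn_Ioc_of_le hm2.le).mpr hint)]
  have e1 : Real.sqrt (M ^ 2 - 0) = M := by rw [sub_zero, Real.sqrt_sq hM0.le]
  have e2 : Real.sqrt (m ^ 2 - 0) = m := by rw [sub_zero, Real.sqrt_sq hm.le]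
  have e3 : Real.sqrt (m ^ 2 - m ^ 2) = 0 := by rw [sub_self, Real.sqrt_zero]
  rw [e1, e2, e3, add_zero]
  have hpos : 0 < M ^ 2 - m ^ 2 := by linarith
  have hMm : 0 < M - m := by linarith
  have hMp : 0 < M + m := by linarith
  rw [Real.log_sqrt hpos.le]
  have e4 : M ^ 2 - m ^ 2 = (M + m) * (M - m) := by ring
  rw [e4, Real.log_mul hMp.ne' hMm.ne', Real.log_div hMp.ne' hMm.ne']
  ring

lemma base' (X ρ : ℝ) (hX : 0 < X) (hρ : 0 < ρ) (h : X ≠ ρ) :
    IntegrableOn (fun v => 1 / Real.sqrt ((X ^ 2 - v) * (ρ ^ 2 - v))) (Ioo 0 ((min X ρ) ^ 2)) ∧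
    ∫ v in Ioo 0 ((min X ρ) ^ 2), 1 / Real.sqrt ((X ^ 2 - v) * (ρ ^ 2 - v)) =
      Real.log ((X + ρ) / |X - ρ|) := by
  rcases lt_or_gt_of_ne h with h1 | h1
  · have h2 := base X ρ hX h1
    rw [min_eq_left h1.le, abs_of_neg (by linarith : X - ρ < 0)]
    have e1 : (fun v => 1 / Real.sqrt ((X ^ 2 - v) * (ρ ^ 2 - v))) =
        fun v => 1 / Real.sqrt ((ρ ^ 2 - v) * (X ^ 2 - v)) := by
      funext v; rw [mul_comm]
    rw [e1]
    refine ⟨h2.1, ?_⟩
    rw [h2.2]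
    congr 1
    rw [neg_sub, add_comm]
  · have h2 := base ρ X hρ h1
    rw [min_eq_right h1.le, abs_of_pos (by linarith : 0 < X - ρ)]
    exact h2

lemma intg (X ρ : ℝ) (hX : 0 < X) (hρ : 0 < ρ) (h : X ≠ ρ) (g : ℝ → ℝ) (hg : Measurable g) (K : ℝ)
    (hK : ∀ v ∈ Ioo 0 ((min X ρ) ^ 2), |g v| ≤ K) :
    IntegrableOn (fun v => g v / Real.sqrt ((X ^ 2 - v) * (ρ ^ 2 - v))) (Ioo 0 ((min X ρ) ^ 2)) := by
  refine Integrable.mono' ((base' X ρ hX hρ h).1.const_mul K) ?_ ?_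
  · exact Measurable.aestronglyMeasurable (by fun_prop)
  · rw [ae_restrict_iff' measurableSet_Ioo]
    refine Filter.Eventually.of_forall fun v hv => ?_
    rw [Real.norm_eq_abs, abs_div, abs_of_nonneg (Real.sqrt_nonneg _), div_eq_mul_one_div]
    exact mul_le_mul_of_nonneg_right (hK v hv) (by positivity)

lemma inner (v X : ℝ) (hv : 0 < v) (hX : 0 < X) (hvX : v < X ^ 2) :
    IntegrableOn (fun Y => Y / Real.sqrt (Y ^ 2 - v)) (Ioo (Real.sqrt v) X) ∧
    ∫ Y in Ioo (Real.sqrt v) X, Y / Real.sqrt (Y ^ 2 - v) = Real.sqrt (X ^ 2 - v) := by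
  have hs : Real.sqrt v < X := by
    rw [Real.sqrt_lt' hX]; exact hvX
  have hs0 : 0 < Real.sqrt v := Real.sqrt_pos.mpr hv
  have hcont : ContinuousOn (fun Y : ℝ => Real.sqrt (Y ^ 2 - v)) (Icc (Real.sqrt v) X) := by
    fun_prop
  have hderiv : ∀ Y ∈ Ioo (Real.sqrt v) X, HasDerivAt (fun Y : ℝ => Real.sqrt (Y ^ 2 - v))
      (Y / Real.sqrt (Y ^ 2 - v)) Y := by
    intro Y hY
    have h1 : 0 < Y ^ 2 - v := by
      have h2 : Real.sqrt v ^ 2 = v := Real.sq_sqrt hv.le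
      nlinarith [hY.1]
    have d1 : HasDerivAt (fun Y : ℝ => Y ^ 2 - v) (2 * Y) Y := by
      have := (hasDerivAt_pow 2 Y).sub_const v
      simpa using this
    have d2 := d1.sqrt h1.ne'
    have ha : 0 < Real.sqrt (Y ^ 2 - v) := Real.sqrt_pos.mpr h1
    refine HasDerivAt.congr_deriv d2 ?_
    field_simp
  have hint : IntegrableOn (fun Y => Y / Real.sqrt (Y ^ 2 - v)) (Ioc (Real.sqrt v) X) :=
    intervalIntegral.integrableOn_deriv_of_nonneg hcont hderiv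
      (fun Y hY => div_nonneg (hs0.le.trans hY.1.le) (Real.sqrt_nonneg _))
  refine ⟨hint.mono_set Ioo_subset_Ioc_self, ?_⟩
  rw [← integral_Ioc_eq_integral_Ioo, ← intervalIntegral.integral_of_le hs.le]
  rw [intervalIntegral.integral_eq_sub_of_hasDerivAt_of_le hs.le hcont hderiv
    ((intervalIntegrable_iff_integrableOn_Ioc_of_le hs.le).mpr hint)]
  rw [Real.sq_sqrt hv.le, sub_self, Real.sqrt_zero, sub_zero]

/-- the two-variable integrand -/
noncomputable def FF (n : ℕ) (ρ : ℝ) (z : ℝ × ℝ) : ℝ :=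
  if z.2 < z.1 ^ 2 then z.1 * z.2 ^ n / Real.sqrt ((z.1 ^ 2 - z.2) * (ρ ^ 2 - z.2)) else 0

lemma FF_meas (n : ℕ) (ρ : ℝ) : Measurable (FF n ρ) := by
  refine Measurable.ite (measurableSet_lt measurable_snd (measurable_fst.pow_const 2))
    (by fun_prop) measurable_const

lemma FF_nonneg (n : ℕ) (ρ Y v : ℝ) (hY : 0 < Y) (hv : 0 < v) : 0 ≤ FF n ρ (Y, v) := by
  unfold FF
  split_ifs
  · positivity
  · exact le_rfl

lemma FF_left (n : ℕ) (X ρ Y : ℝ) (hρ : 0 < ρ) (hY : 0 < Y) (hYX : Y < X) :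
    ∫ v in Ioo 0 ((min X ρ) ^ 2), FF n ρ (Y, v) = Y * Nn n Y ρ := by
  have e : (fun v => FF n ρ (Y, v)) = (Iio (Y ^ 2)).indicator
      (fun v => Y * (v ^ n / Real.sqrt ((Y ^ 2 - v) * (ρ ^ 2 - v)))) := by
    funext v
    by_cases h : v < Y ^ 2
    · rw [indicator_of_mem (show v ∈ Iio (Y ^ 2) from h)]
      show (if v < Y ^ 2 then Y * v ^ n / Real.sqrt ((Y ^ 2 - v) * (ρ ^ 2 - v)) else 0) = _
      rw [if_pos h, mul_div_assoc]
    · rw [indicator_of_notMem (show v ∉ Iio (Y ^ 2) from h)]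
      show (if v < Y ^ 2 then Y * v ^ n / Real.sqrt ((Y ^ 2 - v) * (ρ ^ 2 - v)) else 0) = _
      rw [if_neg h]
  rw [e, setIntegral_indicator measurableSet_Iio]
  have hs : Ioo 0 ((min X ρ) ^ 2) ∩ Iio (Y ^ 2) = Ioo 0 ((min Y ρ) ^ 2) := by
    ext v
    simp only [mem_inter_iff, mem_Ioo, mem_Iio]
    have hXY : Y ^ 2 < X ^ 2 := by nlinarith
    rcases le_total X ρ with h1 | h1
    · have h2 : Y ≤ ρ := hYX.le.trans h1
      rw [min_eq_left h1, min_eq_left h2]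
      constructor
      · rintro ⟨⟨a, _⟩, c⟩; exact ⟨a, c⟩
      · rintro ⟨a, c⟩; exact ⟨⟨a, c.trans hXY⟩, c⟩
    · rw [min_eq_right h1]
      rcases le_total Y ρ with h2 | h2
      · rw [min_eq_left h2]
        have h3 : Y ^ 2 ≤ ρ ^ 2 := by nlinarith
        constructor
        · rintro ⟨⟨a, _⟩, c⟩; exact ⟨a, c⟩
        · rintro ⟨a, c⟩; exact ⟨⟨a, lt_of_lt_of_le c h3⟩, c⟩
      · rw [min_eq_right h2]
        have h3 : ρ ^ 2 ≤ Y ^ 2 := by nlinarith
        constructor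
        · rintro ⟨⟨a, b⟩, _⟩; exact ⟨a, b⟩
        · rintro ⟨a, c⟩; exact ⟨⟨a, c⟩, lt_of_lt_of_le c h3⟩
  rw [hs, integral_const_mul]
  rfl

lemma FF_right (n : ℕ) (X ρ v : ℝ) (hX : 0 < X) (hρ : 0 < ρ) (hv : v ∈ Ioo 0 ((min X ρ) ^ 2)) :
    IntegrableOn (fun Y => FF n ρ (Y, v)) (Ioo 0 X) ∧
    ∫ Y in Ioo 0 X, FF n ρ (Y, v) = v ^ n / Real.sqrt (ρ ^ 2 - v) * Real.sqrt (X ^ 2 - v) := by
  have hv0 : 0 < v := hv.1
  have hvX : v < X ^ 2 := by
    have h1 : min X ρ ≤ X := min_le_left _ _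
    have h2 : 0 < min X ρ := lt_min hX hρ
    nlinarith [hv.2]
  obtain ⟨i1, i2⟩ := inner v X hv0 hX hvX
  have e : EqOn (fun Y => FF n ρ (Y, v)) ((Ioo (Real.sqrt v) X).indicator
      (fun Y => v ^ n / Real.sqrt (ρ ^ 2 - v) * (Y / Real.sqrt (Y ^ 2 - v)))) (Ioo 0 X) := by
    intro Y hY
    by_cases h : v < Y ^ 2
    · have h1 : Real.sqrt v < Y := by rw [Real.sqrt_lt' hY.1]; exact h
      rw [indicator_of_mem (show Y ∈ Ioo (Real.sqrt v) X from ⟨h1, hY.2⟩)]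
      show (if v < Y ^ 2 then Y * v ^ n / Real.sqrt ((Y ^ 2 - v) * (ρ ^ 2 - v)) else 0) = _
      have h2 : 0 ≤ Y ^ 2 - v := by linarith
      rw [if_pos h, Real.sqrt_mul h2]
      ring
    · have h1 : Y ∉ Ioo (Real.sqrt v) X := by
        rintro ⟨h2, _⟩
        rw [Real.sqrt_lt' hY.1] at h2
        exact h h2
      rw [indicator_of_notMem h1]
      show (if v < Y ^ 2 then Y * v ^ n / Real.sqrt ((Y ^ 2 - v) * (ρ ^ 2 - v)) else 0) = _
      rw [if_neg h]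
  have hI : IntegrableOn (fun Y => v ^ n / Real.sqrt (ρ ^ 2 - v) * (Y / Real.sqrt (Y ^ 2 - v)))
      (Ioo (Real.sqrt v) X) := i1.const_mul _
  refine ⟨?_, ?_⟩
  · refine IntegrableOn.congr_fun ?_ e.symm measurableSet_Ioo
    exact ((integrable_indicator_iff measurableSet_Ioo).mpr hI).integrableOn
  · rw [setIntegral_congr_fun measurableSet_Ioo e, setIntegral_indicator measurableSet_Ioo]
    have hs : Ioo 0 X ∩ Ioo (Real.sqrt v) X = Ioo (Real.sqrt v) X := by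
      apply inter_eq_right.mpr
      intro Y hY
      exact ⟨lt_of_le_of_lt (Real.sqrt_nonneg _) hY.1, hY.2⟩
    rw [hs, integral_const_mul, i2]

end Y7aux

theorem y7 : Y7 := by
  intro X ρ hX hρ hne
  refine ⟨?_, fun n => ?_⟩
  · have h1 := (Y7aux.base' X ρ hX hρ hne).2
    unfold Nn
    simp only [pow_zero]
    exact h1
  · have hmin : 0 < min X ρ := lt_min hX hρ
    have hvb : ∀ v ∈ Ioo 0 ((min X ρ) ^ 2), 0 < v ∧ v < X ^ 2 ∧ v < ρ ^ 2 := by
      intro v hv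
      have h1 : min X ρ ≤ X := min_le_left _ _
      have h2 : min X ρ ≤ ρ := min_le_right _ _
      refine ⟨hv.1, ?_, ?_⟩ <;> nlinarith [hv.2]
    have hpw : ∀ v ∈ Ioo 0 ((min X ρ) ^ 2),
        v ^ n / Real.sqrt (ρ ^ 2 - v) * Real.sqrt (X ^ 2 - v) =
          v ^ n * (X ^ 2 - v) / Real.sqrt ((X ^ 2 - v) * (ρ ^ 2 - v)) := by
      intro v hv
      obtain ⟨h1, h2, h3⟩ := hvb v hv
      have h4 : 0 < X ^ 2 - v := by linarith
      have h5 : 0 < ρ ^ 2 - v := by linarith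
      have ha : 0 < Real.sqrt (X ^ 2 - v) := Real.sqrt_pos.mpr h4
      have hb : 0 < Real.sqrt (ρ ^ 2 - v) := Real.sqrt_pos.mpr h5
      have hsq : Real.sqrt (X ^ 2 - v) * Real.sqrt (X ^ 2 - v) = X ^ 2 - v := Real.mul_self_sqrt h4.le
      rw [Real.sqrt_mul h4.le]
      rw [div_mul_eq_mul_div, div_eq_div_iff hb.ne' (mul_pos ha hb).ne']
      linear_combination (v ^ n * Real.sqrt (ρ ^ 2 - v)) * hsq
    have hint1 : IntegrableOn (fun v => v ^ n * (X ^ 2 - v) / Real.sqrt ((X ^ 2 - v) * (ρ ^ 2 - v)))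
        (Ioo 0 ((min X ρ) ^ 2)) := by
      refine Y7aux.intg X ρ hX hρ hne (fun v => v ^ n * (X ^ 2 - v)) (by fun_prop)
        (((min X ρ) ^ 2) ^ n * X ^ 2) ?_
      intro v hv
      obtain ⟨h1, h2, h3⟩ := hvb v hv
      rw [abs_of_nonneg (mul_nonneg (pow_nonneg h1.le n) (by linarith))]
      exact mul_le_mul (pow_le_pow_left₀ h1.le hv.2.le n) (by linarith) (by linarith) (by positivity)
    have hint2 : IntegrableOn (fun v => v ^ n / Real.sqrt ((X ^ 2 - v) * (ρ ^ 2 - v)))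
        (Ioo 0 ((min X ρ) ^ 2)) := by
      refine Y7aux.intg X ρ hX hρ hne (fun v => v ^ n) (by fun_prop) (((min X ρ) ^ 2) ^ n) ?_
      intro v hv
      obtain ⟨h1, h2, h3⟩ := hvb v hv
      rw [abs_of_nonneg (pow_nonneg h1.le n)]
      exact pow_le_pow_left₀ h1.le hv.2.le n
    have hI : Integrable (Y7aux.FF n ρ)
        ((volume.restrict (Ioo 0 X)).prod (volume.restrict (Ioo 0 ((min X ρ) ^ 2)))) := by
      rw [integrable_prod_iff' (Y7aux.FF_meas n ρ).aestronglyMeasurable]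
      constructor
      · rw [ae_restrict_iff' measurableSet_Ioo]
        exact Filter.Eventually.of_forall fun v hv => (Y7aux.FF_right n X ρ v hX hρ hv).1
      · refine (integrable_congr ?_).mpr hint1
        rw [Filter.EventuallyEq, ae_restrict_iff' measurableSet_Ioo]
        refine Filter.Eventually.of_forall fun v hv => ?_
        have h2 : ∫ Y in Ioo 0 X, ‖Y7aux.FF n ρ (Y, v)‖ = ∫ Y in Ioo 0 X, Y7aux.FF n ρ (Y, v) :=
          setIntegral_congr_fun measurableSet_Ioo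
            (fun Y hY => Real.norm_of_nonneg (Y7aux.FF_nonneg n ρ Y v hY.1 hv.1))
        show ∫ Y in Ioo 0 X, ‖Y7aux.FF n ρ (Y, v)‖ = _
        rw [h2, (Y7aux.FF_right n X ρ v hX hρ hv).2, hpw v hv]
    have hleft : EqOn (fun Y => ∫ v in Ioo 0 ((min X ρ) ^ 2), Y7aux.FF n ρ (Y, v))
        (fun Y => Y * Nn n Y ρ) (Ioo 0 X) :=
      fun Y hY => Y7aux.FF_left n X ρ Y hρ hY.1 hY.2
    have hright : EqOn (fun v => ∫ Y in Ioo 0 X, Y7aux.FF n ρ (Y, v))
        (fun v => v ^ n * (X ^ 2 - v) / Real.sqrt ((X ^ 2 - v) * (ρ ^ 2 - v)))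
        (Ioo 0 ((min X ρ) ^ 2)) := by
      intro v hv
      show ∫ Y in Ioo 0 X, Y7aux.FF n ρ (Y, v) = _
      rw [(Y7aux.FF_right n X ρ v hX hρ hv).2, hpw v hv]
    constructor
    · rw [intervalIntegrable_iff_integrableOn_Ioo_of_le hX.le]
      exact IntegrableOn.congr_fun (hI.integral_prod_left) hleft measurableSet_Ioo
    · have hswap := integral_integral_swap (f := fun Y v => Y7aux.FF n ρ (Y, v)) hI
      rw [intervalIntegral.integral_of_le hX.le, integral_Ioc_eq_integral_Ioo,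
        ← setIntegral_congr_fun measurableSet_Ioo hleft]
      rw [hswap, setIntegral_congr_fun measurableSet_Ioo hright]
      unfold Nn
      rw [← integral_const_mul, ← integral_sub (hint2.const_mul _) hint1]
      refine setIntegral_congr_fun measurableSet_Ioo fun v hv => ?_
      obtain ⟨h1, h2, h3⟩ := hvb v hv
      show v ^ (n + 1) / _ = X ^ 2 * (v ^ n / _) - v ^ n * (X ^ 2 - v) / _
      ring

end Pool.J6H16.RZ
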