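import Pool.Agent.J6H16.RZ.Stm2

set_option autoImplicit false

open MeasureTheory Set Real Filter
open scoped Topology

namespace Pool.J6H16.RZ

namespace Y7bAux

/-- the polynomial part -/
noncomputable def PP (j : ℕ) (ρ Y : ℝ) : ℝ :=
  ∑ i ∈ Finset.range j, ρ ^ (2 * i + 1) * Y ^ q j i / (q j i : ℝ)

/-- the version with `log (Y - ρ)` -/
noncomputable def Sn (j : ℕ) (ρ Y : ℝ) : ℝ :=
  ρ ^ (2 * j) * (Real.log (Y + ρ) - Real.log (Y - ρ)) - 2 * PP j ρ Y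

theorem log_eq {ρ Y : ℝ} (hρ : 0 < ρ) (hY : 0 ≤ Y) (h : Y ≠ ρ) :
    Real.log ((Y + ρ) / |Y - ρ|) = Real.log (Y + ρ) - Real.log (Y - ρ) := by
  rw [Real.log_div (by positivity) (abs_ne_zero.2 (sub_ne_zero.2 h)), Real.log_abs]

theorem Sj_eq {ρ Y : ℝ} (j : ℕ) (hρ : 0 < ρ) (hY : 0 ≤ Y) (h : Y ≠ ρ) :
    Sj j Y ρ = Sn j ρ Y := by
  unfold Sj Sn PP
  rw [log_eq hρ hY h]

theorem cont_PP (j : ℕ) (ρ : ℝ) : Continuous (PP j ρ) := by
  unfold PP
  fun_prop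

theorem q_spec {j i : ℕ} (h : i < j) : q j i = 2 * (j - 1 - i) + 1 := by
  unfold q
  omega

theorem PP_zero (j : ℕ) (ρ : ℝ) : PP j ρ 0 = 0 := by
  unfold PP
  refine Finset.sum_eq_zero fun i hi => ?_
  rw [q_spec (Finset.mem_range.1 hi)]
  simp

theorem hasDeriv_PP (j : ℕ) (ρ Y : ℝ) : HasDerivAt (PP j ρ)
    (ρ * ∑ i ∈ Finset.range j, (ρ ^ 2) ^ i * (Y ^ 2) ^ (j - 1 - i)) Y := by
  unfold PP
  rw [Finset.mul_sum]
  refine HasDerivAt.fun_sum fun i hi => ?_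
  rw [q_spec (Finset.mem_range.1 hi)]
  have h1 : HasDerivAt (fun Y : ℝ => ρ ^ (2 * i + 1) * Y ^ (2 * (j - 1 - i) + 1) /
      ((2 * (j - 1 - i) + 1 : ℕ) : ℝ)) (ρ ^ (2 * i + 1) * (((2 * (j - 1 - i) + 1 : ℕ) : ℝ) *
        Y ^ (2 * (j - 1 - i) + 1 - 1)) / ((2 * (j - 1 - i) + 1 : ℕ) : ℝ)) Y :=
    ((hasDerivAt_pow (2 * (j - 1 - i) + 1) Y).const_mul _).div_const _
  refine h1.congr_deriv ?_
  have h2 : ((2 * (j - 1 - i) + 1 : ℕ) : ℝ) ≠ 0 := by positivity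
  rw [Nat.add_sub_cancel, ← pow_mul, ← pow_mul, mul_div_assoc, mul_div_cancel_left₀ _ h2]
  ring

theorem hasDeriv_Sn (j : ℕ) {ρ Y : ℝ} (hρ : 0 < ρ) (hY : 0 < Y) (h : Y ≠ ρ) :
    HasDerivAt (Sn j ρ) (2 * ρ * Y ^ (2 * j) / (ρ ^ 2 - Y ^ 2)) Y := by
  have h1 : Y + ρ ≠ 0 := by positivity
  have h2 : Y - ρ ≠ 0 := sub_ne_zero.2 h
  have h3 : ρ ^ 2 - Y ^ 2 ≠ 0 := by
    have : ρ ^ 2 - Y ^ 2 = -((Y - ρ) * (Y + ρ)) := by ring
    rw [this]
    exact neg_ne_zero.2 (mul_ne_zero h2 h1)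
  have d1 : HasDerivAt (fun Y : ℝ => Real.log (Y + ρ)) (1 / (Y + ρ)) Y :=
    ((hasDerivAt_id Y).add_const ρ).log h1
  have d2 : HasDerivAt (fun Y : ℝ => Real.log (Y - ρ)) (1 / (Y - ρ)) Y :=
    ((hasDerivAt_id Y).sub_const ρ).log h2
  have d3 := ((d1.sub d2).const_mul (ρ ^ (2 * j))).sub ((hasDeriv_PP j ρ Y).const_mul 2)
  have e1 : (∑ i ∈ Finset.range j, (ρ ^ 2) ^ i * (Y ^ 2) ^ (j - 1 - i)) =
      ((ρ ^ 2) ^ j - (Y ^ 2) ^ j) / (ρ ^ 2 - Y ^ 2) := by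
    rw [eq_div_iff h3]
    exact geom_sum₂_mul (ρ ^ 2) (Y ^ 2) j
  have e2 : 1 / (Y + ρ) - 1 / (Y - ρ) = 2 * ρ / (ρ ^ 2 - Y ^ 2) := by
    field_simp
    ring
  rw [e1, e2] at d3
  refine HasDerivAt.congr_deriv (f' := _) d3 ?_
  rw [← pow_mul, ← pow_mul]
  field_simp
  ring

end Y7bAux

open Y7bAux

theorem y7b : Y7b := by
  intro i j X ρ hX hρ hne
  have hint : IntervalIntegrable (fun Y => Y ^ (2 * i + 1) * Sn j ρ Y) volume 0 X := by
    have h1 : IntervalIntegrable (fun Y => Real.log (Y + ρ)) volume 0 X := by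
      refine ContinuousOn.intervalIntegrable ?_
      refine ContinuousOn.log (by fun_prop) fun y hy => ?_
      rw [uIcc_of_le hX.le] at hy
      have := hy.1
      positivity
    have h2 : IntervalIntegrable (fun Y => Real.log (Y - ρ)) volume 0 X := by
      have h3 := (intervalIntegral.intervalIntegrable_log' (a := 0 - ρ) (b := X - ρ)).comp_sub_right ρ
      simpa using h3
    have h3 : IntervalIntegrable (Sn j ρ) volume 0 X :=
      ((h1.sub h2).const_mul _).sub (((cont_PP j ρ).intervalIntegrable 0 X).const_mul 2)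
    exact h3.continuousOn_mul (by fun_prop)
  have hI : IntervalIntegrable (fun Y => Y ^ (2 * i + 1) * Sj j Y ρ) volume 0 X := by
    refine hint.congr_ae ?_
    rw [uIoc_of_le hX.le]
    have h1 : ∀ᵐ Y ∂(volume.restrict (Ioc 0 X)), Y ≠ ρ :=
      ae_restrict_of_ae (by simp [ae_iff, measure_singleton])
    filter_upwards [h1, ae_restrict_mem measurableSet_Ioc] with Y hY hY'
    rw [Sj_eq j hρ hY'.1.le hY]
  refine ⟨hI, ?_⟩
  set G : ℝ → ℝ := fun Y => (Y ^ (2 * i + 2) * Sj j Y ρ - Sj (i + j + 1) Y ρ) / (2 * i + 2) with hG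
  have h2i : (2 * (i : ℝ) + 2) ≠ 0 := by positivity
  have hcont : ContinuousOn G (Icc 0 X) := by
    set K : ℝ → ℝ := fun Y => (ρ ^ (2 * j) * ((Y ^ (2 * i + 2) - ρ ^ (2 * i + 2)) * Real.log (Y + ρ) -
      (∑ k ∈ Finset.range (2 * i + 2), Y ^ k * ρ ^ (2 * i + 2 - 1 - k)) *
        ((Y - ρ) * Real.log (Y - ρ))) -
      2 * (Y ^ (2 * i + 2) * PP j ρ Y - PP (i + j + 1) ρ Y)) / (2 * i + 2) with hK
    have hKc : ContinuousOn K (Icc 0 X) := by
      have c1 : ContinuousOn (fun Y : ℝ => Real.log (Y + ρ)) (Icc 0 X) := by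
        refine ContinuousOn.log (by fun_prop) fun y hy => ?_
        have := hy.1
        positivity
      have c2 : Continuous (fun Y : ℝ => (Y - ρ) * Real.log (Y - ρ)) :=
        Real.continuous_mul_log.comp (continuous_id.sub continuous_const)
      have c3 := cont_PP j ρ
      have c4 := cont_PP (i + j + 1) ρ
      rw [hK]
      fun_prop
    refine hKc.congr fun Y hY => ?_
    simp only [hG, hK]
    congr 1
    have hgeo : (∑ k ∈ Finset.range (2 * i + 2), Y ^ k * ρ ^ (2 * i + 2 - 1 - k)) * (Y - ρ) =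
        Y ^ (2 * i + 2) - ρ ^ (2 * i + 2) := geom_sum₂_mul Y ρ (2 * i + 2)
    have hpow : ρ ^ (2 * (i + j + 1)) = ρ ^ (2 * i + 2) * ρ ^ (2 * j) := by
      rw [← pow_add]
      congr 1
      ring
    rw [← mul_assoc (∑ k ∈ Finset.range (2 * i + 2), Y ^ k * ρ ^ (2 * i + 2 - 1 - k)), hgeo]
    by_cases h : Y = ρ
    · subst h
      unfold Sj PP
      simp only [sub_self, abs_zero, div_zero, Real.log_zero, mul_zero, zero_mul, zero_sub]
      ring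
    · rw [Sj_eq j hρ hY.1 h, Sj_eq (i + j + 1) hρ hY.1 h]
      unfold Sn
      rw [hpow]
      ring
  have hder : ∀ Y ∈ Ioo 0 X \ {ρ}, HasDerivAt G (Y ^ (2 * i + 1) * Sj j Y ρ) Y := by
    rintro Y ⟨hY, hYρ⟩
    have hYρ : Y ≠ ρ := hYρ
    have h1 := hasDeriv_Sn j hρ hY.1 hYρ
    have h2 := hasDeriv_Sn (i + j + 1) hρ hY.1 hYρ
    have h3 := (((hasDerivAt_pow (2 * i + 2) Y).mul h1).sub h2).div_const (2 * (i : ℝ) + 2)
    have h4 : G =ᶠ[𝓝 Y] fun Y => (Y ^ (2 * i + 2) * Sn j ρ Y - Sn (i + j + 1) ρ Y) / (2 * i + 2) := by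
      filter_upwards [Ioi_mem_nhds hY.1, isOpen_ne.mem_nhds hYρ] with y hy hy'
      simp only [hG]
      rw [Sj_eq j hρ (le_of_lt hy) hy', Sj_eq (i + j + 1) hρ (le_of_lt hy) hy']
    have h5 : HasDerivAt (fun Y => (Y ^ (2 * i + 2) * Sn j ρ Y - Sn (i + j + 1) ρ Y) / (2 * i + 2))
        (Y ^ (2 * i + 1) * Sj j Y ρ) Y := by
      refine HasDerivAt.congr_deriv (f' := _) h3 ?_
      rw [Sj_eq j hρ hY.1.le hYρ]
      have e1 : (2 * (i + j + 1)) = (2 * i + 2) + 2 * j := by ring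
      rw [e1, pow_add Y (2 * i + 2) (2 * j)]
      have e2 : 2 * i + 2 - 1 = 2 * i + 1 := by omega
      rw [e2]
      push_cast
      field_simp
      ring
    exact h5.congr_of_eventuallyEq h4
  have hmain := integral_eq_of_hasDerivAt_off_countable_of_le G
    (fun Y => Y ^ (2 * i + 1) * Sj j Y ρ) hX.le (countable_singleton ρ) hcont hder hI
  rw [hmain]
  have hG0 : G 0 = 0 := by
    simp only [hG]
    have h0 : (0 : ℝ) ≠ ρ := hρ.ne
    rw [Sj_eq j hρ le_rfl h0, Sj_eq (i + j + 1) hρ le_rfl h0]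
    unfold Sn
    rw [PP_zero, PP_zero]
    simp
  rw [hG0, sub_zero]

end Pool.J6H16.RZ
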