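import Pool.Agent.J6H16.RZ.Stm2

/-!
Project RY (helper16), module Y8 (helper68): the closed form of Copson's integral
-/

set_option autoImplicit false

open MeasureTheory Set Real

namespace Pool.J6H16.RZ

namespace Y8m

lemma ac_zero : ac 0 = 1 := by
  simp [ac]

lemma ac_succ (i : ℕ) : ac (i + 1) = ac i * (2 * i + 1) / (2 * i + 2) := by
  have h := Nat.succ_mul_centralBinom_succ i
  have h' : ((i : ℝ) + 1) * (Nat.centralBinom (i + 1) : ℝ) = 2 * (2 * i + 1) * (Nat.centralBinom i : ℝ) := by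
    exact_mod_cast h
  unfold ac
  have h1 : ((i : ℝ) + 1) ≠ 0 := by positivity
  have h2 : (Nat.centralBinom (i + 1) : ℝ) = 2 * (2 * i + 1) * (Nat.centralBinom i : ℝ) / ((i : ℝ) + 1) := by
    rw [eq_div_iff h1, mul_comm]
    exact h'
  rw [h2, pow_succ]
  have h3 : (2 * (i : ℝ) + 2) ≠ 0 := by positivity
  field_simp
  ring

/-- the last coefficient -/
lemma last_coeff (hy9a : Y9a) (n : ℕ) :
    ∑ j ∈ Finset.range (n + 1), ac j * ac (n - j) / (2 * ((n - j : ℕ) : ℝ) + 2) = ac (n + 1) := by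
  have h1 : ∀ j ∈ Finset.range (n + 1), ac j * ac (n - j) / (2 * ((n - j : ℕ) : ℝ) + 2) =
      ac j * ac (n - j) - ac j * ac (n + 1 - j) := by
    intro j hj
    have hj' : j ≤ n := Nat.lt_succ_iff.1 (Finset.mem_range.1 hj)
    have h2 : n + 1 - j = (n - j) + 1 := by omega
    rw [h2, ac_succ]
    have h3 : (2 * ((n - j : ℕ) : ℝ) + 2) ≠ 0 := by positivity
    field_simp
    ring
  rw [Finset.sum_congr rfl h1, Finset.sum_sub_distrib, hy9a n]
  have h2 := hy9a (n + 1)
  rw [Finset.sum_range_succ] at h2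
  simp only [Nat.sub_self, ac_zero, mul_one] at h2
  linarith

end Y8m

open Y8m in
/-- **Module Y8.** -/
theorem y8 (hy7 : Y7) (hy7b : Y7b) (hy9a : Y9a) : Y8 := by
  intro n
  induction n with
  | zero =>
    intro X ρ hX hρ hne
    rw [(hy7 X ρ hX hρ hne).1]
    simp [ac_zero, Sj]
  | succ n ih =>
    intro X ρ hX hρ hne
    obtain ⟨-, h2⟩ := hy7 X ρ hX hρ hne
    rw [(h2 n).2, ih X ρ hX hρ hne]
    have hint : (∫ Y in (0 : ℝ)..X, Y * Nn n Y ρ) =
        ∑ j ∈ Finset.range (n + 1), ac j * ac (n - j) *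
          ((X ^ (2 * (n - j) + 2) * Sj j X ρ - Sj (n + 1) X ρ) / (2 * ((n - j : ℕ) : ℝ) + 2)) := by
      have hae : (∫ Y in (0 : ℝ)..X, Y * Nn n Y ρ) = ∫ Y in (0 : ℝ)..X,
          ∑ j ∈ Finset.range (n + 1), ac j * ac (n - j) * (Y ^ (2 * (n - j) + 1) * Sj j Y ρ) := by
        refine intervalIntegral.integral_congr_ae ?_
        have hρ0 : ∀ᵐ Y : ℝ, Y ≠ ρ := by
          rw [ae_iff]
          simp
        filter_upwards [hρ0] with Y hY hYm
        rw [uIoc_of_le hX.le] at hYm
        rw [ih Y ρ hYm.1 hρ hY, Finset.mul_sum]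
        refine Finset.sum_congr rfl fun j _ => ?_
        rw [pow_succ]
        ring
      rw [hae, intervalIntegral.integral_finsetSum]
      · refine Finset.sum_congr rfl fun j hj => ?_
        have hj' : j ≤ n := Nat.lt_succ_iff.1 (Finset.mem_range.1 hj)
        rw [intervalIntegral.integral_const_mul, (hy7b (n - j) j X ρ hX hρ hne).2]
        have h3 : n - j + j + 1 = n + 1 := by omega
        rw [h3]
      · intro j _
        exact (hy7b (n - j) j X ρ hX hρ hne).1.const_mul _
    rw [hint, Finset.sum_range_succ _ (n + 1), Nat.sub_self, ac_zero, ← last_coeff hy9a n, Finset.mul_sum,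
      ← Finset.sum_sub_distrib]
    simp only [mul_one, mul_zero, pow_zero]
    rw [Finset.sum_mul, ← Finset.sum_add_distrib]
    refine Finset.sum_congr rfl fun j hj => ?_
    have hj' : j ≤ n := Nat.lt_succ_iff.1 (Finset.mem_range.1 hj)
    have h2' : n + 1 - j = (n - j) + 1 := by omega
    rw [h2', ac_succ, mul_add, mul_one, pow_add]
    have h3 : (2 * ((n - j : ℕ) : ℝ) + 2) ≠ 0 := by positivity
    field_simp
    ring

end Pool.J6H16.RZ
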