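import Pool.Agent.J6H16.RZ.Stm2

/-! # Project RY: the convolution of the central binomial coefficients -/

set_option autoImplicit false

namespace Pool.J6H16.RZ

namespace Y9aaux

theorem ac_succ' (n : ℕ) : 2 * ((n : ℝ) + 1) * ac (n + 1) = (2 * n + 1) * ac n := by
  unfold ac
  have h := Nat.succ_mul_centralBinom_succ n
  have h' : ((n : ℝ) + 1) * (Nat.centralBinom (n + 1) : ℝ) = 2 * (2 * n + 1) * (Nat.centralBinom n : ℝ) := by
    exact_mod_cast h
  rw [pow_succ]
  have h4 : (4 : ℝ) ^ n ≠ 0 := by positivity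
  field_simp
  linarith

theorem sym (n : ℕ) : 2 * ∑ j ∈ Finset.range (n + 1), (j : ℝ) * (ac j * ac (n - j)) =
    n * ∑ j ∈ Finset.range (n + 1), ac j * ac (n - j) := by
  have h1 : ∑ j ∈ Finset.range (n + 1), (j : ℝ) * (ac j * ac (n - j)) =
      ∑ j ∈ Finset.range (n + 1), ((n : ℝ) - j) * (ac j * ac (n - j)) := by
    rw [← Finset.sum_range_reflect]
    refine Finset.sum_congr rfl fun j hj => ?_
    have hj' : j ≤ n := Nat.lt_succ_iff.1 (Finset.mem_range.1 hj)
    have e1 : n + 1 - 1 - j = n - j := by omega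
    have e2 : n - (n - j) = j := by omega
    rw [e1, e2, Nat.cast_sub hj']
    ring
  have h2 : ∑ j ∈ Finset.range (n + 1), ((n : ℝ) - j) * (ac j * ac (n - j)) =
      n * (∑ j ∈ Finset.range (n + 1), ac j * ac (n - j)) - ∑ j ∈ Finset.range (n + 1), (j : ℝ) * (ac j * ac (n - j)) := by
    rw [Finset.mul_sum, ← Finset.sum_sub_distrib]
    refine Finset.sum_congr rfl fun j _ => ?_
    ring
  linarith

end Y9aaux

open Y9aaux in
theorem y9a : Y9a := by
  intro n
  induction n with
  | zero => simp [ac]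
  | succ n ih =>
    have h1 := sym (n + 1)
    have h2 := sym n
    rw [ih] at h2
    have h3 : 2 * ∑ j ∈ Finset.range (n + 1 + 1), (j : ℝ) * (ac j * ac (n + 1 - j)) =
        2 * (∑ j ∈ Finset.range (n + 1), (j : ℝ) * (ac j * ac (n - j))) + ∑ j ∈ Finset.range (n + 1), ac j * ac (n - j) := by
      rw [Finset.sum_range_succ' (n := n + 1), Finset.mul_sum (s := Finset.range (n + 1)), ← Finset.sum_add_distrib]
      simp only [Nat.cast_zero, zero_mul, add_zero]
      rw [Finset.mul_sum]
      refine Finset.sum_congr rfl fun j _ => ?_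
      have h4 := ac_succ' j
      have e1 : n + 1 - (j + 1) = n - j := by omega
      rw [e1]
      push_cast
      linear_combination (ac (n - j)) * h4
    rw [h1, h2, ih] at h3
    have h5 : ((n : ℝ) + 1) ≠ 0 := by positivity
    refine mul_left_cancel₀ h5 ?_
    push_cast at h3
    linarith

end Pool.J6H16.RZ
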