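import Pool.Agent.J6H16.RZ.Stm2

/-!
Module Y9b of project RY (helper29).
-/

open Finset

namespace Pool.J6H16.RZ

namespace Y9bAux

lemma ac_succ (n : ℕ) : ((n : ℝ) + 1) * ac (n + 1) = ((n : ℝ) + 1 / 2) * ac n := by
  have h := Nat.succ_mul_centralBinom_succ n
  have h' : ((n : ℝ) + 1) * (Nat.centralBinom (n + 1) : ℝ) =
      2 * (2 * n + 1) * (Nat.centralBinom n : ℝ) := by
    exact_mod_cast h
  unfold ac
  rw [pow_succ]
  have h4 : (4 : ℝ) ^ n ≠ 0 := by positivity
  field_simp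
  linarith

/-- convolution -/
noncomputable def cc (n : ℕ) : ℝ := ∑ j ∈ range (n + 1), ac j * ac (n - j)

lemma wsum (n : ℕ) : ∑ j ∈ range (n + 1), (j : ℝ) * (ac j * ac (n - j)) = (n : ℝ) / 2 * cc n := by
  have h1 : ∑ j ∈ range (n + 1), (j : ℝ) * (ac j * ac (n - j)) =
      ∑ j ∈ range (n + 1), ((n : ℝ) - j) * (ac j * ac (n - j)) := by
    rw [← Finset.sum_range_reflect]
    apply Finset.sum_congr rfl
    intro j hj
    have hj' : j ≤ n := Nat.lt_succ_iff.mp (mem_range.mp hj)
    have e1 : n + 1 - 1 - j = n - j := by omega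
    have e2 : n - (n - j) = j := by omega
    rw [e1, e2, Nat.cast_sub hj']
    ring
  have h2 : ∑ j ∈ range (n + 1), (j : ℝ) * (ac j * ac (n - j)) +
      ∑ j ∈ range (n + 1), ((n : ℝ) - j) * (ac j * ac (n - j)) = n * cc n := by
    rw [← Finset.sum_add_distrib, cc, Finset.mul_sum]
    apply Finset.sum_congr rfl
    intro j hj
    ring
  linarith

lemma cc_succ (n : ℕ) : cc (n + 1) = cc n := by
  have h1 := wsum (n + 1)
  rw [Finset.sum_range_succ'] at h1
  have h2 : ∑ j ∈ range (n + 1), ((j + 1 : ℕ) : ℝ) * (ac (j + 1) * ac (n + 1 - (j + 1))) =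
      ∑ j ∈ range (n + 1), ((j : ℝ) + 1 / 2) * (ac j * ac (n - j)) := by
    apply Finset.sum_congr rfl
    intro j hj
    have e1 : n + 1 - (j + 1) = n - j := by omega
    rw [e1]
    push_cast
    rw [← mul_assoc, ac_succ j]
    ring
  rw [h2] at h1
  have h3 : ∑ j ∈ range (n + 1), ((j : ℝ) + 1 / 2) * (ac j * ac (n - j)) =
      (n : ℝ) / 2 * cc n + 1 / 2 * cc n := by
    rw [← wsum n, cc, Finset.mul_sum, ← Finset.sum_add_distrib]
    apply Finset.sum_congr rfl
    intro j hj
    ring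
  rw [h3] at h1
  have h4 : ((n : ℝ) + 1) * (cc (n + 1) - cc n) = 0 := by
    push_cast at h1
    linarith
  have h5 : (n : ℝ) + 1 ≠ 0 := by positivity
  have := (mul_eq_zero.mp h4).resolve_left h5
  linarith

/-- `∑ a_j a_(n-j) / (x + j)` -/
noncomputable def SS (n : ℕ) (x : ℝ) : ℝ := ∑ j ∈ range (n + 1), ac j * ac (n - j) / (x + j)

lemma SS_succ (n : ℕ) (x : ℝ) (hx : ∀ j : ℕ, x + j ≠ 0) :
    (x + n + 1) * SS (n + 1) x = (x + n + 1 / 2) * SS n x := by
  have h1 : (x + n + 1) * SS (n + 1) x =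
      ∑ j ∈ range (n + 1), (ac j * ac (n + 1 - j) +
        ((n : ℝ) - j + 1 / 2) * (ac j * ac (n - j) / (x + j))) + ac (n + 1) * ac 0 := by
    rw [SS, Finset.sum_range_succ, mul_add, Finset.mul_sum]
    congr 1
    · apply Finset.sum_congr rfl
      intro j hj
      have hj' : j ≤ n := Nat.lt_succ_iff.mp (mem_range.mp hj)
      have e1 : n + 1 - j = (n - j) + 1 := by omega
      have h2 := ac_succ (n - j)
      rw [Nat.cast_sub hj'] at h2
      rw [e1]
      have hxj := hx j
      have h3 : ((n : ℝ) - j + 1 / 2) * (ac j * ac (n - j) / (x + j)) =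
          ac j * (((n : ℝ) - j + 1 / 2) * ac (n - j)) / (x + j) := by ring
      rw [h3, ← h2]
      field_simp
      ring
    · have hxn := hx (n + 1)
      push_cast at hxn
      rw [Nat.sub_self]
      push_cast
      have h5 : x + (n : ℝ) + 1 ≠ 0 := by rwa [add_assoc]
      have h6 : x + ((n : ℝ) + 1) ≠ 0 := hxn
      field_simp
      ring
  have h7 : (x + n + 1 / 2) * SS n x =
      ∑ j ∈ range (n + 1), (ac j * ac (n - j) +
        ((n : ℝ) - j + 1 / 2) * (ac j * ac (n - j) / (x + j))) := by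
    rw [SS, Finset.mul_sum]
    apply Finset.sum_congr rfl
    intro j hj
    have hxj := hx j
    field_simp
    ring
  have h8 := cc_succ n
  rw [cc, Finset.sum_range_succ, Nat.sub_self, cc] at h8
  rw [h1, h7, Finset.sum_add_distrib, Finset.sum_add_distrib]
  linarith

end Y9bAux

open Y9bAux in
theorem y9b : Y9b := by
  intro n l hl
  have hx : ∀ j : ℕ, (-(l : ℝ) - 1 / 2) + j ≠ 0 := by
    intro j h
    have h1 : (2 * (j : ℤ) : ℝ) = 2 * (l : ℤ) + 1 := by push_cast; linarith
    have h2 : 2 * (j : ℤ) = 2 * (l : ℤ) + 1 := by exact_mod_cast h1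
    omega
  have key : ∀ m : ℕ, l < m → SS m (-(l : ℝ) - 1 / 2) = 0 := by
    intro m hm
    induction m with
    | zero => omega
    | succ k ih =>
      have h := SS_succ k _ hx
      have h0 : (-(l : ℝ) - 1 / 2 + k + 1) ≠ 0 := by
        have := hx (k + 1)
        push_cast at this
        rwa [← add_assoc] at this
      rcases Nat.lt_succ_iff_lt_or_eq.mp hm with h1 | h1
      · rw [ih h1, mul_zero] at h
        exact (mul_eq_zero.mp h).resolve_left h0
      · have h2 : (-(l : ℝ) - 1 / 2 + k + 1 / 2) = 0 := by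
          rw [← h1]; ring
        rw [h2, zero_mul] at h
        exact (mul_eq_zero.mp h).resolve_left h0
  have h := key n hl
  rw [SS] at h
  have h2 : ∑ j ∈ range (n + 1), ac j * ac (n - j) / (2 * (j : ℝ) - 2 * (l : ℝ) - 1) =
      1 / 2 * ∑ j ∈ range (n + 1), ac j * ac (n - j) / ((-(l : ℝ) - 1 / 2) + j) := by
    rw [Finset.mul_sum]
    apply Finset.sum_congr rfl
    intro j hj
    have e : 2 * (j : ℝ) - 2 * (l : ℝ) - 1 = 2 * ((-(l : ℝ) - 1 / 2) + j) := by ring
    rw [e]
    have := hx j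
    field_simp
  rw [h2, h, mul_zero]

end Pool.J6H16.RZ
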