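import Mathlib
import Pool.Agent.J6H16.RZ.Stm2

/-!
Project RY (helper16), module Z1 (helper99): cylindrical coordinates in dimension `2n+3`
(after B8a of helper8 and B9 of helper10).
-/

set_option autoImplicit false

open MeasureTheory Set Real
open scoped ENNReal

namespace Pool.J6H16.RZ

namespace Z1m

/-- radial integrals in `EuclideanSpace ℝ (Fin (k+1))` -/
lemma radial (k : ℕ) (f : ℝ → ℝ≥0∞) (hf : Measurable f) :
    (∫⁻ y : EuclideanSpace ℝ (Fin (k + 1)), f ‖y‖) =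
      (((k + 1 : ℕ) : ℝ≥0∞) * volume (Metric.ball (0 : EuclideanSpace ℝ (Fin (k + 1))) 1)) *
        ∫⁻ ρ in Ioi (0 : ℝ), ENNReal.ofReal (ρ ^ k) * f ρ := by
  set E := EuclideanSpace ℝ (Fin (k + 1)) with hE
  have hdim : Module.finrank ℝ E = k + 1 := finrank_euclideanSpace_fin
  have h1 : (∫⁻ y : E, f ‖y‖) = ∫⁻ x : ({(0 : E)}ᶜ : Set E), f ‖x.1‖ ∂((volume : Measure E).comap (↑)) := by
    rw [lintegral_subtype_comap (measurableSet_singleton _).compl (fun x : E => f ‖x‖), restrict_compl_singleton]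
  have h2 : ∫⁻ x : ({(0 : E)}ᶜ : Set E), f ‖x.1‖ ∂((volume : Measure E).comap (↑)) =
      ∫⁻ x, f x.2 ∂((volume : Measure E).toSphere.prod (Measure.volumeIoiPow (Module.finrank ℝ E - 1))) := by
    have h := (volume : Measure E).measurePreserving_homeomorphUnitSphereProd.lintegral_comp_emb
      (Homeomorph.measurableEmbedding _) (fun x => f x.2)
    rw [← h]
    refine lintegral_congr fun x => ?_
    rw [homeomorphUnitSphereProd_apply_snd_coe]
  have h3 : ∫⁻ x, f x.2 ∂((volume : Measure E).toSphere.prod (Measure.volumeIoiPow (Module.finrank ℝ E - 1))) =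
      (volume : Measure E).toSphere univ * ∫⁻ x : Ioi (0 : ℝ), f x ∂(Measure.volumeIoiPow (Module.finrank ℝ E - 1)) := by
    rw [lintegral_prod (fun x : Metric.sphere (0 : E) 1 × Ioi (0 : ℝ) => f x.2) (by fun_prop)]
    show ∫⁻ _ : Metric.sphere (0 : E) 1, (∫⁻ y : Ioi (0 : ℝ), f y ∂(Measure.volumeIoiPow (Module.finrank ℝ E - 1)))
      ∂(volume : Measure E).toSphere = _
    rw [lintegral_const, mul_comm]
  have h4 : ∫⁻ x : Ioi (0 : ℝ), f x ∂(Measure.volumeIoiPow (Module.finrank ℝ E - 1)) =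
      ∫⁻ ρ in Ioi (0 : ℝ), ENNReal.ofReal (ρ ^ k) * f ρ := by
    rw [hdim, Nat.add_sub_cancel, Measure.volumeIoiPow,
      lintegral_withDensity_eq_lintegral_mul _ (by fun_prop) (by fun_prop)]
    exact lintegral_subtype_comap measurableSet_Ioi (fun ρ : ℝ => ENNReal.ofReal (ρ ^ k) * f ρ)
  rw [h1, h2, h3, h4, Measure.toSphere_apply_univ, hdim]

lemma mp (m : ℕ) : MeasurePreserving
    (fun y : EuclideanSpace ℝ (Fin (m + 1)) =>
      ((y 0, WithLp.toLp 2 (fun i : Fin m => y i.succ)) : ℝ × EuclideanSpace ℝ (Fin m)))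
    volume volume := by
  have h1 : MeasurePreserving (fun y : EuclideanSpace ℝ (Fin (m + 1)) => (WithLp.ofLp y : Fin (m + 1) → ℝ))
      volume volume := PiLp.volume_preserving_ofLp (Fin (m + 1))
  have h2 : MeasurePreserving (MeasurableEquiv.piFinSuccAbove (fun _ : Fin (m + 1) => ℝ) 0) volume volume :=
    volume_preserving_piFinSuccAbove (fun _ : Fin (m + 1) => ℝ) 0
  have h3 : MeasurePreserving (fun y : Fin m → ℝ => (WithLp.toLp 2 y : EuclideanSpace ℝ (Fin m)))
      volume volume := PiLp.volume_preserving_toLp (Fin m)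
  have h4 : MeasurePreserving (Prod.map (id : ℝ → ℝ)
      (fun y : Fin m → ℝ => (WithLp.toLp 2 y : EuclideanSpace ℝ (Fin m)))) volume volume :=
    (MeasurePreserving.id (volume : Measure ℝ)).prod h3
  exact h4.comp (h2.comp h1)

end Z1m

/-- **Z1** -/
theorem z1 : Z1 := by
  intro n
  set c : ℝ≥0∞ := (((2 * n + 1 + 1 : ℕ) : ℝ≥0∞) *
    volume (Metric.ball (0 : EuclideanSpace ℝ (Fin (2 * n + 1 + 1))) 1)) with hc
  have hc0 : c ≠ 0 := by
    rw [hc]
    refine mul_ne_zero (by positivity) ?_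
    exact (Metric.measure_ball_pos volume _ one_pos).ne'
  have hct : c ≠ ∞ := by
    rw [hc]
    exact ENNReal.mul_ne_top (ENNReal.natCast_ne_top _) measure_ball_lt_top.ne
  refine ⟨c.toReal, ENNReal.toReal_pos hc0 hct, fun G hG => ?_⟩
  have hF : Measurable fun p : ℝ × EuclideanSpace ℝ (Fin (2 * n + 2)) => G p.1 ‖p.2‖ :=
    hG.comp (measurable_fst.prodMk (measurable_norm.comp measurable_snd))
  have h1 := (Z1m.mp (2 * n + 2)).lintegral_comp hF
  have h2 : (∫⁻ y : ED n, G (y 0) (Real.sqrt (∑ i : Fin (2 * n + 2), y i.succ ^ 2))) =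
      ∫⁻ p : ℝ × EuclideanSpace ℝ (Fin (2 * n + 2)), G p.1 ‖p.2‖ := by
    rw [← h1]
    refine lintegral_congr fun y => ?_
    simp only [EuclideanSpace.norm_eq, Real.norm_eq_abs, sq_abs]
  rw [h2, Measure.volume_eq_prod, lintegral_prod _ hF.aemeasurable]
  refine lintegral_congr fun h => ?_
  have h3 := Z1m.radial (2 * n + 1) (G h) (hG.comp measurable_prodMk_left)
  have h4 : (∫⁻ y : EuclideanSpace ℝ (Fin (2 * n + 2)), G h ‖y‖) =
      c * ∫⁻ ρ in Ioi (0 : ℝ), ENNReal.ofReal (ρ ^ (2 * n + 1)) * G h ρ := h3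
  show (∫⁻ y : EuclideanSpace ℝ (Fin (2 * n + 2)), G h ‖y‖) = _
  rw [h4, ← lintegral_const_mul']
  · refine lintegral_congr fun u => ?_
    rw [ENNReal.ofReal_mul ENNReal.toReal_nonneg, ENNReal.ofReal_toReal hct]
    exact (mul_assoc _ _ _).symm
  · exact hct

end Pool.J6H16.RZ
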