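import Pool.Agent.J6H16.RZ.Stm2

/-!
# Module RY-Z2: rotation invariance of the Riesz potential in odd dimensions
-/

set_option autoImplicit false

open MeasureTheory Set Real
open scoped ENNReal

namespace Pool.J6H16.RZ

/-- a linear isometry which maps `x` to a given vector of the same norm -/
private theorem Z2m.exists_isom {n : ℕ} (x z : ED n) (h : ‖x‖ = ‖z‖) :
    ∃ T : ED n ≃ₗᵢ[ℝ] ED n, T x = z :=
  ⟨Submodule.reflection (ℝ ∙ (x - z))ᗮ, Submodule.reflection_sub h⟩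

private theorem Z2m.norm_sub_sq {n : ℕ} (X : ℝ) (y : ED n) :
    ‖(EuclideanSpace.single (0 : Fin (2 * n + 3)) X : ED n) - y‖ ^ 2 =
      (X - y 0) ^ 2 + ∑ i : Fin (2 * n + 2), y i.succ ^ 2 := by
  rw [EuclideanSpace.real_norm_sq_eq, Fin.sum_univ_succ]
  refine congrArg₂ (· + ·) ?_ (Finset.sum_congr rfl fun i _ => ?_)
  · simp
  · have h : (EuclideanSpace.single (0 : Fin (2 * n + 3)) X : ED n) i.succ = 0 := by
      simp [Fin.succ_ne_zero]
    rw [PiLp.sub_apply, h, zero_sub, neg_sq]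

private theorem Z2m.norm_sub_pow {n : ℕ} (X : ℝ) (y : ED n) :
    ‖(EuclideanSpace.single (0 : Fin (2 * n + 3)) X : ED n) - y‖ ^ (2 * n + 2) =
      ((X - y 0) ^ 2 + ∑ i : Fin (2 * n + 2), y i.succ ^ 2) ^ (n + 1) := by
  rw [← Z2m.norm_sub_sq, ← pow_mul, mul_add, mul_one]

theorem z2 : Z2 := by
  intro n f _ x
  have hz : ‖x‖ = ‖(EuclideanSpace.single (0 : Fin (2 * n + 3)) ‖x‖ : ED n)‖ := by
    simp
  obtain ⟨T, hT⟩ := Z2m.exists_isom x _ hz
  have h1 : (∫⁻ y : ED n, f ‖y‖ * kerD n x y) =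
      ∫⁻ y : ED n, (fun y' : ED n => f ‖y'‖ * kerD n (T x) y') (T y) := by
    refine lintegral_congr fun y => ?_
    have h2 : ‖T x - T y‖ = ‖x - y‖ := by rw [← map_sub, T.norm_map]
    simp only [kerD, T.norm_map, h2]
  have h4 := T.measurePreserving.lintegral_comp_emb T.toHomeomorph.measurableEmbedding
    (fun y' : ED n => f ‖y'‖ * kerD n (T x) y')
  refine h1.trans (h4.trans ?_)
  refine lintegral_congr fun y => ?_
  simp only [kerD, hT]
  rw [Z2m.norm_sub_pow]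

end Pool.J6H16.RZ
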