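import Pool.Agent.J6H16.RZ.Stm2

/-!
Project RY, module Z3: the potential in cylindrical coordinates (generalizes helper28's B8c).
-/

set_option autoImplicit false

open MeasureTheory Set Real
open scoped ENNReal

namespace Pool.J6H16.RZ

namespace Z3m

private theorem sub1 (n : ℕ) (f : ℝ → ℝ≥0∞) (X h : ℝ) :
    (∫⁻ u in Ioi (0 : ℝ), ENNReal.ofReal (u ^ (2 * n + 1)) *
      (f (Real.sqrt (h ^ 2 + u ^ 2)) * (ENNReal.ofReal (((X - h) ^ 2 + u ^ 2) ^ (n + 1)))⁻¹)) =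
    ∫⁻ ρ in Ioi |h|, ENNReal.ofReal ((ρ ^ 2 - h ^ 2) ^ n * ρ) *
      (f ρ * (ENNReal.ofReal ((X ^ 2 - 2 * X * h + ρ ^ 2) ^ (n + 1)))⁻¹) := by
  have himg : (fun u : ℝ => Real.sqrt (h ^ 2 + u ^ 2)) '' Ioi (0 : ℝ) = Ioi |h| := by
    ext ρ
    simp only [mem_image, mem_Ioi]
    constructor
    · rintro ⟨u, hu, rfl⟩
      rw [← Real.sqrt_sq_eq_abs]
      exact Real.sqrt_lt_sqrt (sq_nonneg h) (by nlinarith [pow_pos hu 2])
    · intro hρ
      have h0 : 0 ≤ |h| := abs_nonneg h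
      have h1 : h ^ 2 < ρ ^ 2 := by rw [← sq_abs h]; nlinarith
      refine ⟨Real.sqrt (ρ ^ 2 - h ^ 2), Real.sqrt_pos.2 (by linarith), ?_⟩
      rw [Real.sq_sqrt (by linarith)]
      rw [show h ^ 2 + (ρ ^ 2 - h ^ 2) = ρ ^ 2 by ring]
      exact Real.sqrt_sq (by linarith)
  rw [← himg]
  have hpos : ∀ u : ℝ, 0 < u → 0 < h ^ 2 + u ^ 2 := fun u hu => by positivity
  rw [lintegral_image_eq_lintegral_abs_deriv_mul measurableSet_Ioi
    (f' := fun u => u / Real.sqrt (h ^ 2 + u ^ 2))]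
  · refine setLIntegral_congr_fun measurableSet_Ioi fun u hu => ?_
    have hu : 0 < u := hu
    have hs : 0 < Real.sqrt (h ^ 2 + u ^ 2) := Real.sqrt_pos.2 (hpos u hu)
    show _ = ENNReal.ofReal |u / Real.sqrt (h ^ 2 + u ^ 2)| *
      (ENNReal.ofReal ((Real.sqrt (h ^ 2 + u ^ 2) ^ 2 - h ^ 2) ^ n * Real.sqrt (h ^ 2 + u ^ 2)) *
      (f (Real.sqrt (h ^ 2 + u ^ 2)) *
        (ENNReal.ofReal ((X ^ 2 - 2 * X * h + Real.sqrt (h ^ 2 + u ^ 2) ^ 2) ^ (n + 1)))⁻¹))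
    rw [← mul_assoc (ENNReal.ofReal |u / Real.sqrt (h ^ 2 + u ^ 2)|),
      ← ENNReal.ofReal_mul (abs_nonneg _),
      abs_of_pos (div_pos hu hs),
      Real.sq_sqrt (hpos u hu).le]
    rw [show u / Real.sqrt (h ^ 2 + u ^ 2) *
        ((h ^ 2 + u ^ 2 - h ^ 2) ^ n * Real.sqrt (h ^ 2 + u ^ 2)) = u ^ (2 * n + 1) by
      rw [show h ^ 2 + u ^ 2 - h ^ 2 = u ^ 2 by ring, ← pow_mul]
      field_simp
      ring]
    rw [show X ^ 2 - 2 * X * h + (h ^ 2 + u ^ 2) = (X - h) ^ 2 + u ^ 2 by ring]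
  · intro u hu
    have hu : 0 < u := hu
    have h1 : HasDerivAt (fun u : ℝ => h ^ 2 + u ^ 2) (2 * u) u := by
      simpa using (hasDerivAt_pow 2 u).const_add (h ^ 2)
    have h2 := (h1.sqrt (hpos u hu).ne')
    have h3 : 2 * u / (2 * Real.sqrt (h ^ 2 + u ^ 2)) = u / Real.sqrt (h ^ 2 + u ^ 2) := by
      rw [mul_div_mul_left _ _ (two_ne_zero)]
    rw [h3] at h2
    exact h2.hasDerivWithinAt
  · intro u hu v hv huv
    have hu : 0 < u := hu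
    have hv : 0 < v := hv
    have h1 : h ^ 2 + u ^ 2 = h ^ 2 + v ^ 2 :=
      (Real.sqrt_inj (hpos u hu).le (hpos v hv).le).1 huv
    have h2 : u ^ 2 = v ^ 2 := by linarith
    exact (pow_left_inj₀ hu.le hv.le two_ne_zero).1 h2

end Z3m

open Z3m in
theorem z3 (hy6 : Y6) : Z3 := by
  intro n f hf X hX
  simp_rw [sub1 n f X]
  set G : ℝ → ℝ → ℝ≥0∞ := fun h ρ => ENNReal.ofReal ((ρ ^ 2 - h ^ 2) ^ n * ρ) *
      (f ρ * (ENNReal.ofReal ((X ^ 2 - 2 * X * h + ρ ^ 2) ^ (n + 1)))⁻¹) with hG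
  have hmeas : Measurable (Function.uncurry G) := by
    rw [hG]
    unfold Function.uncurry
    refine Measurable.mul (by fun_prop) (Measurable.mul (hf.comp measurable_snd) ?_)
    exact Measurable.inv (by fun_prop)
  have hS : MeasurableSet {p : ℝ × ℝ | |p.1| < p.2} :=
    measurableSet_lt (by fun_prop) measurable_snd
  have h1 : ∀ h : ℝ, (∫⁻ ρ in Ioi |h|, G h ρ) =
      ∫⁻ ρ, {p : ℝ × ℝ | |p.1| < p.2}.indicator (Function.uncurry G) (h, ρ) := by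
    intro h
    rw [← lintegral_indicator measurableSet_Ioi]
    refine lintegral_congr fun ρ => ?_
    by_cases hρ : |h| < ρ
    · rw [indicator_of_mem (show ρ ∈ Ioi |h| from hρ), indicator_of_mem (show (h, ρ) ∈ {p : ℝ × ℝ | |p.1| < p.2} from hρ)]
      rfl
    · rw [indicator_of_notMem (show ρ ∉ Ioi |h| from hρ), indicator_of_notMem (show (h, ρ) ∉ {p : ℝ × ℝ | |p.1| < p.2} from hρ)]
  rw [lintegral_congr h1]
  rw [lintegral_lintegral_swap (f := fun h ρ =>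
    {p : ℝ × ℝ | |p.1| < p.2}.indicator (Function.uncurry G) (h, ρ)) (by
      exact (hmeas.indicator hS).aemeasurable), ← lintegral_indicator measurableSet_Ioi]
  have hneX : ∀ᵐ ρ : ℝ, ρ ≠ X := by
    rw [ae_iff]
    simp
  refine lintegral_congr_ae ?_
  filter_upwards [hneX] with ρ hρX
  by_cases hρ : 0 < ρ
  · rw [indicator_of_mem (show ρ ∈ Ioi (0 : ℝ) from hρ)]
    have h2 : ∀ h : ℝ, {p : ℝ × ℝ | |p.1| < p.2}.indicator (Function.uncurry G) (h, ρ) =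
        (Ioo (-ρ) ρ).indicator (fun h => G h ρ) h := by
      intro h
      by_cases hh : |h| < ρ
      · rw [indicator_of_mem (show (h, ρ) ∈ {p : ℝ × ℝ | |p.1| < p.2} from hh), indicator_of_mem (show h ∈ Ioo (-ρ) ρ from abs_lt.1 hh)]
        rfl
      · rw [indicator_of_notMem (show (h, ρ) ∉ {p : ℝ × ℝ | |p.1| < p.2} from hh), indicator_of_notMem (show h ∉ Ioo (-ρ) ρ from fun hc => hh (abs_lt.2 hc))]
    simp_rw [h2]
    rw [lintegral_indicator measurableSet_Ioo]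
    have hc : Measurable fun h : ℝ => ENNReal.ofReal
        ((ρ ^ 2 - h ^ 2) ^ n / (X ^ 2 + ρ ^ 2 - 2 * X * h) ^ (n + 1)) := by fun_prop
    have h3 : (∫⁻ h in Ioo (-ρ) ρ, G h ρ) = ∫⁻ h in Ioo (-ρ) ρ, (f ρ * ENNReal.ofReal ρ) *
        ENNReal.ofReal ((ρ ^ 2 - h ^ 2) ^ n / (X ^ 2 + ρ ^ 2 - 2 * X * h) ^ (n + 1)) := by
      refine setLIntegral_congr_fun measurableSet_Ioo fun h hh => ?_
      have hd : 0 < (X - ρ) ^ 2 := by
        have : X - ρ ≠ 0 := sub_ne_zero.2 hρX.symm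
        positivity
      have hp : 0 < X ^ 2 + ρ ^ 2 - 2 * X * h := by
        nlinarith [hh.1, hh.2, mul_le_mul_of_nonneg_left hh.2.le hX.le]
      have hq : 0 ≤ ρ ^ 2 - h ^ 2 := by nlinarith [hh.1, hh.2]
      show ENNReal.ofReal ((ρ ^ 2 - h ^ 2) ^ n * ρ) *
        (f ρ * (ENNReal.ofReal ((X ^ 2 - 2 * X * h + ρ ^ 2) ^ (n + 1)))⁻¹) = (f ρ * ENNReal.ofReal ρ) *
        ENNReal.ofReal ((ρ ^ 2 - h ^ 2) ^ n / (X ^ 2 + ρ ^ 2 - 2 * X * h) ^ (n + 1))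
      rw [show X ^ 2 - 2 * X * h + ρ ^ 2 = X ^ 2 + ρ ^ 2 - 2 * X * h by ring,
        div_eq_mul_inv, ENNReal.ofReal_mul (pow_nonneg hq n), ENNReal.ofReal_mul (pow_nonneg hq n),
        ENNReal.ofReal_inv_of_pos (pow_pos hp _)]
      ring
    rw [h3, lintegral_const_mul _ hc, (hy6 n X ρ hX hρ hρX.symm).2, mul_assoc,
      ← ENNReal.ofReal_mul hρ.le]
    congr 2
    ring
  · rw [indicator_of_notMem (show ρ ∉ Ioi (0 : ℝ) from hρ)]
    have h2 : ∀ h : ℝ, {p : ℝ × ℝ | |p.1| < p.2}.indicator (Function.uncurry G) (h, ρ) = 0 := by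
      intro h
      refine indicator_of_notMem ?_ _
      intro hc
      have hc : |h| < ρ := hc
      exact hρ (lt_of_le_of_lt (abs_nonneg h) hc)
    simp_rw [h2]
    simp

end Pool.J6H16.RZ
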