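import Pool.Agent.J6H16.RZ.Stm2

/-! # Project RY: Z4 from Z1, Z2, Z3 -/

set_option autoImplicit false

open MeasureTheory Set Real
open scoped ENNReal

namespace Pool.J6H16.RZ

theorem z4 (hz1 : Z1) (hz2 : Z2) (hz3 : Z3) : Z4 := by
  intro n
  obtain ⟨ω, hω, h1⟩ := hz1 n
  refine ⟨ω, hω, ?_⟩
  intro f hf x hx
  have hX : 0 < ‖x‖ := norm_pos_iff.2 hx
  rw [hz2 n f hf x]
  have hG : Measurable (Function.uncurry fun h u : ℝ =>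
      f (Real.sqrt (h ^ 2 + u ^ 2)) * (ENNReal.ofReal (((‖x‖ - h) ^ 2 + u ^ 2) ^ (n + 1)))⁻¹) := by
    unfold Function.uncurry
    refine Measurable.mul (hf.comp ?_) ?_
    · fun_prop
    · fun_prop
  have e1 : (∫⁻ y : ED n, f ‖y‖ *
      (ENNReal.ofReal (((‖x‖ - y 0) ^ 2 + ∑ i : Fin (2 * n + 2), y i.succ ^ 2) ^ (n + 1)))⁻¹) =
      ∫⁻ y : ED n, (fun h u : ℝ => f (Real.sqrt (h ^ 2 + u ^ 2)) *
        (ENNReal.ofReal (((‖x‖ - h) ^ 2 + u ^ 2) ^ (n + 1)))⁻¹) (y 0)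
          (Real.sqrt (∑ i : Fin (2 * n + 2), y i.succ ^ 2)) := by
    refine lintegral_congr fun y => ?_
    have h1 : Real.sqrt (∑ i : Fin (2 * n + 2), y i.succ ^ 2) ^ 2 = ∑ i : Fin (2 * n + 2), y i.succ ^ 2 :=
      Real.sq_sqrt (Finset.sum_nonneg fun i _ => sq_nonneg _)
    have h2 : ‖y‖ = Real.sqrt (y 0 ^ 2 + ∑ i : Fin (2 * n + 2), y i.succ ^ 2) := by
      rw [EuclideanSpace.norm_eq, Fin.sum_univ_succ]
      simp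
    simp only [h1]
    rw [h2]
  rw [e1, h1 _ hG]
  have e2 : ∀ h u : ℝ, u ∈ Ioi (0 : ℝ) → ENNReal.ofReal (ω * u ^ (2 * n + 1)) *
      (f (Real.sqrt (h ^ 2 + u ^ 2)) * (ENNReal.ofReal (((‖x‖ - h) ^ 2 + u ^ 2) ^ (n + 1)))⁻¹) =
      ENNReal.ofReal ω * (ENNReal.ofReal (u ^ (2 * n + 1)) *
      (f (Real.sqrt (h ^ 2 + u ^ 2)) * (ENNReal.ofReal (((‖x‖ - h) ^ 2 + u ^ 2) ^ (n + 1)))⁻¹)) := by
    intro h u hu
    rw [ENNReal.ofReal_mul hω.le, mul_assoc]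
  have e3 : (∫⁻ h : ℝ, ∫⁻ u in Ioi (0 : ℝ), ENNReal.ofReal (ω * u ^ (2 * n + 1)) *
      (f (Real.sqrt (h ^ 2 + u ^ 2)) * (ENNReal.ofReal (((‖x‖ - h) ^ 2 + u ^ 2) ^ (n + 1)))⁻¹)) =
      ENNReal.ofReal ω * ∫⁻ h : ℝ, ∫⁻ u in Ioi (0 : ℝ), ENNReal.ofReal (u ^ (2 * n + 1)) *
      (f (Real.sqrt (h ^ 2 + u ^ 2)) * (ENNReal.ofReal (((‖x‖ - h) ^ 2 + u ^ 2) ^ (n + 1)))⁻¹) := by
    rw [← lintegral_const_mul' _ _ ENNReal.ofReal_ne_top]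
    refine lintegral_congr fun h => ?_
    rw [← lintegral_const_mul' _ _ ENNReal.ofReal_ne_top]
    exact setLIntegral_congr_fun measurableSet_Ioi fun u hu => e2 h u hu
  rw [e3, hz3 n f hf ‖x‖ hX, ← lintegral_const_mul' _ _ ENNReal.ofReal_ne_top]
  refine lintegral_congr fun ρ => ?_
  rw [ENNReal.ofReal_mul hω.le]
  ring

end Pool.J6H16.RZ
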