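import Pool.Agent.J6H16.RZ.Stm2

/-! Project RY (helper16), module Z5 (helper19): radial integrals in odd dimension, after `B9.lean`. -/

set_option autoImplicit false

open MeasureTheory Set Real
open scoped ENNReal

namespace Pool.J6H16.RZ

/-- **Z5** -/
theorem z5 : Z5 := by
  intro n
  have hdim : Module.finrank ℝ (ED n) = 2 * n + 3 := by simp [ED]
  have hball : (volume : Measure (ED n)) (Metric.ball 0 1) ≠ ⊤ := measure_ball_lt_top.ne
  have hpos : 0 < ((volume : Measure (ED n)) (Metric.ball 0 1)).toReal :=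
    ENNReal.toReal_pos (Metric.measure_ball_pos _ _ one_pos).ne' hball
  refine ⟨((2 * n + 3 : ℕ) : ℝ) * ((volume : Measure (ED n)) (Metric.ball 0 1)).toReal,
    mul_pos (by positivity) hpos, fun f hf => ?_⟩
  have h1 : (∫⁻ y : ED n, f ‖y‖) = ∫⁻ x : ({(0 : ED n)}ᶜ : Set (ED n)), f ‖x.1‖
      ∂((volume : Measure (ED n)).comap (↑)) := by
    rw [lintegral_subtype_comap (measurableSet_singleton _).compl (fun x : ED n => f ‖x‖),
      restrict_compl_singleton]
  have h2 : ∫⁻ x : ({(0 : ED n)}ᶜ : Set (ED n)), f ‖x.1‖ ∂((volume : Measure (ED n)).comap (↑)) =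
      ∫⁻ x, f x.2 ∂((volume : Measure (ED n)).toSphere.prod
        (Measure.volumeIoiPow (Module.finrank ℝ (ED n) - 1))) := by
    have h := (volume : Measure (ED n)).measurePreserving_homeomorphUnitSphereProd.lintegral_comp_emb
      (Homeomorph.measurableEmbedding _) (fun x => f x.2)
    rw [← h]
    refine lintegral_congr fun x => ?_
    rw [homeomorphUnitSphereProd_apply_snd_coe]
  have h3 : ∫⁻ x, f x.2 ∂((volume : Measure (ED n)).toSphere.prod
        (Measure.volumeIoiPow (Module.finrank ℝ (ED n) - 1))) =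
      (volume : Measure (ED n)).toSphere univ *
        ∫⁻ x : Ioi (0 : ℝ), f x ∂(Measure.volumeIoiPow (Module.finrank ℝ (ED n) - 1)) := by
    rw [lintegral_prod (fun x : Metric.sphere (0 : ED n) 1 × Ioi (0 : ℝ) => f x.2) (by fun_prop)]
    show ∫⁻ _ : Metric.sphere (0 : ED n) 1, (∫⁻ y : Ioi (0 : ℝ), f y
      ∂(Measure.volumeIoiPow (Module.finrank ℝ (ED n) - 1))) ∂(volume : Measure (ED n)).toSphere = _
    rw [lintegral_const, mul_comm]
  have h4 : ∫⁻ x : Ioi (0 : ℝ), f x ∂(Measure.volumeIoiPow (Module.finrank ℝ (ED n) - 1)) =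
      ∫⁻ ρ in Ioi (0 : ℝ), ENNReal.ofReal (ρ ^ (2 * n + 2)) * f ρ := by
    rw [hdim, Measure.volumeIoiPow,
      lintegral_withDensity_eq_lintegral_mul _ (by fun_prop) (by fun_prop)]
    exact lintegral_subtype_comap measurableSet_Ioi
      (fun ρ : ℝ => ENNReal.ofReal (ρ ^ (2 * n + 2)) * f ρ)
  rw [h1, h2, h3, h4, Measure.toSphere_apply_univ, hdim, ← lintegral_const_mul _ (by fun_prop)]
  refine setLIntegral_congr_fun measurableSet_Ioi fun ρ hρ => ?_
  have hρ0 : (0 : ℝ) < ρ := hρ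
  show _ * (ENNReal.ofReal (ρ ^ (2 * n + 2)) * f ρ) = f ρ * ENNReal.ofReal (_ * ρ ^ (2 * n + 2))
  have h6 : ENNReal.ofReal (((2 * n + 3 : ℕ) : ℝ) *
      ((volume : Measure (ED n)) (Metric.ball 0 1)).toReal * ρ ^ (2 * n + 2)) =
      ((2 * n + 3 : ℕ) : ℝ≥0∞) * (volume : Measure (ED n)) (Metric.ball 0 1) *
        ENNReal.ofReal (ρ ^ (2 * n + 2)) := by
    rw [ENNReal.ofReal_mul (by positivity), ENNReal.ofReal_mul (by positivity),
      ENNReal.ofReal_natCast, ENNReal.ofReal_toReal hball]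
  rw [h6]
  ring

end Pool.J6H16.RZ
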