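import Pool.Agent.J6H16.RZ.Stm2

/-!
Project RY (helper16), module Z6: positive definiteness of the energy for the kernel |x-y|^(-(2n+2)) in dimension 2n+3, with
the case of equality (generalizes helper87's B10).
-/

set_option autoImplicit false

open MeasureTheory Set Real
open scoped ENNReal

namespace Pool.J6H16.RZ

namespace Z6m

variable {n : ℕ}

/-- the Gaussian kernel -/
noncomputable def G (t : ℝ) (x y : ED n) : ℝ≥0∞ := ENNReal.ofReal (Real.exp (-t * ‖x - y‖ ^ 2))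

/-- the Gaussian energy -/
noncomputable def I (μ ν : Measure (ED n)) (t : ℝ) : ℝ≥0∞ := ∫⁻ x, ∫⁻ y, G t x y ∂ν ∂μ

theorem meas_G : Measurable (fun q : (ℝ × ED n) × ED n => G q.1.1 q.1.2 q.2) := by
  unfold G
  refine ENNReal.measurable_ofReal.comp ?_
  refine Continuous.measurable ?_
  fun_prop

theorem meas_inner (ν : Measure (ED n)) [SFinite ν] :
    Measurable (fun q : ℝ × ED n => ∫⁻ y, G q.1 q.2 y ∂ν) :=
  Measurable.lintegral_prod_right' meas_G

theorem meas_I (μ ν : Measure (ED n)) [SFinite μ] [SFinite ν] : Measurable (I μ ν) :=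
  Measurable.lintegral_prod_right' (meas_inner ν)

/-- the weight -/
noncomputable def W (n : ℕ) (t : ℝ) : ℝ≥0∞ := ENNReal.ofReal (t ^ n)

theorem meas_W (n : ℕ) : Measurable (W n) := by
  unfold W
  exact ENNReal.measurable_ofReal.comp (measurable_id.pow_const n)

theorem W_ne_zero (n : ℕ) (t : ℝ) (ht : 0 < t) : W n t ≠ 0 := by
  unfold W
  have : 0 < t ^ n := pow_pos ht n
  simp [ENNReal.ofReal_eq_zero, this]

theorem W_ne_top (n : ℕ) (t : ℝ) : W n t ≠ ⊤ := ENNReal.ofReal_ne_top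

theorem meas_WI (μ ν : Measure (ED n)) [SFinite μ] [SFinite ν] :
    Measurable (fun t => W n t * I μ ν t) := (meas_W n).mul (meas_I μ ν)

theorem meas_GW : Measurable (fun q : (ℝ × ED n) × ED n => W n q.1.1 * G q.1.1 q.1.2 q.2) :=
  ((meas_W n).comp (measurable_fst.comp measurable_fst)).mul meas_G

/-- `n!` -/
noncomputable def F (n : ℕ) : ℝ≥0∞ := ENNReal.ofReal (n.factorial : ℝ)

theorem F_ne_zero (n : ℕ) : F n ≠ 0 := by
  unfold F
  have : (0 : ℝ) < n.factorial := by exact_mod_cast n.factorial_pos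
  exact (ENNReal.ofReal_pos.2 this).ne'

theorem F_ne_top (n : ℕ) : F n ≠ ⊤ := ENNReal.ofReal_ne_top

theorem en_eq (hz6a : Z6a) (μ ν : Measure (ED n)) [SFinite μ] [SFinite ν] :
    F n * enD n μ ν = ∫⁻ t in Ioi (0 : ℝ), W n t * I μ ν t := by
  have e1 : ∀ x : ED n, F n * (∫⁻ y, kerD n x y ∂ν) =
      ∫⁻ t in Ioi (0 : ℝ), W n t * ∫⁻ y, G t x y ∂ν := by
    intro x
    have e2 : F n * (∫⁻ y, kerD n x y ∂ν) = ∫⁻ y, (∫⁻ t in Ioi (0 : ℝ), W n t * G t x y) ∂ν := by
      rw [← lintegral_const_mul' _ _ (F_ne_top n)]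
      exact lintegral_congr fun y => hz6a n x y
    rw [e2, lintegral_lintegral_swap]
    · refine lintegral_congr fun t => ?_
      rw [lintegral_const_mul' _ _ (W_ne_top n t)]
    · refine Measurable.aemeasurable ?_
      exact meas_GW.comp ((measurable_snd.prodMk measurable_const).prodMk measurable_fst)
  unfold enD
  rw [← lintegral_const_mul' _ _ (F_ne_top n)]
  simp_rw [e1]
  rw [lintegral_lintegral_swap]
  · refine lintegral_congr fun t => ?_
    rw [lintegral_const_mul' _ _ (W_ne_top n t)]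
    rfl
  · refine Measurable.aemeasurable ?_
    exact ((meas_W n).comp measurable_snd).mul
      ((meas_inner ν).comp (measurable_snd.prodMk measurable_fst))

theorem gp_meas (t : ℝ) (μ : Measure (ED n)) [SFinite μ] : Measurable (gpD n t μ) := by
  unfold gpD
  refine Measurable.lintegral_prod_right'
    (f := fun q : ED n × ED n => ENNReal.ofReal (Real.exp (-(2 * t) * ‖q.2 - q.1‖ ^ 2))) ?_
  refine ENNReal.measurable_ofReal.comp ?_
  refine Continuous.measurable ?_
  fun_prop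

theorem exp_le (t : ℝ) (ht : 0 < t) (x y : ED n) : G t x y ≤ 1 := by
  unfold G
  rw [← ENNReal.ofReal_one]
  refine ENNReal.ofReal_le_ofReal ?_
  rw [Real.exp_le_one_iff]
  have := sq_nonneg ‖x - y‖
  nlinarith

theorem gp_le (t : ℝ) (ht : 0 < t) (μ : Measure (ED n)) [IsProbabilityMeasure μ] (z : ED n) :
    gpD n t μ z ≤ 1 := by
  unfold gpD
  calc ∫⁻ x, ENNReal.ofReal (Real.exp (-(2 * t) * ‖x - z‖ ^ 2)) ∂μ ≤ ∫⁻ _, 1 ∂μ :=
        lintegral_mono fun x => exp_le (2 * t) (by linarith) x z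
    _ = 1 := by simp

theorem I_le (t : ℝ) (ht : 0 < t) (μ ν : Measure (ED n)) [IsProbabilityMeasure μ]
    [IsProbabilityMeasure ν] : I μ ν t ≤ 1 := by
  unfold I
  calc ∫⁻ x, ∫⁻ y, G t x y ∂ν ∂μ ≤ ∫⁻ _, ∫⁻ _, 1 ∂ν ∂μ :=
        lintegral_mono fun x => lintegral_mono fun y => exp_le t ht x y
    _ = 1 := by simp

theorem meas_G2 (t : ℝ) : Measurable (fun q : ED n × ED n => G t q.1 q.2) := by
  unfold G
  refine ENNReal.measurable_ofReal.comp ?_
  refine Continuous.measurable ?_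
  fun_prop

theorem meas_G2' (t : ℝ) : Measurable (fun q : ED n × ED n => G t q.2 q.1) := by
  unfold G
  refine ENNReal.measurable_ofReal.comp ?_
  refine Continuous.measurable ?_
  fun_prop

theorem meas_Gl (t : ℝ) (z : ED n) : Measurable (fun x : ED n => G t x z) := by
  unfold G
  refine ENNReal.measurable_ofReal.comp ?_
  refine Continuous.measurable ?_
  fun_prop

theorem meas_Gr (t : ℝ) (x : ED n) : Measurable (fun z : ED n => G t x z) := by
  unfold G
  refine ENNReal.measurable_ofReal.comp ?_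
  refine Continuous.measurable ?_
  fun_prop

theorem meas_inner2 (t : ℝ) (ν : Measure (ED n)) [SFinite ν] :
    Measurable (fun x : ED n => ∫⁻ y, G t x y ∂ν) :=
  Measurable.lintegral_prod_right' (meas_G2 t)

theorem gp_eq (t : ℝ) (μ : Measure (ED n)) (z : ED n) :
    gpD n t μ z = ∫⁻ x, G (2 * t) x z ∂μ := rfl

theorem K_mul1 (t : ℝ) (K : ℝ≥0∞) (hK : ∀ x y : ED n,
    (∫⁻ z : ED n, G (2 * t) x z * G (2 * t) y z) = K * G t x y) (ν : Measure (ED n))
    [SFinite ν] (x : ED n) :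
    ∫⁻ z, G (2 * t) x z * gpD n t ν z = K * ∫⁻ y, G t x y ∂ν := by
  have e2 : ∀ z, G (2 * t) x z * gpD n t ν z =
      ∫⁻ y, G (2 * t) x z * G (2 * t) y z ∂ν := by
    intro z
    rw [lintegral_const_mul _ (meas_Gl (2 * t) z), gp_eq]
  have e3 : ∫⁻ z, G (2 * t) x z * gpD n t ν z =
      ∫⁻ z, ∫⁻ y, G (2 * t) x z * G (2 * t) y z ∂ν := lintegral_congr e2
  have hm : Measurable (fun q : ED n × ED n => G (2 * t) x q.1 * G (2 * t) q.2 q.1) :=
    ((meas_Gr (2 * t) x).comp measurable_fst).mul (meas_G2' (2 * t))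
  have e4 : ∫⁻ z, ∫⁻ y, G (2 * t) x z * G (2 * t) y z ∂ν =
      ∫⁻ y, ∫⁻ z, G (2 * t) x z * G (2 * t) y z ∂(volume : Measure (ED n)) ∂ν :=
    lintegral_lintegral_swap (f := fun z y => G (2 * t) x z * G (2 * t) y z) hm.aemeasurable
  rw [e3, e4, ← lintegral_const_mul _ (meas_Gr t x)]
  exact lintegral_congr fun y => hK x y

theorem K_mul (t : ℝ) (K : ℝ≥0∞) (hK : ∀ x y : ED n,
    (∫⁻ z : ED n, G (2 * t) x z * G (2 * t) y z) = K * G t x y) (μ ν : Measure (ED n))
    [SFinite μ] [SFinite ν] :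
    ∫⁻ z, gpD n t μ z * gpD n t ν z = K * I μ ν t := by
  have e1 : ∀ z, gpD n t μ z * gpD n t ν z = ∫⁻ x, G (2 * t) x z * gpD n t ν z ∂μ := by
    intro z
    rw [lintegral_mul_const _ (meas_Gl (2 * t) z), gp_eq t μ]
  have e3 : ∫⁻ z, gpD n t μ z * gpD n t ν z = ∫⁻ z, ∫⁻ x, G (2 * t) x z * gpD n t ν z ∂μ :=
    lintegral_congr e1
  have hm : Measurable (fun q : ED n × ED n => G (2 * t) q.2 q.1 * gpD n t ν q.1) :=
    (meas_G2' (2 * t)).mul ((gp_meas t ν).comp measurable_fst)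
  have e4 : ∫⁻ z, ∫⁻ x, G (2 * t) x z * gpD n t ν z ∂μ =
      ∫⁻ x, ∫⁻ z, G (2 * t) x z * gpD n t ν z ∂(volume : Measure (ED n)) ∂μ :=
    lintegral_lintegral_swap (f := fun z x => G (2 * t) x z * gpD n t ν z) hm.aemeasurable
  rw [e3, e4]
  unfold I
  rw [← lintegral_const_mul _ (meas_inner2 t ν)]
  exact lintegral_congr fun x => K_mul1 t K hK ν x

theorem gp_mul_meas (t : ℝ) (μ ν : Measure (ED n)) [SFinite μ] [SFinite ν] :
    Measurable (fun z => gpD n t μ z * gpD n t ν z) := (gp_meas t μ).mul (gp_meas t ν)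

theorem two_mul_le (a b : ℝ≥0∞) : 2 * (a * b) ≤ a * a + b * b := by
  rcases eq_or_ne a ⊤ with rfl | ha
  · simp
  rcases eq_or_ne b ⊤ with rfl | hb
  · simp
  lift a to NNReal using ha
  lift b to NNReal using hb
  have h : 2 * (a * b) ≤ a * a + b * b := by
    rw [← NNReal.coe_le_coe]
    push_cast
    nlinarith [sq_nonneg ((a : ℝ) - b)]
  exact_mod_cast h

theorem eq_of_two_mul (a b : ℝ≥0∞) (ha : a ≠ ⊤) (hb : b ≠ ⊤) (h : 2 * (a * b) = a * a + b * b) :
    a = b := by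
  lift a to NNReal using ha
  lift b to NNReal using hb
  have h1 : 2 * (a * b) = a * a + b * b := by exact_mod_cast h
  have h2 : (2 : ℝ) * (a * b) = a * a + b * b := by exact_mod_cast h1
  have h3 : ((a : ℝ) - b) ^ 2 = 0 := by nlinarith
  have h4 : (a : ℝ) = b := by
    have := pow_eq_zero_iff (n := 2) (by norm_num) |>.1 h3
    linarith
  have h5 : a = b := by exact_mod_cast h4
  rw [h5]

end Z6m

open Z6m in
theorem z6 (hz6a : Z6a) (hz6b : Z6b) (hz6c : Z6c) : Z6 := by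
  intro n μ ν hμ hν
  have key : ∀ t : ℝ, 0 < t → 2 * I μ ν t ≤ I μ μ t + I ν ν t := by
    intro t ht
    obtain ⟨K, hK0, hK1, hK⟩ := hz6b n t ht
    have e1 := K_mul t K hK μ ν
    have e2 := K_mul t K hK μ μ
    have e3 := K_mul t K hK ν ν
    have h1 : ∫⁻ z, 2 * (gpD n t μ z * gpD n t ν z) ≤
        ∫⁻ z, (gpD n t μ z * gpD n t μ z + gpD n t ν z * gpD n t ν z) :=
      lintegral_mono fun z => two_mul_le _ _
    rw [lintegral_const_mul _ (gp_mul_meas t μ ν),
      lintegral_add_left (gp_mul_meas t μ μ), e1, e2, e3, ← mul_add,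
      mul_left_comm] at h1
    exact (ENNReal.mul_le_mul_iff_right hK0 hK1).1 h1
  have hle : ∀ᵐ t ∂(volume.restrict (Ioi (0 : ℝ))),
      2 * (W n t * I μ ν t) ≤ W n t * I μ μ t + W n t * I ν ν t := by
    filter_upwards [ae_restrict_mem measurableSet_Ioi] with t ht
    rw [mul_left_comm, ← mul_add]
    exact mul_le_mul_right (key t ht) _
  have e1 : F n * (2 * enD n μ ν) = ∫⁻ t in Ioi (0 : ℝ), 2 * (W n t * I μ ν t) := by
    rw [mul_left_comm, en_eq hz6a, lintegral_const_mul _ (meas_WI μ ν)]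
  have e2 : F n * (enD n μ μ + enD n ν ν) =
      ∫⁻ t in Ioi (0 : ℝ), (W n t * I μ μ t + W n t * I ν ν t) := by
    rw [mul_add, en_eq hz6a, en_eq hz6a, lintegral_add_left (meas_WI μ μ)]
  refine ⟨?_, fun hfin heq => ?_⟩
  · refine (ENNReal.mul_le_mul_iff_right (F_ne_zero n) (F_ne_top n)).1 ?_
    rw [e1, e2]
    exact lintegral_mono_ae hle
  · have h1 : (fun t => 2 * (W n t * I μ ν t)) =ᵐ[volume.restrict (Ioi (0 : ℝ))]
        fun t => W n t * I μ μ t + W n t * I ν ν t := by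
      refine ae_eq_of_ae_le_of_lintegral_le hle ?_ ?_ ?_
      · rw [← e1, heq]
        exact ENNReal.mul_ne_top (F_ne_top n) hfin
      · exact ((meas_WI μ μ).add (meas_WI ν ν)).aemeasurable
      · rw [← e1, ← e2, heq]
    have h2 : ∀ᵐ t ∂(volume.restrict (Ioi (0 : ℝ))), 0 < t ∧ 2 * I μ ν t = I μ μ t + I ν ν t := by
      filter_upwards [ae_restrict_mem measurableSet_Ioi, h1] with t ht h3
      refine ⟨ht, ?_⟩
      rw [mul_left_comm, ← mul_add] at h3
      exact (ENNReal.mul_right_inj (W_ne_zero n t ht) (W_ne_top n t)).1 h3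
    have hne : (ae (volume.restrict (Ioi (0 : ℝ)))).NeBot := by
      rw [ae_neBot, Ne, Measure.restrict_eq_zero]
      simp
    obtain ⟨t, ht, h3⟩ := h2.exists
    obtain ⟨K, hK0, hK1, hK⟩ := hz6b n t ht
    have f1 := K_mul t K hK μ ν
    have f2 := K_mul t K hK μ μ
    have f3 := K_mul t K hK ν ν
    refine hz6c n t ht μ ν hμ hν ?_
    have h4 : (fun z => 2 * (gpD n t μ z * gpD n t ν z)) =ᵐ[volume]
        fun z => gpD n t μ z * gpD n t μ z + gpD n t ν z * gpD n t ν z := by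
      refine ae_eq_of_ae_le_of_lintegral_le (Filter.Eventually.of_forall fun z => two_mul_le _ _)
        ?_ ?_ ?_
      · rw [lintegral_const_mul _ (gp_mul_meas t μ ν), f1]
        refine ENNReal.mul_ne_top (by norm_num) (ENNReal.mul_ne_top hK1 ?_)
        exact ne_top_of_le_ne_top ENNReal.one_ne_top (I_le t ht μ ν)
      · exact ((gp_mul_meas t μ μ).add (gp_mul_meas t ν ν)).aemeasurable
      · rw [lintegral_const_mul _ (gp_mul_meas t μ ν),
          lintegral_add_left (gp_mul_meas t μ μ), f1, f2, f3, ← mul_add,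
          mul_left_comm, h3]
    filter_upwards [h4] with z hz
    exact eq_of_two_mul _ _ (ne_top_of_le_ne_top ENNReal.one_ne_top (gp_le t ht μ z))
      (ne_top_of_le_ne_top ENNReal.one_ne_top (gp_le t ht ν z)) hz

end Pool.J6H16.RZ
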