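import Pool.Agent.J6H16.RZ.Stm2

/-!
# RY-Z6a (module of project RY of helper16, written by helper27)

The kernel `n! |x-y|^(-(2n+2))` as a Gamma integral of Gaussians.
-/

set_option autoImplicit false

open MeasureTheory Set Real
open scoped ENNReal

namespace Pool.J6H16.RZ

namespace Z6a

/-- the integral over `(0,∞)` of `t^n` is infinite -/
theorem lint_top (n : ℕ) : ∫⁻ t in Ioi (0 : ℝ), ENNReal.ofReal (t ^ n) = ⊤ := by
  rw [eq_top_iff]
  calc (⊤ : ℝ≥0∞) = ∫⁻ t in Ioi (1 : ℝ), 1 := by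
        rw [setLIntegral_one, Real.volume_Ioi]
    _ ≤ ∫⁻ t in Ioi (1 : ℝ), ENNReal.ofReal (t ^ n) := by
        refine setLIntegral_mono' measurableSet_Ioi fun t ht => ?_
        rw [ENNReal.one_le_ofReal]
        exact one_le_pow₀ (le_of_lt ht)
    _ ≤ ∫⁻ t in Ioi (0 : ℝ), ENNReal.ofReal (t ^ n) :=
        lintegral_mono_set (Ioi_subset_Ioi zero_le_one)

/-- the Gamma integral -/
theorem gam (n : ℕ) (s : ℝ) (hs : 0 < s) :
    ∫⁻ t in Ioi (0 : ℝ), ENNReal.ofReal (t ^ n) * ENNReal.ofReal (Real.exp (-t * s)) =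
      ENNReal.ofReal ((n.factorial : ℝ) * (s ^ (n + 1))⁻¹) := by
  have key := Real.integral_rpow_mul_exp_neg_mul_Ioi (a := (n : ℝ) + 1) (r := s)
    (by positivity) hs
  have e1 : ∀ t ∈ Ioi (0 : ℝ), t ^ ((n : ℝ) + 1 - 1) * Real.exp (-(s * t)) =
      t ^ n * Real.exp (-t * s) := by
    intro t _
    rw [add_sub_cancel_right, Real.rpow_natCast]
    congr 2
    ring
  rw [setIntegral_congr_fun measurableSet_Ioi e1] at key
  have e2 : (1 / s) ^ ((n : ℝ) + 1) * Real.Gamma ((n : ℝ) + 1) =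
      (n.factorial : ℝ) * (s ^ (n + 1))⁻¹ := by
    rw [Real.Gamma_nat_eq_factorial, mul_comm]
    congr 1
    rw [show ((n : ℝ) + 1) = ((n + 1 : ℕ) : ℝ) by push_cast; ring, Real.rpow_natCast, one_div,
      inv_pow]
  rw [e2] at key
  have hpos : 0 < (n.factorial : ℝ) * (s ^ (n + 1))⁻¹ := by positivity
  have hint : IntegrableOn (fun t : ℝ => t ^ n * Real.exp (-t * s)) (Ioi 0) :=
    Integrable.of_integral_ne_zero (by rw [key]; exact hpos.ne')
  rw [← key, ofReal_integral_eq_lintegral_ofReal hint]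
  · refine setLIntegral_congr_fun measurableSet_Ioi fun t ht => ?_
    exact (ENNReal.ofReal_mul (pow_nonneg (le_of_lt ht) n)).symm
  · rw [Filter.EventuallyLE, ae_restrict_iff' measurableSet_Ioi]
    refine Filter.Eventually.of_forall fun t ht => ?_
    exact mul_nonneg (pow_nonneg (le_of_lt ht) n) (Real.exp_pos _).le

end Z6a

/-- **RY-Z6a.** -/
theorem z6a : Z6a := by
  intro n x y
  unfold kerD
  obtain ⟨s, hs⟩ : ∃ s, s = ‖x - y‖ ^ 2 := ⟨_, rfl⟩
  have hs0 : 0 ≤ s := by rw [hs]; positivity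
  have e : ‖x - y‖ ^ (2 * n + 2) = s ^ (n + 1) := by
    rw [hs, ← pow_mul]
    congr 1
  have hf : ENNReal.ofReal (n.factorial : ℝ) ≠ 0 := by
    rw [ne_eq, ENNReal.ofReal_eq_zero, not_le]
    exact_mod_cast n.factorial_pos
  rw [e, ← hs]
  rcases hs0.eq_or_lt with h | h
  · rw [← h]
    have h1 : (0 : ℝ) ^ (n + 1) = 0 := by simp
    rw [h1, ENNReal.ofReal_zero, ENNReal.inv_zero, ENNReal.mul_top hf]
    simp only [mul_zero, Real.exp_zero, ENNReal.ofReal_one, mul_one]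
    exact (Z6a.lint_top n).symm
  · rw [Z6a.gam n s h, ENNReal.ofReal_mul (by positivity),
      ENNReal.ofReal_inv_of_pos (by positivity)]

end Pool.J6H16.RZ
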