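import Pool.Agent.J6H16.RZ.Stm2

/-!
# RY-Z6c (module of project RY of helper16, written by helper38 after B11a of helper27)

Injectivity of Gaussian smoothing: if the Gaussian potentials of two probability measures on `ED n`
agree almost everywhere (for one `t > 0`), then the measures are equal.
-/

open MeasureTheory Set Real
open scoped ENNReal RealInnerProductSpace

namespace Pool.J6H16.RZ

namespace Z6cAux

variable {n : ℕ}

noncomputable def b11aG (n : ℕ) (t : ℝ) (v : ED n) : ℝ := Real.exp (-(2 * t) * ‖v‖ ^ 2)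

theorem b11a_gs_cont (t : ℝ) : Continuous (b11aG n t) := by
  unfold b11aG
  fun_prop

theorem b11a_gs_nonneg (t : ℝ) (v : ED n) : 0 ≤ b11aG n t v := (Real.exp_pos _).le

theorem b11a_gs_integrable (t : ℝ) (ht : 0 < t) : Integrable (b11aG n t) := by
  have h := GaussianFourier.integrable_cexp_neg_mul_sq_norm_add (V := ED n) (b := ((2 * t : ℝ) : ℂ))
    (by rw [Complex.ofReal_re]; linarith) 0 0
  have h2 := h.re
  refine h2.congr (Filter.Eventually.of_forall fun v => ?_)
  have e : (-((2 * t : ℝ) : ℂ) * (‖v‖ : ℂ) ^ 2 + 0 * ((⟪(0 : ED n), v⟫ : ℝ) : ℂ)) =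
      ((-(2 * t) * ‖v‖ ^ 2 : ℝ) : ℂ) := by
    push_cast
    ring
  show RCLike.re (Complex.exp (-((2 * t : ℝ) : ℂ) * (‖v‖ : ℂ) ^ 2
    + 0 * ((⟪(0 : ED n), v⟫ : ℝ) : ℂ))) = b11aG n t v
  rw [e, ← Complex.ofReal_exp]
  rfl

noncomputable def b11aGG (n : ℕ) (t : ℝ) (ξ : ED n) : ℂ :=
  ∫ v : ED n, Complex.exp (⟪v, ξ⟫ * Complex.I) * (b11aG n t v : ℂ)

theorem b11a_GG_ne (t : ℝ) (ht : 0 < t) (ξ : ED n) : b11aGG n t ξ ≠ 0 := by
  have h := GaussianFourier.integral_cexp_neg_mul_sq_norm_add (V := ED n) (b := ((2 * t : ℝ) : ℂ))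
    (by rw [Complex.ofReal_re]; linarith) Complex.I ξ
  have e : b11aGG n t ξ = ∫ v : ED n, Complex.exp (-((2 * t : ℝ) : ℂ) * (‖v‖ : ℂ) ^ 2
      + Complex.I * ((⟪ξ, v⟫ : ℝ) : ℂ)) := by
    unfold b11aGG
    congr 1
    ext v
    unfold b11aG
    rw [Complex.ofReal_exp, ← Complex.exp_add, real_inner_comm]
    congr 1
    push_cast
    ring
  rw [e, h]
  have hb : ((π : ℂ) / ((2 * t : ℝ) : ℂ)) ≠ 0 := by
    refine div_ne_zero ?_ ?_
    · exact_mod_cast Real.pi_ne_zero
    · exact_mod_cast (by positivity : (2 * t : ℝ) ≠ 0)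
  refine mul_ne_zero ?_ (Complex.exp_ne_zero _)
  rw [Complex.cpow_def_of_ne_zero hb]
  exact Complex.exp_ne_zero _

theorem b11a_gp_real (t : ℝ) (μ : Measure (ED n)) (z : ED n) :
    ∫ x, b11aG n t (x - z) ∂μ = (gpD n t μ z).toReal := by
  rw [integral_eq_lintegral_of_nonneg_ae]
  · rfl
  · exact Filter.Eventually.of_forall fun x => b11a_gs_nonneg t _
  · exact ((b11a_gs_cont t).comp (continuous_id.sub continuous_const)).aestronglyMeasurable

theorem b11a_inner_int (t : ℝ) (ξ x : ED n) :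
    ∫ z : ED n, Complex.exp (⟪z, ξ⟫ * Complex.I) * (b11aG n t (x - z) : ℂ) =
      Complex.exp (⟪x, ξ⟫ * Complex.I) * b11aGG n t ξ := by
  rw [← integral_add_left_eq_self (fun z : ED n => Complex.exp (⟪z, ξ⟫ * Complex.I)
    * (b11aG n t (x - z) : ℂ)) x]
  unfold b11aGG
  rw [← integral_const_mul]
  congr 1
  ext v
  have h1 : b11aG n t (x - (x + v)) = b11aG n t v := by
    unfold b11aG
    rw [show x - (x + v) = -v by abel, norm_neg]
  rw [h1, inner_add_left, ← mul_assoc, ← Complex.exp_add]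
  congr 2
  push_cast
  ring

theorem b11a_key (t : ℝ) (ht : 0 < t) (μ : Measure (ED n)) [IsProbabilityMeasure μ] (ξ : ED n) :
    ∫ z : ED n, Complex.exp (⟪z, ξ⟫ * Complex.I) * (((gpD n t μ z).toReal : ℝ) : ℂ) =
      b11aGG n t ξ * charFun μ ξ := by
  have h1 : ∀ z : ED n, Complex.exp (⟪z, ξ⟫ * Complex.I) * (((gpD n t μ z).toReal : ℝ) : ℂ) =
      ∫ x, Complex.exp (⟪z, ξ⟫ * Complex.I) * (b11aG n t (x - z) : ℂ) ∂μ := by
    intro z
    rw [← b11a_gp_real, integral_const_mul, integral_complex_ofReal]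
  simp_rw [h1]
  have hm : Continuous (fun p : ED n × ED n =>
      Complex.exp (⟪p.1, ξ⟫ * Complex.I) * (b11aG n t (p.2 - p.1) : ℂ)) := by
    have h2 : Continuous (fun p : ED n × ED n => (b11aG n t (p.2 - p.1) : ℂ)) :=
      Complex.continuous_ofReal.comp ((b11a_gs_cont t).comp (continuous_snd.sub continuous_fst))
    have h3 : Continuous (fun p : ED n × ED n => Complex.exp (⟪p.1, ξ⟫ * Complex.I)) := by
      fun_prop
    exact h3.mul h2
  have hn : ∀ z x : ED n, ‖Complex.exp (⟪z, ξ⟫ * Complex.I) * (b11aG n t (x - z) : ℂ)‖ = b11aG n t (x - z) := by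
    intro z x
    rw [norm_mul, Complex.norm_exp_ofReal_mul_I, one_mul, Complex.norm_real,
      Real.norm_of_nonneg (b11a_gs_nonneg t _)]
  have hi : Integrable (Function.uncurry fun (z x : ED n) =>
      Complex.exp (⟪z, ξ⟫ * Complex.I) * (b11aG n t (x - z) : ℂ)) (volume.prod μ) := by
    have hm' : Continuous (Function.uncurry fun (z x : ED n) =>
        Complex.exp (⟪z, ξ⟫ * Complex.I) * (b11aG n t (x - z) : ℂ)) := hm
    rw [integrable_prod_iff' hm'.aestronglyMeasurable]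
    refine ⟨Filter.Eventually.of_forall fun x => ?_, ?_⟩
    · have h4 : Integrable (fun z : ED n => b11aG n t (x - z)) := (b11a_gs_integrable t ht).comp_sub_left x
      refine Integrable.mono h4 ?_ (Filter.Eventually.of_forall fun z => ?_)
      · exact (hm.comp (continuous_id.prodMk continuous_const)).aestronglyMeasurable
      · show ‖Complex.exp (⟪z, ξ⟫ * Complex.I) * (b11aG n t (x - z) : ℂ)‖ ≤ _
        rw [hn, Real.norm_of_nonneg (b11a_gs_nonneg t _)]
    · have h5 : (fun x : ED n => ∫ z : ED n, ‖Function.uncurry (fun (z x : ED n) =>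
          Complex.exp (⟪z, ξ⟫ * Complex.I) * (b11aG n t (x - z) : ℂ)) (z, x)‖) =
          fun _ => ∫ v : ED n, b11aG n t v := by
        funext x
        have h6 : ∀ z : ED n, ‖Function.uncurry (fun (z x : ED n) =>
          Complex.exp (⟪z, ξ⟫ * Complex.I) * (b11aG n t (x - z) : ℂ)) (z, x)‖ = b11aG n t (x - z) :=
          fun z => hn z x
        simp_rw [h6]
        exact integral_sub_left_eq_self (b11aG n t) volume x
      rw [h5]
      exact integrable_const _
  rw [integral_integral_swap hi]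
  simp_rw [b11a_inner_int]
  rw [integral_mul_const, charFun_apply, mul_comm]

end Z6cAux

open Z6cAux in
/-- **RY-Z6c.** -/
theorem z6c : Z6c := by
  intro n t ht μ ν hμ hν h
  apply Measure.ext_of_charFun
  ext ξ
  have h1 := b11a_key t ht μ ξ
  have h2 := b11a_key t ht ν ξ
  have h3 : ∫ z : ED n, Complex.exp (⟪z, ξ⟫ * Complex.I) * (((gpD n t μ z).toReal : ℝ) : ℂ) =
      ∫ z : ED n, Complex.exp (⟪z, ξ⟫ * Complex.I) * (((gpD n t ν z).toReal : ℝ) : ℂ) := by
    refine integral_congr_ae ?_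
    filter_upwards [h] with z hz
    rw [hz]
  rw [h1, h2] at h3
  exact mul_left_cancel₀ (b11a_GG_ne t ht ξ) h3

end Pool.J6H16.RZ
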