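import Pool.Agent.J6H16.RZ.Stm2

/-!
Project RY: total mass one.
-/

set_option autoImplicit false

open MeasureTheory Set Real
open scoped ENNReal

namespace Pool.J6H16.RZ

namespace Z7aux

theorem meas_w (r R : ℝ) : Measurable (w r R) := by
  unfold w
  fun_prop

theorem meas_p (p : Polynomial ℝ) : Measurable (fun ρ : ℝ => p.eval (ρ ^ 2)) :=
  (p.continuous.comp (continuous_pow 2)).measurable

theorem meas_gD (n : ℕ) (r R : ℝ) (p : Polynomial ℝ) (C : ℝ) : Measurable (gD n r R p C) := by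
  unfold gD
  refine Measurable.ite ?_ ?_ measurable_const
  · exact measurableSet_Ioo (a := r) (b := R)
  · have h1 := meas_w r R
    have h2 := meas_p p
    exact (h2.const_mul C).div ((measurable_id.pow_const _).mul h1)

theorem gD_in {n : ℕ} {r R : ℝ} {p : Polynomial ℝ} {C ρ : ℝ} (h1 : r < ρ) (h2 : ρ < R) :
    gD n r R p C ρ = C * p.eval (ρ ^ 2) / (ρ ^ (2 * n + 1) * w r R ρ) := by
  unfold gD
  rw [if_pos ⟨h1, h2⟩]

theorem gD_out {n : ℕ} {r R : ℝ} {p : Polynomial ℝ} {C ρ : ℝ} (h : ¬ (r < ρ ∧ ρ < R)) :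
    gD n r R p C ρ = 0 := by
  unfold gD
  rw [if_neg h]

theorem w_pos {r R ρ : ℝ} (hr : 0 < r) (h1 : r < ρ) (h2 : ρ < R) : 0 < w r R ρ := by
  unfold w
  apply Real.sqrt_pos.mpr
  apply mul_pos <;> nlinarith

theorem int_p {r R : ℝ} (p : Polynomial ℝ) (h1 : IntegrableOn (fun ρ => 2 * ρ / w r R ρ) (Ioo r R)) :
    IntegrableOn (fun ρ => p.eval (ρ ^ 2) * (2 * ρ / w r R ρ)) (Ioo r R) := by
  have hc : ContinuousOn (fun ρ : ℝ => p.eval (ρ ^ 2)) (Icc r R) :=
    (p.continuous.comp (continuous_pow 2)).continuousOn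
  obtain ⟨M, hM⟩ := isCompact_Icc.exists_bound_of_continuousOn hc
  refine Integrable.bdd_mul (c := M) h1 (meas_p p).aestronglyMeasurable ?_
  refine (ae_restrict_iff' measurableSet_Ioo).mpr (Filter.Eventually.of_forall fun ρ hρ => ?_)
  exact hM ρ ⟨hρ.1.le, hρ.2.le⟩

end Z7aux

open Z7aux in
theorem z7 (hz5 : Z5) (hy13 : Y13) (hb1 : B1) : Z7 := by
  intro n r R p hr hR hc
  obtain ⟨i1, -, -, -⟩ := hb1 r R hr hR
  obtain ⟨Ω, hΩ, h5⟩ := hz5 n
  have hpos : ∀ ρ ∈ Ioo r R, 0 < p.eval (ρ ^ 2) := by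
    intro ρ hρ
    refine hy13 r R n p hr hR hc (ρ ^ 2) ?_ ?_
    · nlinarith [hρ.1, hρ.2]
    · nlinarith [hρ.1, hρ.2]
  have hI := int_p p i1
  have hfpos : ∀ ρ ∈ Ioo r R, 0 < p.eval (ρ ^ 2) * (2 * ρ / w r R ρ) := by
    intro ρ hρ
    have h1 := hpos ρ hρ
    have h2 := w_pos hr hρ.1 hρ.2
    have h3 : 0 < ρ := hr.trans hρ.1
    positivity
  have hJ : 0 < ∫ ρ in Ioo r R, p.eval (ρ ^ 2) * (2 * ρ / w r R ρ) := by
    rw [setIntegral_pos_iff_support_of_nonneg_ae _ hI]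
    · have hs : Ioo r R ⊆ Function.support (fun ρ => p.eval (ρ ^ 2) * (2 * ρ / w r R ρ)) ∩ Ioo r R :=
        fun ρ hρ => ⟨(hfpos ρ hρ).ne', hρ⟩
      refine lt_of_lt_of_le ?_ (measure_mono hs)
      rw [Real.volume_Ioo, ENNReal.ofReal_pos]
      linarith
    · exact (ae_restrict_iff' measurableSet_Ioo).mpr
        (Filter.Eventually.of_forall fun ρ hρ => (hfpos ρ hρ).le)
  set J := ∫ ρ in Ioo r R, p.eval (ρ ^ 2) * (2 * ρ / w r R ρ) with hJd
  refine ⟨2 / (Ω * J), by positivity, ?_, ?_⟩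
  · have hm : Measurable (fun ρ => ENNReal.ofReal (gD n r R p (2 / (Ω * J)) ρ)) :=
      (meas_gD n r R p _).ennreal_ofReal
    constructor
    unfold mD
    rw [withDensity_apply _ MeasurableSet.univ, Measure.restrict_univ, h5 _ hm]
    have key : ∀ ρ ∈ Ioo r R, gD n r R p (2 / (Ω * J)) ρ * (Ω * ρ ^ (2 * n + 2)) =
        J⁻¹ * (p.eval (ρ ^ 2) * (2 * ρ / w r R ρ)) := by
      intro ρ hρ
      rw [gD_in hρ.1 hρ.2]
      have hw := w_pos hr hρ.1 hρ.2
      have hρ0 : 0 < ρ := hr.trans hρ.1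
      rw [show ρ ^ (2 * n + 2) = ρ ^ (2 * n + 1) * ρ by ring]
      field_simp
    have hI2 : IntegrableOn (fun ρ => J⁻¹ * (p.eval (ρ ^ 2) * (2 * ρ / w r R ρ))) (Ioo r R) :=
      hI.const_mul _
    have e3 : ∫⁻ ρ in Ioi (0 : ℝ), ENNReal.ofReal (gD n r R p (2 / (Ω * J)) ρ) *
        ENNReal.ofReal (Ω * ρ ^ (2 * n + 2)) =
        ∫⁻ ρ in Ioo r R, ENNReal.ofReal (J⁻¹ * (p.eval (ρ ^ 2) * (2 * ρ / w r R ρ))) := by
      have hsub : Ioo r R ⊆ Ioi (0 : ℝ) := fun x hx => hr.trans hx.1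
      rw [← lintegral_indicator measurableSet_Ioi, ← lintegral_indicator measurableSet_Ioo]
      apply lintegral_congr
      intro ρ
      by_cases hρ : ρ ∈ Ioo r R
      · have hρ0 : 0 < ρ := hr.trans hρ.1
        rw [indicator_of_mem (hsub hρ), indicator_of_mem hρ, ← key ρ hρ,
          ENNReal.ofReal_mul' (p := gD n r R p (2 / (Ω * J)) ρ) (q := Ω * ρ ^ (2 * n + 2))
            (by positivity)]
      · rw [indicator_of_notMem hρ]
        by_cases h0 : ρ ∈ Ioi (0 : ℝ)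
        · rw [indicator_of_mem h0, gD_out hρ]
          simp
        · rw [indicator_of_notMem h0]
    rw [e3, ← ofReal_integral_eq_lintegral_ofReal hI2]
    · rw [integral_const_mul, ← hJd, inv_mul_cancel₀ hJ.ne', ENNReal.ofReal_one]
    · refine (ae_restrict_iff' measurableSet_Ioo).mpr (Filter.Eventually.of_forall fun ρ hρ => ?_)
      have h1 := hfpos ρ hρ
      exact mul_nonneg (inv_nonneg.2 hJ.le) h1.le
  · have hms : MeasurableSet ({x : ED n | r ≤ ‖x‖ ∧ ‖x‖ ≤ R}ᶜ) := by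
      apply MeasurableSet.compl
      exact (measurableSet_le measurable_const measurable_norm).inter
        (measurableSet_le measurable_norm measurable_const)
    unfold mD
    rw [withDensity_apply _ hms]
    rw [setLIntegral_congr_fun hms (g := fun _ => 0)]
    · simp
    · intro x hx
      show ENNReal.ofReal (gD n r R p (2 / (Ω * J)) ‖x‖) = 0
      rw [gD_out, ENNReal.ofReal_zero]
      intro h
      exact hx ⟨h.1.le, h.2.le⟩

end Pool.J6H16.RZ
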