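import Pool.Agent.J6H16.RZ.Stm2

set_option autoImplicit false

/-!
Module Z8 of project RY: constant potential in odd dimensions
-/

open MeasureTheory Set Real
open scoped ENNReal

namespace Pool.J6H16.RZ

namespace Z8aux

theorem Nn_nonneg (n : ℕ) (X ρ : ℝ) : 0 ≤ Nn n X ρ := by
  unfold Nn
  refine setIntegral_nonneg measurableSet_Ioo fun v hv => ?_
  exact div_nonneg (pow_nonneg hv.1.le n) (Real.sqrt_nonneg _)

theorem ac_pos (n : ℕ) : 0 < ac n := by
  unfold ac
  have := Nat.centralBinom_pos n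
  positivity

theorem wn_pos (n : ℕ) : 0 < wn n := by
  unfold wn
  refine Finset.sum_pos (fun j _ => ?_) (by simp)
  have h1 := ac_pos j
  have h2 := ac_pos (n - j)
  positivity

end Z8aux

open Z8aux in
theorem z8 (hz4 : Z4) (hy10 : Y10) (hy13 : Y13) : Z8 := by
  intro n r R p C hr hrR hC hcond
  obtain ⟨ω, hω, h4⟩ := hz4 n
  have hpi := Real.pi_pos
  have hwn := wn_pos n
  refine ⟨ω * C * (π * wn n), by positivity, ?_⟩
  intro x hx1 hx2
  obtain ⟨X, hXdef⟩ : ∃ X, X = ‖x‖ := ⟨_, rfl⟩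
  rw [← hXdef] at hx1 hx2
  have hX : 0 < X := by linarith
  have hx0 : x ≠ 0 := by
    intro h
    rw [h, norm_zero] at hXdef
    linarith
  have hwm : Measurable (w r R) := by unfold w; fun_prop
  have hpm : Measurable (fun ρ : ℝ => p.eval (ρ ^ 2)) :=
    p.continuous.measurable.comp (measurable_id.pow_const 2)
  have hdm : Measurable (gD n r R p C) := by
    unfold gD
    refine Measurable.ite (measurableSet_Ioo (a := r) (b := R)) ?_ measurable_const
    exact (hpm.const_mul C).div ((measurable_id.pow_const (2 * n + 1)).mul hwm)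
  have hkm : Measurable (kerD n x) := by unfold kerD; fun_prop
  have hfm : Measurable (fun ρ : ℝ => ENNReal.ofReal (gD n r R p C ρ)) := hdm.ennreal_ofReal
  have hfm' : Measurable (fun y : ED n => ENNReal.ofReal (gD n r R p C ‖y‖)) :=
    hfm.comp measurable_norm
  have e1 : (∫⁻ y, kerD n x y ∂(mD n r R p C)) =
      ∫⁻ y : ED n, ENNReal.ofReal (gD n r R p C ‖y‖) * kerD n x y := by
    unfold mD
    rw [lintegral_withDensity_eq_lintegral_mul _ hfm' hkm]
    rfl
  rw [e1, h4 (fun ρ => ENNReal.ofReal (gD n r R p C ρ)) hfm x hx0, ← hXdef]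
  obtain ⟨hi, hI⟩ := hy10 r R n p hr hrR hcond X hx1 hx2
  obtain ⟨K, hK⟩ : ∃ K : ℝ, K = ω * C / X ^ (2 * n + 1) := ⟨_, rfl⟩
  have hK0 : 0 ≤ K := by rw [hK]; positivity
  have hw : ∀ ρ ∈ Ioo r R, 0 < w r R ρ := by
    intro ρ hρ
    have h9 := hρ.1
    have h10 := hρ.2
    have hρ0 : 0 < ρ := by linarith
    unfold w
    refine Real.sqrt_pos.2 (mul_pos ?_ ?_) <;> nlinarith
  have hp : ∀ ρ ∈ Ioo r R, 0 < p.eval (ρ ^ 2) := by
    intro ρ hρ
    have h9 := hρ.1
    have h10 := hρ.2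
    have hρ0 : 0 < ρ := by linarith
    exact hy13 r R n p hr hrR hcond (ρ ^ 2) (by nlinarith) (by nlinarith)
  have hind : ∀ ρ : ℝ, ENNReal.ofReal (gD n r R p C ρ) *
      ENNReal.ofReal (ω * (ρ / X ^ (2 * n + 1) * Nn n X ρ)) =
      (Ioo r R).indicator (fun ρ => ENNReal.ofReal
        (K * (p.eval (ρ ^ 2) / (ρ ^ (2 * n) * w r R ρ) * Nn n X ρ))) ρ := by
    intro ρ
    by_cases hρ : ρ ∈ Ioo r R
    · rw [indicator_of_mem hρ]
      have hρ0 : 0 < ρ := lt_trans hr hρ.1
      have hw' := hw ρ hρ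
      have hp' := hp ρ hρ
      have hg : gD n r R p C ρ = C * p.eval (ρ ^ 2) / (ρ ^ (2 * n + 1) * w r R ρ) := by
        unfold gD
        rw [if_pos ⟨hρ.1, hρ.2⟩]
      have hg0 : 0 ≤ gD n r R p C ρ := by
        rw [hg]
        positivity
      rw [← ENNReal.ofReal_mul hg0, hg, hK]
      congr 1
      have hpow : ρ ^ (2 * n + 1) = ρ ^ (2 * n) * ρ := pow_succ _ _
      rw [hpow]
      have h1 : ρ ^ (2 * n) ≠ 0 := by positivity
      have h2 : X ^ (2 * n + 1) ≠ 0 := by positivity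
      generalize ρ ^ (2 * n) = A at *
      generalize X ^ (2 * n + 1) = B at *
      field_simp
    · rw [indicator_of_notMem hρ]
      have hg : gD n r R p C ρ = 0 := by
        unfold gD
        exact if_neg hρ
      rw [hg, ENNReal.ofReal_zero, zero_mul]
  simp only [hind]
  have hsub : Ioo r R ⊆ Ioi (0 : ℝ) := fun ρ hρ => lt_trans hr hρ.1
  rw [setLIntegral_indicator measurableSet_Ioo, inter_eq_left.2 hsub,
    ← ofReal_integral_eq_lintegral_ofReal (hi.const_mul K)]
  · rw [integral_const_mul, hI, hK]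
    congr 1
    have h2 : X ^ (2 * n + 1) ≠ 0 := by positivity
    generalize X ^ (2 * n + 1) = B at *
    field_simp
  · refine (ae_restrict_iff' measurableSet_Ioo).2 (ae_of_all _ fun ρ hρ => ?_)
    have hρ0 : 0 < ρ := lt_trans hr hρ.1
    have h1 := hw ρ hρ
    have h2 := hp ρ hρ
    show 0 ≤ K * (p.eval (ρ ^ 2) / (ρ ^ (2 * n) * w r R ρ) * Nn n X ρ)
    have h3 := Nn_nonneg n X ρ
    positivity

end Pool.J6H16.RZ
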