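import Pool.Agent.J6H16.RZ.Stm2

/-! # Project RY: the relation between the two spherical constants -/

set_option autoImplicit false

open MeasureTheory Set Real
open scoped ENNReal

namespace Pool.J6H16.RZ

/-- `ω` is the constant of Z1 -/
def IsOm (n : ℕ) (ω : ℝ) : Prop := ∀ G : ℝ → ℝ → ℝ≥0∞, Measurable (Function.uncurry G) →
  (∫⁻ y : ED n, G (y 0) (Real.sqrt (∑ i : Fin (2 * n + 2), y i.succ ^ 2))) =
    ∫⁻ h : ℝ, ∫⁻ u in Ioi (0 : ℝ), ENNReal.ofReal (ω * u ^ (2 * n + 1)) * G h u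

/-- `Ω` is the constant of Z5 -/
def IsOM (n : ℕ) (Ω : ℝ) : Prop := ∀ f : ℝ → ℝ≥0∞, Measurable f →
  (∫⁻ y : ED n, f ‖y‖) = ∫⁻ ρ in Ioi (0 : ℝ), f ρ * ENNReal.ofReal (Ω * ρ ^ (2 * n + 2))

theorem ac_succ (n : ℕ) : 2 * ((n : ℝ) + 1) * ac (n + 1) = (2 * n + 1) * ac n := by
  unfold ac
  have h := Nat.succ_mul_centralBinom_succ n
  have h' : ((n : ℝ) + 1) * (Nat.centralBinom (n + 1) : ℝ) = 2 * (2 * n + 1) * (Nat.centralBinom n : ℝ) := by
    exact_mod_cast h
  rw [pow_succ]
  have h4 : (4 : ℝ) ^ n ≠ 0 := by positivity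
  field_simp
  linarith

theorem wn_succ (h9 : Y9a) (n : ℕ) : (2 * (n : ℝ) + 3) * wn (n + 1) = (2 * n + 2) * wn n := by
  have e1 : (2 * (n : ℝ) + 3) * wn (n + 1) = (∑ j ∈ Finset.range (n + 1 + 1), ac j * ac (n + 1 - j)) +
      ∑ j ∈ Finset.range (n + 1), (2 * ((n : ℝ) - j) + 1) * (ac j * ac (n - j)) / (2 * j + 1) := by
    unfold wn
    rw [Finset.mul_sum, Finset.sum_range_succ (n := n + 1) (f := fun j => ac j * ac (n + 1 - j)),
      Finset.sum_range_succ (n := n + 1)]
    have e2 : ∀ j ∈ Finset.range (n + 1), (2 * (n : ℝ) + 3) * (ac j * ac (n + 1 - j) / (2 * j + 1)) =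
        ac j * ac (n + 1 - j) + (2 * ((n : ℝ) - j) + 1) * (ac j * ac (n - j)) / (2 * j + 1) := by
      intro j hj
      have hj' : j ≤ n := Nat.lt_succ_iff.1 (Finset.mem_range.1 hj)
      have e3 : n + 1 - j = (n - j) + 1 := by omega
      have e4 := ac_succ (n - j)
      rw [Nat.cast_sub hj'] at e4
      rw [e3]
      have h0 : (2 * (j : ℝ) + 1) ≠ 0 := by positivity
      field_simp
      linear_combination (ac j) * e4
    rw [Finset.sum_congr rfl e2, Finset.sum_add_distrib]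
    have e5 : (2 * (n : ℝ) + 3) * (ac (n + 1) * ac (n + 1 - (n + 1)) / (2 * ((n + 1 : ℕ) : ℝ) + 1)) =
        ac (n + 1) * ac (n + 1 - (n + 1)) := by
      have h0 : (2 * ((n + 1 : ℕ) : ℝ) + 1) = 2 * (n : ℝ) + 3 := by push_cast; ring
      rw [h0]
      have h1 : (2 * (n : ℝ) + 3) ≠ 0 := by positivity
      field_simp
    rw [e5]
    ring
  have e6 : (2 * (n : ℝ) + 2) * wn n = (∑ j ∈ Finset.range (n + 1), ac j * ac (n - j)) +
      ∑ j ∈ Finset.range (n + 1), (2 * ((n : ℝ) - j) + 1) * (ac j * ac (n - j)) / (2 * j + 1) := by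
    unfold wn
    rw [Finset.mul_sum, ← Finset.sum_add_distrib]
    refine Finset.sum_congr rfl fun j hj => ?_
    have h0 : (2 * (j : ℝ) + 1) ≠ 0 := by positivity
    field_simp
    ring
  rw [e1, e6, h9 (n + 1), h9 n]

/-- `∫_{-1}^1 (1-h²)^n dh` -/
noncomputable def kn (n : ℕ) : ℝ := ∫ h in (-1 : ℝ)..1, (1 - h ^ 2) ^ n

theorem kn_succ (n : ℕ) : (2 * (n : ℝ) + 3) * kn (n + 1) = (2 * n + 2) * kn n := by
  have hd : ∀ x ∈ uIcc (-1 : ℝ) 1, HasDerivAt (fun h : ℝ => h * (1 - h ^ 2) ^ (n + 1))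
      ((2 * (n : ℝ) + 3) * (1 - x ^ 2) ^ (n + 1) - (2 * n + 2) * (1 - x ^ 2) ^ n) x := by
    intro x _
    have h1 : HasDerivAt (fun h : ℝ => 1 - h ^ 2) (-(2 * x)) x := by
      simpa using ((hasDerivAt_id x).pow 2).const_sub 1
    have h2 := (hasDerivAt_id x).mul (h1.pow (n + 1))
    refine h2.congr_deriv ?_
    simp only [id, Nat.add_sub_cancel, Pi.pow_apply]
    push_cast
    ring
  have h := intervalIntegral.integral_eq_sub_of_hasDerivAt hd ((by fun_prop : Continuous fun x : ℝ =>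
    (2 * (n : ℝ) + 3) * (1 - x ^ 2) ^ (n + 1) - (2 * n + 2) * (1 - x ^ 2) ^ n).intervalIntegrable _ _)
  rw [intervalIntegral.integral_sub ((by fun_prop : Continuous fun x : ℝ =>
    (2 * (n : ℝ) + 3) * (1 - x ^ 2) ^ (n + 1)).intervalIntegrable _ _) ((by fun_prop : Continuous fun x : ℝ =>
    (2 * (n : ℝ) + 2) * (1 - x ^ 2) ^ n).intervalIntegrable _ _), intervalIntegral.integral_const_mul,
    intervalIntegral.integral_const_mul] at h
  have h0 : (1 : ℝ) * (1 - 1 ^ 2) ^ (n + 1) - (-1) * (1 - (-1) ^ 2) ^ (n + 1) = 0 := by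
    norm_num
  rw [h0] at h
  unfold kn
  linarith

theorem kn_wn (h9 : Y9a) (n : ℕ) : kn n = 2 * wn n := by
  induction n with
  | zero =>
    unfold kn wn ac
    norm_num [Nat.centralBinom_zero]
  | succ n ih =>
    have h1 := kn_succ n
    have h2 := wn_succ h9 n
    have h3 : (2 * (n : ℝ) + 3) ≠ 0 := by positivity
    refine mul_left_cancel₀ h3 ?_
    rw [h1, ih]
    linear_combination (-2) * h2

theorem za (h9 : Y9a) (n : ℕ) (ω Ω : ℝ) (hω : 0 < ω) (hΩ : 0 < Ω) (h1 : IsOm n ω) (h2 : IsOM n Ω) :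
    Ω = 2 * ω * wn n := by
  let f : ℝ → ℝ≥0∞ := (Iio (1 : ℝ)).indicator fun _ => 1
  have hf : Measurable f := measurable_const.indicator measurableSet_Iio
  have e1 := h2 f hf
  have e2 : (∫⁻ ρ in Ioi (0 : ℝ), f ρ * ENNReal.ofReal (Ω * ρ ^ (2 * n + 2))) = ENNReal.ofReal (Ω / (2 * n + 3)) := by
    have e3 : ∀ ρ : ℝ, f ρ * ENNReal.ofReal (Ω * ρ ^ (2 * n + 2)) =
        (Iio (1 : ℝ)).indicator (fun ρ => ENNReal.ofReal (Ω * ρ ^ (2 * n + 2))) ρ := by
      intro ρ
      by_cases h : ρ ∈ Iio (1 : ℝ)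
      · simp [f, h]
      · simp [f, h]
    simp only [e3]
    rw [lintegral_indicator measurableSet_Iio, Measure.restrict_restrict measurableSet_Iio]
    have e4 : Iio (1 : ℝ) ∩ Ioi 0 = Ioo 0 1 := by
      ext x
      simp [and_comm]
    rw [e4, ← ofReal_integral_eq_lintegral_ofReal]
    · congr 1
      rw [← integral_Ioc_eq_integral_Ioo, ← intervalIntegral.integral_of_le zero_le_one,
        intervalIntegral.integral_const_mul, integral_pow]
      push_cast
      simp
      ring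
    · refine (Continuous.integrableOn_Icc (by fun_prop)).mono_set Ioo_subset_Icc_self
    · exact (ae_restrict_iff' measurableSet_Ioo).2 (Filter.Eventually.of_forall fun x hx =>
        mul_nonneg hΩ.le (pow_nonneg hx.1.le _))
  have hG : Measurable (Function.uncurry fun h u : ℝ => f (Real.sqrt (h ^ 2 + u ^ 2))) := by
    unfold Function.uncurry
    refine hf.comp ?_
    fun_prop
  have e5 := h1 _ hG
  have e6 : (∫⁻ y : ED n, f ‖y‖) = ∫⁻ y : ED n, (fun h u : ℝ => f (Real.sqrt (h ^ 2 + u ^ 2))) (y 0)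
      (Real.sqrt (∑ i : Fin (2 * n + 2), y i.succ ^ 2)) := by
    refine lintegral_congr fun y => ?_
    have h1 : Real.sqrt (∑ i : Fin (2 * n + 2), y i.succ ^ 2) ^ 2 = ∑ i : Fin (2 * n + 2), y i.succ ^ 2 :=
      Real.sq_sqrt (Finset.sum_nonneg fun i _ => sq_nonneg _)
    have h2 : ‖y‖ = Real.sqrt (y 0 ^ 2 + ∑ i : Fin (2 * n + 2), y i.succ ^ 2) := by
      rw [EuclideanSpace.norm_eq, Fin.sum_univ_succ]
      simp
    simp only [h1]
    rw [h2]
  have e7 : ∀ h : ℝ, (∫⁻ u in Ioi (0 : ℝ), ENNReal.ofReal (ω * u ^ (2 * n + 1)) * f (Real.sqrt (h ^ 2 + u ^ 2))) =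
      (Ioo (-1 : ℝ) 1).indicator (fun h => ENNReal.ofReal (ω / (2 * n + 2) * (1 - h ^ 2) ^ (n + 1))) h := by
    intro h
    by_cases hh : h ∈ Ioo (-1 : ℝ) 1
    · have hpos : 0 < 1 - h ^ 2 := by nlinarith [hh.1, hh.2]
      set b := Real.sqrt (1 - h ^ 2) with hb
      have hb0 : 0 < b := Real.sqrt_pos.2 hpos
      have hb2 : b ^ 2 = 1 - h ^ 2 := Real.sq_sqrt hpos.le
      have e8 : ∀ u ∈ Ioi (0 : ℝ), ENNReal.ofReal (ω * u ^ (2 * n + 1)) * f (Real.sqrt (h ^ 2 + u ^ 2)) =
          (Iio b).indicator (fun u => ENNReal.ofReal (ω * u ^ (2 * n + 1))) u := by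
        intro u hu
        have hu0 : 0 < u := hu
        by_cases hub : u ∈ Iio b
        · have h3 : Real.sqrt (h ^ 2 + u ^ 2) < 1 := by
            rw [Real.sqrt_lt' one_pos]
            have : u ^ 2 < b ^ 2 := pow_lt_pow_left₀ hub hu0.le two_ne_zero
            nlinarith
          simp [f, hub, h3]
        · have h3 : ¬ Real.sqrt (h ^ 2 + u ^ 2) < 1 := by
            rw [not_lt]
            rw [Real.le_sqrt' one_pos]
            have h4 : b ≤ u := not_lt.1 hub
            have : b ^ 2 ≤ u ^ 2 := pow_le_pow_left₀ hb0.le h4 2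
            nlinarith
          simp [f, hub, h3]
      rw [setLIntegral_congr_fun measurableSet_Ioi e8, lintegral_indicator measurableSet_Iio,
        Measure.restrict_restrict measurableSet_Iio]
      have e4 : Iio b ∩ Ioi 0 = Ioo 0 b := by
        ext x
        simp [and_comm]
      rw [e4, ← ofReal_integral_eq_lintegral_ofReal]
      · rw [indicator_of_mem hh]
        congr 1
        rw [← integral_Ioc_eq_integral_Ioo, ← intervalIntegral.integral_of_le hb0.le,
          intervalIntegral.integral_const_mul, integral_pow]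
        have e9 : b ^ (2 * n + 1 + 1) = (1 - h ^ 2) ^ (n + 1) := by
          rw [← hb2, ← pow_mul]
          congr 1
        rw [e9]
        push_cast
        simp
        ring
      · refine (Continuous.integrableOn_Icc (by fun_prop)).mono_set Ioo_subset_Icc_self
      · exact (ae_restrict_iff' measurableSet_Ioo).2 (Filter.Eventually.of_forall fun x hx =>
          mul_nonneg hω.le (pow_nonneg hx.1.le _))
    · rw [indicator_of_notMem hh]
      have h3 : 1 ≤ h ^ 2 := by
        by_contra h4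
        rw [not_le] at h4
        exact hh (by
          have := abs_lt.1 ((sq_lt_one_iff_abs_lt_one h).1 h4)
          exact ⟨this.1, this.2⟩)
      have e8 : ∀ u ∈ Ioi (0 : ℝ), ENNReal.ofReal (ω * u ^ (2 * n + 1)) * f (Real.sqrt (h ^ 2 + u ^ 2)) = 0 := by
        intro u hu
        have h4 : ¬ Real.sqrt (h ^ 2 + u ^ 2) < 1 := by
          rw [not_lt, Real.le_sqrt' one_pos]
          nlinarith [sq_nonneg u]
        simp [f, h4]
      rw [setLIntegral_congr_fun measurableSet_Ioi e8]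
      simp
  have e10 : (∫⁻ y : ED n, f ‖y‖) = ENNReal.ofReal (ω / (2 * n + 2) * kn (n + 1)) := by
    rw [e6, e5]
    simp only [e7]
    rw [lintegral_indicator measurableSet_Ioo, ← ofReal_integral_eq_lintegral_ofReal]
    · congr 1
      rw [← integral_Ioc_eq_integral_Ioo, ← intervalIntegral.integral_of_le (by norm_num),
        intervalIntegral.integral_const_mul]
      rfl
    · refine (Continuous.integrableOn_Icc (by fun_prop)).mono_set Ioo_subset_Icc_self
    · exact (ae_restrict_iff' measurableSet_Ioo).2 (Filter.Eventually.of_forall fun x hx =>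
        mul_nonneg (by positivity) (pow_nonneg (by nlinarith [hx.1, hx.2]) _))
  have hk : kn (n + 1) = 2 * wn (n + 1) := kn_wn h9 (n + 1)
  have hkpos : 0 ≤ kn (n + 1) := by
    unfold kn
    refine intervalIntegral.integral_nonneg (by norm_num) fun x hx => ?_
    exact pow_nonneg (by nlinarith [hx.1, hx.2]) _
  rw [e2, e10] at e1
  have e11 := (ENNReal.ofReal_eq_ofReal_iff (by positivity) (by positivity)).1 e1
  have e12 := kn_succ n
  have e13 : kn n = 2 * wn n := kn_wn h9 n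
  have h3 : (2 * (n : ℝ) + 3) ≠ 0 := by positivity
  have h4 : (2 * (n : ℝ) + 2) ≠ 0 := by positivity
  field_simp at e11
  have e14 : (2 * (n : ℝ) + 2) * (2 * ω * wn n) = (2 * (n : ℝ) + 2) * Ω := by
    rw [e13] at e12
    linear_combination e11 - ω * e12
  exact (mul_left_cancel₀ h4 e14).symm

end Pool.J6H16.RZ
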