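import Pool.Agent.J6H16.RZ.ZA
import Pool.Agent.J6H16.RZ.Z7
import Pool.Agent.J6H16.RZ.Z8

/-! # Project RY: explicit constants (z4, z7 of helper14 and z8 of helper83 with the constants kept) -/

set_option autoImplicit false

open MeasureTheory Set Real
open scoped ENNReal

namespace Pool.J6H16.RZ

/-- `∫_{r²}^{R²} p(u) du / √((u-r²)(R²-u))` -/
noncomputable def JP (r R : ℝ) (p : Polynomial ℝ) : ℝ := ∫ ρ in Ioo r R, p.eval (ρ ^ 2) * (2 * ρ / w r R ρ)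

theorem z4x (hz2 : Z2) (hz3 : Z3) (n : ℕ) (ω : ℝ) (hω : 0 < ω) (h1 : IsOm n ω) (f : ℝ → ℝ≥0∞) (hf : Measurable f)
    (x : ED n) (hx : x ≠ 0) : (∫⁻ y : ED n, f ‖y‖ * kerD n x y) =
    ∫⁻ ρ in Ioi (0 : ℝ), f ρ * ENNReal.ofReal (ω * (ρ / ‖x‖ ^ (2 * n + 1) * Nn n ‖x‖ ρ)) := by
  have hX : 0 < ‖x‖ := norm_pos_iff.2 hx
  rw [hz2 n f hf x]
  have hG : Measurable (Function.uncurry fun h u : ℝ =>
      f (Real.sqrt (h ^ 2 + u ^ 2)) * (ENNReal.ofReal (((‖x‖ - h) ^ 2 + u ^ 2) ^ (n + 1)))⁻¹) := by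
    unfold Function.uncurry
    refine Measurable.mul (hf.comp ?_) ?_
    · fun_prop
    · fun_prop
  have e1 : (∫⁻ y : ED n, f ‖y‖ *
      (ENNReal.ofReal (((‖x‖ - y 0) ^ 2 + ∑ i : Fin (2 * n + 2), y i.succ ^ 2) ^ (n + 1)))⁻¹) =
      ∫⁻ y : ED n, (fun h u : ℝ => f (Real.sqrt (h ^ 2 + u ^ 2)) *
        (ENNReal.ofReal (((‖x‖ - h) ^ 2 + u ^ 2) ^ (n + 1)))⁻¹) (y 0)
          (Real.sqrt (∑ i : Fin (2 * n + 2), y i.succ ^ 2)) := by
    refine lintegral_congr fun y => ?_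
    have h1 : Real.sqrt (∑ i : Fin (2 * n + 2), y i.succ ^ 2) ^ 2 = ∑ i : Fin (2 * n + 2), y i.succ ^ 2 :=
      Real.sq_sqrt (Finset.sum_nonneg fun i _ => sq_nonneg _)
    have h2 : ‖y‖ = Real.sqrt (y 0 ^ 2 + ∑ i : Fin (2 * n + 2), y i.succ ^ 2) := by
      rw [EuclideanSpace.norm_eq, Fin.sum_univ_succ]
      simp
    simp only [h1]
    rw [h2]
  rw [e1, h1 _ hG]
  have e2 : ∀ h u : ℝ, u ∈ Ioi (0 : ℝ) → ENNReal.ofReal (ω * u ^ (2 * n + 1)) *
      (f (Real.sqrt (h ^ 2 + u ^ 2)) * (ENNReal.ofReal (((‖x‖ - h) ^ 2 + u ^ 2) ^ (n + 1)))⁻¹) =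
      ENNReal.ofReal ω * (ENNReal.ofReal (u ^ (2 * n + 1)) *
      (f (Real.sqrt (h ^ 2 + u ^ 2)) * (ENNReal.ofReal (((‖x‖ - h) ^ 2 + u ^ 2) ^ (n + 1)))⁻¹)) := by
    intro h u hu
    rw [ENNReal.ofReal_mul hω.le, mul_assoc]
  have e3 : (∫⁻ h : ℝ, ∫⁻ u in Ioi (0 : ℝ), ENNReal.ofReal (ω * u ^ (2 * n + 1)) *
      (f (Real.sqrt (h ^ 2 + u ^ 2)) * (ENNReal.ofReal (((‖x‖ - h) ^ 2 + u ^ 2) ^ (n + 1)))⁻¹)) =
      ENNReal.ofReal ω * ∫⁻ h : ℝ, ∫⁻ u in Ioi (0 : ℝ), ENNReal.ofReal (u ^ (2 * n + 1)) *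
      (f (Real.sqrt (h ^ 2 + u ^ 2)) * (ENNReal.ofReal (((‖x‖ - h) ^ 2 + u ^ 2) ^ (n + 1)))⁻¹) := by
    rw [← lintegral_const_mul' _ _ ENNReal.ofReal_ne_top]
    refine lintegral_congr fun h => ?_
    rw [← lintegral_const_mul' _ _ ENNReal.ofReal_ne_top]
    exact setLIntegral_congr_fun measurableSet_Ioi fun u hu => e2 h u hu
  rw [e3, hz3 n f hf ‖x‖ hX, ← lintegral_const_mul' _ _ ENNReal.ofReal_ne_top]
  refine lintegral_congr fun ρ => ?_
  rw [ENNReal.ofReal_mul hω.le]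
  ring

open Z7aux in
theorem z7x (hy13 : Y13) (hb1 : B1) (n : ℕ) (Ω : ℝ) (hΩ : 0 < Ω) (h5 : IsOM n Ω) (r R : ℝ) (p : Polynomial ℝ)
    (hr : 0 < r) (hR : r < R) (hc : Cond r R n p) : 0 < JP r R p ∧
    IsProbabilityMeasure (mD n r R p (2 / (Ω * JP r R p))) ∧
    mD n r R p (2 / (Ω * JP r R p)) {x | r ≤ ‖x‖ ∧ ‖x‖ ≤ R}ᶜ = 0 := by
  obtain ⟨i1, -, -, -⟩ := hb1 r R hr hR
  have hpos : ∀ ρ ∈ Ioo r R, 0 < p.eval (ρ ^ 2) := by
    intro ρ hρ
    refine hy13 r R n p hr hR hc (ρ ^ 2) ?_ ?_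
    · nlinarith [hρ.1, hρ.2]
    · nlinarith [hρ.1, hρ.2]
  have hI := int_p p i1
  have hfpos : ∀ ρ ∈ Ioo r R, 0 < p.eval (ρ ^ 2) * (2 * ρ / w r R ρ) := by
    intro ρ hρ
    have h1 := hpos ρ hρ
    have h2 := w_pos hr hρ.1 hρ.2
    have h3 : 0 < ρ := hr.trans hρ.1
    positivity
  have hJ : 0 < ∫ ρ in Ioo r R, p.eval (ρ ^ 2) * (2 * ρ / w r R ρ) := by
    rw [setIntegral_pos_iff_support_of_nonneg_ae _ hI]
    · have hs : Ioo r R ⊆ Function.support (fun ρ => p.eval (ρ ^ 2) * (2 * ρ / w r R ρ)) ∩ Ioo r R :=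
        fun ρ hρ => ⟨(hfpos ρ hρ).ne', hρ⟩
      refine lt_of_lt_of_le ?_ (measure_mono hs)
      rw [Real.volume_Ioo, ENNReal.ofReal_pos]
      linarith
    · exact (ae_restrict_iff' measurableSet_Ioo).mpr
        (Filter.Eventually.of_forall fun ρ hρ => (hfpos ρ hρ).le)
  unfold JP
  set J := ∫ ρ in Ioo r R, p.eval (ρ ^ 2) * (2 * ρ / w r R ρ) with hJd
  refine ⟨hJ, ?_, ?_⟩
  · have hm : Measurable (fun ρ => ENNReal.ofReal (gD n r R p (2 / (Ω * J)) ρ)) :=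
      (meas_gD n r R p _).ennreal_ofReal
    constructor
    unfold mD
    rw [withDensity_apply _ MeasurableSet.univ, Measure.restrict_univ, h5 _ hm]
    have key : ∀ ρ ∈ Ioo r R, gD n r R p (2 / (Ω * J)) ρ * (Ω * ρ ^ (2 * n + 2)) =
        J⁻¹ * (p.eval (ρ ^ 2) * (2 * ρ / w r R ρ)) := by
      intro ρ hρ
      rw [gD_in hρ.1 hρ.2]
      have hw := w_pos hr hρ.1 hρ.2
      have hρ0 : 0 < ρ := hr.trans hρ.1
      rw [show ρ ^ (2 * n + 2) = ρ ^ (2 * n + 1) * ρ by ring]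
      field_simp
    have hI2 : IntegrableOn (fun ρ => J⁻¹ * (p.eval (ρ ^ 2) * (2 * ρ / w r R ρ))) (Ioo r R) :=
      hI.const_mul _
    have e3 : ∫⁻ ρ in Ioi (0 : ℝ), ENNReal.ofReal (gD n r R p (2 / (Ω * J)) ρ) *
        ENNReal.ofReal (Ω * ρ ^ (2 * n + 2)) =
        ∫⁻ ρ in Ioo r R, ENNReal.ofReal (J⁻¹ * (p.eval (ρ ^ 2) * (2 * ρ / w r R ρ))) := by
      have hsub : Ioo r R ⊆ Ioi (0 : ℝ) := fun x hx => hr.trans hx.1
      rw [← lintegral_indicator measurableSet_Ioi, ← lintegral_indicator measurableSet_Ioo]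
      apply lintegral_congr
      intro ρ
      by_cases hρ : ρ ∈ Ioo r R
      · have hρ0 : 0 < ρ := hr.trans hρ.1
        rw [indicator_of_mem (hsub hρ), indicator_of_mem hρ, ← key ρ hρ,
          ENNReal.ofReal_mul' (p := gD n r R p (2 / (Ω * J)) ρ) (q := Ω * ρ ^ (2 * n + 2))
            (by positivity)]
      · rw [indicator_of_notMem hρ]
        by_cases h0 : ρ ∈ Ioi (0 : ℝ)
        · rw [indicator_of_mem h0, gD_out hρ]
          simp
        · rw [indicator_of_notMem h0]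
    rw [e3, ← ofReal_integral_eq_lintegral_ofReal hI2]
    · rw [integral_const_mul, ← hJd, inv_mul_cancel₀ hJ.ne', ENNReal.ofReal_one]
    · refine (ae_restrict_iff' measurableSet_Ioo).mpr (Filter.Eventually.of_forall fun ρ hρ => ?_)
      have h1 := hfpos ρ hρ
      exact mul_nonneg (inv_nonneg.2 hJ.le) h1.le
  · have hms : MeasurableSet ({x : ED n | r ≤ ‖x‖ ∧ ‖x‖ ≤ R}ᶜ) := by
      apply MeasurableSet.compl
      exact (measurableSet_le measurable_const measurable_norm).inter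
        (measurableSet_le measurable_norm measurable_const)
    unfold mD
    rw [withDensity_apply _ hms]
    rw [setLIntegral_congr_fun hms (g := fun _ => 0)]
    · simp
    · intro x hx
      show ENNReal.ofReal (gD n r R p (2 / (Ω * J)) ‖x‖) = 0
      rw [gD_out, ENNReal.ofReal_zero]
      intro h
      exact hx ⟨h.1.le, h.2.le⟩

open Z8aux in
theorem z8x (hz2 : Z2) (hz3 : Z3) (hy10 : Y10) (hy13 : Y13) (n : ℕ) (ω : ℝ) (hω : 0 < ω) (hom : IsOm n ω)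
    (r R : ℝ) (p : Polynomial ℝ) (C : ℝ) (hr : 0 < r) (hrR : r < R) (hC : 0 < C) (hcond : Cond r R n p)
    (x : ED n) (hx1 : r ≤ ‖x‖) (hx2 : ‖x‖ ≤ R) :
    (∫⁻ y, kerD n x y ∂(mD n r R p C)) = ENNReal.ofReal (ω * C * (π * wn n)) := by
  have h4 := z4x hz2 hz3 n ω hω hom
  have hpi := Real.pi_pos
  have hwn := wn_pos n
  obtain ⟨X, hXdef⟩ : ∃ X, X = ‖x‖ := ⟨_, rfl⟩
  rw [← hXdef] at hx1 hx2
  have hX : 0 < X := by linarith
  have hx0 : x ≠ 0 := by
    intro h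
    rw [h, norm_zero] at hXdef
    linarith
  have hwm : Measurable (w r R) := by unfold w; fun_prop
  have hpm : Measurable (fun ρ : ℝ => p.eval (ρ ^ 2)) :=
    p.continuous.measurable.comp (measurable_id.pow_const 2)
  have hdm : Measurable (gD n r R p C) := by
    unfold gD
    refine Measurable.ite (measurableSet_Ioo (a := r) (b := R)) ?_ measurable_const
    exact (hpm.const_mul C).div ((measurable_id.pow_const (2 * n + 1)).mul hwm)
  have hkm : Measurable (kerD n x) := by unfold kerD; fun_prop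
  have hfm : Measurable (fun ρ : ℝ => ENNReal.ofReal (gD n r R p C ρ)) := hdm.ennreal_ofReal
  have hfm' : Measurable (fun y : ED n => ENNReal.ofReal (gD n r R p C ‖y‖)) :=
    hfm.comp measurable_norm
  have e1 : (∫⁻ y, kerD n x y ∂(mD n r R p C)) =
      ∫⁻ y : ED n, ENNReal.ofReal (gD n r R p C ‖y‖) * kerD n x y := by
    unfold mD
    rw [lintegral_withDensity_eq_lintegral_mul _ hfm' hkm]
    rfl
  rw [e1, h4 (fun ρ => ENNReal.ofReal (gD n r R p C ρ)) hfm x hx0, ← hXdef]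
  obtain ⟨hi, hI⟩ := hy10 r R n p hr hrR hcond X hx1 hx2
  obtain ⟨K, hK⟩ : ∃ K : ℝ, K = ω * C / X ^ (2 * n + 1) := ⟨_, rfl⟩
  have hK0 : 0 ≤ K := by rw [hK]; positivity
  have hw : ∀ ρ ∈ Ioo r R, 0 < w r R ρ := by
    intro ρ hρ
    have h9 := hρ.1
    have h10 := hρ.2
    have hρ0 : 0 < ρ := by linarith
    unfold w
    refine Real.sqrt_pos.2 (mul_pos ?_ ?_) <;> nlinarith
  have hp : ∀ ρ ∈ Ioo r R, 0 < p.eval (ρ ^ 2) := by
    intro ρ hρ
    have h9 := hρ.1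
    have h10 := hρ.2
    have hρ0 : 0 < ρ := by linarith
    exact hy13 r R n p hr hrR hcond (ρ ^ 2) (by nlinarith) (by nlinarith)
  have hind : ∀ ρ : ℝ, ENNReal.ofReal (gD n r R p C ρ) *
      ENNReal.ofReal (ω * (ρ / X ^ (2 * n + 1) * Nn n X ρ)) =
      (Ioo r R).indicator (fun ρ => ENNReal.ofReal
        (K * (p.eval (ρ ^ 2) / (ρ ^ (2 * n) * w r R ρ) * Nn n X ρ))) ρ := by
    intro ρ
    by_cases hρ : ρ ∈ Ioo r R
    · rw [indicator_of_mem hρ]
      have hρ0 : 0 < ρ := lt_trans hr hρ.1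
      have hw' := hw ρ hρ
      have hp' := hp ρ hρ
      have hg : gD n r R p C ρ = C * p.eval (ρ ^ 2) / (ρ ^ (2 * n + 1) * w r R ρ) := by
        unfold gD
        rw [if_pos ⟨hρ.1, hρ.2⟩]
      have hg0 : 0 ≤ gD n r R p C ρ := by
        rw [hg]
        positivity
      rw [← ENNReal.ofReal_mul hg0, hg, hK]
      congr 1
      have hpow : ρ ^ (2 * n + 1) = ρ ^ (2 * n) * ρ := pow_succ _ _
      rw [hpow]
      have h1 : ρ ^ (2 * n) ≠ 0 := by positivity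
      have h2 : X ^ (2 * n + 1) ≠ 0 := by positivity
      generalize ρ ^ (2 * n) = A at *
      generalize X ^ (2 * n + 1) = B at *
      field_simp
    · rw [indicator_of_notMem hρ]
      have hg : gD n r R p C ρ = 0 := by
        unfold gD
        exact if_neg hρ
      rw [hg, ENNReal.ofReal_zero, zero_mul]
  simp only [hind]
  have hsub : Ioo r R ⊆ Ioi (0 : ℝ) := fun ρ hρ => lt_trans hr hρ.1
  rw [setLIntegral_indicator measurableSet_Ioo, inter_eq_left.2 hsub,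
    ← ofReal_integral_eq_lintegral_ofReal (hi.const_mul K)]
  · rw [integral_const_mul, hI, hK]
    congr 1
    have h2 : X ^ (2 * n + 1) ≠ 0 := by positivity
    generalize X ^ (2 * n + 1) = B at *
    field_simp
  · refine (ae_restrict_iff' measurableSet_Ioo).2 (ae_of_all _ fun ρ hρ => ?_)
    have hρ0 : 0 < ρ := lt_trans hr hρ.1
    have h1 := hw ρ hρ
    have h2 := hp ρ hρ
    show 0 ≤ K * (p.eval (ρ ^ 2) / (ρ ^ (2 * n) * w r R ρ) * Nn n X ρ)
    have h3 := Nn_nonneg n X ρ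
    positivity


/-- the constant Ω is the area of the unit sphere -/
theorem om_ball (n : ℕ) (Ω : ℝ) (hΩ : 0 < Ω) (h2 : IsOM n Ω) :
    Ω = (2 * n + 3) * (volume (Metric.ball (0 : ED n) 1)).toReal := by
  let f : ℝ → ℝ≥0∞ := (Iio (1 : ℝ)).indicator fun _ => 1
  have hf : Measurable f := measurable_const.indicator measurableSet_Iio
  have e1 := h2 f hf
  have e2 : (∫⁻ ρ in Ioi (0 : ℝ), f ρ * ENNReal.ofReal (Ω * ρ ^ (2 * n + 2))) = ENNReal.ofReal (Ω / (2 * n + 3)) := by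
    have e3 : ∀ ρ : ℝ, f ρ * ENNReal.ofReal (Ω * ρ ^ (2 * n + 2)) =
        (Iio (1 : ℝ)).indicator (fun ρ => ENNReal.ofReal (Ω * ρ ^ (2 * n + 2))) ρ := by
      intro ρ
      by_cases h : ρ ∈ Iio (1 : ℝ)
      · simp [f, h]
      · simp [f, h]
    simp only [e3]
    rw [lintegral_indicator measurableSet_Iio, Measure.restrict_restrict measurableSet_Iio]
    have e4 : Iio (1 : ℝ) ∩ Ioi 0 = Ioo 0 1 := by
      ext x
      simp [and_comm]
    rw [e4, ← ofReal_integral_eq_lintegral_ofReal]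
    · congr 1
      rw [← integral_Ioc_eq_integral_Ioo, ← intervalIntegral.integral_of_le zero_le_one,
        intervalIntegral.integral_const_mul, integral_pow]
      push_cast
      simp
      ring
    · refine (Continuous.integrableOn_Icc (by fun_prop)).mono_set Ioo_subset_Icc_self
    · exact (ae_restrict_iff' measurableSet_Ioo).2 (Filter.Eventually.of_forall fun x hx =>
        mul_nonneg hΩ.le (pow_nonneg hx.1.le _))
  have e5 : (∫⁻ y : ED n, f ‖y‖) = volume (Metric.ball (0 : ED n) 1) := by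
    have e6 : ∀ y : ED n, f ‖y‖ = (Metric.ball (0 : ED n) 1).indicator (fun _ => (1 : ℝ≥0∞)) y := by
      intro y
      by_cases h : ‖y‖ < 1
      · rw [indicator_of_mem (by simpa using h)]
        simp [f, h]
      · rw [indicator_of_notMem (by simpa using h)]
        simp [f, h]
    simp only [e6]
    rw [lintegral_indicator Metric.isOpen_ball.measurableSet]
    simp
  rw [e5, e2] at e1
  rw [e1, ENNReal.toReal_ofReal (by positivity)]
  have h3 : (2 * (n : ℝ) + 3) ≠ 0 := by positivity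
  field_simp

end Pool.J6H16.RZ
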